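import Pool.Agent.Helper97.PAS.Base

/-!
# Arithmetic in models of PA
-/

set_option autoImplicit false

namespace H97.PAS

open Function

section
variable {M : Type} {A : AStr M}

/-! ### Induction -/

/-- existential quantifier -/
def exF (i : ℕ) (φ : AFml) : AFml := .imp (.all i (.imp φ .bot)) .bot
/-- disjunction -/
def orF (φ ψ : AFml) : AFml := .imp (.imp φ .bot) ψ
/-- conjunction -/
def andF (φ ψ : AFml) : AFml := .imp (.imp φ (.imp ψ .bot)) .bot
/-- equation -/
def eqF (s t : Tm) : AFml := .atom (s, t)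

@[simp] lemma satA_ex (i : ℕ) (φ : AFml) (v : ℕ → M) :
    satA A (exF i φ) v ↔ ∃ x, satA A φ (update v i x) := by
  simp only [satA, exF, Fml.Sat]
  constructor
  · intro h
    by_contra hcon
    push Not at hcon
    exact h hcon
  · rintro ⟨x, hx⟩ h
    exact h x hx

@[simp] lemma satA_or (φ ψ : AFml) (v : ℕ → M) :
    satA A (orF φ ψ) v ↔ satA A φ v ∨ satA A ψ v := by
  simp only [satA, orF, Fml.Sat]
  tauto

@[simp] lemma satA_and (φ ψ : AFml) (v : ℕ → M) :
    satA A (andF φ ψ) v ↔ satA A φ v ∧ satA A ψ v := by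
  simp only [satA, andF, Fml.Sat]
  tauto

@[simp] lemma satA_imp (φ ψ : AFml) (v : ℕ → M) :
    satA A (.imp φ ψ) v ↔ (satA A φ v → satA A ψ v) := Iff.rfl

@[simp] lemma satA_eq (s t : Tm) (v : ℕ → M) :
    satA A (eqF s t) v ↔ s.val A v = t.val A v := Iff.rfl

/-- parameters -/
def par (a b c : M) : ℕ → M := fun i => if i = 1 then a else if i = 2 then b else c

/-- induction for definable predicates -/
theorem IsPA.induct (h : IsPA A) (φ : AFml) (a b c : M) (P : M → Prop)
    (hP : ∀ x, satA A φ (update (par a b c) 0 x) ↔ P x) (h0 : P A.zero)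
    (hs : ∀ x, P x → P (A.succ x)) : ∀ x, P x := by
  intro x
  rw [← hP]
  apply h.ind φ 0 (par a b c)
  · rw [hP]; exact h0
  · intro x hx
    rw [hP] at hx ⊢
    exact hs x hx

/-- variables -/
abbrev x0 : Tm := .var 0
abbrev x1 : Tm := .var 1
abbrev x2 : Tm := .var 2
abbrev x3 : Tm := .var 3

theorem IsPA.zero_or_succ (h : IsPA A) (x : M) : x = A.zero ∨ ∃ y, x = A.succ y := by
  revert x
  apply h.induct (orF (eqF x0 .zero) (exF 1 (eqF x0 (.succ x1)))) A.zero A.zero A.zero
  · intro x
    simp [Tm.val]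
  · left; rfl
  · intro x _
    right; exact ⟨x, rfl⟩

theorem IsPA.zero_add (h : IsPA A) (x : M) : A.add A.zero x = x := by
  revert x
  apply h.induct (eqF (.add .zero x0) x0) A.zero A.zero A.zero
  · intro x; simp [Tm.val]
  · exact h.add_zero _
  · intro x hx
    rw [h.add_succ, hx]

theorem IsPA.succ_add (h : IsPA A) (a x : M) : A.add (A.succ a) x = A.succ (A.add a x) := by
  revert x
  apply h.induct (eqF (.add (.succ x1) x0) (.succ (.add x1 x0))) a A.zero A.zero
  · intro x; simp [Tm.val, par]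
  · rw [h.add_zero, h.add_zero]
  · intro x hx
    rw [h.add_succ, hx, h.add_succ]

theorem IsPA.add_comm (h : IsPA A) (a x : M) : A.add a x = A.add x a := by
  revert x
  apply h.induct (eqF (.add x1 x0) (.add x0 x1)) a A.zero A.zero
  · intro x; simp [Tm.val, par]
  · rw [h.add_zero, h.zero_add]
  · intro x hx
    rw [h.add_succ, hx, h.succ_add]

theorem IsPA.add_assoc (h : IsPA A) (a b x : M) :
    A.add (A.add a b) x = A.add a (A.add b x) := by
  revert x
  apply h.induct (eqF (.add (.add x1 x2) x0) (.add x1 (.add x2 x0))) a b A.zero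
  · intro x; simp [Tm.val, par]
  · rw [h.add_zero, h.add_zero]
  · intro x hx
    rw [h.add_succ, hx, h.add_succ, h.add_succ]

theorem IsPA.zero_mul (h : IsPA A) (x : M) : A.mul A.zero x = A.zero := by
  revert x
  apply h.induct (eqF (.mul .zero x0) .zero) A.zero A.zero A.zero
  · intro x; simp [Tm.val]
  · exact h.mul_zero _
  · intro x hx
    rw [h.mul_succ, hx, h.add_zero]

theorem IsPA.succ_mul (h : IsPA A) (a x : M) :
    A.mul (A.succ a) x = A.add (A.mul a x) x := by
  revert x
  apply h.induct (eqF (.mul (.succ x1) x0) (.add (.mul x1 x0) x0)) a A.zero A.zero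
  · intro x; simp [Tm.val, par]
  · rw [h.mul_zero, h.mul_zero, h.add_zero]
  · intro x hx
    rw [h.mul_succ, hx, h.mul_succ, h.add_succ, h.add_succ, h.add_assoc, h.add_assoc,
      h.add_comm x a]

theorem IsPA.mul_comm (h : IsPA A) (a x : M) : A.mul a x = A.mul x a := by
  revert x
  apply h.induct (eqF (.mul x1 x0) (.mul x0 x1)) a A.zero A.zero
  · intro x; simp [Tm.val, par]
  · rw [h.mul_zero, h.zero_mul]
  · intro x hx
    rw [h.mul_succ, hx, h.succ_mul]

theorem IsPA.mul_add (h : IsPA A) (a b x : M) :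
    A.mul a (A.add b x) = A.add (A.mul a b) (A.mul a x) := by
  revert x
  apply h.induct (eqF (.mul x1 (.add x2 x0)) (.add (.mul x1 x2) (.mul x1 x0))) a b A.zero
  · intro x; simp [Tm.val, par]
  · rw [h.add_zero, h.mul_zero, h.add_zero]
  · intro x hx
    rw [h.add_succ, h.mul_succ, hx, h.mul_succ, h.add_assoc]

theorem IsPA.mul_assoc (h : IsPA A) (a b x : M) :
    A.mul (A.mul a b) x = A.mul a (A.mul b x) := by
  revert x
  apply h.induct (eqF (.mul (.mul x1 x2) x0) (.mul x1 (.mul x2 x0))) a b A.zero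
  · intro x; simp [Tm.val, par]
  · rw [h.mul_zero, h.mul_zero, h.mul_zero]
  · intro x hx
    rw [h.mul_succ, hx, h.mul_succ, h.mul_add]

theorem IsPA.add_right_cancel (h : IsPA A) {a b x : M} (hab : A.add a x = A.add b x) : a = b := by
  revert x
  have : ∀ x, A.add a x = A.add b x → a = b := by
    apply h.induct (.imp (eqF (.add x1 x0) (.add x2 x0)) (eqF x1 x2)) a b A.zero
    · intro x; simp [Tm.val, par]
    · intro h1
      rwa [h.add_zero, h.add_zero] at h1
    · intro x hx h1
      rw [h.add_succ, h.add_succ] at h1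
      exact hx (h.succ_inj _ _ h1)
  intro x
  exact this x

theorem IsPA.add_eq_zero (h : IsPA A) {a b : M} (hab : A.add a b = A.zero) :
    a = A.zero ∧ b = A.zero := by
  rcases h.zero_or_succ b with hb | ⟨b', hb⟩
  · rw [hb, h.add_zero] at hab
    exact ⟨hab, hb⟩
  · rw [hb, h.add_succ] at hab
    exact absurd hab (h.succ_ne_zero _)

theorem IsPA.le_total (h : IsPA A) (a x : M) : A.le a x ∨ A.le x a := by
  revert x
  apply h.induct (orF (exF 2 (eqF (.add x2 x1) x0)) (exF 2 (eqF (.add x2 x0) x1)))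
    a A.zero A.zero
  · intro x
    simp [Tm.val, par, AStr.le]
  · right
    exact ⟨a, h.add_zero a⟩
  · rintro x (⟨z, hz⟩ | ⟨z, hz⟩)
    · left
      exact ⟨A.succ z, by rw [h.succ_add, hz]⟩
    · rcases h.zero_or_succ z with h0 | ⟨z', h0⟩
      · left
        refine ⟨A.succ A.zero, ?_⟩
        rw [h0, h.zero_add] at hz
        rw [h.succ_add, h.zero_add, hz]
      · right
        refine ⟨z', ?_⟩
        rw [← hz, h0, h.succ_add, h.add_succ]

/-- 0 := A.zero, 1 := A.succ A.zero, + := A.add, * := A.mul (definitionally) -/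
@[implicit_reducible]
noncomputable def IsPA.commSemiring (h : IsPA A) : CommSemiring M where
  add := A.add
  zero := A.zero
  mul := A.mul
  one := A.succ A.zero
  add_assoc := h.add_assoc
  zero_add := h.zero_add
  add_zero := h.add_zero
  add_comm := h.add_comm
  nsmul := @nsmulRec M ⟨A.zero⟩ ⟨A.add⟩
  left_distrib := h.mul_add
  right_distrib := fun a b c => by
    change A.mul (A.add a b) c = A.add (A.mul a c) (A.mul b c)
    rw [h.mul_comm, h.mul_add, h.mul_comm c a, h.mul_comm c b]
  zero_mul := h.zero_mul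
  mul_zero := h.mul_zero
  mul_assoc := h.mul_assoc
  one_mul := fun a => by
    change A.mul (A.succ A.zero) a = a
    rw [h.succ_mul, h.zero_mul, h.zero_add]
  mul_one := fun a => by
    change A.mul a (A.succ A.zero) = a
    rw [h.mul_succ, h.mul_zero, h.zero_add]
  mul_comm := h.mul_comm

/-- x ≤ y := A.le x y (definitionally) -/
@[implicit_reducible]
noncomputable def IsPA.linearOrder (h : IsPA A) : LinearOrder M where
  le := A.le
  le_refl := fun a => ⟨A.zero, h.zero_add a⟩
  le_trans := by
    rintro a b c ⟨z, rfl⟩ ⟨w, rfl⟩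
    exact ⟨A.add w z, h.add_assoc _ _ _⟩
  le_antisymm := by
    rintro a b ⟨z, hz⟩ ⟨w, hw⟩
    have h1 : A.add (A.add w z) a = A.add A.zero a := by
      rw [h.add_assoc, hz, hw, h.zero_add]
    have h2 := (h.add_eq_zero (h.add_right_cancel h1)).2
    rw [h2, h.zero_add] at hz
    exact hz
  le_total := h.le_total
  toDecidableLE := Classical.decRel _

theorem IsPA.isStrictOrderedRing (h : IsPA A) :
    @IsStrictOrderedRing M h.commSemiring.toSemiring h.linearOrder.toPartialOrder := by
  let := h.commSemiring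
  let := h.linearOrder
  have hle : ∀ a b : M, a ≤ b ↔ ∃ z, z + a = b := fun a b => Iff.rfl
  have hcan : ∀ a b c : M, a + c = b + c → a = b := fun a b c hab => h.add_right_cancel hab
  have hz : ∀ a b : M, a + b = 0 → a = 0 ∧ b = 0 := fun a b hab => h.add_eq_zero hab
  have hlt : ∀ a b : M, a < b ↔ ∃ z, z ≠ 0 ∧ z + a = b := by
    intro a b
    rw [lt_iff_le_and_ne, hle]
    constructor
    · rintro ⟨⟨z, hz⟩, hne⟩
      refine ⟨z, ?_, hz⟩
      rintro rfl
      rw [_root_.zero_add] at hz
      exact hne hz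
    · rintro ⟨z, hz0, hz⟩
      refine ⟨⟨z, hz⟩, ?_⟩
      rintro rfl
      apply hz0
      apply hcan z 0 a
      rw [hz, _root_.zero_add]
  have hmul : ∀ a b : M, a ≠ 0 → b ≠ 0 → a * b ≠ 0 := by
    intro a b ha hb hab
    rcases h.zero_or_succ b with hb' | ⟨b', hb'⟩
    · exact hb hb'
    · have h1 : A.mul a b = A.add (A.mul a b') a := by rw [hb', h.mul_succ]
      exact ha (hz (a * b') a (h1.symm.trans hab)).2
  have hlm : ∀ a b c : M, a < b → 0 < c → a * c < b * c := by
    intro a b c hab hc
    rw [hlt] at hab hc ⊢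
    obtain ⟨z, hz0, rfl⟩ := hab
    obtain ⟨w, hw0, rfl⟩ := hc
    rw [_root_.add_zero]
    exact ⟨z * w, hmul z w hz0 hw0, by rw [_root_.add_mul]⟩
  refine
    { add_le_add_left := ?_
      le_of_add_le_add_left := ?_
      zero_le_one := ⟨1, _root_.add_zero 1⟩
      exists_pair_ne := ⟨0, 1, (h.succ_ne_zero A.zero).symm⟩
      mul_lt_mul_of_pos_left := ?_
      mul_lt_mul_of_pos_right := ?_ }
  · rintro a b ⟨z, hz⟩ c
    refine ⟨z, ?_⟩
    change z + (a + c) = b + c
    have hz' : z + a = b := hz
    rw [← hz', _root_.add_assoc]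
  · rintro a b c ⟨z, hz⟩
    refine ⟨z, ?_⟩
    change z + b = c
    have hz' : z + (a + b) = a + c := hz
    apply hcan _ _ a
    rw [_root_.add_comm c a, ← hz']
    ring
  · intro a ha b c hbc
    rw [_root_.mul_comm a b, _root_.mul_comm a c]
    exact hlm b c a hbc ha
  · intro a ha b c hbc
    exact hlm b c a hbc ha

/-! ### Numerals -/

theorem num_succ (n : ℕ) : num A (n + 1) = A.succ (num A n) := by
  rw [num, num, Function.iterate_succ_apply']

theorem num_injective (h : IsPA A) : Injective (num A) := by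
  intro n
  induction n with
  | zero =>
    intro m hm
    cases m with
    | zero => rfl
    | succ m =>
      rw [num_succ] at hm
      exact absurd hm.symm (h.succ_ne_zero _)
  | succ n ih =>
    intro m hm
    cases m with
    | zero =>
      rw [num_succ] at hm
      exact absurd hm (h.succ_ne_zero _)
    | succ m =>
      rw [num_succ, num_succ] at hm
      rw [ih (h.succ_inj _ _ hm)]

theorem le_num (h : IsPA A) {x : M} {n : ℕ} (hx : A.le x (num A n)) :
    ∃ k ≤ n, x = num A k := by
  induction n generalizing x with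
  | zero =>
    obtain ⟨z, hz⟩ := hx
    exact ⟨0, le_rfl, (h.add_eq_zero hz).2⟩
  | succ n ih =>
    obtain ⟨z, hz⟩ := hx
    rcases h.zero_or_succ x with hx | ⟨y, hx⟩
    · exact ⟨0, Nat.zero_le _, hx⟩
    · rw [hx, h.add_succ, num_succ] at hz
      obtain ⟨k, hk, hk'⟩ := ih ⟨z, h.succ_inj _ _ hz⟩
      exact ⟨k + 1, by omega, by rw [hx, hk', num_succ]⟩

/-! ### The pairing function -/

/-- bounds of the square shell -/
theorem exists_shell (h : IsPA A) (z : M) : ∃ k, A.le (A.mul k k) z ∧
    A.le z (A.add (A.add (A.mul k k) k) k) := by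
  let := h.commSemiring
  let := h.linearOrder
  have := h.isStrictOrderedRing
  revert z
  apply h.induct (exF 1 (andF (exF 2 (eqF (.add x2 (.mul x1 x1)) x0))
    (exF 2 (eqF (.add x2 x0) (.add (.add (.mul x1 x1) x1) x1))))) A.zero A.zero A.zero
  · intro x
    simp [Tm.val, AStr.le]
  · refine ⟨(0 : M), ?_, ?_⟩
    · change (0 : M) * 0 ≤ 0
      simp
    · change (0 : M) ≤ 0 * 0 + 0 + 0
      simp
  · rintro z ⟨k, hk1, hk2⟩
    have hs : A.succ z = z + 1 := by
      change _ = A.add z (A.succ A.zero)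
      rw [h.add_succ, h.add_zero]
    rw [hs]
    change k * k ≤ z at hk1
    change z ≤ k * k + k + k at hk2
    rcases hk2.lt_or_eq with hk3 | hk3
    · refine ⟨k, ?_, ?_⟩
      · change k * k ≤ z + 1
        exact hk1.trans (le_add_of_nonneg_right zero_le_one)
      · obtain ⟨w, hw⟩ := hk3.le
        change w + z = k * k + k + k at hw
        rcases h.zero_or_succ w with hw0 | ⟨w', hw0⟩
        · exfalso
          have : w = 0 := hw0
          rw [this, _root_.zero_add] at hw
          exact hk3.ne hw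
        · refine ⟨w', ?_⟩
          change w' + (z + 1) = k * k + k + k
          rw [← hw]
          have : w = w' + 1 := by
            rw [hw0]
            change _ = A.add w' (A.succ A.zero)
            rw [h.add_succ, h.add_zero]
          rw [this]
          ring
    · refine ⟨k + 1, ?_, ?_⟩
      · change (k + 1) * (k + 1) ≤ z + 1
        rw [hk3]
        apply le_of_eq
        ring
      · refine ⟨k + 1 + (k + 1), ?_⟩
        change k + 1 + (k + 1) + (z + 1) = (k + 1) * (k + 1) + (k + 1) + (k + 1)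
        rw [hk3]
        ring

/-- everything about `succ` in terms of the ordered semiring -/
theorem succ_eq (h : IsPA A) (x : M) : A.succ x = A.add x (A.succ A.zero) := by
  rw [h.add_succ, h.add_zero]

theorem IsPA.lt_iff (h : IsPA A) (x y : M) :
    h.linearOrder.toPreorder.toLT.lt x y ↔ A.le (A.succ x) y := by
  let := h.commSemiring
  let := h.linearOrder
  have := h.isStrictOrderedRing
  change x < y ↔ _
  constructor
  · intro hxy
    obtain ⟨w, hw⟩ := hxy.le
    change w + x = y at hw
    rcases h.zero_or_succ w with hw0 | ⟨w', hw0⟩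
    · exfalso
      have : w = 0 := hw0
      rw [this, _root_.zero_add] at hw
      exact hxy.ne hw
    · refine ⟨w', ?_⟩
      rw [h.add_succ, ← h.succ_add, ← hw0]
      exact hw
  · rintro ⟨w, hw⟩
    rw [succ_eq h x] at hw
    change w + (x + 1) = y at hw
    rw [← hw]
    have h1 : (0 : M) ≤ w := ⟨w, _root_.add_zero w⟩
    calc x < x + 1 := lt_add_one x
      _ ≤ w + (x + 1) := le_add_of_nonneg_left h1

/-- general facts about the ordered semiring -/
theorem IsPA.nonneg (h : IsPA A) (x : M) : A.le A.zero x := ⟨x, h.add_zero x⟩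

theorem IsPA.succ_le_iff (h : IsPA A) (x y : M) : A.le (A.succ x) (A.succ y) ↔ A.le x y := by
  constructor
  · rintro ⟨z, hz⟩
    rw [h.add_succ] at hz
    exact ⟨z, h.succ_inj _ _ hz⟩
  · rintro ⟨z, hz⟩
    exact ⟨z, by rw [h.add_succ, hz]⟩

theorem IsPA.lt_succ_iff (h : IsPA A) (x y : M) :
    h.linearOrder.toPreorder.toLT.lt x (A.succ y) ↔ A.le x y := by
  rw [h.lt_iff, h.succ_le_iff]

/-! #### Injectivity of the pairing function -/

theorem pr_bounds (h : IsPA A) (x y : M) : ∃ m, A.le (A.mul m m) (A.pr x y) ∧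
    A.le (A.pr x y) (A.add (A.add (A.mul m m) m) m) ∧
    ((A.le y x ∧ m = x) ∨ (¬ A.le y x ∧ m = y)) := by
  let := h.commSemiring
  let := h.linearOrder
  have := h.isStrictOrderedRing
  have h0 : ∀ a : M, 0 ≤ a := h.nonneg
  by_cases hxy : A.le y x
  · refine ⟨x, ?_, ?_, Or.inl ⟨hxy, rfl⟩⟩
    · rw [AStr.pr, if_pos hxy]
      change x * x ≤ x * x + x + y
      rw [_root_.add_assoc]
      exact le_add_of_nonneg_right (add_nonneg (h0 _) (h0 _))
    · rw [AStr.pr, if_pos hxy]
      change x * x + x + y ≤ x * x + x + x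
      have : y ≤ x := hxy
      gcongr
  · refine ⟨y, ?_, ?_, Or.inr ⟨hxy, rfl⟩⟩
    · rw [AStr.pr, if_neg hxy]
      change y * y ≤ y * y + x
      exact le_add_of_nonneg_right (h0 _)
    · rw [AStr.pr, if_neg hxy]
      change y * y + x ≤ y * y + y + y
      have hlt : x ≤ y := (h.le_total x y).resolve_right hxy
      calc y * y + x ≤ y * y + y := by gcongr
        _ ≤ y * y + y + y := le_add_of_nonneg_right (h0 _)

theorem shell_unique (h : IsPA A) {m n z : M} (h1 : A.le (A.mul m m) z)
    (h2 : A.le z (A.add (A.add (A.mul n n) n) n)) : A.le m n := by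
  let := h.commSemiring
  let := h.linearOrder
  have := h.isStrictOrderedRing
  have h0 : ∀ a : M, 0 ≤ a := h.nonneg
  by_contra hcon
  have hlt : n < m := not_le.1 hcon
  have hle : n + 1 ≤ m := by
    have := (h.lt_iff n m).1 hlt
    rwa [succ_eq h] at this
  have h3 : (n + 1) * (n + 1) ≤ n * n + n + n := by
    calc (n + 1) * (n + 1) ≤ m * m := mul_le_mul hle hle (h0 _) (h0 _)
      _ ≤ z := h1
      _ ≤ _ := h2
  have h4 : n * n + n + n < (n + 1) * (n + 1) := by
    have : (n + 1) * (n + 1) = n * n + n + n + 1 := by ring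
    rw [this]
    exact lt_add_one _
  exact absurd h3 (not_le.2 h4)

theorem pr_injective (h : IsPA A) {x y x' y' : M} (he : A.pr x y = A.pr x' y') :
    x = x' ∧ y = y' := by
  let := h.commSemiring
  let := h.linearOrder
  have := h.isStrictOrderedRing
  have h0 : ∀ a : M, 0 ≤ a := h.nonneg
  obtain ⟨m, h1, h2, h3⟩ := pr_bounds h x y
  obtain ⟨n, h4, h5, h6⟩ := pr_bounds h x' y'
  have hmn : m = n := by
    apply h.linearOrder.le_antisymm
    · exact shell_unique h h1 (he ▸ h5)
    · exact shell_unique h h4 (he ▸ h2)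
  subst hmn
  have key : ∀ a b : M, ¬ A.le m a → m * m + m + b ≠ m * m + a := by
    intro a b ha hab
    rw [_root_.add_assoc] at hab
    have h7 : m + b = a := by
      have := hab
      exact _root_.add_left_cancel this
    apply ha
    exact ⟨b, by rw [← h7, h.add_comm]; rfl⟩
  rcases h3 with ⟨h3, rfl⟩ | ⟨h3, rfl⟩
  · rcases h6 with ⟨h6, rfl⟩ | ⟨h6, rfl⟩
    · rw [AStr.pr, AStr.pr, if_pos h3, if_pos h6] at he
      exact ⟨rfl, _root_.add_left_cancel (a := m * m + m) he⟩
    · rw [AStr.pr, AStr.pr, if_pos h3, if_neg h6] at he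
      exact absurd he (key _ _ h6)
  · rcases h6 with ⟨h6, rfl⟩ | ⟨h6, rfl⟩
    · rw [AStr.pr, AStr.pr, if_neg h3, if_pos h6] at he
      exact absurd he.symm (key _ _ h3)
    · rw [AStr.pr, AStr.pr, if_neg h3, if_neg h6] at he
      exact ⟨_root_.add_left_cancel (a := m * m) he, rfl⟩

theorem pr_surjective (h : IsPA A) (z : M) : ∃ x y, A.pr x y = z := by
  let := h.commSemiring
  let := h.linearOrder
  have := h.isStrictOrderedRing
  have h0 : ∀ a : M, 0 ≤ a := h.nonneg
  obtain ⟨k, hk1, hk2⟩ := exists_shell h z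
  obtain ⟨w, hw⟩ := hk1
  change w + k * k = z at hw
  change z ≤ k * k + k + k at hk2
  by_cases hkw : A.le k w
  · obtain ⟨y, hy⟩ := hkw
    change y + k = w at hy
    have hyk : A.le y k := by
      change y ≤ k
      rw [← hw, ← hy] at hk2
      have : y + k + k * k = (k * k + k) + y := by ring
      rw [this] at hk2
      exact le_of_add_le_add_left hk2
    refine ⟨k, y, ?_⟩
    rw [AStr.pr, if_pos hyk]
    change k * k + k + y = z
    rw [← hw, ← hy]
    ring
  · refine ⟨w, k, ?_⟩
    rw [AStr.pr, if_neg hkw]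
    change k * k + w = z
    rw [← hw]
    ring

/-! #### Division by three -/

theorem three_cases (h : IsPA A) (z : M) : ∃ v, z = A.tri v ∨ z = A.succ (A.tri v) ∨
    z = A.succ (A.succ (A.tri v)) := by
  revert z
  apply h.induct (exF 1 (orF (eqF x0 (.add (.add x1 x1) x1))
    (orF (eqF x0 (.succ (.add (.add x1 x1) x1)))
      (eqF x0 (.succ (.succ (.add (.add x1 x1) x1))))))) A.zero A.zero A.zero
  · intro x
    simp [Tm.val, AStr.tri]
  · refine ⟨A.zero, Or.inl ?_⟩
    rw [AStr.tri, h.add_zero, h.add_zero]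
  · rintro z ⟨v, hv | hv | hv⟩
    · exact ⟨v, Or.inr (Or.inl (by rw [hv]))⟩
    · exact ⟨v, Or.inr (Or.inr (by rw [hv]))⟩
    · refine ⟨A.succ v, Or.inl ?_⟩
      rw [hv, AStr.tri, AStr.tri]
      rw [h.add_succ, h.add_succ, h.succ_add, h.succ_add, h.succ_add]

theorem tri_mono (h : IsPA A) {v v' : M} (hv : ¬ A.le v' v) :
    A.le (A.succ (A.succ (A.succ (A.tri v)))) (A.tri v') := by
  let := h.commSemiring
  let := h.linearOrder
  have := h.isStrictOrderedRing
  have h0 : ∀ a : M, 0 ≤ a := h.nonneg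
  have hlt : v < v' := not_le.1 hv
  have hle : v + 1 ≤ v' := by
    have := (h.lt_iff v v').1 hlt
    rwa [succ_eq h] at this
  rw [succ_eq h, succ_eq h, succ_eq h]
  change (v + v + v) + 1 + 1 + 1 ≤ v' + v' + v'
  have : (v + v + v) + 1 + 1 + 1 = (v + 1) + (v + 1) + (v + 1) := by ring
  rw [this]
  gcongr

theorem not_succ_le (h : IsPA A) (x : M) : ¬ A.le (A.succ x) x := by
  let := h.commSemiring
  let := h.linearOrder
  intro hx
  exact lt_irrefl x ((h.lt_iff x x).2 hx)

theorem IsPA.le_succ (h : IsPA A) (x : M) : A.le x (A.succ x) :=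
  ⟨A.succ A.zero, by rw [h.succ_add, h.zero_add]⟩

theorem IsPA.le_tr (h : IsPA A) {x y z : M} (h1 : A.le x y) (h2 : A.le y z) : A.le x z :=
  h.linearOrder.le_trans x y z h1 h2

theorem three_le (h : IsPA A) {v v' r : M} (hv : ¬ A.le v' v)
    (hr : r = A.tri v ∨ r = A.succ (A.tri v) ∨ r = A.succ (A.succ (A.tri v)))
    (hr' : r = A.tri v' ∨ r = A.succ (A.tri v') ∨ r = A.succ (A.succ (A.tri v'))) : False := by
  have h1 := tri_mono h hv
  have h2 : A.le r (A.succ (A.succ (A.tri v))) := by
    rcases hr with hr | hr | hr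
    · rw [hr]; exact h.le_tr (h.le_succ _) (h.le_succ _)
    · rw [hr]; exact h.le_succ _
    · rw [hr]; exact h.linearOrder.le_refl _
  have h3 : A.le (A.tri v') r := by
    rcases hr' with hr' | hr' | hr'
    · rw [hr']; exact h.linearOrder.le_refl _
    · rw [hr']; exact h.le_succ _
    · rw [hr']; exact h.le_tr (h.le_succ _) (h.le_succ _)
  exact not_succ_le h _ (h.le_tr h1 (h.le_tr h3 h2))

theorem three_unique (h : IsPA A) {v v' r : M}
    (hr : r = A.tri v ∨ r = A.succ (A.tri v) ∨ r = A.succ (A.succ (A.tri v)))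
    (hr' : r = A.tri v' ∨ r = A.succ (A.tri v') ∨ r = A.succ (A.succ (A.tri v'))) : v = v' := by
  apply h.linearOrder.le_antisymm
  · by_contra hc
    exact three_le h (v := v') (v' := v) hc hr' hr
  · by_contra hc
    exact three_le h (v := v) (v' := v') hc hr hr'

theorem tri_inj (h : IsPA A) {v v' : M} (hv : A.tri v = A.tri v') : v = v' :=
  three_unique h (Or.inl rfl) (Or.inl hv)

theorem tri_ne_one (h : IsPA A) (v v' : M) : A.tri v ≠ A.succ (A.tri v') := by
  intro hv
  have := three_unique h (Or.inl rfl) (Or.inr (Or.inl hv))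
  rw [this] at hv
  apply not_succ_le h (A.tri v')
  have h1 : A.le (A.tri v') (A.tri v') := h.linearOrder.le_refl _
  rwa [← hv]

theorem tri_ne_two (h : IsPA A) (v v' : M) : A.tri v ≠ A.succ (A.succ (A.tri v')) := by
  intro hv
  have := three_unique h (Or.inl rfl) (Or.inr (Or.inr hv))
  rw [this] at hv
  apply not_succ_le h (A.tri v')
  have h1 : A.le (A.succ (A.tri v')) (A.succ (A.succ (A.tri v'))) := h.le_succ _
  rwa [← hv] at h1

theorem enc_bijective (h : IsPA A) : Bijective A.enc := by
  constructor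
  · intro a b hab
    cases a with
    | p x =>
      cases b with
      | p x' =>
        rw [tri_inj h hab]
      | al x' y' w' => exact absurd hab (tri_ne_one h _ _)
      | de x' y' w' t' i' => exact absurd hab (tri_ne_two h _ _)
    | al x y w =>
      cases b with
      | p x' => exact absurd hab.symm (tri_ne_one h _ _)
      | al x' y' w' =>
        have h1 := tri_inj h (h.succ_inj _ _ hab)
        obtain ⟨h2, h3⟩ := pr_injective h h1
        obtain ⟨h4, h5⟩ := pr_injective h h3
        rw [h2, h4, h5]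
      | de x' y' w' t' i' => exact absurd (h.succ_inj _ _ hab) (tri_ne_one h _ _)
    | de x y w t i =>
      cases b with
      | p x' => exact absurd hab.symm (tri_ne_two h _ _)
      | al x' y' w' => exact absurd (h.succ_inj _ _ hab).symm (tri_ne_one h _ _)
      | de x' y' w' t' i' =>
        have h1 := tri_inj h (h.succ_inj _ _ (h.succ_inj _ _ hab))
        obtain ⟨h2, h3⟩ := pr_injective h h1
        obtain ⟨h4, h5⟩ := pr_injective h h3
        obtain ⟨h6, h7⟩ := pr_injective h h5
        obtain ⟨h8, h9⟩ := pr_injective h h7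
        rw [h2, h4, h6, h8, h9]
  · intro z
    obtain ⟨v, hv | hv | hv⟩ := three_cases h z
    · exact ⟨.p v, hv.symm⟩
    · obtain ⟨x, u, hu⟩ := pr_surjective h v
      obtain ⟨y, w, hw⟩ := pr_surjective h u
      exact ⟨.al x y w, by rw [AStr.enc, hw, hu, hv]⟩
    · obtain ⟨x, u, hu⟩ := pr_surjective h v
      obtain ⟨y, w, hw⟩ := pr_surjective h u
      obtain ⟨w', t, ht⟩ := pr_surjective h w
      obtain ⟨t', i, hi⟩ := pr_surjective h t
      exact ⟨.de x y w' t' i, by rw [AStr.enc, hi, ht, hw, hu, hv]⟩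

/-! ### The function `F` -/

theorem F_mul (h : IsPA A) (x y : M) : A.F x y A.zero = A.mul x y := h.add_zero _

theorem F_add (h : IsPA A) (x y : M) : A.F (A.succ A.zero) x y = A.add x y := by
  rw [AStr.F, h.succ_mul, h.zero_mul, h.zero_add]

theorem IsPA.mul_eq_zero (h : IsPA A) {a b : M} (hab : A.mul a b = A.zero) :
    a = A.zero ∨ b = A.zero := by
  rcases h.zero_or_succ b with hb | ⟨b', hb⟩
  · exact Or.inr hb
  · rw [hb, h.mul_succ] at hab
    exact Or.inl (h.add_eq_zero hab).2

theorem F_self (h : IsPA A) (o : M) : A.F o o o = o ↔ o = A.zero := by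
  constructor
  · intro ho
    have h1 : A.add (A.mul o o) o = A.add A.zero o := by rw [h.zero_add]; exact ho
    rcases h.mul_eq_zero (h.add_right_cancel h1) with h2 | h2 <;> exact h2
  · rintro rfl
    rw [AStr.F, h.mul_zero, h.add_zero]

theorem F_one (h : IsPA A) (e : M) :
    (e ≠ A.zero ∧ A.F e e A.zero = e) ↔ e = A.succ A.zero := by
  constructor
  · rintro ⟨h0, he⟩
    rw [F_mul h] at he
    rcases h.zero_or_succ e with h1 | ⟨f, h1⟩
    · exact absurd h1 h0
    · have h2 : A.add (A.mul e f) e = A.add A.zero e := by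
        rw [h.zero_add, ← h.mul_succ, ← h1, he]
      rcases h.mul_eq_zero (h.add_right_cancel h2) with h3 | h3
      · exact absurd h3 h0
      · rw [h1, h3]
  · rintro rfl
    refine ⟨h.succ_ne_zero _, ?_⟩
    rw [F_mul h, h.succ_mul, h.zero_mul, h.zero_add]

end

end H97.PAS
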