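import Pool.Agent.Helper97.PAS.Base

/-!
# Module D1: the Henkin class and a limit-computable model
-/

namespace H97.PAS

open Function

namespace Henkin

/-! ### Codes of formulas -/

theorem code_inj : ∀ (φ ψ : LFml), code φ = code ψ → φ = ψ := by
  intro φ
  induction φ with
  | atom a =>
    intro ψ h
    cases ψ with
    | atom b =>
      obtain ⟨a1, a2, a3⟩ := a
      obtain ⟨b1, b2, b3⟩ := b
      simp only [code] at h
      have h1 : Nat.pair a1 (Nat.pair a2 a3) = Nat.pair b1 (Nat.pair b2 b3) := by omega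
      rw [Nat.pair_eq_pair, Nat.pair_eq_pair] at h1
      obtain ⟨rfl, rfl, rfl⟩ := h1
      rfl
    | bot => simp only [code] at h; omega
    | imp φ ψ => simp only [code] at h; omega
    | all i φ => simp only [code] at h; omega
  | bot =>
    intro ψ h
    cases ψ with
    | atom b => simp only [code] at h; omega
    | bot => rfl
    | imp φ ψ => simp only [code] at h; omega
    | all i φ => simp only [code] at h; omega
  | imp φ₁ φ₂ ih₁ ih₂ =>
    intro ψ h
    cases ψ with
    | atom b => simp only [code] at h; omega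
    | bot => simp only [code] at h; omega
    | imp ψ₁ ψ₂ =>
      simp only [code] at h
      have h1 : Nat.pair (code φ₁) (code φ₂) = Nat.pair (code ψ₁) (code ψ₂) := by omega
      rw [Nat.pair_eq_pair] at h1
      rw [ih₁ ψ₁ h1.1, ih₂ ψ₂ h1.2]
    | all i φ => simp only [code] at h; omega
  | all i φ ih =>
    intro ψ h
    cases ψ with
    | atom b => simp only [code] at h; omega
    | bot => simp only [code] at h; omega
    | imp ψ₁ ψ₂ => simp only [code] at h; omega
    | all j ψ =>
      simp only [code] at h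
      have h1 : Nat.pair i (code φ) = Nat.pair j (code ψ) := by omega
      rw [Nat.pair_eq_pair] at h1
      rw [h1.1, ih ψ h1.2]

theorem code_surj (n : ℕ) : ∃ φ : LFml, code φ = n := by
  induction n using Nat.strong_induction_on with
  | _ n ih =>
    rcases Nat.eq_zero_or_pos n with rfl | hn
    · exact ⟨.bot, rfl⟩
    · have h3 : n = 3 * ((n - 1) / 3) + (n - 1) % 3 + 1 := by omega
      have hlt : (n - 1) % 3 < 3 := Nat.mod_lt _ (by norm_num)
      set q := (n - 1) / 3 with hq
      set r := (n - 1) % 3 with hr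
      have hq1 : q.unpair.1 ≤ q := Nat.unpair_left_le q
      have hq2 : q.unpair.2 ≤ q := Nat.unpair_right_le q
      have hr' : r = 0 ∨ r = 1 ∨ r = 2 := by omega
      rcases hr' with h | h | h
      · refine ⟨.atom (q.unpair.1, q.unpair.2.unpair.1, q.unpair.2.unpair.2), ?_⟩
        simp only [code, Nat.pair_unpair]
        omega
      · obtain ⟨φ, hφ⟩ := ih q.unpair.1 (by omega)
        obtain ⟨ψ, hψ⟩ := ih q.unpair.2 (by omega)
        refine ⟨.imp φ ψ, ?_⟩
        simp only [code, hφ, hψ, Nat.pair_unpair]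
        omega
      · obtain ⟨ψ, hψ⟩ := ih q.unpair.2 (by omega)
        refine ⟨.all q.unpair.1 ψ, ?_⟩
        simp only [code, hψ, Nat.pair_unpair]
        omega

/-- decoding -/
noncomputable def dec (n : ℕ) : LFml := (code_surj n).choose

theorem code_dec (n : ℕ) : code (dec n) = n := (code_surj n).choose_spec

theorem dec_code (φ : LFml) : dec (code φ) = φ := code_inj _ _ (code_dec _)

/-- decoding of lists -/
def lst (n : ℕ) : List (ℕ × ℕ) := Denumerable.ofNat (List (ℕ × ℕ)) n

theorem lst_encode (s : List (ℕ × ℕ)) : lst (Encodable.encode s) = s :=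
  Denumerable.ofNat_encode s

theorem encode_lst (n : ℕ) : Encodable.encode (lst n) = n :=
  Denumerable.encode_ofNat n

theorem encode_cons (i k : ℕ) (s : List (ℕ × ℕ)) :
    Encodable.encode ((i, k) :: s) = Nat.pair (Nat.pair i k) (Encodable.encode s) + 1 := by
  rw [Encodable.encode_list_cons]
  rfl

theorem encode_nil : Encodable.encode ([] : List (ℕ × ℕ)) = 0 := rfl

theorem asg_le (s : List (ℕ × ℕ)) (j : ℕ) : asg s j ≤ Encodable.encode s := by
  induction s with
  | nil => simp [asg]
  | cons p s ih =>
    obtain ⟨i, k⟩ := p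
    rw [encode_cons]
    have h1 : Nat.pair i k ≤ Nat.pair (Nat.pair i k) (Encodable.encode s) := Nat.left_le_pair _ _
    have h2 : Encodable.encode s ≤ Nat.pair (Nat.pair i k) (Encodable.encode s) :=
      Nat.right_le_pair _ _
    have h3 : k ≤ Nat.pair i k := Nat.right_le_pair _ _
    simp only [asg]
    split
    · omega
    · omega

theorem asg_cons (i k : ℕ) (s : List (ℕ × ℕ)) : asg ((i, k) :: s) = update (asg s) i k := by
  funext j
  simp only [asg, update_apply]

/-! ### Computability of the assignments -/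

theorem asg_foldr (s : List (ℕ × ℕ)) (j : ℕ) :
    asg s j = s.foldr (fun p r => if j = p.1 then p.2 else r) 0 := by
  induction s with
  | nil => rfl
  | cons p s ih =>
    obtain ⟨i, k⟩ := p
    simp only [asg, List.foldr_cons, ih]

theorem primrec_asg : Primrec₂ (fun (n : ℕ) (j : ℕ) => asg (lst n) j) := by
  have h : Primrec (fun a : ℕ × ℕ => (lst a.1).foldr
      (fun p r => (fun (x : ℕ × ℕ) (y : (ℕ × ℕ) × ℕ) =>
        if x.2 = y.1.1 then y.1.2 else y.2) a (p, r)) 0) :=
    Primrec.list_foldr (h := fun (x : ℕ × ℕ) (y : (ℕ × ℕ) × ℕ) =>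
        if x.2 = y.1.1 then y.1.2 else y.2)
      ((Primrec.ofNat (List (ℕ × ℕ))).comp Primrec.fst)
      (Primrec.const 0)
      (Primrec.ite (Primrec.eq.comp (Primrec.snd.comp Primrec.fst)
          (Primrec.fst.comp (Primrec.fst.comp Primrec.snd)))
        (Primrec.snd.comp (Primrec.fst.comp Primrec.snd))
        (Primrec.snd.comp Primrec.snd))
  exact h.of_eq (fun a => (asg_foldr _ _).symm)

/-! ### The clauses -/

/-- the code of the atomic formula `R_n(v_0, v_1)`. -/
def atc (n : ℕ) : ℕ := 3 * Nat.pair (n + 1) (Nat.pair 0 1) + 1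

/-- the code of the assignment `v_0 = a, v_1 = b`. -/
def asc (a b : ℕ) : ℕ := Nat.pair (Nat.pair 0 a) (Nat.pair (Nat.pair 1 b) 0 + 1) + 1

theorem atc_eq (n : ℕ) : atc n = code (.atom (n + 1, 0, 1)) := rfl

theorem asc_eq (a b : ℕ) : asc a b = Encodable.encode ([(0, a), (1, b)] : List (ℕ × ℕ)) := rfl

/-- The structural clauses for the formula with code `c`, the assignment with code `sc`. -/
def cl (kind k c sc : ℕ) : List (ℕ × Bool) :=
  if c = 0 then [(Nat.pair c sc, false)]
  else if (c - 1) % 3 = 0 then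
    (if ((c - 1) / 3).unpair.1 = 0 then
      [(Nat.pair c sc, decide (asg (lst sc) ((c - 1) / 3).unpair.2.unpair.1 =
        asg (lst sc) ((c - 1) / 3).unpair.2.unpair.2))]
    else
      (if kind = 0 then
        [(Nat.pair c sc, false),
          (Nat.pair (atc (((c - 1) / 3).unpair.1 - 1))
            (asc (asg (lst sc) ((c - 1) / 3).unpair.2.unpair.1)
              (asg (lst sc) ((c - 1) / 3).unpair.2.unpair.2)), true)]
      else
        [(Nat.pair c sc, true),
          (Nat.pair (atc (((c - 1) / 3).unpair.1 - 1))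
            (asc (asg (lst sc) ((c - 1) / 3).unpair.2.unpair.1)
              (asg (lst sc) ((c - 1) / 3).unpair.2.unpair.2)), false)]))
  else if (c - 1) % 3 = 1 then
    (if kind = 0 then
      [(Nat.pair c sc, false), (Nat.pair ((c - 1) / 3).unpair.1 sc, false),
        (Nat.pair ((c - 1) / 3).unpair.2 sc, true)]
    else if kind = 1 then
      [(Nat.pair c sc, true), (Nat.pair ((c - 1) / 3).unpair.1 sc, true)]
    else
      [(Nat.pair c sc, true), (Nat.pair ((c - 1) / 3).unpair.2 sc, false)])
  else
    (if kind = 0 then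
      [(Nat.pair c sc, false),
        (Nat.pair ((c - 1) / 3).unpair.2
          (Nat.pair (Nat.pair ((c - 1) / 3).unpair.1 k) sc + 1), true)]
    else
      (Nat.pair c sc, true) :: (List.range (Nat.pair c sc + 2)).map (fun k' =>
        (Nat.pair ((c - 1) / 3).unpair.2
          (Nat.pair (Nat.pair ((c - 1) / 3).unpair.1 k') sc + 1), false)))

theorem cl_bot (kind k : ℕ) (s : List (ℕ × ℕ)) :
    cl kind k (code .bot) (Encodable.encode s) =
      [(Nat.pair (code .bot) (Encodable.encode s), false)] := rfl

theorem cl_eq (kind k i j : ℕ) (s : List (ℕ × ℕ)) :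
    cl kind k (code (.atom (0, i, j))) (Encodable.encode s) =
      [(Nat.pair (code (.atom (0, i, j))) (Encodable.encode s),
        decide (asg s i = asg s j))] := by
  unfold cl
  have h0 : code (.atom (0, i, j)) ≠ 0 := by simp [code]
  have h1 : (code (.atom (0, i, j)) - 1) % 3 = 0 := by simp only [code]; omega
  have h2 : (code (.atom (0, i, j)) - 1) / 3 = Nat.pair 0 (Nat.pair i j) := by
    simp only [code]; omega
  rw [if_neg h0, if_pos h1, h2]
  simp only [Nat.unpair_pair, lst_encode, if_true]

theorem cl_atom (kind k n i j : ℕ) (s : List (ℕ × ℕ)) :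
    cl kind k (code (.atom (n + 1, i, j))) (Encodable.encode s) =
      if kind = 0 then
        [(Nat.pair (code (.atom (n + 1, i, j))) (Encodable.encode s), false),
          (Nat.pair (atc n) (asc (asg s i) (asg s j)), true)]
      else
        [(Nat.pair (code (.atom (n + 1, i, j))) (Encodable.encode s), true),
          (Nat.pair (atc n) (asc (asg s i) (asg s j)), false)] := by
  unfold cl
  have h0 : code (.atom (n + 1, i, j)) ≠ 0 := by simp [code]
  have h1 : (code (.atom (n + 1, i, j)) - 1) % 3 = 0 := by simp only [code]; omega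
  have h2 : (code (.atom (n + 1, i, j)) - 1) / 3 = Nat.pair (n + 1) (Nat.pair i j) := by
    simp only [code]; omega
  rw [if_neg h0, if_pos h1, h2]
  simp only [Nat.unpair_pair, lst_encode]
  rw [if_neg (Nat.succ_ne_zero n)]
  simp only [Nat.add_sub_cancel]

theorem cl_imp (kind k : ℕ) (φ ψ : LFml) (s : List (ℕ × ℕ)) :
    cl kind k (code (.imp φ ψ)) (Encodable.encode s) =
      if kind = 0 then
        [(Nat.pair (code (.imp φ ψ)) (Encodable.encode s), false),
          (Nat.pair (code φ) (Encodable.encode s), false),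
          (Nat.pair (code ψ) (Encodable.encode s), true)]
      else if kind = 1 then
        [(Nat.pair (code (.imp φ ψ)) (Encodable.encode s), true),
          (Nat.pair (code φ) (Encodable.encode s), true)]
      else
        [(Nat.pair (code (.imp φ ψ)) (Encodable.encode s), true),
          (Nat.pair (code ψ) (Encodable.encode s), false)] := by
  unfold cl
  have h0 : code (.imp φ ψ) ≠ 0 := by simp [code]
  have h1 : ¬ (code (.imp φ ψ) - 1) % 3 = 0 := by simp only [code]; omega
  have h1' : (code (.imp φ ψ) - 1) % 3 = 1 := by simp only [code]; omega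
  have h2 : (code (.imp φ ψ) - 1) / 3 = Nat.pair (code φ) (code ψ) := by
    simp only [code]; omega
  rw [if_neg h0, if_neg h1, if_pos h1', h2]
  simp only [Nat.unpair_pair]

theorem cl_all (kind k i : ℕ) (φ : LFml) (s : List (ℕ × ℕ)) :
    cl kind k (code (.all i φ)) (Encodable.encode s) =
      if kind = 0 then
        [(Nat.pair (code (.all i φ)) (Encodable.encode s), false),
          (Nat.pair (code φ) (Encodable.encode ((i, k) :: s)), true)]
      else
        (Nat.pair (code (.all i φ)) (Encodable.encode s), true) ::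
          (List.range (Nat.pair (code (.all i φ)) (Encodable.encode s) + 2)).map (fun k' =>
            (Nat.pair (code φ) (Encodable.encode ((i, k') :: s)), false)) := by
  unfold cl
  have h0 : code (.all i φ) ≠ 0 := by simp [code]
  have h1 : ¬ (code (.all i φ) - 1) % 3 = 0 := by simp only [code]; omega
  have h1' : ¬ (code (.all i φ) - 1) % 3 = 1 := by simp only [code]; omega
  have h2 : (code (.all i φ) - 1) / 3 = Nat.pair i (code φ) := by
    simp only [code]; omega
  rw [if_neg h0, if_neg h1, if_neg h1', h2]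
  simp only [Nat.unpair_pair, encode_cons]

/-! ### Computability of the clauses -/

theorem primrec_cl : Primrec (fun x : (ℕ × ℕ) × (ℕ × ℕ) => cl x.1.1 x.1.2 x.2.1 x.2.2) := by
  have kind : Primrec (fun x : (ℕ × ℕ) × (ℕ × ℕ) => x.1.1) := Primrec.fst.comp Primrec.fst
  have k : Primrec (fun x : (ℕ × ℕ) × (ℕ × ℕ) => x.1.2) := Primrec.snd.comp Primrec.fst
  have c : Primrec (fun x : (ℕ × ℕ) × (ℕ × ℕ) => x.2.1) := Primrec.fst.comp Primrec.snd
  have sc : Primrec (fun x : (ℕ × ℕ) × (ℕ × ℕ) => x.2.2) := Primrec.snd.comp Primrec.snd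
  have e : Primrec (fun x : (ℕ × ℕ) × (ℕ × ℕ) => Nat.pair x.2.1 x.2.2) :=
    Primrec₂.natPair.comp c sc
  have c1 : Primrec (fun x : (ℕ × ℕ) × (ℕ × ℕ) => x.2.1 - 1) :=
    Primrec.nat_sub.comp c (Primrec.const 1)
  have q : Primrec (fun x : (ℕ × ℕ) × (ℕ × ℕ) => (x.2.1 - 1) / 3) :=
    Primrec.nat_div.comp c1 (Primrec.const 3)
  have r : Primrec (fun x : (ℕ × ℕ) × (ℕ × ℕ) => (x.2.1 - 1) % 3) :=
    Primrec.nat_mod.comp c1 (Primrec.const 3)
  have q1 : Primrec (fun x : (ℕ × ℕ) × (ℕ × ℕ) => ((x.2.1 - 1) / 3).unpair.1) :=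
    Primrec.fst.comp (Primrec.unpair.comp q)
  have q2 : Primrec (fun x : (ℕ × ℕ) × (ℕ × ℕ) => ((x.2.1 - 1) / 3).unpair.2) :=
    Primrec.snd.comp (Primrec.unpair.comp q)
  have q21 : Primrec (fun x : (ℕ × ℕ) × (ℕ × ℕ) => ((x.2.1 - 1) / 3).unpair.2.unpair.1) :=
    Primrec.fst.comp (Primrec.unpair.comp q2)
  have q22 : Primrec (fun x : (ℕ × ℕ) × (ℕ × ℕ) => ((x.2.1 - 1) / 3).unpair.2.unpair.2) :=
    Primrec.snd.comp (Primrec.unpair.comp q2)
  have A1 : Primrec (fun x : (ℕ × ℕ) × (ℕ × ℕ) =>
      asg (lst x.2.2) ((x.2.1 - 1) / 3).unpair.2.unpair.1) := primrec_asg.comp sc q21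
  have A2 : Primrec (fun x : (ℕ × ℕ) × (ℕ × ℕ) =>
      asg (lst x.2.2) ((x.2.1 - 1) / 3).unpair.2.unpair.2) := primrec_asg.comp sc q22
  have hatc : Primrec atc := by
    unfold atc
    exact Primrec.nat_add.comp (Primrec.nat_mul.comp (Primrec.const 3)
      (Primrec₂.natPair.comp (Primrec.nat_add.comp Primrec.id (Primrec.const 1))
        (Primrec.const (Nat.pair 0 1)))) (Primrec.const 1)
  have hasc : Primrec₂ asc := by
    unfold asc
    exact Primrec.nat_add.comp (Primrec₂.natPair.comp
      (Primrec₂.natPair.comp (Primrec.const 0) Primrec.fst)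
      (Primrec.nat_add.comp (Primrec₂.natPair.comp
        (Primrec₂.natPair.comp (Primrec.const 1) Primrec.snd) (Primrec.const 0))
        (Primrec.const 1))) (Primrec.const 1)
  have ea : Primrec (fun x : (ℕ × ℕ) × (ℕ × ℕ) =>
      Nat.pair (atc (((x.2.1 - 1) / 3).unpair.1 - 1))
            (asc (asg (lst x.2.2) ((x.2.1 - 1) / 3).unpair.2.unpair.1)
              (asg (lst x.2.2) ((x.2.1 - 1) / 3).unpair.2.unpair.2))) :=
    Primrec₂.natPair.comp (hatc.comp (Primrec.nat_sub.comp q1 (Primrec.const 1)))
      (hasc.comp A1 A2)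
  have nil : Primrec (fun _ : (ℕ × ℕ) × (ℕ × ℕ) => ([] : List (ℕ × Bool))) := Primrec.const _
  have ct : Primrec (fun _ : (ℕ × ℕ) × (ℕ × ℕ) => true) := Primrec.const _
  have cf : Primrec (fun _ : (ℕ × ℕ) × (ℕ × ℕ) => false) := Primrec.const _
  unfold cl
  apply Primrec.ite (Primrec.eq.comp c (Primrec.const 0))
  · exact Primrec.list_cons.comp (e.pair cf) nil
  apply Primrec.ite (Primrec.eq.comp r (Primrec.const 0))
  · apply Primrec.ite (Primrec.eq.comp q1 (Primrec.const 0))
    · exact Primrec.list_cons.comp (e.pair ((Primrec.eq.comp A1 A2).decide)) nil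
    apply Primrec.ite (Primrec.eq.comp kind (Primrec.const 0))
    · exact Primrec.list_cons.comp (e.pair cf) (Primrec.list_cons.comp (ea.pair ct) nil)
    · exact Primrec.list_cons.comp (e.pair ct) (Primrec.list_cons.comp (ea.pair cf) nil)
  apply Primrec.ite (Primrec.eq.comp r (Primrec.const 1))
  · apply Primrec.ite (Primrec.eq.comp kind (Primrec.const 0))
    · exact Primrec.list_cons.comp (e.pair cf)
        (Primrec.list_cons.comp ((Primrec₂.natPair.comp q1 sc).pair cf)
          (Primrec.list_cons.comp ((Primrec₂.natPair.comp q2 sc).pair ct) nil))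
    apply Primrec.ite (Primrec.eq.comp kind (Primrec.const 1))
    · exact Primrec.list_cons.comp (e.pair ct)
        (Primrec.list_cons.comp ((Primrec₂.natPair.comp q1 sc).pair ct) nil)
    · exact Primrec.list_cons.comp (e.pair ct)
        (Primrec.list_cons.comp ((Primrec₂.natPair.comp q2 sc).pair cf) nil)
  apply Primrec.ite (Primrec.eq.comp kind (Primrec.const 0))
  · refine Primrec.list_cons.comp (e.pair cf) (Primrec.list_cons.comp (Primrec.pair ?_ ct) nil)
    exact Primrec₂.natPair.comp q2 (Primrec.nat_add.comp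
      (Primrec₂.natPair.comp (Primrec₂.natPair.comp q1 k) sc) (Primrec.const 1))
  · refine Primrec.list_cons.comp (e.pair ct) ?_
    apply Primrec.list_map
    · exact Primrec.list_range.comp (Primrec.nat_add.comp e (Primrec.const 2))
    · refine Primrec.pair ?_ (Primrec.const false)
      exact Primrec₂.natPair.comp (q2.comp Primrec.fst) (Primrec.nat_add.comp
        (Primrec₂.natPair.comp (Primrec₂.natPair.comp (q1.comp Primrec.fst) Primrec.snd)
          (sc.comp Primrec.fst)) (Primrec.const 1))

/-- The enumeration of the structural clauses. -/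
def D (n : ℕ) : List (ℕ × Bool) :=
  cl n.unpair.1 n.unpair.2.unpair.1 n.unpair.2.unpair.2.unpair.1 n.unpair.2.unpair.2.unpair.2

theorem primrec_D : Primrec D := by
  unfold D
  have u : Primrec (fun n : ℕ => n.unpair) := Primrec.unpair
  have u2 : Primrec (fun n : ℕ => n.unpair.2.unpair) := u.comp (Primrec.snd.comp u)
  have u22 : Primrec (fun n : ℕ => n.unpair.2.unpair.2.unpair) := u.comp (Primrec.snd.comp u2)
  exact primrec_cl.comp (((Primrec.fst.comp u).pair (Primrec.fst.comp u2)).pair
    ((Primrec.fst.comp u22).pair (Primrec.snd.comp u22)))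

theorem D_pair (kind k c sc : ℕ) :
    D (Nat.pair kind (Nat.pair k (Nat.pair c sc))) = cl kind k c sc := by
  simp [D, Nat.unpair_pair]

/-! ### The truth lemma -/

/-- The structure read off from `X`. -/
def strX (X : ℕ → Bool) : LStr ℕ := fun n a b => X (Nat.pair (atc n) (asc a b)) = true

theorem truth (X : ℕ → Bool) (hX : ∀ n, ∃ l ∈ D n, X l.1 = l.2) (φ : LFml) :
    ∀ s : List (ℕ × ℕ), satL (strX X) φ (asg s) ↔
      X (Nat.pair (code φ) (Encodable.encode s)) = true := by
  have hcl : ∀ kind k (φ : LFml) (s : List (ℕ × ℕ)),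
      ∃ l ∈ cl kind k (code φ) (Encodable.encode s), X l.1 = l.2 := by
    intro kind k φ s
    have := hX (Nat.pair kind (Nat.pair k (Nat.pair (code φ) (Encodable.encode s))))
    rwa [D_pair] at this
  induction φ with
  | atom a =>
    obtain ⟨n, i, j⟩ := a
    intro s
    cases n with
    | zero =>
      have h := hcl 0 0 (.atom (0, i, j)) s
      rw [cl_eq] at h
      obtain ⟨l, hl, hl2⟩ := h
      rw [List.mem_singleton] at hl
      subst hl
      simp only at hl2
      rw [hl2]
      simp only [satL, Fml.Sat, LStr.atom, decide_eq_true_eq]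
    | succ n =>
      have h0 := hcl 0 0 (.atom (n + 1, i, j)) s
      have h1 := hcl 1 0 (.atom (n + 1, i, j)) s
      rw [cl_atom] at h0 h1
      simp only [if_true, one_ne_zero, if_false, List.mem_cons, List.not_mem_nil, or_false,
        exists_eq_or_imp, exists_eq_left] at h0 h1
      simp only [satL, Fml.Sat, LStr.atom, strX]
      constructor
      · intro h
        rcases h1 with h1 | h1
        · exact h1
        · rw [h] at h1; exact absurd h1 (by simp)
      · intro h
        rcases h0 with h0 | h0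
        · rw [h] at h0; exact absurd h0 (by simp)
        · exact h0
  | bot =>
    intro s
    have h := hcl 0 0 .bot s
    rw [cl_bot] at h
    obtain ⟨l, hl, hl2⟩ := h
    rw [List.mem_singleton] at hl
    subst hl
    simp only at hl2
    rw [hl2]
    simp [satL, Fml.Sat]
  | imp φ ψ ih₁ ih₂ =>
    intro s
    have h0 := hcl 0 0 (.imp φ ψ) s
    have h1 := hcl 1 0 (.imp φ ψ) s
    have h2 := hcl 2 0 (.imp φ ψ) s
    rw [cl_imp] at h0 h1 h2
    simp only [if_true, one_ne_zero, if_false, List.mem_cons, List.not_mem_nil, or_false,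
        exists_eq_or_imp, exists_eq_left, OfNat.ofNat_ne_zero, OfNat.ofNat_ne_one] at h0 h1 h2
    have e : satL (strX X) (.imp φ ψ) (asg s) ↔
        (satL (strX X) φ (asg s) → satL (strX X) ψ (asg s)) := Iff.rfl
    rw [e, ih₁, ih₂]
    constructor
    · intro h
      rcases h1 with h1 | h1
      · exact h1
      rcases h2 with h2 | h2
      · exact h2
      rw [h h1] at h2
      exact absurd h2 (by simp)
    · intro h hφ
      rcases h0 with h0 | h0 | h0
      · rw [h] at h0; exact absurd h0 (by simp)
      · rw [hφ] at h0; exact absurd h0 (by simp)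
      · exact h0
  | all i φ ih =>
    intro s
    have h0 := fun k => hcl 0 k (.all i φ) s
    have h1 := hcl 1 0 (.all i φ) s
    simp only [cl_all] at h0
    rw [cl_all] at h1
    simp only [if_true, one_ne_zero, if_false, List.mem_cons, List.not_mem_nil, or_false,
        exists_eq_or_imp, exists_eq_left, List.mem_map] at h0 h1
    have e : satL (strX X) (.all i φ) (asg s) ↔
        ∀ k : ℕ, satL (strX X) φ (update (asg s) i k) := Iff.rfl
    rw [e]
    simp only [← asg_cons, ih]
    constructor
    · intro h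
      rcases h1 with h1 | ⟨l, ⟨k, _, rfl⟩, h1⟩
      · exact h1
      · simp only at h1
        rw [h k] at h1
        exact absurd h1 (by simp)
    · intro h k
      rcases h0 k with h0 | h0
      · rw [h] at h0; exact absurd h0 (by simp)
      · exact h0

/-! ### The naming of the elements -/

section Naming

variable {M : Type}

/-- The naming function, up to stage `e`. -/
def H (m₀ : M) (ch : ℕ → (ℕ → M) → M) : ℕ → ℕ → M
  | 0 => fun _ => m₀
  | e + 1 => update (H m₀ ch e) (e + 1) (ch e (H m₀ ch e))

theorem H_stable (m₀ : M) (ch : ℕ → (ℕ → M) → M) (k n : ℕ) (h : k ≤ n) :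
    H m₀ ch n k = H m₀ ch k k := by
  induction n, h using Nat.le_induction with
  | base => rfl
  | succ n hn ih =>
    rw [← ih, H, update_of_ne (by omega)]

theorem H_succ (m₀ : M) (ch : ℕ → (ℕ → M) → M) (e : ℕ) :
    H m₀ ch (e + 1) (e + 1) = ch e (H m₀ ch e) := by
  rw [H, update_self]

/-- The requirement on the element chosen at stage `e`. -/
def Req (R : LStr M) (e : ℕ) (h : ℕ → M) (x : M) : Prop :=
  (∀ k ≤ e, x ≠ h k) ∧ ∀ (i : ℕ) (φ : LFml) (s : List (ℕ × ℕ)),
    e = Nat.pair (code (.all i φ)) (Encodable.encode s) →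
    (¬ satL R (.all i φ) (fun j => h (asg s j))) →
    (∃ k ≤ e, ¬ satL R φ (update (fun j => h (asg s j)) i (h k))) ∨
      ¬ satL R φ (update (fun j => h (asg s j)) i x)

theorem exists_req [Infinite M] (R : LStr M) (e : ℕ) (h : ℕ → M) : ∃ x, Req R e h x := by
  classical
  obtain ⟨y, hy⟩ := Infinite.exists_notMem_finset ((Finset.range (e + 1)).image h)
  have hy' : ∀ k ≤ e, y ≠ h k := by
    intro k hk hyk
    apply hy
    rw [Finset.mem_image]
    exact ⟨k, Finset.mem_range.mpr (by omega), hyk.symm⟩
  by_cases hex : ∃ (i : ℕ) (φ : LFml) (s : List (ℕ × ℕ)),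
      e = Nat.pair (code (.all i φ)) (Encodable.encode s) ∧
      ¬ satL R (.all i φ) (fun j => h (asg s j))
  · obtain ⟨i, φ, s, he, hsat⟩ := hex
    have huniq : ∀ (i' : ℕ) (φ' : LFml) (s' : List (ℕ × ℕ)),
        e = Nat.pair (code (.all i' φ')) (Encodable.encode s') → i' = i ∧ φ' = φ ∧ s' = s := by
      intro i' φ' s' he'
      rw [he, Nat.pair_eq_pair] at he'
      have h1 := code_inj _ _ he'.1
      have h2 := Encodable.encode_injective he'.2
      injection h1 with h3 h4
      exact ⟨h3.symm, h4.symm, h2.symm⟩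
    have hx : ∃ x, ¬ satL R φ (update (fun j => h (asg s j)) i x) := by
      by_contra hcon
      push Not at hcon
      exact hsat hcon
    obtain ⟨x, hx⟩ := hx
    by_cases hk : ∃ k ≤ e, x = h k
    · obtain ⟨k, hk, rfl⟩ := hk
      refine ⟨y, hy', ?_⟩
      intro i' φ' s' he' _
      obtain ⟨rfl, rfl, rfl⟩ := huniq i' φ' s' he'
      exact Or.inl ⟨k, hk, hx⟩
    · push Not at hk
      refine ⟨x, hk, ?_⟩
      intro i' φ' s' he' _
      obtain ⟨rfl, rfl, rfl⟩ := huniq i' φ' s' he'
      exact Or.inr hx
  · refine ⟨y, hy', ?_⟩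
    intro i φ s he hs
    exact absurd ⟨i, φ, s, he, hs⟩ hex

theorem exists_naming [Infinite M] (R : LStr M) (m₀ : M) :
    ∃ c : ℕ → M, c 0 = m₀ ∧ Injective c ∧ ∀ (i : ℕ) (φ : LFml) (s : List (ℕ × ℕ)),
      (¬ satL R (.all i φ) (fun j => c (asg s j))) →
      ∃ k ≤ Nat.pair (code (.all i φ)) (Encodable.encode s) + 1,
        ¬ satL R φ (update (fun j => c (asg s j)) i (c k)) := by
  classical
  choose ch hch using fun (e : ℕ) (h : ℕ → M) => exists_req R e h
  refine ⟨fun n => H m₀ ch n n, rfl, ?_, ?_⟩
  · have hlt : ∀ a b, a < b → H m₀ ch a a ≠ H m₀ ch b b := by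
      intro a b hab
      obtain ⟨b, rfl⟩ : ∃ b', b = b' + 1 := ⟨b - 1, by omega⟩
      rw [H_succ, ← H_stable m₀ ch a b (by omega)]
      exact ((hch b (H m₀ ch b)).1 a (by omega)).symm
    intro a b hab
    rcases lt_trichotomy a b with h | h | h
    · exact absurd hab (hlt a b h)
    · exact h
    · exact absurd hab.symm (hlt b a h)
  · intro i φ s hs
    set e := Nat.pair (code (.all i φ)) (Encodable.encode s) with he
    have hasg : (fun j => H m₀ ch (asg s j) (asg s j)) = fun j => H m₀ ch e (asg s j) := by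
      funext j
      rw [H_stable m₀ ch (asg s j) e]
      exact (asg_le s j).trans (Nat.right_le_pair _ _)
    rw [hasg] at hs ⊢
    rcases (hch e (H m₀ ch e)).2 i φ s he hs with ⟨k, hk, h⟩ | h
    · refine ⟨k, by omega, ?_⟩
      show ¬ satL R φ (update (fun j => H m₀ ch e (asg s j)) i (H m₀ ch k k))
      rw [← H_stable m₀ ch k e hk]
      exact h
    · refine ⟨e + 1, le_refl _, ?_⟩
      show ¬ satL R φ (update (fun j => H m₀ ch e (asg s j)) i (H m₀ ch (e + 1) (e + 1)))
      rw [H_succ]
      exact h

end Naming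

/-! ### The clauses are satisfiable -/

open Classical in
/-- The truth function. -/
noncomputable def XR {M : Type} (R : LStr M) (c : ℕ → M) (e : ℕ) : Bool :=
  decide (satL R (dec e.unpair.1) (fun j => c (asg (lst e.unpair.2) j)))

theorem XR_iff {M : Type} (R : LStr M) (c : ℕ → M) (φ : LFml) (s : List (ℕ × ℕ)) :
    XR R c (Nat.pair (code φ) (Encodable.encode s)) = true ↔
      satL R φ (fun j => c (asg s j)) := by
  classical
  unfold XR
  rw [decide_eq_true_iff, Nat.unpair_pair]
  simp only [dec_code, lst_encode]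

theorem XR_iff' {M : Type} (R : LStr M) (c : ℕ → M) (φ : LFml) (s : List (ℕ × ℕ)) :
    XR R c (Nat.pair (code φ) (Encodable.encode s)) = false ↔
      ¬ satL R φ (fun j => c (asg s j)) := by
  rw [← XR_iff, Bool.not_eq_true]

theorem comp_asg_cons {M : Type} (c : ℕ → M) (i k : ℕ) (s : List (ℕ × ℕ)) :
    (fun j => c (asg ((i, k) :: s) j)) = update (fun j => c (asg s j)) i (c k) := by
  rw [asg_cons]
  funext j
  by_cases h : j = i
  · subst h; simp
  · simp [h]

theorem sat_D {M : Type} (R : LStr M) (c : ℕ → M) (hc : Injective c)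
    (hw : ∀ (i : ℕ) (φ : LFml) (s : List (ℕ × ℕ)),
      (¬ satL R (.all i φ) (fun j => c (asg s j))) →
      ∃ k ≤ Nat.pair (code (.all i φ)) (Encodable.encode s) + 1,
        ¬ satL R φ (update (fun j => c (asg s j)) i (c k))) (n : ℕ) :
    ∃ l ∈ D n, XR R c l.1 = l.2 := by
  classical
  obtain ⟨kind, k, φ, s, rfl⟩ : ∃ (kind k : ℕ) (φ : LFml) (s : List (ℕ × ℕ)),
      n = Nat.pair kind (Nat.pair k (Nat.pair (code φ) (Encodable.encode s))) := by
    refine ⟨n.unpair.1, n.unpair.2.unpair.1, dec n.unpair.2.unpair.2.unpair.1,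
      lst n.unpair.2.unpair.2.unpair.2, ?_⟩
    rw [code_dec, encode_lst, Nat.pair_unpair, Nat.pair_unpair, Nat.pair_unpair]
  rw [D_pair]
  cases φ with
  | atom a =>
    obtain ⟨n, i, j⟩ := a
    cases n with
    | zero =>
      rw [cl_eq]
      refine ⟨_, List.mem_singleton_self _, ?_⟩
      simp only
      have h := XR_iff R c (.atom (0, i, j)) s
      have h2 : satL R (.atom (0, i, j)) (fun j => c (asg s j)) ↔ asg s i = asg s j := by
        show c (asg s i) = c (asg s j) ↔ _
        exact hc.eq_iff
      rw [h2] at h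
      by_cases hij : asg s i = asg s j
      · rw [h.mpr hij, decide_eq_true hij]
      · rw [decide_eq_false hij, ← Bool.not_eq_true, h]
        exact hij
    | succ n =>
      rw [cl_atom]
      have h1 := XR_iff R c (.atom (n + 1, i, j)) s
      have h2 := XR_iff R c (.atom (n + 1, 0, 1)) [(0, asg s i), (1, asg s j)]
      rw [← atc_eq, ← asc_eq] at h2
      have h3 : satL R (.atom (n + 1, i, j)) (fun j => c (asg s j)) ↔
          satL R (.atom (n + 1, 0, 1)) (fun j' => c (asg [(0, asg s i), (1, asg s j)] j')) := by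
        rfl
      rw [h3, ← h2] at h1
      by_cases hk : kind = 0
      · rw [if_pos hk]
        by_cases ht : XR R c (Nat.pair (atc n) (asc (asg s i) (asg s j))) = true
        · exact ⟨_, List.mem_cons_of_mem _ (List.mem_singleton_self _), ht⟩
        · refine ⟨_, List.mem_cons_self, ?_⟩
          simp only
          rw [← Bool.not_eq_true, h1]
          exact ht
      · rw [if_neg hk]
        by_cases ht : XR R c (Nat.pair (atc n) (asc (asg s i) (asg s j))) = true
        · refine ⟨_, List.mem_cons_self, ?_⟩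
          simp only
          rw [h1]
          exact ht
        · rw [Bool.not_eq_true] at ht
          exact ⟨_, List.mem_cons_of_mem _ (List.mem_singleton_self _), ht⟩
  | bot =>
    rw [cl_bot]
    refine ⟨_, List.mem_singleton_self _, ?_⟩
    simp only
    rw [XR_iff']
    exact id
  | imp φ ψ =>
    rw [cl_imp]
    have h1 := XR_iff R c (.imp φ ψ) s
    have hφ := XR_iff R c φ s
    have hψ := XR_iff R c ψ s
    have e : satL R (.imp φ ψ) (fun j => c (asg s j)) ↔
      (satL R φ (fun j => c (asg s j)) → satL R ψ (fun j => c (asg s j))) := Iff.rfl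
    rw [e] at h1
    split
    · by_cases hp : satL R φ (fun j => c (asg s j))
      · by_cases hq : satL R ψ (fun j => c (asg s j))
        · exact ⟨(Nat.pair (code ψ) (Encodable.encode s), true), by simp, hψ.mpr hq⟩
        · refine ⟨(Nat.pair (code (.imp φ ψ)) (Encodable.encode s), false), by simp, ?_⟩
          simp only
          rw [← Bool.not_eq_true, h1]
          exact fun h => hq (h hp)
      · refine ⟨(Nat.pair (code φ) (Encodable.encode s), false), by simp, ?_⟩
        simp only
        rw [← Bool.not_eq_true, hφ]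
        exact hp
    · split
      · by_cases hp : satL R φ (fun j => c (asg s j))
        · exact ⟨(Nat.pair (code φ) (Encodable.encode s), true), by simp, hφ.mpr hp⟩
        · exact ⟨(Nat.pair (code (.imp φ ψ)) (Encodable.encode s), true), by simp,
            h1.mpr (fun h => absurd h hp)⟩
      · by_cases hq : satL R ψ (fun j => c (asg s j))
        · exact ⟨(Nat.pair (code (.imp φ ψ)) (Encodable.encode s), true), by simp,
            h1.mpr (fun _ => hq)⟩
        · refine ⟨(Nat.pair (code ψ) (Encodable.encode s), false), by simp, ?_⟩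
          simp only
          rw [← Bool.not_eq_true, hψ]
          exact hq
  | all i φ =>
    rw [cl_all]
    have h1 := XR_iff R c (.all i φ) s
    have e : satL R (.all i φ) (fun j => c (asg s j)) ↔
      ∀ x, satL R φ (update (fun j => c (asg s j)) i x) := Iff.rfl
    split
    · by_cases ha : satL R (.all i φ) (fun j => c (asg s j))
      · refine ⟨(Nat.pair (code φ) (Encodable.encode ((i, k) :: s)), true), by simp, ?_⟩
        simp only
        rw [XR_iff, comp_asg_cons]
        exact e.mp ha (c k)
      · refine ⟨(Nat.pair (code (.all i φ)) (Encodable.encode s), false), by simp, ?_⟩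
        simp only
        rw [← Bool.not_eq_true, h1]
        exact ha
    · by_cases ha : satL R (.all i φ) (fun j => c (asg s j))
      · exact ⟨(Nat.pair (code (.all i φ)) (Encodable.encode s), true), by simp, h1.mpr ha⟩
      · obtain ⟨k', hk', hk2⟩ := hw i φ s ha
        refine ⟨(Nat.pair (code φ) (Encodable.encode ((i, k') :: s)), false), ?_, ?_⟩
        · refine List.mem_cons_of_mem _ (List.mem_map.mpr ⟨k', ?_, rfl⟩)
          rw [List.mem_range]
          omega
        · simp only
          rw [XR_iff', comp_asg_cons]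
          exact hk2

/-! ### Doubling -/

theorem seg_double (A : ℕ → ℕ) (t : ℕ) :
    seg (fun m => if m % 2 = 0 then 0 else A (m / 2)) (2 * t) =
      (seg A t).flatMap (fun a => [0, a]) := by
  induction t with
  | zero => rfl
  | succ t ih =>
    have h1 : ∀ (B : ℕ → ℕ) (n : ℕ), seg B (n + 1) = seg B n ++ [B n] := by
      intro B n
      unfold seg
      rw [List.range_succ, List.map_append]
      rfl
    have h2 : 2 * (t + 1) = (2 * t + 1) + 1 := by ring
    rw [h2, h1, h1, h1, ih, List.flatMap_append, List.append_assoc]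
    congr 1
    have h3 : (2 * t) % 2 = 0 := by omega
    have h4 : ¬ (2 * t + 1) % 2 = 0 := by omega
    have h5 : (2 * t + 1) / 2 = t := by omega
    simp only [h3, h4, h5, if_true, if_false, List.flatMap_cons, List.flatMap_nil,
      List.append_nil, List.cons_append, List.nil_append]

end Henkin

open Henkin

theorem henkin_of_clauses
    (clauses : ∀ (A : ℕ → ℕ) (C : ℕ → ℕ → List (ℕ × Bool)) (_ : Computable₂ C)
      (_ : ∃ X : ℕ → Bool, ∀ m, ∃ l ∈ C m (A m), X l.1 = l.2),
      ∃ (X : ℕ → Bool) (γ : ℕ → List ℕ → Bool), Computable₂ γ ∧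
        (∀ m, ∃ l ∈ C m (A m), X l.1 = l.2) ∧
        ∀ k, ∃ s₀, ∀ s ≥ s₀, γ k (seg A s) = X k)
    (A : ℕ → ℕ) (g : ℕ → ℕ → ℕ) (hg : Computable₂ g) (M : Type) [Infinite M]
    (R : LStr M) (m₀ : M) (hM : ∀ n φ, code φ = g n (A n) → satL R φ (fun _ => m₀)) :
    ∃ (R' : LStr ℕ) (γ : ℕ → List ℕ → Bool), Computable₂ γ ∧
      (∀ n φ, code φ = g n (A n) → satL R' φ (fun _ => 0)) ∧
      ∀ (φ : LFml) (s : List (ℕ × ℕ)), ∃ t₀, ∀ t ≥ t₀,
        (γ (Nat.pair (code φ) (Encodable.encode s)) (seg A t) = true ↔ satL R' φ (asg s)) := by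
  obtain ⟨c, hc0, hcinj, hw⟩ := exists_naming R m₀
  let A' : ℕ → ℕ := fun m => if m % 2 = 0 then 0 else A (m / 2)
  let C : ℕ → ℕ → List (ℕ × Bool) := fun m a =>
    bif decide (m % 2 = 0) then D (m / 2) else [(Nat.pair (g (m / 2) a) 0, true)]
  have hC : Computable₂ C := by
    have hm : Computable (fun x : ℕ × ℕ => x.1 / 2) :=
      (Primrec.nat_div.comp Primrec.fst (Primrec.const 2)).to_comp
    apply Computable.cond
    · exact ((Primrec.eq.comp (Primrec.nat_mod.comp Primrec.fst (Primrec.const 2))
        (Primrec.const 0)).decide).to_comp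
    · exact primrec_D.to_comp.comp hm
    · refine Computable.list_cons.comp (Computable.pair ?_ (Computable.const true))
        (Computable.const [])
      exact Primrec₂.natPair.to_comp.comp (hg.comp hm Computable.snd) (Computable.const 0)
  have hC0 : ∀ n a, C (2 * n) a = D n := by
    intro n a
    have h1 : (2 * n) % 2 = 0 := by omega
    have h2 : (2 * n) / 2 = n := by omega
    simp only [C, h1, h2, decide_true, cond_true]
  have hC1 : ∀ n a, C (2 * n + 1) a = [(Nat.pair (g n a) 0, true)] := by
    intro n a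
    have h1 : ¬ (2 * n + 1) % 2 = 0 := by omega
    have h2 : (2 * n + 1) / 2 = n := by omega
    simp only [C, h1, h2, decide_false, cond_false]
  have hA1 : ∀ n, A' (2 * n + 1) = A n := by
    intro n
    have h1 : ¬ (2 * n + 1) % 2 = 0 := by omega
    have h2 : (2 * n + 1) / 2 = n := by omega
    simp only [A', h1, h2, if_false]
  obtain ⟨X, γ, hγ, hX, hlim⟩ := clauses A' C hC ⟨XR R c, by
    intro m
    rcases Nat.even_or_odd' m with ⟨n, rfl | rfl⟩
    · rw [hC0]
      exact sat_D R c hcinj hw n
    · rw [hC1, hA1]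
      refine ⟨_, List.mem_singleton_self _, ?_⟩
      simp only
      have h := XR_iff R c (dec (g n (A n))) []
      rw [code_dec, encode_nil] at h
      rw [h]
      have h2 : (fun j => c (asg [] j)) = fun _ => m₀ := by
        funext j
        exact hc0
      rw [h2]
      exact hM n _ (code_dec _)⟩
  have hXD : ∀ n, ∃ l ∈ D n, X l.1 = l.2 := by
    intro n
    have := hX (2 * n)
    rwa [hC0] at this
  refine ⟨strX X, fun k σ => γ k (σ.flatMap (fun a => [0, a])), ?_, ?_, ?_⟩
  · refine hγ.comp Computable.fst ?_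
    refine (Primrec.list_flatMap Primrec.snd ?_).to_comp
    exact Primrec.list_cons.comp (Primrec.const 0)
      (Primrec.list_cons.comp Primrec.snd (Primrec.const []))
  · intro n φ hφ
    have h := truth X hXD φ []
    have h0 : (fun _ => 0 : ℕ → ℕ) = asg [] := by funext j; rfl
    rw [h0, h]
    have h1 := hX (2 * n + 1)
    rw [hC1, hA1, ← hφ] at h1
    obtain ⟨l, hl, hl2⟩ := h1
    rw [List.mem_singleton] at hl
    subst hl
    exact hl2
  · intro φ s
    obtain ⟨s₀, hs₀⟩ := hlim (Nat.pair (code φ) (Encodable.encode s))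
    refine ⟨s₀, ?_⟩
    intro t ht
    show γ (Nat.pair (code φ) (Encodable.encode s)) ((seg A t).flatMap (fun a => [0, a])) = true ↔
      satL (strX X) φ (asg s)
    rw [← seg_double, truth X hXD]
    have := hs₀ (2 * t) (by omega)
    rw [← this]

end H97.PAS
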