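import Pool.Agent.Helper97.PAS.Base

/-!
# Recursively enumerable sets are Sigma_1 with an absolute matrix
-/

set_option autoImplicit false

namespace H97.PAS

open Function

namespace Sig

/-! ### semantic classes of terms and bounded formulas, with de Bruijn indices -/

/-- environments -/
abbrev E : Type := ℕ → ℕ

/-- functions given by terms -/
inductive T0 : (E → ℕ) → Prop
  | var (i : ℕ) : T0 (fun e => e i)
  | zero : T0 (fun _ => 0)
  | succ {f : E → ℕ} : T0 f → T0 (fun e => f e + 1)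
  | add {f g : E → ℕ} : T0 f → T0 g → T0 (fun e => f e + g e)
  | mul {f g : E → ℕ} : T0 f → T0 g → T0 (fun e => f e * g e)

/-- push -/
def cns (x : ℕ) (e : E) : E
  | 0 => x
  | n + 1 => e n

/-- pop -/
def tl (e : E) : E := fun n => e (n + 1)

/-- bounded formulas -/
inductive D0 : (E → Prop) → Prop
  | eq {f g : E → ℕ} : T0 f → T0 g → D0 (fun e => f e = g e)
  | bot : D0 (fun _ => False)
  | imp {S S' : E → Prop} : D0 S → D0 S' → D0 (fun e => S e → S' e)
  | ball {f : E → ℕ} {S : E → Prop} : T0 f → D0 S → D0 (fun e => ∀ x ≤ f e, S (cns x e))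

theorem T0.lift {f : E → ℕ} (h : T0 f) : T0 (fun e => f (tl e)) := by
  induction h with
  | var i => exact T0.var (i + 1)
  | zero => exact T0.zero
  | succ _ ih => exact ih.succ
  | add _ _ ih1 ih2 => exact ih1.add ih2
  | mul _ _ ih1 ih2 => exact ih1.mul ih2

theorem D0.congr {S S' : E → Prop} (h : D0 S) (hh : ∀ e, S e ↔ S' e) : D0 S' := by
  have : S = S' := funext fun e => propext (hh e)
  rwa [← this]

theorem D0.all {f : E → ℕ} (hf : T0 f) {S : ℕ → E → Prop} (hS : D0 (fun e => S (e 0) (tl e))) :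
    D0 (fun e => ∀ x ≤ f e, S x e) := D0.ball hf hS

theorem D0.not {S : E → Prop} (h : D0 S) : D0 (fun e => ¬ S e) := h.imp D0.bot

theorem D0.and {S S' : E → Prop} (h : D0 S) (h' : D0 S') : D0 (fun e => S e ∧ S' e) :=
  (h.imp h'.not).not.congr fun e => by tauto

theorem D0.or {S S' : E → Prop} (h : D0 S) (h' : D0 S') : D0 (fun e => S e ∨ S' e) :=
  (h.not.imp h').congr fun e => by tauto

theorem D0.ex {f : E → ℕ} (hf : T0 f) {S : ℕ → E → Prop} (hS : D0 (fun e => S (e 0) (tl e))) :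
    D0 (fun e => ∃ x ≤ f e, S x e) := by
  have h := (D0.all hf (S := fun x e => ¬ S x e) hS.not).not
  refine h.congr fun e => ?_
  push Not
  rfl

theorem D0.le {f g : E → ℕ} (hf : T0 f) (hg : T0 g) : D0 (fun e => f e ≤ g e) := by
  refine (D0.ex hg (S := fun z e => z + f e = g e) (D0.eq ((T0.var 0).add hf.lift) hg.lift)).congr
    fun e => ?_
  constructor
  · rintro ⟨z, -, h⟩; omega
  · intro h; exact ⟨g e - f e, by omega, by omega⟩

theorem D0.lt {f g : E → ℕ} (hf : T0 f) (hg : T0 g) : D0 (fun e => f e < g e) := D0.le hf.succ hg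

theorem D0.pair {a b p : E → ℕ} (ha : T0 a) (hb : T0 b) (hp : T0 p) :
    D0 (fun e => p e = Nat.pair (a e) (b e)) := by
  refine (((D0.lt ha hb).and (D0.eq hp ((hb.mul hb).add ha))).or
    ((D0.lt ha hb).not.and (D0.eq hp (((ha.mul ha).add ha).add hb)))).congr fun e => ?_
  rw [Nat.pair]
  split_ifs with h
  · simp [h]
  · simp [h]

theorem D0.beta {c d i u : E → ℕ} (hc : T0 c) (hd : T0 d) (hi : T0 i) (hu : T0 u) :
    D0 (fun e => u e = c e % ((i e + 1) * d e + 1)) := by
  have hm : T0 (fun e => (i e + 1) * d e + 1) := (hi.succ.mul hd).succ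
  refine ((D0.lt hu hm).and (D0.ex hc (S := fun q e => q * ((i e + 1) * d e + 1) + u e = c e)
    (D0.eq (((T0.var 0).mul hm.lift).add hu.lift) hc.lift))).congr fun e => ?_
  constructor
  · rintro ⟨h1, q, -, h2⟩
    rw [← h2, mul_comm, Nat.mul_add_mod, Nat.mod_eq_of_lt h1]
  · intro h
    have hpos : 0 < (i e + 1) * d e + 1 := Nat.succ_pos _
    refine ⟨by rw [h]; exact Nat.mod_lt _ hpos, c e / ((i e + 1) * d e + 1), Nat.div_le_self _ _, ?_⟩
    rw [h, mul_comm]
    exact Nat.div_add_mod _ _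

/-! ### graphs of primitive recursive functions -/

/-- the graph of `f` is `Sigma_1` -/
def SigF (f : ℕ → ℕ) : Prop := ∃ T : ℕ → ℕ → ℕ → Prop,
  (∀ x y s : E → ℕ, T0 x → T0 y → T0 s → D0 (fun e => T (x e) (y e) (s e))) ∧
    ∀ x y, y = f x ↔ ∃ s, T x y s

theorem SigF.zero : SigF (fun _ => 0) :=
  ⟨fun _ y _ => y = 0, fun _ _ _ _ hy _ => D0.eq hy T0.zero, fun x y => by simp⟩

theorem SigF.succ : SigF Nat.succ :=
  ⟨fun x y _ => y = x + 1, fun _ _ _ hx hy _ => D0.eq hy hx.succ, fun x y => by simp⟩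

theorem SigF.left : SigF (fun n => n.unpair.1) :=
  ⟨fun x y _ => ∃ z ≤ x, x = Nat.pair y z, fun _ _ _ hx hy _ =>
    D0.ex hx (D0.pair hy.lift (T0.var 0) hx.lift), fun x y => by
      constructor
      · rintro rfl
        exact ⟨0, x.unpair.2, Nat.unpair_right_le x, (Nat.pair_unpair x).symm⟩
      · rintro ⟨-, z, -, rfl⟩
        simp⟩

theorem SigF.right : SigF (fun n => n.unpair.2) :=
  ⟨fun x y _ => ∃ z ≤ x, x = Nat.pair z y, fun _ _ _ hx hy _ =>
    D0.ex hx (D0.pair (T0.var 0) hy.lift hx.lift), fun x y => by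
      constructor
      · rintro rfl
        exact ⟨0, x.unpair.1, Nat.unpair_left_le x, (Nat.pair_unpair x).symm⟩
      · rintro ⟨-, z, -, rfl⟩
        simp⟩

theorem SigF.pair {f g : ℕ → ℕ} (hf : SigF f) (hg : SigF g) : SigF (fun n => Nat.pair (f n) (g n)) := by
  obtain ⟨Tf, hf1, hf2⟩ := hf
  obtain ⟨Tg, hg1, hg2⟩ := hg
  refine ⟨fun x y s => ∃ a ≤ s, ∃ b ≤ s, y = Nat.pair a b ∧ (∃ s1 ≤ s, Tf x a s1) ∧
    (∃ s2 ≤ s, Tg x b s2), ?_, ?_⟩
  · intro x y s hx hy hs
    refine D0.ex hs (D0.ex hs.lift ((D0.pair (T0.var 1) (T0.var 0) hy.lift.lift).and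
      (D0.and (D0.ex hs.lift.lift (hf1 _ _ _ hx.lift.lift.lift (T0.var 2) (T0.var 0)))
        (D0.ex hs.lift.lift (hg1 _ _ _ hx.lift.lift.lift (T0.var 1) (T0.var 0))))))
  · intro x y
    constructor
    · rintro rfl
      obtain ⟨s1, h1⟩ := (hf2 x _).1 rfl
      obtain ⟨s2, h2⟩ := (hg2 x _).1 rfl
      exact ⟨f x + g x + s1 + s2, f x, by omega, g x, by omega, rfl, ⟨s1, by omega, h1⟩,
        ⟨s2, by omega, h2⟩⟩
    · rintro ⟨s, a, -, b, -, rfl, ⟨s1, -, h1⟩, ⟨s2, -, h2⟩⟩
      rw [(hf2 x a).2 ⟨s1, h1⟩, (hg2 x b).2 ⟨s2, h2⟩]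

theorem SigF.comp {f g : ℕ → ℕ} (hf : SigF f) (hg : SigF g) : SigF (fun n => f (g n)) := by
  obtain ⟨Tf, hf1, hf2⟩ := hf
  obtain ⟨Tg, hg1, hg2⟩ := hg
  refine ⟨fun x y s => ∃ z ≤ s, (∃ s1 ≤ s, Tg x z s1) ∧ (∃ s2 ≤ s, Tf z y s2), ?_, ?_⟩
  · intro x y s hx hy hs
    refine D0.ex hs (D0.and (D0.ex hs.lift (hg1 _ _ _ hx.lift.lift (T0.var 1) (T0.var 0)))
        (D0.ex hs.lift (hf1 _ _ _ (T0.var 1) hy.lift.lift (T0.var 0))))
  · intro x y
    constructor
    · rintro rfl
      obtain ⟨s1, h1⟩ := (hg2 x _).1 rfl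
      obtain ⟨s2, h2⟩ := (hf2 (g x) _).1 rfl
      exact ⟨g x + s1 + s2, g x, by omega, ⟨s1, by omega, h1⟩, ⟨s2, by omega, h2⟩⟩
    · rintro ⟨s, z, -, ⟨s1, -, h1⟩, ⟨s2, -, h2⟩⟩
      show y = f (g x)
      rw [← (hg2 x z).2 ⟨s1, h1⟩, (hf2 z y).2 ⟨s2, h2⟩]

theorem SigF.prec {f g : ℕ → ℕ} (hf : SigF f) (hg : SigF g) :
    SigF (Nat.unpaired fun z n => n.rec (f z) fun y IH => g (Nat.pair z (Nat.pair y IH))) := by
  obtain ⟨Tf, hf1, hf2⟩ := hf
  obtain ⟨Tg, hg1, hg2⟩ := hg
  refine ⟨fun x y s => ∃ c ≤ s, ∃ d ≤ s, ∃ z ≤ x, ∃ n ≤ x, x = Nat.pair z n ∧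
    (∃ u ≤ s, u = c % ((0 + 1) * d + 1) ∧ ∃ s1 ≤ s, Tf z u s1) ∧
    (∀ i ≤ n, i < n → ∃ u ≤ s, ∃ w ≤ s, u = c % ((i + 1) * d + 1) ∧
      w = c % ((i + 1 + 1) * d + 1) ∧ ∃ q ≤ s, ∃ p ≤ s, q = Nat.pair i u ∧ p = Nat.pair z q ∧
        ∃ s2 ≤ s, Tg p w s2) ∧ y = c % ((n + 1) * d + 1), ?_, ?_⟩
  · intro x y s hx hy hs
    -- c = 3, d = 2, z = 1, n = 0
    refine D0.ex hs (D0.ex hs.lift (D0.ex hx.lift.lift (D0.ex hx.lift.lift.lift
      (D0.and ?_ (D0.and ?_ (D0.and ?_ ?_))))))
    · exact D0.pair (T0.var 1) (T0.var 0) hx.lift.lift.lift.lift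
    · exact D0.ex hs.lift.lift.lift.lift (D0.and (D0.beta (T0.var 4) (T0.var 3) T0.zero (T0.var 0))
        (D0.ex hs.lift.lift.lift.lift.lift (hf1 _ _ _ (T0.var 3) (T0.var 1) (T0.var 0))))
    · -- i = 0, n = 1, z = 2, d = 3, c = 4
      refine D0.all (T0.var 0) (D0.imp (D0.lt (T0.var 0) (T0.var 1)) ?_)
      -- u = 0, i = 1, n = 2, z = 3, d = 4, c = 5
      refine D0.ex hs.lift.lift.lift.lift.lift ?_
      -- w = 0, u = 1, i = 2, n = 3, z = 4, d = 5, c = 6
      refine D0.ex hs.lift.lift.lift.lift.lift.lift ?_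
      refine D0.and (D0.beta (T0.var 6) (T0.var 5) (T0.var 2) (T0.var 1))
        (D0.and (D0.beta (T0.var 6) (T0.var 5) (T0.var 2).succ (T0.var 0)) ?_)
      refine D0.ex hs.lift.lift.lift.lift.lift.lift.lift ?_
      refine D0.ex hs.lift.lift.lift.lift.lift.lift.lift.lift ?_
      -- p = 0, q = 1, w = 2, u = 3, i = 4, n = 5, z = 6, d = 7, c = 8
      refine D0.and (D0.pair (T0.var 4) (T0.var 3) (T0.var 1)) (D0.and
        (D0.pair (T0.var 6) (T0.var 1) (T0.var 0)) ?_)
      exact D0.ex hs.lift.lift.lift.lift.lift.lift.lift.lift.lift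
        (hg1 _ _ _ (T0.var 1) (T0.var 3) (T0.var 0))
    · exact D0.beta (T0.var 3) (T0.var 2) (T0.var 0) hy.lift.lift.lift.lift
  · intro x y
    set z := x.unpair.1 with hz
    set n := x.unpair.2 with hn
    have hx : x = Nat.pair z n := (Nat.pair_unpair x).symm
    set r : ℕ → ℕ := fun m => Nat.rec (f z) (fun y IH => g (Nat.pair z (Nat.pair y IH))) m with hr
    have hr0 : r 0 = f z := rfl
    have hrs : ∀ m, r (m + 1) = g (Nat.pair z (Nat.pair m (r m))) := fun m => rfl
    show y = r n ↔ _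
    constructor
    · rintro rfl
      set L : List ℕ := (List.range (n + 1)).map r with hL
      set b := Nat.unbeta L with hb
      have hlen : L.length = n + 1 := by simp [hL]
      have hbeta : ∀ i ≤ n, r i = b.unpair.1 % ((i + 1) * b.unpair.2 + 1) := by
        intro i hi
        have h1 := Nat.beta_unbeta_coe L ⟨i, by omega⟩
        rw [Nat.beta] at h1
        simp only at h1
        rw [← hb] at h1
        rw [h1]
        simp [hL]
      have hS : ∀ i, ∃ s, Tg (Nat.pair z (Nat.pair i (r i))) (r (i + 1)) s := fun i =>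
        (hg2 _ _).1 (hrs i)
      choose σ hσ using hS
      obtain ⟨s1, h1⟩ := (hf2 z _).1 hr0
      set B : ℕ → ℕ := fun i => σ i + Nat.pair z (Nat.pair i (r i)) + Nat.pair i (r i) + r i + r (i + 1)
        with hB
      set s := b.unpair.1 + b.unpair.2 + s1 + r 0 + ∑ i ∈ Finset.range n, B i with hs
      have hBs : ∀ i < n, B i ≤ s := by
        intro i hi
        have := Finset.single_le_sum (f := B) (fun _ _ => Nat.zero_le _) (Finset.mem_range.2 hi)
        omega
      refine ⟨s, b.unpair.1, by omega, b.unpair.2, by omega, z, Nat.unpair_left_le x, n,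
        Nat.unpair_right_le x, hx, ⟨r 0, by omega, ?_, s1, by omega, h1⟩, ?_, hbeta n le_rfl⟩
      · exact hbeta 0 (Nat.zero_le _)
      · intro i hi hin
        have h2 := hBs i hin
        rw [hB] at h2
        simp only at h2
        exact ⟨r i, by omega, r (i + 1), by omega, hbeta i hi, hbeta (i + 1) hin,
          Nat.pair i (r i), by omega, Nat.pair z (Nat.pair i (r i)), by omega, rfl, rfl,
          σ i, by omega, hσ i⟩
    · rintro ⟨s, c, -, d, -, z', -, n', -, hx', ⟨u, -, hu, s1, -, h1⟩, h2, rfl⟩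
      have hzz : z' = z ∧ n' = n := by
        rw [hx] at hx'
        exact (Nat.pair_eq_pair.1 hx').imp Eq.symm Eq.symm
      obtain ⟨rfl, rfl⟩ := hzz
      have key : ∀ i ≤ n, c % ((i + 1) * d + 1) = r i := by
        intro i
        induction i with
        | zero =>
          intro _
          rw [← hu, hr0]
          exact (hf2 _ _).2 ⟨s1, h1⟩
        | succ i ih =>
          intro hi
          obtain ⟨u, -, w, -, hu, hw, q, -, p, -, rfl, rfl, s2, -, h3⟩ := h2 i (by omega) (by omega)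
          rw [← hw, hrs, ← ih (by omega), ← hu]
          exact (hg2 _ _).2 ⟨s2, h3⟩
      exact key n le_rfl

theorem SigF.of_primrec {f : ℕ → ℕ} (h : Nat.Primrec f) : SigF f := by
  induction h with
  | zero => exact SigF.zero
  | succ => exact SigF.succ
  | left => exact SigF.left
  | right => exact SigF.right
  | pair _ _ ih1 ih2 => exact ih1.pair ih2
  | comp _ _ ih1 ih2 => exact ih1.comp ih2
  | prec _ _ ih1 ih2 => exact ih1.prec ih2

/-- every r.e. set has a bounded matrix -/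
theorem re_matrix {S : Set ℕ} (hS : REPred (· ∈ S)) : ∃ T : ℕ → ℕ → Prop,
    D0 (fun e => T (e 0) (e 1)) ∧ ∀ n, n ∈ S ↔ ∃ s, T n s := by
  have h1 : Nat.Partrec (fun n : ℕ => (Part.assert (n ∈ S) fun _ => Part.some ()).map (fun _ => 0)) :=
    Partrec.nat_iff.1 (Partrec.map hS (Computable.const 0).to₂)
  obtain ⟨c, hc⟩ := Nat.Partrec.Code.exists_code.1 h1
  have hdom : ∀ n, n ∈ S ↔ ∃ k, (Nat.Partrec.Code.evaln k c n).isSome := by
    intro n
    have h2 : n ∈ S ↔ (0 : ℕ) ∈ Nat.Partrec.Code.eval c n := by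
      rw [hc]
      simp [Part.mem_map_iff, Part.mem_assert_iff]
    rw [h2]
    constructor
    · intro h3
      obtain ⟨k, hk⟩ := Nat.Partrec.Code.evaln_complete.1 h3
      refine ⟨k, ?_⟩
      rw [Option.mem_def] at hk
      rw [hk]; rfl
    · rintro ⟨k, hk⟩
      obtain ⟨y, hy⟩ := Option.isSome_iff_exists.1 hk
      have h3 : y ∈ Nat.Partrec.Code.eval c n := Nat.Partrec.Code.evaln_complete.2 ⟨k, hy⟩
      rw [hc] at h3
      have h4 : y = 0 := by
        rw [Part.mem_map_iff] at h3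
        obtain ⟨-, -, h5⟩ := h3
        exact h5.symm
      rw [h4] at h3
      rw [hc]
      exact h3
  set F : ℕ → ℕ := fun m =>
    cond (Nat.Partrec.Code.evaln m.unpair.2 c m.unpair.1).isSome 0 1 with hF
  have hFp : Primrec F := by
    refine Primrec.cond ?_ (Primrec.const 0) (Primrec.const 1)
    refine Primrec.option_isSome.comp (Nat.Partrec.Code.primrec_evaln.comp
      (f := fun a : (ℕ × Nat.Partrec.Code) × ℕ => Nat.Partrec.Code.evaln a.1.1 a.1.2 a.2)
      (g := fun m : ℕ => ((m.unpair.2, c), m.unpair.1)) ?_)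
    exact Primrec.pair (Primrec.pair (Primrec.snd.comp Primrec.unpair) (Primrec.const c))
      (Primrec.fst.comp Primrec.unpair)
  obtain ⟨T, hT1, hT2⟩ := SigF.of_primrec (Primrec.nat_iff.1 hFp)
  refine ⟨fun n s => ∃ k ≤ s, ∃ m ≤ s, m = Nat.pair n k ∧ ∃ s' ≤ s, T m 0 s', ?_, ?_⟩
  · refine D0.ex (T0.var 1) (D0.ex (T0.var 2) (D0.and (D0.pair (T0.var 2) (T0.var 1) (T0.var 0)) ?_))
    exact D0.ex (T0.var 3) (hT1 _ _ _ (T0.var 1) T0.zero (T0.var 0))
  · intro n
    rw [hdom]
    have hval : ∀ k, (Nat.Partrec.Code.evaln k c n).isSome ↔ ∃ s, T (Nat.pair n k) 0 s := by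
      intro k
      rw [← hT2, hF]
      simp only [Nat.unpair_pair]
      cases (Nat.Partrec.Code.evaln k c n).isSome <;> simp
    constructor
    · rintro ⟨k, hk⟩
      obtain ⟨s', hs'⟩ := (hval k).1 hk
      exact ⟨k + Nat.pair n k + s', k, by omega, Nat.pair n k, by omega, rfl, s', by omega, hs'⟩
    · rintro ⟨s, k, -, m, -, rfl, s', -, hs'⟩
      exact ⟨k, (hval k).2 ⟨s', hs'⟩⟩

/-! ### from semantic to syntactic -/

theorem T0.conv {f : E → ℕ} (h : T0 f) (N : ℕ) (ρ : ℕ → ℕ) (hρ : ∀ i, ρ i < N) :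
    ∃ t : Tm, (∀ k, t.Occ k → k < N) ∧ ∀ v : ℕ → ℕ, t.val std v = f (fun i => v (ρ i)) := by
  induction h with
  | var i => exact ⟨.var (ρ i), fun k hk => by rw [show k = ρ i from hk]; exact hρ i, fun v => rfl⟩
  | zero => exact ⟨.zero, fun k hk => hk.elim, fun v => rfl⟩
  | succ _ ih =>
    obtain ⟨t, h1, h2⟩ := ih
    exact ⟨.succ t, h1, fun v => congrArg Nat.succ (h2 v)⟩
  | add _ _ ih1 ih2 =>
    obtain ⟨t, h1, h2⟩ := ih1
    obtain ⟨t', h1', h2'⟩ := ih2
    exact ⟨.add t t', fun k hk => hk.elim (h1 k) (h1' k), fun v => by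
      show t.val std v + t'.val std v = _
      rw [h2, h2']⟩
  | mul _ _ ih1 ih2 =>
    obtain ⟨t, h1, h2⟩ := ih1
    obtain ⟨t', h1', h2'⟩ := ih2
    exact ⟨.mul t t', fun k hk => hk.elim (h1 k) (h1' k), fun v => by
      show t.val std v * t'.val std v = _
      rw [h2, h2']⟩

/-! numerals -/

section
variable {M : Type} {A : AStr M}

theorem num_zero : num A 0 = A.zero := rfl

theorem num_succ (n : ℕ) : num A (n + 1) = A.succ (num A n) := by
  rw [num, iterate_succ_apply', ← num]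

theorem num_add (hA : IsPA A) (a b : ℕ) : num A (a + b) = A.add (num A a) (num A b) := by
  induction b with
  | zero => rw [Nat.add_zero, num_zero, hA.add_zero]
  | succ b ih => rw [← Nat.add_assoc, num_succ, num_succ, hA.add_succ, ih]

theorem num_mul (hA : IsPA A) (a b : ℕ) : num A (a * b) = A.mul (num A a) (num A b) := by
  induction b with
  | zero => rw [Nat.mul_zero, num_zero, hA.mul_zero]
  | succ b ih => rw [Nat.mul_succ, num_succ, hA.mul_succ, num_add hA, ih]

theorem num_inj (hA : IsPA A) {a b : ℕ} (h : num A a = num A b) : a = b := by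
  induction a generalizing b with
  | zero =>
    cases b with
    | zero => rfl
    | succ b => rw [num_succ, num_zero] at h; exact absurd h.symm (hA.succ_ne_zero _)
  | succ a ih =>
    cases b with
    | zero => rw [num_succ, num_zero] at h; exact absurd h (hA.succ_ne_zero _)
    | succ b =>
      rw [num_succ, num_succ] at h
      rw [ih (hA.succ_inj _ _ h)]

theorem zero_or_succ' (hA : IsPA A) (x : M) : x = A.zero ∨ ∃ y, x = A.succ y := by
  have h := hA.ind (.imp (.imp (.atom (.var 0, .zero)) .bot)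
    (.imp (.all 1 (.imp (.atom (.var 0, .succ (.var 1))) .bot)) .bot)) 0 (fun _ => x)
  have hsat : ∀ z : M, satA A (.imp (.imp (.atom (.var 0, .zero)) .bot)
      (.imp (.all 1 (.imp (.atom (.var 0, .succ (.var 1))) .bot)) .bot)) (update (fun _ => x) 0 z) ↔
      (z = A.zero ∨ ∃ y, z = A.succ y) := by
    intro z
    show (((z = A.zero → False) → ((∀ y : M, (z = A.succ y → False)) → False)) ↔ _)
    constructor
    · intro h1
      by_contra h2
      push Not at h2
      exact h1 h2.1 h2.2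
    · rintro h1 h2 h3
      rcases h1 with h1 | ⟨y, hy⟩
      · exact h2 h1
      · exact h3 y hy
  exact (hsat x).1 (h ((hsat _).2 (Or.inl rfl)) (fun y _ => (hsat _).2 (Or.inr ⟨y, rfl⟩)) x)

theorem le_num' (hA : IsPA A) {z x : M} {n : ℕ} (h : A.add z x = num A n) :
    ∃ k ≤ n, x = num A k := by
  induction n generalizing x with
  | zero =>
    rcases zero_or_succ' hA x with rfl | ⟨y, rfl⟩
    · exact ⟨0, le_rfl, rfl⟩
    · rw [hA.add_succ, num_zero] at h
      exact absurd h (hA.succ_ne_zero _)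
  | succ n ih =>
    rcases zero_or_succ' hA x with rfl | ⟨y, rfl⟩
    · exact ⟨0, Nat.zero_le _, rfl⟩
    · rw [hA.add_succ, num_succ] at h
      obtain ⟨k, hk, rfl⟩ := ih (hA.succ_inj _ _ h)
      exact ⟨k + 1, by omega, (num_succ k).symm⟩

theorem val_num (hA : IsPA A) (t : Tm) (v : ℕ → ℕ) :
    t.val A (fun i => num A (v i)) = num A (t.val std v) := by
  induction t with
  | var i => rfl
  | zero => rfl
  | succ t ih =>
    show A.succ _ = num A (t.val std v + 1)
    rw [ih, num_succ]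
  | add s t ih1 ih2 =>
    show A.add _ _ = num A (s.val std v + t.val std v)
    rw [ih1, ih2, num_add hA]
  | mul s t ih1 ih2 =>
    show A.mul _ _ = num A (s.val std v * t.val std v)
    rw [ih1, ih2, num_mul hA]

theorem val_congr (t : Tm) {v w : ℕ → M} (h : ∀ k, t.Occ k → v k = w k) : t.val A v = t.val A w := by
  induction t with
  | var i => exact h i rfl
  | zero => rfl
  | succ t ih => exact congrArg A.succ (ih h)
  | add s t ih1 ih2 =>
    exact congrArg₂ A.add (ih1 fun k hk => h k (Or.inl hk)) (ih2 fun k hk => h k (Or.inr hk))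
  | mul s t ih1 ih2 =>
    exact congrArg₂ A.mul (ih1 fun k hk => h k (Or.inl hk)) (ih2 fun k hk => h k (Or.inr hk))

end

/-- `∀ v_N ≤ t, θ` -/
def ballF (N : ℕ) (t : Tm) (θ : AFml) : AFml :=
  .all N (.imp (.imp (.all (N + 1) (.imp (.atom (.add (.var (N + 1)) (.var N), t)) .bot)) .bot) θ)

theorem satA_ballF {M : Type} (A : AStr M) {N : ℕ} {t : Tm} (ht : ∀ k, t.Occ k → k < N) (θ : AFml)
    (w : ℕ → M) : satA A (ballF N t θ) w ↔
      ∀ x : M, (∃ z, A.add z x = t.val A w) → satA A θ (update w N x) := by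
  have hv : ∀ x z : M, t.val A (update (update w N x) (N + 1) z) = t.val A w := by
    intro x z
    refine val_congr t fun k hk => ?_
    have := ht k hk
    rw [update_of_ne (by omega), update_of_ne (by omega)]
  have e1 : satA A (ballF N t θ) w ↔ ∀ x : M, (((∀ z : M,
      (A.add (update (update w N x) (N + 1) z (N + 1)) (update (update w N x) (N + 1) z N) =
        t.val A (update (update w N x) (N + 1) z) → False)) → False) → satA A θ (update w N x)) :=
    Iff.rfl
  rw [e1]
  refine forall_congr' fun x => ?_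
  have e2 : ((∀ z : M,
      (A.add (update (update w N x) (N + 1) z (N + 1)) (update (update w N x) (N + 1) z N) =
        t.val A (update (update w N x) (N + 1) z) → False)) → False) ↔
      ∃ z, A.add z x = t.val A w := by
    simp only [hv, update_self]
    rw [show (∀ z : M, (A.add z (update (update w N x) (N + 1) z N) = t.val A w → False)) ↔
      ∀ z : M, (A.add z x = t.val A w → False) from forall_congr' fun z => by
        rw [update_of_ne (by omega), update_self]]
    constructor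
    · intro h
      by_contra h2
      push Not at h2
      exact h h2
    · rintro ⟨z, hz⟩ h
      exact h z hz
  rw [e2]

theorem abs_ballF {N : ℕ} {t : Tm} (ht : ∀ k, t.Occ k → k < N) {θ : AFml} (hθ : Abs θ) :
    Abs (ballF N t θ) := by
  intro M A hA v
  rw [satA_ballF A ht, satA_ballF std ht, val_num hA]
  have hup : ∀ k : ℕ, (update (fun i => num A (v i)) N (num A k)) = fun i => num A (update v N k i) := by
    intro k
    ext i
    by_cases hi : i = N
    · subst hi; rw [update_self, update_self]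
    · rw [update_of_ne hi, update_of_ne hi]
  constructor
  · rintro h x ⟨z, hz⟩
    have h1 := h (num A x) ⟨num A z, by
      rw [← num_add hA]; exact congrArg _ hz⟩
    rw [hup, hθ M A hA] at h1
    exact h1
  · rintro h x ⟨z, hz⟩
    obtain ⟨k, hk, rfl⟩ := le_num' hA hz
    rw [hup, hθ M A hA]
    exact h k ⟨t.val std v - k, by
      show t.val std v - k + k = _
      omega⟩

theorem D0.conv {S : E → Prop} (h : D0 S) (N : ℕ) (ρ : ℕ → ℕ) (hρ : ∀ i, ρ i < N) :
    ∃ θ : AFml, Abs θ ∧ (∀ k, freeA θ k → k < N) ∧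
      ∀ v : ℕ → ℕ, satA std θ v ↔ S (fun i => v (ρ i)) := by
  induction h generalizing N ρ with
  | eq hf hg =>
    obtain ⟨t, h1, h2⟩ := hf.conv N ρ hρ
    obtain ⟨t', h1', h2'⟩ := hg.conv N ρ hρ
    refine ⟨.atom (t, t'), ?_, fun k hk => hk.elim (h1 k) (h1' k), fun v => ?_⟩
    · intro M A hA v
      show t.val A _ = t'.val A _ ↔ t.val std v = t'.val std v
      rw [val_num hA, val_num hA]
      exact ⟨fun h => num_inj hA h, fun h => congrArg _ h⟩
    · show t.val std v = t'.val std v ↔ _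
      rw [h2, h2']
  | bot => exact ⟨.bot, fun _ _ _ _ => Iff.rfl, fun k hk => hk.elim, fun v => Iff.rfl⟩
  | imp _ _ ih1 ih2 =>
    obtain ⟨θ, a1, a2, a3⟩ := ih1 N ρ hρ
    obtain ⟨θ', b1, b2, b3⟩ := ih2 N ρ hρ
    refine ⟨.imp θ θ', ?_, fun k hk => hk.elim (a2 k) (b2 k), fun v => ?_⟩
    · intro M A hA v
      exact imp_congr (a1 M A hA v) (b1 M A hA v)
    · exact imp_congr (a3 v) (b3 v)
  | @ball f S hf _ ih =>
    obtain ⟨t, h1, h2⟩ := hf.conv N ρ hρ
    obtain ⟨θ, a1, a2, a3⟩ := ih (N + 1) (cns N ρ) (fun i => by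
      cases i with
      | zero => exact Nat.lt_succ_self N
      | succ i => exact (hρ i).trans (Nat.lt_succ_self N))
    refine ⟨ballF N t θ, abs_ballF h1 a1, ?_, ?_⟩
    · rintro k ⟨hkN, hk⟩
      rcases hk with hk | hk
      · rcases hk with hk | hk
        · obtain ⟨hk1, hk⟩ := hk
          rcases hk with hk | hk
          · rcases hk with hk | hk
            · rcases hk with hk | hk
              · exact absurd hk hk1
              · exact absurd hk hkN
            · exact h1 k hk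
          · exact hk.elim
        · exact hk.elim
      · have := a2 k hk
        omega
    · intro v
      rw [satA_ballF std h1, h2]
      refine forall_congr' fun x => ?_
      refine imp_congr ?_ ?_
      · constructor
        · rintro ⟨z, hz⟩
          have : z + x = f (fun i => v (ρ i)) := hz
          omega
        · intro hx
          exact ⟨f (fun i => v (ρ i)) - x, by
            show f (fun i => v (ρ i)) - x + x = _
            omega⟩
      · rw [a3]
        have : (fun i => update v N x (cns N ρ i)) = cns x (fun i => v (ρ i)) := by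
          ext i
          cases i with
          | zero => exact update_self _ _ _
          | succ i => exact update_of_ne (hρ i).ne _ _
        rw [this]

end Sig

/-- every r.e. set is `Sigma_1` with an absolute matrix -/
theorem sigma1 (S : Set ℕ) (hS : REPred (· ∈ S)) : ∃ θ : AFml, Abs θ ∧
    (∀ k, freeA θ k → k < 2) ∧
    ∀ v : ℕ → ℕ, v 0 ∈ S ↔ ∃ s, satA std θ (update v 1 s) := by
  obtain ⟨T, hT, hST⟩ := Sig.re_matrix hS
  obtain ⟨θ, h1, h2, h3⟩ := hT.conv 2 (fun i => if i = 0 then 0 else 1) (fun i => by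
    show (if i = 0 then 0 else 1) < 2
    split_ifs <;> omega)
  refine ⟨θ, h1, h2, fun v => ?_⟩
  rw [hST]
  refine exists_congr fun s => ?_
  rw [h3]
  simp

end H97.PAS
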