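import Pool.Agent.Helper97.PAS.Base

/-!
# Module D0: a nonempty `Π⁰₁(A)` class has a member that is limit-computable in `A`
-/

namespace H97.PAS

open Function

namespace Clauses

/-- value at `i` given by the list `ρ` and, outside `ρ`, by the binary digits of `x`. -/
def valB (ρ : List Bool) (x i : ℕ) : Bool := (ρ[i]?).getD (x.testBit i)

/-- the table `T` of clauses restricted to indices `< n` can be satisfied extending `ρ`. -/
def Ext (T : List (List (ℕ × Bool))) (n : ℕ) (ρ : List Bool) : Prop :=
  ∃ x ∈ List.range (2 ^ n), ∀ cl ∈ T, ∃ l ∈ cl, n ≤ l.1 ∨ valB ρ x l.1 = l.2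

open Classical in
/-- Boolean version -/
noncomputable def extB (T : List (List (ℕ × Bool))) (n : ℕ) (ρ : List Bool) : Bool :=
  decide (Ext T n ρ)

/-- greedy string -/
noncomputable def rho (T : List (List (ℕ × Bool))) (n : ℕ) : ℕ → List Bool
  | 0 => []
  | k + 1 => rho T n k ++ [!(extB T n (rho T n k ++ [false]))]

/-- the table of clauses -/
def tabAux (C : ℕ → ℕ → List (ℕ × Bool)) (σ : List ℕ) : ℕ → List (List (ℕ × Bool))
  | 0 => []
  | m + 1 => tabAux C σ m ++ [C m (σ.getD m 0)]

theorem primrec_pow2 : Primrec (fun n : ℕ => 2 ^ n) := by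
  have h : Primrec (fun n : ℕ => Nat.rec (motive := fun _ => ℕ) 1 (fun _ r => r * 2) n) :=
    Primrec.nat_rec₁ 1 (Primrec.nat_mul.comp Primrec.snd (Primrec.const 2)).to₂
  refine h.of_eq ?_
  intro n
  induction n with
  | zero => rfl
  | succ n ih => rw [pow_succ, ← ih]

theorem primrec_testBit : Primrec₂ (fun x i : ℕ => x.testBit i) := by
  have h : Primrec₂ (fun x i : ℕ => decide (x / 2 ^ i % 2 = 1)) := by
    have h1 : Primrec (fun q : ℕ × ℕ => q.1 / 2 ^ q.2 % 2) :=
      Primrec.nat_mod.comp (Primrec.nat_div.comp Primrec.fst (primrec_pow2.comp Primrec.snd))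
        (Primrec.const 2)
    exact (Primrec.eq.comp h1 (Primrec.const 1)).decide
  refine h.of_eq ?_
  intro x i
  rw [Nat.testBit_eq_decide_div_mod_eq]

theorem primrec_valB : Primrec (fun q : List Bool × ℕ × ℕ => valB q.1 q.2.1 q.2.2) := by
  unfold valB
  exact Primrec.option_getD.comp
    (Primrec.list_getElem?.comp Primrec.fst (Primrec.snd.comp Primrec.snd))
    (primrec_testBit.comp (Primrec.fst.comp Primrec.snd) (Primrec.snd.comp Primrec.snd))

theorem primrec_ext : PrimrecPred (fun q : List (List (ℕ × Bool)) × ℕ × List Bool =>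
    Ext q.1 q.2.1 q.2.2) := by
  -- literal
  have h1 : PrimrecRel (fun (l : ℕ × Bool) (q : ℕ × ℕ × List Bool) =>
      q.2.1 ≤ l.1 ∨ valB q.2.2 q.1 l.1 = l.2) := by
    apply PrimrecPred.or
    · exact Primrec.nat_le.comp (Primrec.fst.comp (Primrec.snd.comp Primrec.snd))
        (Primrec.fst.comp Primrec.fst)
    · refine Primrec.eq.comp ?_ (Primrec.snd.comp Primrec.fst)
      exact primrec_valB.comp (Primrec.pair (Primrec.snd.comp (Primrec.snd.comp Primrec.snd))
        (Primrec.pair (Primrec.fst.comp Primrec.snd) (Primrec.fst.comp Primrec.fst)))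
  have h2 := h1.exists_mem_list.forall_mem_list
  -- rearrange
  have h3 : PrimrecRel (fun (x : ℕ) (q : List (List (ℕ × Bool)) × ℕ × List Bool) =>
      ∀ cl ∈ q.1, ∃ l ∈ cl, q.2.1 ≤ l.1 ∨ valB q.2.2 x l.1 = l.2) := by
    have := PrimrecRel.comp h2 (f := fun r : ℕ × (List (List (ℕ × Bool)) × ℕ × List Bool) => r.2.1)
      (g := fun r : ℕ × (List (List (ℕ × Bool)) × ℕ × List Bool) => (r.1, r.2.2.1, r.2.2.2))
      (Primrec.fst.comp Primrec.snd)
      (Primrec.pair Primrec.fst (Primrec.pair (Primrec.fst.comp (Primrec.snd.comp Primrec.snd))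
        (Primrec.snd.comp (Primrec.snd.comp Primrec.snd))))
    exact this
  have h4 := h3.exists_mem_list
  exact PrimrecRel.comp h4 (f := fun q : List (List (ℕ × Bool)) × ℕ × List Bool =>
    List.range (2 ^ q.2.1)) (g := fun q => q)
    (Primrec.list_range.comp (primrec_pow2.comp (Primrec.fst.comp Primrec.snd))) Primrec.id

theorem primrec_extB : Primrec (fun q : List (List (ℕ × Bool)) × ℕ × List Bool =>
    extB q.1 q.2.1 q.2.2) := by
  classical
  unfold extB
  exact primrec_ext.decide

theorem primrec_rho : Primrec (fun q : (List (List (ℕ × Bool)) × ℕ) × ℕ =>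
    rho q.1.1 q.1.2 q.2) := by
  have h : Primrec (fun q : (List (List (ℕ × Bool)) × ℕ) × ℕ =>
      Nat.rec (motive := fun _ => List Bool) []
        (fun _ r => r ++ [!(extB q.1.1 q.1.2 (r ++ [false]))]) q.2) := by
    have hg : Primrec (fun z : ((List (List (ℕ × Bool)) × ℕ) × ℕ) × (ℕ × List Bool) =>
        z.2.2 ++ [!(extB z.1.1.1 z.1.1.2 (z.2.2 ++ [false]))]) := by
      refine Primrec.list_concat.comp (Primrec.snd.comp Primrec.snd) ?_
      refine Primrec.not.comp ?_
      have h1 : Primrec (fun z : ((List (List (ℕ × Bool)) × ℕ) × ℕ) × (ℕ × List Bool) =>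
          (z.1.1.1, z.1.1.2, z.2.2 ++ [false])) := by
        refine Primrec.pair ?_ (Primrec.pair ?_ ?_)
        · exact Primrec.fst.comp (Primrec.fst.comp Primrec.fst)
        · exact Primrec.snd.comp (Primrec.fst.comp Primrec.fst)
        · exact Primrec.list_concat.comp (Primrec.snd.comp Primrec.snd) (Primrec.const false)
      exact primrec_extB.comp h1
    exact Primrec.nat_rec' Primrec.snd (Primrec.const []) hg.to₂
  refine h.of_eq ?_
  rintro ⟨⟨T, n⟩, k⟩
  induction k with
  | zero => rfl
  | succ k ih =>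
    simp only at ih ⊢
    rw [rho, ← ih]

theorem computable_tab (C : ℕ → ℕ → List (ℕ × Bool)) (hC : Computable₂ C) :
    Computable (fun σ : List ℕ => tabAux C σ σ.length) := by
  have h : Computable (fun σ : List ℕ =>
      Nat.rec (motive := fun _ => List (List (ℕ × Bool))) []
        (fun m r => r ++ [C m (σ.getD m 0)]) σ.length) := by
    have hg : Computable (fun z : List ℕ × (ℕ × List (List (ℕ × Bool))) =>
        z.2.2 ++ [C z.2.1 (z.1.getD z.2.1 0)]) := by
      refine Computable.list_concat.comp (Computable.snd.comp Computable.snd) ?_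
      refine hC.comp (Computable.fst.comp Computable.snd) ?_
      have h1 : Primrec (fun z : List ℕ × (ℕ × List (List (ℕ × Bool))) => z.1.getD z.2.1 0) :=
        (Primrec.list_getD 0).comp Primrec.fst (Primrec.fst.comp Primrec.snd)
      exact h1.to_comp
    exact Computable.nat_rec Computable.list_length (Computable.const []) hg.to₂
  refine h.of_eq ?_
  intro σ
  have key : ∀ n, (Nat.rec (motive := fun _ => List (List (ℕ × Bool))) []
        (fun m r => r ++ [C m (σ.getD m 0)]) n) = tabAux C σ n := by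
    intro n
    induction n with
    | zero => rfl
    | succ n ih => simp only [tabAux, ← ih]
  exact key _

/-- the limit computation -/
noncomputable def gam (C : ℕ → ℕ → List (ℕ × Bool)) (k : ℕ) (σ : List ℕ) : Bool :=
  !(extB (tabAux C σ σ.length) σ.length (rho (tabAux C σ σ.length) σ.length k ++ [false]))

theorem computable_gam (C : ℕ → ℕ → List (ℕ × Bool)) (hC : Computable₂ C) :
    Computable₂ (gam C) := by
  have hp : Primrec (fun q : (List (List (ℕ × Bool)) × ℕ) × ℕ =>
      !(extB q.1.1 q.1.2 (rho q.1.1 q.1.2 q.2 ++ [false]))) := by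
    refine Primrec.not.comp ?_
    refine primrec_extB.comp (Primrec.pair ?_ (Primrec.pair ?_ ?_))
    · exact Primrec.fst.comp Primrec.fst
    · exact Primrec.snd.comp Primrec.fst
    · exact Primrec.list_concat.comp primrec_rho (Primrec.const false)
  have := hp.to_comp.comp (f := _) (g := fun q : ℕ × List ℕ =>
    ((tabAux C q.2 q.2.length, q.2.length), q.1))
    (Computable.pair (Computable.pair ((computable_tab C hC).comp Computable.snd)
      (Computable.list_length.comp Computable.snd)) Computable.fst)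
  exact this

/-! ### Semantics -/

/-- semantic version of `Ext` -/
def E (A : ℕ → ℕ) (C : ℕ → ℕ → List (ℕ × Bool)) (n : ℕ) (ρ : List Bool) : Prop :=
  ∃ Y : ℕ → Bool, (∀ i (h : i < ρ.length), Y i = ρ[i]) ∧
    ∀ m < n, ∃ l ∈ C m (A m), n ≤ l.1 ∨ Y l.1 = l.2

theorem exists_bits (n : ℕ) : ∀ Y : ℕ → Bool, ∃ x < 2 ^ n, ∀ i < n, x.testBit i = Y i := by
  induction n with
  | zero => intro Y; exact ⟨0, by simp, by simp⟩
  | succ n ih =>
    intro Y
    obtain ⟨x, hx, h⟩ := ih (fun i => Y (i + 1))
    refine ⟨Nat.bit (Y 0) x, ?_, ?_⟩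
    · rw [Nat.bit_val, pow_succ]
      cases Y 0 <;> simp <;> omega
    · intro i hi
      cases i with
      | zero => rw [Nat.testBit_bit_zero]
      | succ i => rw [Nat.testBit_bit_succ]; exact h i (by omega)

theorem mem_tab (A : ℕ → ℕ) (C : ℕ → ℕ → List (ℕ × Bool)) (n m : ℕ) (hm : m ≤ n)
    (cl : List (ℕ × Bool)) :
    cl ∈ tabAux C (seg A n) m ↔ ∃ j < m, cl = C j (A j) := by
  induction m with
  | zero => simp [tabAux]
  | succ m ih =>
    rw [tabAux, List.mem_append, ih (by omega)]
    have h1 : (seg A n).getD m 0 = A m := by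
      unfold seg
      rw [List.getD_eq_getElem?_getD, List.getElem?_map, List.getElem?_range (by omega)]
      rfl
    rw [h1, List.mem_singleton]
    constructor
    · rintro (⟨j, hj, rfl⟩ | rfl)
      · exact ⟨j, by omega, rfl⟩
      · exact ⟨m, by omega, rfl⟩
    · rintro ⟨j, hj, rfl⟩
      by_cases h : j = m
      · subst h; exact Or.inr rfl
      · exact Or.inl ⟨j, by omega, rfl⟩

theorem ext_iff (A : ℕ → ℕ) (C : ℕ → ℕ → List (ℕ × Bool)) (n : ℕ) (ρ : List Bool) :
    Ext (tabAux C (seg A n) (seg A n).length) (seg A n).length ρ ↔ E A C n ρ := by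
  have hlen : (seg A n).length = n := by simp [seg]
  rw [hlen]
  unfold Ext E
  constructor
  · rintro ⟨x, -, h⟩
    refine ⟨fun i => valB ρ x i, ?_, ?_⟩
    · intro i hi
      simp [valB, List.getElem?_eq_getElem hi]
    · intro m hm
      exact h _ ((mem_tab A C n n le_rfl _).mpr ⟨m, hm, rfl⟩)
  · rintro ⟨Y, hY, h⟩
    obtain ⟨x, hx, hb⟩ := exists_bits n Y
    refine ⟨x, List.mem_range.mpr hx, ?_⟩
    intro cl hcl
    obtain ⟨m, hm, rfl⟩ := (mem_tab A C n n le_rfl _).mp hcl
    obtain ⟨l, hl, h1⟩ := h m hm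
    refine ⟨l, hl, ?_⟩
    by_cases h2 : n ≤ l.1
    · exact Or.inl h2
    · right
      have h3 : Y l.1 = l.2 := by tauto
      rw [← h3]
      unfold valB
      by_cases h4 : l.1 < ρ.length
      · rw [List.getElem?_eq_getElem h4, hY _ h4]; rfl
      · rw [List.getElem?_eq_none (by omega)]
        simpa using hb l.1 (by omega)

theorem E_anti (A : ℕ → ℕ) (C : ℕ → ℕ → List (ℕ × Bool)) {n n' : ℕ} (h : n ≤ n')
    (ρ : List Bool) (hE : E A C n' ρ) : E A C n ρ := by
  obtain ⟨Y, hY, hc⟩ := hE
  refine ⟨Y, hY, ?_⟩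
  intro m hm
  obtain ⟨l, hl, h1⟩ := hc m (by omega)
  exact ⟨l, hl, by rcases h1 with h1 | h1; · left; omega
                   · right; exact h1⟩

theorem E_ext (A : ℕ → ℕ) (C : ℕ → ℕ → List (ℕ × Bool)) (n : ℕ) (ρ : List Bool)
    (hE : E A C n ρ) : E A C n (ρ ++ [false]) ∨ E A C n (ρ ++ [true]) := by
  obtain ⟨Y, hY, hc⟩ := hE
  have key : E A C n (ρ ++ [Y ρ.length]) := by
    refine ⟨Y, ?_, hc⟩
    intro i hi
    rw [List.length_append, List.length_singleton] at hi
    by_cases h : i < ρ.length
    · rw [List.getElem_append_left h]; exact hY i h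
    · have : i = ρ.length := by omega
      subst this
      simp
  cases h : Y ρ.length
  · left; rw [h] at key; exact key
  · right; rw [h] at key; exact key

end Clauses

open Clauses in
theorem clauses (A : ℕ → ℕ) (C : ℕ → ℕ → List (ℕ × Bool)) (hC : Computable₂ C)
    (hsat : ∃ X : ℕ → Bool, ∀ m, ∃ l ∈ C m (A m), X l.1 = l.2) :
    ∃ (X : ℕ → Bool) (γ : ℕ → List ℕ → Bool), Computable₂ γ ∧
      (∀ m, ∃ l ∈ C m (A m), X l.1 = l.2) ∧
      ∀ k, ∃ s₀, ∀ s ≥ s₀, γ k (seg A s) = X k := by
  classical
  -- the limit strings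
  obtain ⟨R, hR0, hR1⟩ : ∃ R : ℕ → List Bool, R 0 = [] ∧
      ∀ k, R (k + 1) = R k ++ [!(decide (∀ n, E A C n (R k ++ [false])))] :=
    ⟨fun k => Nat.rec (motive := fun _ => List Bool) []
      (fun _ r => r ++ [!(decide (∀ n, E A C n (r ++ [false])))]) k, rfl, fun _ => rfl⟩
  let X : ℕ → Bool := fun k => !(decide (∀ n, E A C n (R k ++ [false])))
  have hRX : ∀ k, R (k + 1) = R k ++ [X k] := hR1
  have hlen : ∀ k, (R k).length = k := by
    intro k
    induction k with
    | zero => rw [hR0]; rfl
    | succ k ih => rw [hRX, List.length_append, ih]; rfl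
  have hget : ∀ k i (h : i < (R k).length), (R k)[i] = X i := by
    intro k
    induction k with
    | zero => intro i h; simp [hR0] at h
    | succ k ih =>
      intro i h
      have h' : i < k + 1 := by rw [hlen] at h; exact h
      by_cases hik : i < k
      · have e : (R k ++ [X k])[i]'(by rw [← hRX]; exact h) = X i := by
          rw [List.getElem_append_left (by rw [hlen]; exact hik)]
          exact ih i _
        simpa only [hRX] using e
      · have hik' : i = k := by omega
        subst hik'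
        have e : (R i ++ [X i])[i]'(by rw [← hRX]; exact h) = X i := by
          rw [List.getElem_append_right (by rw [hlen])]
          simp
        simpa only [hRX] using e
  -- all `R k` are extendible
  have hE : ∀ k n, E A C n (R k) := by
    intro k
    induction k with
    | zero =>
      intro n
      obtain ⟨X0, hX0⟩ := hsat
      refine ⟨X0, ?_, ?_⟩
      · intro i h; simp [hR0] at h
      · intro m _
        obtain ⟨l, hl, h⟩ := hX0 m
        exact ⟨l, hl, Or.inr h⟩
    | succ k ih =>
      intro n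
      rw [hR1]
      by_cases h : ∀ n, E A C n (R k ++ [false])
      · simp only [h, implies_true, decide_true, Bool.not_true]
      · simp only [h, decide_false, Bool.not_false]
        push Not at h
        obtain ⟨n₀, hn₀⟩ := h
        rcases E_ext A C (max n n₀) _ (ih (max n n₀)) with h1 | h1
        · exact absurd (E_anti A C (le_max_right _ _) _ h1) hn₀
        · exact E_anti A C (le_max_left _ _) _ h1
  -- eventual constancy
  have hev : ∀ ρ, ∃ s₀, ∀ s ≥ s₀, (E A C s ρ ↔ ∀ n, E A C n ρ) := by
    intro ρ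
    by_cases h : ∀ n, E A C n ρ
    · exact ⟨0, fun s _ => ⟨fun _ => h, fun _ => h s⟩⟩
    · have h' := h
      push Not at h'
      obtain ⟨n₀, hn₀⟩ := h'
      refine ⟨n₀, fun s hs => ⟨fun h1 => absurd (E_anti A C hs _ h1) hn₀, fun h1 => absurd h1 h⟩⟩
  have hlim : ∀ k, ∃ s₀, ∀ s ≥ s₀,
      rho (tabAux C (seg A s) (seg A s).length) (seg A s).length k = R k := by
    intro k
    induction k with
    | zero => exact ⟨0, fun s _ => by rw [hR0]; rfl⟩
    | succ k ih =>
      obtain ⟨s₀, h₀⟩ := ih
      obtain ⟨s₁, h₁⟩ := hev (R k ++ [false])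
      refine ⟨max s₀ s₁, fun s hs => ?_⟩
      rw [rho, h₀ s (le_trans (le_max_left _ _) hs), hR1]
      congr 3
      unfold extB
      rw [decide_eq_decide, ext_iff]
      exact h₁ s (le_trans (le_max_right _ _) hs)
  refine ⟨X, gam C, computable_gam C hC, ?_, ?_⟩
  · intro m
    -- a bound for the indices of clause `m`
    obtain ⟨N, hN⟩ : ∃ N, ∀ l ∈ C m (A m), l.1 < N := by
      refine ⟨(C m (A m)).foldr (fun l a => max (l.1 + 1) a) 0, ?_⟩
      generalize C m (A m) = L
      induction L with
      | nil => simp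
      | cons a L ih =>
        intro l hl
        rw [List.mem_cons] at hl
        simp only [List.foldr_cons]
        rcases hl with rfl | hl
        · exact lt_of_lt_of_le (Nat.lt_succ_self _) (le_max_left _ _)
        · exact lt_of_lt_of_le (ih l hl) (le_max_right _ _)
    set n := max N (m + 1) with hn
    obtain ⟨Y, hY, hc⟩ := hE n n
    obtain ⟨l, hl, h1⟩ := hc m (lt_of_lt_of_le (Nat.lt_succ_self m) (le_max_right _ _))
    have hln : l.1 < n := lt_of_lt_of_le (hN l hl) (le_max_left _ _)
    refine ⟨l, hl, ?_⟩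
    have h2 : Y l.1 = l.2 := by
      rcases h1 with h1 | h1
      · omega
      · exact h1
    rw [← h2, hY l.1 (by rw [hlen]; exact hln), hget]
  · intro k
    obtain ⟨s₀, h₀⟩ := hlim k
    obtain ⟨s₁, h₁⟩ := hev (R k ++ [false])
    refine ⟨max s₀ s₁, fun s hs => ?_⟩
    unfold gam
    rw [h₀ s (le_trans (le_max_left _ _) hs)]
    show _ = !(decide (∀ n, E A C n (R k ++ [false])))
    congr 1
    unfold extB
    rw [decide_eq_decide, ext_iff]
    exact h₁ s (le_trans (le_max_right _ _) hs)

end H97.PAS
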