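import Pool.Agent.Helper97.PAS.Defs

/-!
# Auxiliary definitions shared by the modules
-/

namespace H97.PAS

open Function

/-! ### Relative computability with use -/

/-- Initial segment `[A 0, …, A (s-1)]` of `A`. -/
def seg (A : ℕ → ℕ) (s : ℕ) : List ℕ := (List.range s).map A

/-- `f` is computable from `A`, in the form with initial segments (with use): a computable `Ψ` which,
given `x` and an initial segment of `A`, answers `0` (wait) or `f x + 1`, and answers `f x + 1`
for some initial segment. -/
def CompFrom (A f : ℕ → ℕ) : Prop :=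
  ∃ Ψ : ℕ → List ℕ → ℕ, Computable₂ Ψ ∧ (∀ x, ∃ s, Ψ x (seg A s) = f x + 1) ∧
    ∀ x s, Ψ x (seg A s) = 0 ∨ Ψ x (seg A s) = f x + 1

open Classical in
/-- Characteristic function. -/
noncomputable def chi (S : Set ℕ) (n : ℕ) : ℕ := if n ∈ S then 1 else 0

/-- `f` separates `P` from `Q`. -/
def Sep (f : ℕ → ℕ) (P Q : Set ℕ) : Prop := (∀ n ∈ P, f n = 1) ∧ ∀ n ∈ Q, f n = 0

/-! ### Arithmetic in `L_A`-structures -/

/-- The standard model. -/
def std : AStr ℕ := ⟨0, Nat.succ, (· + ·), (· * ·)⟩

/-- `θ` is absolute between the standard model and all models of `PA`, for standard values. -/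
def Abs (θ : AFml) : Prop := ∀ (M : Type) (A : AStr M), IsPA A →
  ∀ v : ℕ → ℕ, satA A θ (fun i => num A (v i)) ↔ satA std θ v

/-- `x ≤ y` in an `L_A`-structure. -/
def AStr.le {M : Type} (A : AStr M) (x y : M) : Prop := ∃ z, A.add z x = y

open Classical in
/-- The pairing function. -/
noncomputable def AStr.pr {M : Type} (A : AStr M) (x y : M) : M :=
  if A.le y x then A.add (A.add (A.mul x x) x) y else A.add (A.mul y y) x

/-- `3x`. -/
def AStr.tri {M : Type} (A : AStr M) (x : M) : M := A.add (A.add x x) x

/-- `F(x, y, w) = xy + w`. -/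
def AStr.F {M : Type} (A : AStr M) (x y w : M) : M := A.add (A.mul x y) w

/-- The abstract copy of the structure `B(M)`: elements are of three sorts. -/
inductive El (M : Type) : Type
  /-- the element representing `x ∈ M` -/
  | p (x : M)
  /-- the element confirming `F(x, y, w)` -/
  | al (x y w : M)
  /-- the `i`-th dead element for the claim `F(x, y, w) = t` -/
  | de (x y w t i : M)

/-- The bijection between `El M` and `M`, for `A ⊨ PA` with universe `M`. -/
noncomputable def AStr.enc {M : Type} (A : AStr M) : El M → M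
  | .p x => A.tri x
  | .al x y w => A.succ (A.tri (A.pr x (A.pr y w)))
  | .de x y w t i => A.succ (A.succ (A.tri (A.pr x (A.pr y (A.pr w (A.pr t i))))))

/-- The relations of the structure `B(M)` on the abstract copy `El M`: `R_0, …, R_3` give the
coordinates `x, y, w, t` of the non-`p` elements, `R_4` the label of a dead element, and
`R_{n+5}` is the sentence `pat n`. -/
def KRel {M : Type} (F : M → M → M → M) (pat : ℕ → Prop) : ℕ → El M → El M → Prop
  | 0, .al x _ _, .p a => a = x
  | 0, .de x _ _ _ _, .p a => a = x
  | 1, .al _ y _, .p a => a = y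
  | 1, .de _ y _ _ _, .p a => a = y
  | 2, .al _ _ w, .p a => a = w
  | 2, .de _ _ w _ _, .p a => a = w
  | 3, .al x y w, .p a => a = F x y w
  | 3, .de _ _ _ t _, .p a => a = t
  | 4, .de _ _ _ _ i, .p a => a = i
  | n + 5, _, _ => pat n
  | _, _, _ => False

/-! ### Assignments coded by lists -/

/-- The assignment coded by an association list. -/
def asg : List (ℕ × ℕ) → ℕ → ℕ
  | [], _ => 0
  | (i, k) :: s, j => if j = i then k else asg s j

end H97.PAS
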