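import Pool.Agent.Helper97.PAS.Theory2

/-!
# The theory `T` is computably enumerable
-/

namespace H97.PAS

open Function

/-- code of an implication -/
def cImp (a b : ℕ) : ℕ := 3 * Nat.pair a b + 2
/-- code of a universal quantification -/
def cAll (i c : ℕ) : ℕ := 3 * Nat.pair i c + 3
/-- code of an atomic formula -/
def cAtom (n i j : ℕ) : ℕ := 3 * Nat.pair n (Nat.pair i j) + 1
/-- code of a negation -/
def cNeg (a : ℕ) : ℕ := cImp a 0
/-- code of a conjunction -/
def cAnd (a b : ℕ) : ℕ := cNeg (cImp a (cNeg b))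
/-- code of an equivalence -/
def cIff (a b : ℕ) : ℕ := cAnd (cImp a b) (cImp b a)
/-- code of an existential quantification -/
def cEx (i a : ℕ) : ℕ := cNeg (cAll i (cNeg a))

section
variable {α : Type} [Primcodable α] {f g h : α → ℕ}

theorem pr_imp (hf : Primrec f) (hg : Primrec g) : Primrec (fun x => cImp (f x) (g x)) :=
  Primrec.nat_add.comp (Primrec.nat_mul.comp (Primrec.const 3) (Primrec₂.natPair.comp hf hg))
    (Primrec.const 2)

theorem pr_all (hf : Primrec f) (hg : Primrec g) : Primrec (fun x => cAll (f x) (g x)) :=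
  Primrec.nat_add.comp (Primrec.nat_mul.comp (Primrec.const 3) (Primrec₂.natPair.comp hf hg))
    (Primrec.const 3)

theorem pr_atom (hf : Primrec f) (hg : Primrec g) (hh : Primrec h) :
    Primrec (fun x => cAtom (f x) (g x) (h x)) :=
  Primrec.nat_add.comp (Primrec.nat_mul.comp (Primrec.const 3)
    (Primrec₂.natPair.comp hf (Primrec₂.natPair.comp hg hh))) (Primrec.const 1)

theorem pr_neg (hf : Primrec f) : Primrec (fun x => cNeg (f x)) := pr_imp hf (Primrec.const 0)

theorem pr_and (hf : Primrec f) (hg : Primrec g) : Primrec (fun x => cAnd (f x) (g x)) :=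
  pr_neg (pr_imp hf (pr_neg hg))

theorem pr_iff (hf : Primrec f) (hg : Primrec g) : Primrec (fun x => cIff (f x) (g x)) :=
  pr_and (pr_imp hf hg) (pr_imp hg hf)

theorem pr_ex (hf : Primrec f) (hg : Primrec g) : Primrec (fun x => cEx (f x) (g x)) :=
  pr_neg (pr_all hf (pr_neg hg))

end

/-- code of `closeFrom 0` -/
def cClose (n c : ℕ) : ℕ := Nat.rec c (fun j acc => cAll (n - 1 - j) acc) n

theorem rec_shift (f : ℕ → ℕ → ℕ) (c n : ℕ) :
    (Nat.rec c f (n + 1) : ℕ) = Nat.rec (f 0 c) (fun j => f (j + 1)) n := by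
  induction n with
  | zero => rfl
  | succ n ih =>
    change f (n + 1) (Nat.rec c f (n + 1)) = _
    rw [ih]

theorem code_closeFrom (n : ℕ) : ∀ φ : LFml, code (Fml.closeFrom 0 n φ) = cClose n (code φ) := by
  induction n with
  | zero => intro φ; rfl
  | succ n ih =>
    intro φ
    rw [Fml.closeFrom, ih, cClose, cClose, rec_shift]
    have h1 : code (.all (0 + n) φ) = cAll (n + 1 - 1 - 0) (code φ) := by
      rw [Nat.zero_add, Nat.add_sub_cancel, Nat.sub_zero]; rfl
    rw [h1]
    congr 1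
    funext j acc
    congr 1
    omega

theorem pr_close {α : Type} [Primcodable α] {f g : α → ℕ} (hf : Primrec f) (hg : Primrec g) :
    Primrec (fun x => cClose (f x) (g x)) := by
  have h := Primrec.nat_rec' (f := f) (g := g)
    (h := fun a (p : ℕ × ℕ) => cAll (f a - 1 - p.1) p.2) hf hg
    (pr_all (Primrec.nat_sub.comp (Primrec.nat_sub.comp (hf.comp Primrec.fst) (Primrec.const 1))
      (Primrec.fst.comp Primrec.snd)) (Primrec.snd.comp Primrec.snd))
  exact h

/-- code of `NumL` -/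
noncomputable def cNum (n : ℕ) : ℕ :=
  Nat.rec (code Gm.zero)
    (fun _ c => cEx 1 (cAnd (cAtom 0 1 0) (cEx 0 (cAnd c (code Gm.succ))))) n

theorem code_NumL (n : ℕ) : code (NumL n) = cNum n := by
  induction n with
  | zero => rfl
  | succ n ih =>
    change cEx 1 (cAnd (cAtom 0 1 0) (cEx 0 (cAnd (code (NumL n)) (code Gm.succ)))) = _
    rw [ih]
    rfl

theorem pr_num : Primrec cNum := by
  have h := Primrec.nat_rec' (α := ℕ) (f := fun n => n) (g := fun _ => code Gm.zero)
    (h := fun _ (p : ℕ × ℕ) => cEx 1 (cAnd (cAtom 0 1 0) (cEx 0 (cAnd p.2 (code Gm.succ)))))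
    Primrec.id (Primrec.const _)
    (pr_ex (Primrec.const 1) (pr_and (Primrec.const _)
      (pr_ex (Primrec.const 0) (pr_and (Primrec.snd.comp Primrec.snd) (Primrec.const _)))))
  exact h

/-- code of `star` -/
def cStar (c : ℕ) : ℕ := cAll 1 c

/-- code of `IndL` -/
noncomputable def cInd (c : ℕ) : ℕ := cClose (c + 2)
  (cImp (cAll 0 (cImp (code Gm.zero) (cStar c)))
    (cImp (cAll 0 (cAll 1 (cImp (cStar c) (cImp (code Gm.succ)
      (cAll 0 (cImp (cAtom 0 0 1) (cStar c))))))) (cAll 0 (cStar c))))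

theorem code_IndL (ψ : LFml) : code (IndL ψ) = cInd (code ψ) := by
  rw [IndL, code_closeFrom]
  rfl

theorem pr_ind : Primrec cInd := by
  have hs : Primrec cStar := pr_all (Primrec.const 1) Primrec.id
  have h0 : ∀ n : ℕ, Primrec (fun _ : ℕ => n) := fun n => Primrec.const n
  exact pr_close (Primrec.nat_add.comp Primrec.id (Primrec.const 2))
    (pr_imp (pr_all (h0 0) (pr_imp (h0 _) hs))
      (pr_imp (pr_all (h0 0) (pr_all (h0 1) (pr_imp hs (pr_imp (h0 _)
        (pr_all (h0 0) (pr_imp (h0 _) hs)))))) (pr_all (h0 0) hs)))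

/-- code of `PatL` -/
noncomputable def cPat (ψ : LFml) (n : ℕ) : ℕ :=
  cAll 0 (cAll 1 (cIff (cAtom (n + 5 + 1) 0 1) (cAll 0 (cImp (cNum n) (code ψ)))))

theorem code_PatL (ψ : LFml) (n : ℕ) : code (PatL ψ n) = cPat ψ n := by
  rw [cPat, ← code_NumL]
  rfl

theorem pr_pat (ψ : LFml) : Primrec (cPat ψ) := by
  have h0 : ∀ n : ℕ, Primrec (fun _ : ℕ => n) := fun n => Primrec.const n
  exact pr_all (h0 0) (pr_all (h0 1) (pr_iff (pr_atom (Primrec.nat_add.comp
    (Primrec.nat_add.comp Primrec.id (Primrec.const 5)) (Primrec.const 1)) (h0 0) (h0 1))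
    (pr_all (h0 0) (pr_imp pr_num (h0 _)))))

/-- An enumeration of the codes of the axioms of `T`. -/
noncomputable def enumT (ψ : LFml) (m : ℕ) : ℕ :=
  if m % 3 = 0 then code exists_tau.choose else
    if m % 3 = 1 then cInd (m / 3) else cPat ψ (m / 3)

theorem pr_enumT (ψ : LFml) : Primrec (enumT ψ) := by
  have hm : Primrec (fun m : ℕ => m % 3) := Primrec.nat_mod.comp Primrec.id (Primrec.const 3)
  have hd : Primrec (fun m : ℕ => m / 3) := Primrec.nat_div.comp Primrec.id (Primrec.const 3)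
  exact Primrec.ite (PrimrecRel.comp Primrec.eq hm (Primrec.const 0)) (Primrec.const _)
    (Primrec.ite (PrimrecRel.comp Primrec.eq hm (Primrec.const 1)) (pr_ind.comp hd)
      ((pr_pat ψ).comp hd))

theorem mem_Th_iff (ψ φ : LFml) : φ ∈ Th ψ ↔ ∃ m, enumT ψ m = code φ := by
  constructor
  · rintro ((rfl | ⟨χ, rfl⟩) | ⟨n, rfl⟩)
    · exact ⟨0, by rw [enumT, if_pos (by norm_num)]⟩
    · refine ⟨3 * code χ + 1, ?_⟩
      rw [enumT, if_neg (by omega), if_pos (by omega), code_IndL]
      congr 1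
      omega
    · refine ⟨3 * n + 2, ?_⟩
      rw [enumT, if_neg (by omega), if_neg (by omega), code_PatL]
      congr 1
      omega
  · rintro ⟨m, hm⟩
    rw [enumT] at hm
    split_ifs at hm
    · exact Or.inl (Or.inl (code_injective hm.symm))
    · obtain ⟨χ, hχ⟩ := code_surjective (m / 3)
      rw [← hχ, ← code_IndL] at hm
      exact Or.inl (Or.inr ⟨χ, code_injective hm⟩)
    · rw [← code_PatL] at hm
      exact Or.inr ⟨m / 3, code_injective hm⟩

theorem re_range {f : ℕ → ℕ} (hf : Computable f) : REPred (fun n => ∃ m, f m = n) := by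
  have h : Partrec (fun n => Nat.rfind fun m => Part.some (decide (f m = n))) := by
    refine Partrec.rfind ?_
    have h1 : Computable (fun p : ℕ × ℕ => decide (f p.2 = p.1)) :=
      (PrimrecRel.decide Primrec.eq : Primrec₂ fun a b : ℕ => decide (a = b)).to_comp.comp
        (hf.comp Computable.snd) Computable.fst
    exact h1.partrec
  refine h.dom_re.of_eq fun n => ?_
  rw [Nat.rfind_dom]
  constructor
  · rintro ⟨m, hm, _⟩
    simp only [Part.mem_some_iff] at hm
    exact ⟨m, of_decide_eq_true hm.symm⟩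
  · rintro ⟨m, hm⟩
    exact ⟨m, by simp [hm], fun _ => trivial⟩

/-- **`T` is a computably enumerable set of sentences.** -/
theorem ce_Th {ψ : LFml} (hψ : ∀ k, freeL ψ k → k < 1) : IsCETheory (Th ψ) := by
  refine ⟨closed_Th hψ, (re_range (pr_enumT ψ).to_comp).of_eq fun n => ?_⟩
  constructor
  · rintro ⟨m, rfl⟩
    obtain ⟨φ, hφ⟩ := code_surjective (enumT ψ m)
    exact ⟨φ, (mem_Th_iff ψ φ).2 ⟨m, hφ.symm⟩, hφ⟩
  · rintro ⟨φ, hφ, rfl⟩
    exact (mem_Th_iff ψ φ).1 hφ

end H97.PAS
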