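import Pool.Agent.Helper97.PAS.Base

/-!
# Coded separators in nonstandard models of `PA` (overspill with Gödel's `β` function)

The facts about r.e. sets used here (`Σ₁` representation with an absolute matrix, module `sigma1`)
are taken as hypotheses in `coded_separator_aux`.
-/

namespace H97.PAS

namespace CodedSep

open Function

/-! ### Derived connectives -/

/-- negation -/
def nt (φ : AFml) : AFml := .imp φ .bot
/-- conjunction -/
def an (φ ψ : AFml) : AFml := nt (.imp φ (nt ψ))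
/-- disjunction -/
def or' (φ ψ : AFml) : AFml := .imp (nt φ) ψ
/-- existential quantifier -/
def ex (i : ℕ) (φ : AFml) : AFml := nt (.all i (nt φ))
/-- equation -/
def eq (s t : Tm) : AFml := .atom (s, t)

section
variable {M : Type} (A : AStr M)

theorem sat_nt (φ : AFml) (v : ℕ → M) : satA A (nt φ) v ↔ ¬ satA A φ v := Iff.rfl

theorem sat_imp (φ ψ : AFml) (v : ℕ → M) :
    satA A (.imp φ ψ) v ↔ (satA A φ v → satA A ψ v) := Iff.rfl

theorem sat_all (i : ℕ) (φ : AFml) (v : ℕ → M) :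
    satA A (.all i φ) v ↔ ∀ x, satA A φ (update v i x) := Iff.rfl

theorem sat_an (φ ψ : AFml) (v : ℕ → M) :
    satA A (an φ ψ) v ↔ (satA A φ v ∧ satA A ψ v) := by
  unfold an; rw [sat_nt, sat_imp, sat_nt]; tauto

theorem sat_or (φ ψ : AFml) (v : ℕ → M) :
    satA A (or' φ ψ) v ↔ (satA A φ v ∨ satA A ψ v) := by
  unfold or'; rw [sat_imp, sat_nt]; tauto

theorem sat_ex (i : ℕ) (φ : AFml) (v : ℕ → M) :
    satA A (ex i φ) v ↔ ∃ x, satA A φ (update v i x) := by
  unfold ex; rw [sat_nt, sat_all]; simp only [sat_nt]; push Not; rfl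

theorem sat_eq (s t : Tm) (v : ℕ → M) : satA A (eq s t) v ↔ s.val A v = t.val A v := Iff.rfl

/-- the value of a term depends only on the variables occurring in it -/
theorem val_congr (t : Tm) {v w : ℕ → M} (h : ∀ k, t.Occ k → v k = w k) :
    t.val A v = t.val A w := by
  induction t with
  | var i => exact h i rfl
  | zero => rfl
  | succ t ih => simp only [Tm.val]; rw [ih (fun k hk => h k hk)]
  | add s t ihs iht =>
    simp only [Tm.val]; rw [ihs (fun k hk => h k (Or.inl hk)), iht (fun k hk => h k (Or.inr hk))]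
  | mul s t ihs iht =>
    simp only [Tm.val]; rw [ihs (fun k hk => h k (Or.inl hk)), iht (fun k hk => h k (Or.inr hk))]

/-- satisfaction depends only on the free variables -/
theorem sat_congr (φ : AFml) : ∀ {v w : ℕ → M}, (∀ k, freeA φ k → v k = w k) →
    (satA A φ v ↔ satA A φ w) := by
  induction φ with
  | atom a =>
    intro v w h
    show a.1.val A v = a.2.val A v ↔ a.1.val A w = a.2.val A w
    rw [val_congr A a.1 (fun k hk => h k (Or.inl hk)),
      val_congr A a.2 (fun k hk => h k (Or.inr hk))]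
  | bot => intro v w _; exact Iff.rfl
  | imp φ ψ ih1 ih2 =>
    intro v w h
    rw [sat_imp, sat_imp, ih1 (fun k hk => h k (Or.inl hk)), ih2 (fun k hk => h k (Or.inr hk))]
  | all i φ ih =>
    intro v w h
    rw [sat_all, sat_all]
    refine forall_congr' fun x => ih fun k hk => ?_
    by_cases hki : k = i
    · subst hki; simp
    · rw [update_of_ne hki, update_of_ne hki]; exact h k ⟨hki, hk⟩

end

/-! ### Basic facts in models of `PA` -/

section
variable {M : Type} {A : AStr M}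

theorem num_zero : num A 0 = A.zero := rfl

theorem num_succ (n : ℕ) : num A (n + 1) = A.succ (num A n) := iterate_succ_apply' _ _ _

theorem zs (h : IsPA A) (x : M) : x = A.zero ∨ ∃ y, x = A.succ y := by
  have key := h.ind (or' (eq (.var 0) .zero) (ex 1 (eq (.var 0) (.succ (.var 1))))) 0
    (fun _ => A.zero)
  simp only [sat_or, sat_ex, sat_eq, Tm.val] at key
  have := key (by left; simp) (fun x _ => by right; exact ⟨x, by simp⟩) x
  simpa using this

theorem num_add (h : IsPA A) (a b : ℕ) : A.add (num A a) (num A b) = num A (a + b) := by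
  induction b with
  | zero => exact h.add_zero _
  | succ b ih => rw [num_succ, h.add_succ, ih, ← Nat.add_assoc, num_succ]

theorem num_mul (h : IsPA A) (a b : ℕ) : A.mul (num A a) (num A b) = num A (a * b) := by
  induction b with
  | zero => exact h.mul_zero _
  | succ b ih => rw [num_succ, h.mul_succ, ih, num_add h, Nat.mul_succ]

theorem num_inj (h : IsPA A) : ∀ a b : ℕ, num A a = num A b → a = b := by
  intro a
  induction a with
  | zero =>
    intro b hb
    cases b with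
    | zero => rfl
    | succ b => rw [num_succ] at hb; exact absurd hb.symm (h.succ_ne_zero _)
  | succ a ih =>
    intro b hb
    cases b with
    | zero => rw [num_succ] at hb; exact absurd hb (h.succ_ne_zero _)
    | succ b =>
      rw [num_succ, num_succ] at hb
      rw [ih b (h.succ_inj _ _ hb)]

/-- `x < k`, in a convenient form -/
def lt (A : AStr M) (x k : M) : Prop := ∃ z, A.add (A.succ z) x = k

theorem lt_num (h : IsPA A) : ∀ (k : ℕ) (x : M), lt A x (num A k) → ∃ j < k, x = num A j := by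
  intro k
  induction k with
  | zero =>
    rintro x ⟨z, hz⟩
    rcases zs h x with rfl | ⟨y, rfl⟩
    · rw [h.add_zero] at hz; exact absurd hz (h.succ_ne_zero _)
    · rw [h.add_succ] at hz; exact absurd hz (h.succ_ne_zero _)
  | succ k ih =>
    rintro x ⟨z, hz⟩
    rcases zs h x with rfl | ⟨y, rfl⟩
    · exact ⟨0, Nat.succ_pos _, rfl⟩
    · rw [h.add_succ, num_succ] at hz
      obtain ⟨j, hj, rfl⟩ := ih y ⟨z, h.succ_inj _ _ hz⟩
      exact ⟨j + 1, Nat.succ_lt_succ hj, (num_succ j).symm⟩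

theorem num_lt (h : IsPA A) : ∀ (n : ℕ) (k : M), (∀ m, k ≠ num A m) → lt A (num A n) k := by
  intro n
  induction n with
  | zero =>
    intro k hk
    rcases zs h k with rfl | ⟨y, rfl⟩
    · exact absurd rfl (hk 0)
    · exact ⟨y, h.add_zero _⟩
  | succ n ih =>
    intro k hk
    rcases zs h k with rfl | ⟨y, rfl⟩
    · exact absurd rfl (hk 0)
    · obtain ⟨z, hz⟩ := ih y (fun m hm => hk (m + 1) (by rw [num_succ, hm]))
      exact ⟨z, by rw [num_succ, h.add_succ, hz]⟩

/-- `y + q` standard implies `q` standard -/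
theorem std_of_add (h : IsPA A) : ∀ (b : ℕ) (y q : M), A.add y q = num A b → ∃ j, q = num A j := by
  intro b
  induction b with
  | zero =>
    intro y q hq
    rcases zs h q with rfl | ⟨r, rfl⟩
    · exact ⟨0, rfl⟩
    · rw [h.add_succ] at hq; exact absurd hq (h.succ_ne_zero _)
  | succ b ih =>
    intro y q hq
    rcases zs h q with rfl | ⟨r, rfl⟩
    · exact ⟨0, rfl⟩
    · rw [h.add_succ, num_succ] at hq
      obtain ⟨j, rfl⟩ := ih y r (h.succ_inj _ _ hq)
      exact ⟨j + 1, (num_succ j).symm⟩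

/-- the modulus `1 + (n+1) c` -/
def md (A : AStr M) (n c : M) : M := A.succ (A.mul (A.succ n) c)

/-- `m` divides `b` -/
def D0 (A : AStr M) (n b c : M) : Prop := ∃ q, A.mul q (md A n c) = b

/-- `b = q m + 1` -/
def D1 (A : AStr M) (n b c : M) : Prop := ∃ q, A.succ (A.mul q (md A n c)) = b

theorem md_num (h : IsPA A) (n c : ℕ) : md A (num A n) (num A c) = num A ((n + 1) * c + 1) := by
  unfold md; rw [← num_succ, num_mul h, ← num_succ]

theorem D0_num (h : IsPA A) (n b c : ℕ) :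
    D0 A (num A n) (num A b) (num A c) ↔ ∃ q, q * ((n + 1) * c + 1) = b := by
  unfold D0
  constructor
  · rintro ⟨q, hq⟩
    have h1 := hq
    unfold md at h1
    rw [h.mul_succ] at h1
    obtain ⟨j, rfl⟩ := std_of_add h b _ _ h1
    rw [md_num h, num_mul h] at hq
    exact ⟨j, num_inj h _ _ hq⟩
  · rintro ⟨q, rfl⟩
    exact ⟨num A q, by rw [md_num h, num_mul h]⟩

theorem D1_num (h : IsPA A) (n b c : ℕ) :
    D1 A (num A n) (num A b) (num A c) ↔ ∃ q, q * ((n + 1) * c + 1) + 1 = b := by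
  unfold D1
  constructor
  · rintro ⟨q, hq⟩
    cases b with
    | zero => exact absurd hq (h.succ_ne_zero _)
    | succ b =>
      rw [num_succ] at hq
      have h1 := h.succ_inj _ _ hq
      obtain ⟨j, hj⟩ := (D0_num h n b c).1 ⟨q, h1⟩
      exact ⟨j, by rw [hj]⟩
  · rintro ⟨q, rfl⟩
    exact ⟨num A q, by rw [md_num h, num_mul h, num_succ]⟩

end

/-! ### The overspill formula -/

/-- The predicate: some `b, c` code a `0/1` sequence of length `k` separating the parts of the two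
sets enumerated before stage `k`. -/
def Psi {M : Type} (A : AStr M) (θ₁ θ₂ : AFml) (k : M) : Prop :=
  ∃ b c, ∀ n, lt A n k →
    ((D0 A n b c ∧ ¬ D1 A n b c) ∨ (D1 A n b c ∧ ¬ D0 A n b c)) ∧
    (∀ s, lt A s k → satA A θ₁ (fun i => if i = 0 then n else s) → D1 A n b c) ∧
    (∀ s, lt A s k → satA A θ₂ (fun i => if i = 0 then n else s) → D0 A n b c)

/-- term for the modulus; `n = v₀`, `c = v₄` -/
def mdT : Tm := .succ (.mul (.succ (.var 0)) (.var 4))
/-- formula for `D0`; `b = v₃` -/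
def D0F : AFml := ex 5 (eq (.mul (.var 5) mdT) (.var 3))
/-- formula for `D1` -/
def D1F : AFml := ex 5 (eq (.succ (.mul (.var 5) mdT)) (.var 3))
/-- formula for `v_i < v₂` -/
def ltF (i : ℕ) : AFml := ex 6 (eq (.add (.succ (.var 6)) (.var i)) (.var 2))
/-- formula for `Psi`, `k = v₂` -/
def PsiF (θ₁ θ₂ : AFml) : AFml :=
  ex 3 (ex 4 (.all 0 (.imp (ltF 0)
    (an (or' (an D0F (nt D1F)) (an D1F (nt D0F)))
      (an (.all 1 (.imp (ltF 1) (.imp θ₁ D1F))) (.all 1 (.imp (ltF 1) (.imp θ₂ D0F))))))))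

theorem sat_PsiF {M : Type} (A : AStr M) (θ₁ θ₂ : AFml) (h₁ : ∀ k, freeA θ₁ k → k < 2)
    (h₂ : ∀ k, freeA θ₂ k → k < 2) (v : ℕ → M) :
    satA A (PsiF θ₁ θ₂) v ↔ Psi A θ₁ θ₂ (v 2) := by
  have e : ∀ (θ : AFml), (∀ k, freeA θ k → k < 2) → ∀ (w : ℕ → M) (n s : M), w 0 = n → w 1 = s →
      (satA A θ w ↔ satA A θ (fun i => if i = 0 then n else s)) := by
    intro θ hθ w n s h0 h1
    refine sat_congr A θ fun k hk => ?_
    have := hθ k hk
    interval_cases k
    · simpa using h0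
    · simpa using h1
  unfold PsiF Psi
  rw [sat_ex]
  refine exists_congr fun b => ?_
  rw [sat_ex]
  refine exists_congr fun c => ?_
  rw [sat_all]
  refine forall_congr' fun n => ?_
  rw [sat_imp, sat_an, sat_an, sat_or, sat_an, sat_an, sat_nt, sat_nt, sat_all, sat_all]
  have hD0 : ∀ w : ℕ → M, satA A D0F w ↔ D0 A (w 0) (w 3) (w 4) := by
    intro w; unfold D0F D0; rw [sat_ex]; rfl
  have hD1 : ∀ w : ℕ → M, satA A D1F w ↔ D1 A (w 0) (w 3) (w 4) := by
    intro w; unfold D1F D1; rw [sat_ex]; rfl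
  have hlt : ∀ (w : ℕ → M), satA A (ltF 0) w ↔ lt A (w 0) (w 2) := by
    intro w; unfold ltF lt; rw [sat_ex]; rfl
  have hlt1 : ∀ (w : ℕ → M), satA A (ltF 1) w ↔ lt A (w 1) (w 2) := by
    intro w; unfold ltF lt; rw [sat_ex]; rfl
  refine imp_congr (hlt _) (and_congr (or_congr (and_congr (hD0 _) (not_congr (hD1 _)))
    (and_congr (hD1 _) (not_congr (hD0 _)))) (and_congr (forall_congr' fun s => ?_)
    (forall_congr' fun s => ?_)))
  · rw [sat_imp, sat_imp]
    exact imp_congr (hlt1 _) (imp_congr (e θ₁ h₁ _ n s rfl rfl) (hD1 _))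
  · rw [sat_imp, sat_imp]
    exact imp_congr (hlt1 _) (imp_congr (e θ₂ h₂ _ n s rfl rfl) (hD0 _))

/-! ### The standard model -/

theorem exists_code (k : ℕ) (g : ℕ → ℕ) : ∃ b c : ℕ, c ≠ 0 ∧
    ∀ n < k, b % ((n + 1) * c + 1) = g n := by
  set l : List ℕ := (List.range k).map g ++ [1] with hl
  have hlen : l.length = k + 1 := by simp [hl]
  refine ⟨(Nat.unbeta l).unpair.1, (Nat.unbeta l).unpair.2, ?_, ?_⟩
  · intro h0
    have := Nat.beta_unbeta_coe l ⟨k, by omega⟩
    have h1 : l[(⟨k, by omega⟩ : Fin l.length)] = 1 := by simp [hl]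
    rw [h1, Nat.beta, h0, Nat.mul_zero, Nat.zero_add, Nat.mod_one] at this
    exact absurd this (by omega)
  · intro n hn
    have := Nat.beta_unbeta_coe l ⟨n, by omega⟩
    have h1 : l[(⟨n, by omega⟩ : Fin l.length)] = g n := by
      simp [hl, hn]
    rw [h1, Nat.beta] at this
    exact this

/-- The predicate holds at standard elements. -/
theorem psi_num {M : Type} {A : AStr M} (h : IsPA A) (θ₁ θ₂ : AFml) (a₁ : Abs θ₁) (a₂ : Abs θ₂)
    (U V : Set ℕ) (hd : Disjoint U V)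
    (hU : ∀ v : ℕ → ℕ, v 0 ∈ U ↔ ∃ s, satA std θ₁ (update v 1 s))
    (hV : ∀ v : ℕ → ℕ, v 0 ∈ V ↔ ∃ s, satA std θ₂ (update v 1 s))
    (h₁ : ∀ k, freeA θ₁ k → k < 2) (h₂ : ∀ k, freeA θ₂ k → k < 2) (k : ℕ) :
    Psi A θ₁ θ₂ (num A k) := by
  classical
  obtain ⟨b, c, hc, hbc⟩ := exists_code k (fun n => if n ∈ U then 1 else 0)
  refine ⟨num A b, num A c, fun n hn => ?_⟩
  obtain ⟨j, hj, rfl⟩ := lt_num h k n hn
  have hb := hbc j hj
  have hm : 2 ≤ (j + 1) * c + 1 := by
    have : 0 < (j + 1) * c := Nat.mul_pos (Nat.succ_pos _) (Nat.pos_of_ne_zero hc)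
    omega
  -- truth of θ transfers
  have tr : ∀ (θ : AFml), Abs θ → (∀ k, freeA θ k → k < 2) → ∀ (W : Set ℕ),
      (∀ v : ℕ → ℕ, v 0 ∈ W ↔ ∃ s, satA std θ (update v 1 s)) → ∀ s : M, lt A s (num A k) →
      satA A θ (fun i => if i = 0 then num A j else s) → j ∈ W := by
    intro θ hθ hf W hW s hs hsat
    obtain ⟨t, _, rfl⟩ := lt_num h k s hs
    have h3 := (hθ M A h (fun i => if i = 0 then j else t)).1 (by
      convert hsat using 2 with i
      split_ifs <;> rfl)
    refine (hW (fun _ => j)).2 ⟨t, ?_⟩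
    refine (sat_congr std θ fun i hi => ?_).1 h3
    have := hf i hi
    interval_cases i <;> simp
  rw [D0_num h, D1_num h]
  by_cases hjU : j ∈ U
  · have hb1 : b % ((j + 1) * c + 1) = 1 := by rw [hb]; simp [hjU]
    have q1 : ∃ q, q * ((j + 1) * c + 1) + 1 = b :=
      ⟨b / ((j + 1) * c + 1), by
        have := Nat.div_add_mod b ((j + 1) * c + 1)
        rw [hb1] at this; rw [mul_comm]; exact this⟩
    have q0 : ¬ ∃ q, q * ((j + 1) * c + 1) = b := by
      rintro ⟨q, rfl⟩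
      rw [Nat.mul_mod_left] at hb1; omega
    refine ⟨Or.inr ⟨q1, q0⟩, fun _ _ _ => q1, fun s hs hsat => ?_⟩
    have hjV := tr θ₂ a₂ h₂ V hV s hs hsat
    exact absurd hjV (Set.disjoint_left.1 hd hjU)
  · have hb0 : b % ((j + 1) * c + 1) = 0 := by rw [hb]; simp [hjU]
    have q0 : ∃ q, q * ((j + 1) * c + 1) = b :=
      ⟨b / ((j + 1) * c + 1), Nat.div_mul_cancel (Nat.dvd_of_mod_eq_zero hb0)⟩
    have q1 : ¬ ∃ q, q * ((j + 1) * c + 1) + 1 = b := by
      rintro ⟨q, rfl⟩
      have : (q * ((j + 1) * c + 1) + 1) % ((j + 1) * c + 1) = 1 := by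
        rw [Nat.add_mod, Nat.mul_mod_left, Nat.zero_add, Nat.mod_mod]
        exact Nat.mod_eq_of_lt hm
      omega
    refine ⟨Or.inl ⟨q0, q1⟩, fun s hs hsat => ?_, fun _ _ _ => q0⟩
    exact absurd (tr θ₁ a₁ h₁ U hU s hs hsat) hjU

/-- Overspill. -/
theorem overspill {M : Type} {A : AStr M} (h : IsPA A) (hns : A.Nonstandard) (φ : AFml) (i : ℕ)
    (v : ℕ → M) (hφ : ∀ k, satA A φ (update v i (num A k))) :
    ∃ x, (∀ n, x ≠ num A n) ∧ satA A φ (update v i x) := by
  by_contra hcon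
  push Not at hcon
  obtain ⟨x, hx⟩ := hns
  refine hcon x hx (h.ind φ i v (hφ 0) (fun y hy => ?_) x)
  by_cases hy' : ∀ n, y ≠ num A n
  · exact absurd hy (hcon y hy')
  · push Not at hy'
    obtain ⟨n, rfl⟩ := hy'
    rw [← num_succ]; exact hφ (n + 1)

end CodedSep

open CodedSep Function in
/-- The coded separator, from `Σ₁` representations with an absolute matrix. -/
theorem coded_separator_aux {M : Type} (A : AStr M) (hA : IsPA A) (hns : A.Nonstandard)
    (U V : Set ℕ) (hd : Disjoint U V) (θ₁ θ₂ : AFml) (a₁ : Abs θ₁) (a₂ : Abs θ₂)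
    (h₁ : ∀ k, freeA θ₁ k → k < 2) (h₂ : ∀ k, freeA θ₂ k → k < 2)
    (hU : ∀ v : ℕ → ℕ, v 0 ∈ U ↔ ∃ s, satA std θ₁ (update v 1 s))
    (hV : ∀ v : ℕ → ℕ, v 0 ∈ V ↔ ∃ s, satA std θ₂ (update v 1 s)) :
    ∃ (b c : M) (f : ℕ → ℕ), Sep f U V ∧ ∀ n,
      (f n = 0 ∧ (∃ q, A.mul q (A.succ (A.mul (num A (n + 1)) c)) = b) ∧
        ¬ ∃ q, A.succ (A.mul q (A.succ (A.mul (num A (n + 1)) c))) = b) ∨
      (f n = 1 ∧ (∃ q, A.succ (A.mul q (A.succ (A.mul (num A (n + 1)) c))) = b) ∧
        ¬ ∃ q, A.mul q (A.succ (A.mul (num A (n + 1)) c)) = b) := by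
  classical
  obtain ⟨k, hk, hsat⟩ := overspill hA hns (PsiF θ₁ θ₂) 2 (fun _ => A.zero) (fun k => by
    rw [sat_PsiF A θ₁ θ₂ h₁ h₂, update_self]
    exact psi_num hA θ₁ θ₂ a₁ a₂ U V hd hU hV h₁ h₂ k)
  rw [sat_PsiF A θ₁ θ₂ h₁ h₂, update_self] at hsat
  obtain ⟨b, c, hbc⟩ := hsat
  have tr : ∀ (θ : AFml), Abs θ → (∀ k, freeA θ k → k < 2) → ∀ (W : Set ℕ),
      (∀ v : ℕ → ℕ, v 0 ∈ W ↔ ∃ s, satA std θ (update v 1 s)) → ∀ n ∈ W, ∃ s : M, lt A s k ∧
      satA A θ (fun i => if i = 0 then num A n else s) := by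
    intro θ hθ hf W hW n hn
    obtain ⟨t, ht⟩ := (hW (fun _ => n)).1 hn
    refine ⟨num A t, num_lt hA t k hk, ?_⟩
    have h3 := (hθ M A hA (update (fun _ => n) 1 t)).2 ht
    refine (sat_congr A θ fun i hi => ?_).1 h3
    have := hf i hi
    interval_cases i <;> simp
  refine ⟨b, c, fun n => if D1 A (num A n) b c then 1 else 0, ⟨fun n hn => ?_, fun n hn => ?_⟩,
    fun n => ?_⟩
  · obtain ⟨s, hs, hs2⟩ := tr θ₁ a₁ h₁ U hU n hn
    have := (hbc _ (num_lt hA n k hk)).2.1 s hs hs2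
    simp [this]
  · obtain ⟨s, hs, hs2⟩ := tr θ₂ a₂ h₂ V hV n hn
    have h3 := (hbc _ (num_lt hA n k hk)).2.2 s hs hs2
    have h4 : ¬ D1 A (num A n) b c := by
      rcases (hbc _ (num_lt hA n k hk)).1 with h5 | h5
      · exact h5.2
      · exact absurd h3 h5.2
    simp [h4]
  · rw [num_succ]
    rcases (hbc _ (num_lt hA n k hk)).1 with h5 | h5
    · left
      refine ⟨by simp [h5.2], h5.1, h5.2⟩
    · right
      refine ⟨by simp [h5.1], h5.1, h5.2⟩

end H97.PAS
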