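import Pool.Agent.Helper97.PAS.Base

/-!
# Module E: an `A`-computable copy of a structure which is limit computable from `A`
(written by helper42)
-/

namespace H97.PAS

open Function

/-! ### The injury process -/

/-- The candidate at stage `s`. -/
def cand (b : ℕ → Bool) (s : ℕ) : ℕ := Nat.rec 0 (fun s c => bif b s then c else s + 1) s

/-- The element dying at stage `s`. -/
def dead (b : ℕ → Bool) (s : ℕ) : ℕ := bif b s then s + 1 else cand b s

theorem cand_succ (b : ℕ → Bool) (s : ℕ) :
    cand b (s + 1) = bif b s then cand b s else s + 1 := rfl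

theorem cand_le (b : ℕ → Bool) (s : ℕ) : cand b s ≤ s := by
  induction s with
  | zero => exact le_rfl
  | succ s ih =>
    rw [cand_succ]
    cases b s
    · exact le_rfl
    · exact ih.trans (Nat.le_succ s)

theorem dead_le (b : ℕ → Bool) (s : ℕ) : dead b s ≤ s + 1 := by
  rw [dead]
  cases b s
  · exact (cand_le b s).trans (Nat.le_succ s)
  · exact le_rfl

theorem dead_ne_cand (b : ℕ → Bool) (s : ℕ) : ∀ i < s, dead b i ≠ cand b s := by
  induction s with
  | zero => intro i hi; omega
  | succ s ih =>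
    intro i hi
    rw [cand_succ]
    rcases Nat.lt_or_ge i s with h | h
    · cases hb : b s
      · have := dead_le b i
        simp only [cond_false]
        omega
      · exact ih i h
    · have his : i = s := by omega
      subst his
      have := cand_le b i
      rw [dead]
      cases b i <;> simp only [cond_false, cond_true] <;> omega

theorem exhaust (b : ℕ → Bool) (s : ℕ) : ∀ j ≤ s, j = cand b s ∨ ∃ i < s, dead b i = j := by
  induction s with
  | zero => intro j hj; left; simp [cand]; omega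
  | succ s ih =>
    intro j hj
    rcases Nat.lt_or_ge s j with h | h
    · have : j = s + 1 := by omega
      subst this
      rw [cand_succ]
      cases hb : b s
      · left; rfl
      · right; exact ⟨s, Nat.lt_succ_self s, by rw [dead, hb]; rfl⟩
    · rcases ih j h with h1 | ⟨i, hi, h1⟩
      · rw [cand_succ]
        cases hb : b s
        · right; exact ⟨s, Nat.lt_succ_self s, by rw [dead, hb, h1]; rfl⟩
        · left; exact h1
      · right; exact ⟨i, hi.trans (Nat.lt_succ_self s), h1⟩

theorem dead_injective (b : ℕ → Bool) : Injective (dead b) := by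
  have key : ∀ i j, i < j → dead b i ≠ dead b j := by
    intro i j hij h
    have h1 := dead_le b i
    have h2 := dead_ne_cand b j i hij
    rw [h, dead] at h1
    rw [h, dead] at h2
    cases hb : b j
    · rw [hb] at h2; exact h2 rfl
    · rw [hb] at h1; simp only [cond_true] at h1; omega
  intro i j h
  rcases lt_trichotomy i j with h1 | h1 | h1
  · exact absurd h (key i j h1)
  · exact h1
  · exact absurd h.symm (key j i h1)

theorem cand_stable (b : ℕ → Bool) (s₀ : ℕ) (h : ∀ s ≥ s₀, b s = true) :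
    ∀ s ≥ s₀, cand b s = cand b s₀ := by
  intro s hs
  induction s, hs using Nat.le_induction with
  | base => rfl
  | succ s hs ih => rw [cand_succ, h s hs, cond_true, ih]

/-- If `b` is eventually true, exactly one number never dies. -/
theorem alive_of_true (b : ℕ → Bool) (s₀ : ℕ) (h : ∀ s ≥ s₀, b s = true) (j : ℕ) :
    (¬ ∃ i, dead b i = j) ↔ j = cand b s₀ := by
  constructor
  · intro hj
    rcases exhaust b (max s₀ j) j (le_max_right _ _) with h1 | ⟨i, _, h1⟩
    · rw [h1, cand_stable b s₀ h _ (le_max_left _ _)]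
    · exact absurd ⟨i, h1⟩ hj
  · rintro rfl ⟨i, hi⟩
    have h1 := dead_ne_cand b (max s₀ (i + 1)) i (lt_of_lt_of_le (Nat.lt_succ_self i) (le_max_right _ _))
    rw [cand_stable b s₀ h _ (le_max_left _ _)] at h1
    exact h1 hi

/-- If `b` is eventually false, all numbers die. -/
theorem dead_of_false (b : ℕ → Bool) (s₀ : ℕ) (h : ∀ s ≥ s₀, b s = false) (j : ℕ) :
    ∃ i, dead b i = j := by
  rcases exhaust b (max s₀ j + 1) j (by omega) with h1 | ⟨i, _, h1⟩
  · rw [cand_succ, h _ (le_max_left _ _), cond_false] at h1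
    omega
  · exact ⟨i, h1⟩

/-! ### Computability of the process -/

/-- The approximation read off an initial segment. -/
def bfun (γ : ℕ → List ℕ → Bool) (q : ℕ) (σ : List ℕ) (s : ℕ) : Bool := γ q (σ.take s)

theorem take_seg (A : ℕ → ℕ) (s t : ℕ) (h : s ≤ t) : (seg A t).take s = seg A s := by
  rw [seg, seg, ← List.map_take, List.take_range, min_eq_left h]

theorem cand_congr {b b' : ℕ → Bool} (s : ℕ) (h : ∀ i < s, b i = b' i) : cand b s = cand b' s := by
  induction s with
  | zero => rfl
  | succ s ih =>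
    rw [cand_succ, cand_succ, h s (Nat.lt_succ_self s), ih fun i hi => h i (hi.trans (Nat.lt_succ_self s))]

theorem dead_congr {b b' : ℕ → Bool} (s : ℕ) (h : ∀ i ≤ s, b i = b' i) : dead b s = dead b' s := by
  rw [dead, dead, h s le_rfl, cand_congr s fun i hi => h i hi.le]

theorem computable_bfun {γ : ℕ → List ℕ → Bool} (hγ : Computable₂ γ) {α : Type*} [Primcodable α]
    {q : α → ℕ} {σ : α → List ℕ} {s : α → ℕ} (hq : Computable q) (hσ : Computable σ)
    (hs : Computable s) : Computable fun a => bfun γ (q a) (σ a) (s a) :=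
  Computable₂.comp hγ hq (Computable₂.comp Primrec.list_take.to_comp hs hσ)

theorem computable_cand {γ : ℕ → List ℕ → Bool} (hγ : Computable₂ γ) {α : Type*} [Primcodable α]
    {q : α → ℕ} {σ : α → List ℕ} {s : α → ℕ} (hq : Computable q) (hσ : Computable σ)
    (hs : Computable s) : Computable fun a => cand (bfun γ (q a) (σ a)) (s a) := by
  have h1 : Computable₂ (fun (a : α) (p : ℕ × ℕ) =>
      bif bfun γ (q a) (σ a) p.1 then p.2 else p.1 + 1) := by
    refine Computable.cond ?_ (Computable.snd.comp Computable.snd)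
      (Computable.succ.comp (Computable.fst.comp Computable.snd))
    exact computable_bfun hγ (hq.comp Computable.fst) (hσ.comp Computable.fst)
      (Computable.fst.comp Computable.snd)
  exact Computable.nat_rec hs (Computable.const 0) h1

theorem computable_dead {γ : ℕ → List ℕ → Bool} (hγ : Computable₂ γ) {α : Type*} [Primcodable α]
    {q : α → ℕ} {σ : α → List ℕ} {s : α → ℕ} (hq : Computable q) (hσ : Computable σ)
    (hs : Computable s) : Computable fun a => dead (bfun γ (q a) (σ a)) (s a) :=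
  Computable.cond (computable_bfun hγ hq hσ hs) (Computable.succ.comp hs)
    (computable_cand hγ hq hσ hs)

/-! ### Coordinates -/

/-- The coordinates of `⟨x, ⟨y, ⟨w, t⟩⟩⟩`. -/
def cx (q : ℕ) : ℕ := q.unpair.1
/-- second coordinate -/
def cy (q : ℕ) : ℕ := q.unpair.2.unpair.1
/-- third coordinate -/
def cw (q : ℕ) : ℕ := q.unpair.2.unpair.2.unpair.1
/-- fourth coordinate -/
def ct (q : ℕ) : ℕ := q.unpair.2.unpair.2.unpair.2

theorem pair_coord (q : ℕ) : Nat.pair (cx q) (Nat.pair (cy q) (Nat.pair (cw q) (ct q))) = q := by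
  simp [cx, cy, cw, ct]

theorem ext_coord {q q' : ℕ} (h1 : cx q = cx q') (h2 : cy q = cy q') (h3 : cw q = cw q')
    (h4 : ct q = ct q') : q = q' := by
  rw [← pair_coord q, ← pair_coord q', h1, h2, h3, h4]

theorem primrec_cx : Primrec cx := Primrec.fst.comp Primrec.unpair
theorem primrec_cy : Primrec cy :=
  Primrec.fst.comp (Primrec.unpair.comp (Primrec.snd.comp Primrec.unpair))
theorem primrec_cw : Primrec cw :=
  Primrec.fst.comp (Primrec.unpair.comp (Primrec.snd.comp (Primrec.unpair.comp
    (Primrec.snd.comp Primrec.unpair))))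
theorem primrec_ct : Primrec ct :=
  Primrec.snd.comp (Primrec.unpair.comp (Primrec.snd.comp (Primrec.unpair.comp
    (Primrec.snd.comp Primrec.unpair))))

open Classical in
/-- The element with the index `⟨q, j⟩`. -/
noncomputable def eltq (d : ℕ → ℕ → ℕ) (q j : ℕ) : El ℕ :=
  if h : ∃ i, d q i = j then El.de (cx q) (cy q) (cw q) (ct q) h.choose
  else El.al (cx q) (cy q) (cw q)

/-- The enumeration of the elements. -/
noncomputable def elt (d : ℕ → ℕ → ℕ) (n : ℕ) : El ℕ :=
  if n % 2 = 0 then El.p (n / 2) else eltq d (n / 2).unpair.1 (n / 2).unpair.2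

theorem elt_even (d : ℕ → ℕ → ℕ) (k : ℕ) : elt d (2 * k) = El.p k := by
  rw [elt, if_pos (by omega)]
  congr 1; omega

theorem elt_odd (d : ℕ → ℕ → ℕ) (q j : ℕ) : elt d (2 * Nat.pair q j + 1) = eltq d q j := by
  have h0 : (2 * Nat.pair q j + 1) / 2 = Nat.pair q j := by omega
  rw [elt, if_neg (by omega), h0, Nat.unpair_pair]

theorem elt_dead (d : ℕ → ℕ → ℕ) (hd : ∀ q, Injective (d q)) (q i : ℕ) :
    elt d (2 * Nat.pair q (d q i) + 1) = El.de (cx q) (cy q) (cw q) (ct q) i := by
  have h : ∃ i', d q i' = d q i := ⟨i, rfl⟩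
  rw [elt_odd, eltq, dif_pos h, hd q h.choose_spec]

theorem elt_alive (d : ℕ → ℕ → ℕ) (q j : ℕ) (h : ¬ ∃ i, d q i = j) :
    elt d (2 * Nat.pair q j + 1) = El.al (cx q) (cy q) (cw q) := by
  rw [elt_odd, eltq, dif_neg h]

/-- Every number is of one of three kinds. -/
theorem kinds (d : ℕ → ℕ → ℕ) (n : ℕ) : (∃ k, n = 2 * k) ∨
    (∃ q i, n = 2 * Nat.pair q (d q i) + 1) ∨
    ∃ q j, (¬ ∃ i, d q i = j) ∧ n = 2 * Nat.pair q j + 1 := by
  rcases Nat.even_or_odd' n with ⟨k, rfl | rfl⟩
  · left; exact ⟨k, rfl⟩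
  · right
    by_cases h : ∃ i, d k.unpair.1 i = k.unpair.2
    · left
      obtain ⟨i, hi⟩ := h
      exact ⟨k.unpair.1, i, by rw [hi, Nat.pair_unpair]⟩
    · right
      exact ⟨k.unpair.1, k.unpair.2, h, by rw [Nat.pair_unpair]⟩

theorem elt_bijective (d : ℕ → ℕ → ℕ) (hd : ∀ q, Injective (d q)) (F : ℕ → ℕ → ℕ → ℕ)
    (h1 : ∀ q, F (cx q) (cy q) (cw q) = ct q → ∃ j₀, ∀ j, (¬ ∃ i, d q i = j) ↔ j = j₀)
    (h2 : ∀ q, F (cx q) (cy q) (cw q) ≠ ct q → ∀ j, ∃ i, d q i = j) :
    Bijective (elt d) := by
  constructor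
  · intro m n h
    rcases kinds d m with ⟨k, rfl⟩ | ⟨q, i, rfl⟩ | ⟨q, j, hj, rfl⟩ <;>
    rcases kinds d n with ⟨k', rfl⟩ | ⟨q', i', rfl⟩ | ⟨q', j', hj', rfl⟩
    · rw [elt_even, elt_even] at h
      injection h with h; rw [h]
    · rw [elt_even, elt_dead d hd] at h; cases h
    · rw [elt_even, elt_alive d _ _ hj'] at h; cases h
    · rw [elt_dead d hd, elt_even] at h; cases h
    · rw [elt_dead d hd, elt_dead d hd] at h
      injection h with e1 e2 e3 e4 e5
      have := ext_coord e1 e2 e3 e4
      subst this; subst e5; rfl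
    · rw [elt_dead d hd, elt_alive d _ _ hj'] at h; cases h
    · rw [elt_alive d _ _ hj, elt_even] at h; cases h
    · rw [elt_alive d _ _ hj, elt_dead d hd] at h; cases h
    · rw [elt_alive d _ _ hj, elt_alive d _ _ hj'] at h
      injection h with e1 e2 e3
      have f1 : F (cx q) (cy q) (cw q) = ct q := by
        by_contra hcon
        exact hj (h2 q hcon j)
      have f2 : F (cx q') (cy q') (cw q') = ct q' := by
        by_contra hcon
        exact hj' (h2 q' hcon j')
      have e4 : ct q = ct q' := by rw [← f1, ← f2, e1, e2, e3]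
      have := ext_coord e1 e2 e3 e4
      subst this
      obtain ⟨j₀, hj₀⟩ := h1 q f1
      rw [(hj₀ j).1 hj, (hj₀ j').1 hj']
  · intro y
    cases y with
    | p x => exact ⟨2 * x, elt_even d x⟩
    | al x y w =>
      obtain ⟨q, hq⟩ : ∃ q, q = Nat.pair x (Nat.pair y (Nat.pair w (F x y w))) := ⟨_, rfl⟩
      have e1 : cx q = x := by rw [hq]; simp [cx]
      have e2 : cy q = y := by rw [hq]; simp [cy]
      have e3 : cw q = w := by rw [hq]; simp [cw]
      have e4 : ct q = F x y w := by rw [hq]; simp [ct]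
      obtain ⟨j₀, hj₀⟩ := h1 q (by rw [e1, e2, e3, e4])
      refine ⟨2 * Nat.pair q j₀ + 1, ?_⟩
      rw [elt_alive d q j₀ ((hj₀ j₀).2 rfl), e1, e2, e3]
    | de x y w t i =>
      obtain ⟨q, hq⟩ : ∃ q, q = Nat.pair x (Nat.pair y (Nat.pair w t)) := ⟨_, rfl⟩
      have e1 : cx q = x := by rw [hq]; simp [cx]
      have e2 : cy q = y := by rw [hq]; simp [cy]
      have e3 : cw q = w := by rw [hq]; simp [cw]
      have e4 : ct q = t := by rw [hq]; simp [ct]
      refine ⟨2 * Nat.pair q (d q i) + 1, ?_⟩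
      rw [elt_dead d hd, e1, e2, e3, e4]

/-! ### The diagram -/

/-- The diagram, computed from an initial segment. -/
def diagB (d : ℕ → ℕ → ℕ) (A : ℕ → ℕ) (k a b : ℕ) : Bool :=
  bif decide (5 ≤ k) then decide (A (k - 5) = 1)
  else (decide (a % 2 = 1) && decide (b % 2 = 0)) &&
    (bif decide (k = 0) then decide (b / 2 = cx (a / 2).unpair.1)
      else bif decide (k = 1) then decide (b / 2 = cy (a / 2).unpair.1)
      else bif decide (k = 2) then decide (b / 2 = cw (a / 2).unpair.1)
      else bif decide (k = 3) then decide (b / 2 = ct (a / 2).unpair.1)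
      else decide (d (a / 2).unpair.1 (b / 2) = (a / 2).unpair.2))

theorem diagB_iff (d : ℕ → ℕ → ℕ) (hd : ∀ q, Injective (d q)) (F : ℕ → ℕ → ℕ → ℕ) (A : ℕ → ℕ)
    (h2 : ∀ q, F (cx q) (cy q) (cw q) ≠ ct q → ∀ j, ∃ i, d q i = j) (k a b : ℕ) :
    diagB d A k a b = true ↔ KRel F (fun n => A n = 1) k (elt d a) (elt d b) := by
  by_cases hk5 : 5 ≤ k
  · obtain ⟨n, rfl⟩ : ∃ n, k = n + 5 := ⟨k - 5, by omega⟩
    rw [diagB, decide_eq_true hk5, cond_true, Nat.add_sub_cancel, decide_eq_true_iff]
    exact Iff.rfl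
  · rw [diagB, decide_eq_false hk5, cond_false]
    -- `b`
    rcases Nat.even_or_odd' b with ⟨u, rfl | rfl⟩
    swap
    · -- `b` odd: no relation
      have hb : decide ((2 * u + 1) % 2 = 0) = false := by simp
      rw [hb, Bool.and_false, Bool.false_and]
      simp only [Bool.false_eq_true, false_iff]
      rcases kinds d (2 * u + 1) with ⟨k', h'⟩ | ⟨q, i, h'⟩ | ⟨q, j, hj, h'⟩
      · omega
      · rw [h', elt_dead d hd]
        interval_cases k <;> cases elt d a <;> simp [KRel]
      · rw [h', elt_alive d _ _ hj]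
        interval_cases k <;> cases elt d a <;> simp [KRel]
    · rw [elt_even]
      have hb : decide (2 * u % 2 = 0) = true := by simp
      have hb2 : 2 * u / 2 = u := by omega
      rw [hb, Bool.and_true, hb2]
      rcases kinds d a with ⟨k', rfl⟩ | ⟨q, i, rfl⟩ | ⟨q, j, hj, rfl⟩
      · have ha : decide (2 * k' % 2 = 1) = false := by simp
        rw [ha, Bool.false_and, elt_even]
        simp only [Bool.false_eq_true, false_iff]
        interval_cases k <;> simp [KRel]
      · have ha : decide ((2 * Nat.pair q (d q i) + 1) % 2 = 1) = true := by simp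
        have ha2 : (2 * Nat.pair q (d q i) + 1) / 2 = Nat.pair q (d q i) := by omega
        rw [ha, Bool.true_and, ha2, elt_dead d hd, Nat.unpair_pair]
        have hdd : d q u = d q i ↔ u = i := ⟨fun h => hd q h, fun h => by rw [h]⟩
        interval_cases k <;> simp [KRel, hdd]
      · have ha : decide ((2 * Nat.pair q j + 1) % 2 = 1) = true := by simp
        have ha2 : (2 * Nat.pair q j + 1) / 2 = Nat.pair q j := by omega
        have hF : F (cx q) (cy q) (cw q) = ct q := by
          by_contra hcon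
          exact hj (h2 q hcon j)
        rw [ha, Bool.true_and, ha2, elt_alive d q j hj, Nat.unpair_pair]
        have hju : d q u ≠ j := fun h => hj ⟨u, h⟩
        interval_cases k <;> simp [KRel, hF, hju]

theorem computable_diagB {γ : ℕ → List ℕ → Bool} (hγ : Computable₂ γ) :
    Computable₂ fun (x : ℕ) (σ : List ℕ) =>
      diagB (fun q => dead (bfun γ q σ)) (fun n => σ.getD n 0)
        x.unpair.1 x.unpair.2.unpair.1 x.unpair.2.unpair.2 := by
  have hk : Primrec fun p : ℕ × List ℕ => p.1.unpair.1 :=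
    Primrec.fst.comp (Primrec.unpair.comp Primrec.fst)
  have hab : Primrec fun p : ℕ × List ℕ => p.1.unpair.2.unpair :=
    Primrec.unpair.comp (Primrec.snd.comp (Primrec.unpair.comp Primrec.fst))
  have ha : Primrec fun p : ℕ × List ℕ => p.1.unpair.2.unpair.1 := Primrec.fst.comp hab
  have hb : Primrec fun p : ℕ × List ℕ => p.1.unpair.2.unpair.2 := Primrec.snd.comp hab
  have ha2 : Primrec fun p : ℕ × List ℕ => p.1.unpair.2.unpair.1 / 2 :=
    Primrec.nat_div.comp ha (Primrec.const 2)
  have hb2 : Primrec fun p : ℕ × List ℕ => p.1.unpair.2.unpair.2 / 2 :=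
    Primrec.nat_div.comp hb (Primrec.const 2)
  have ham : Primrec fun p : ℕ × List ℕ => p.1.unpair.2.unpair.1 % 2 :=
    Primrec.nat_mod.comp ha (Primrec.const 2)
  have hbm : Primrec fun p : ℕ × List ℕ => p.1.unpair.2.unpair.2 % 2 :=
    Primrec.nat_mod.comp hb (Primrec.const 2)
  have hq : Primrec fun p : ℕ × List ℕ => (p.1.unpair.2.unpair.1 / 2).unpair.1 :=
    Primrec.fst.comp (Primrec.unpair.comp ha2)
  have hj : Primrec fun p : ℕ × List ℕ => (p.1.unpair.2.unpair.1 / 2).unpair.2 :=
    Primrec.snd.comp (Primrec.unpair.comp ha2)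
  have heq : ∀ {f g : ℕ × List ℕ → ℕ}, Primrec f → Primrec g →
      Computable fun p => decide (f p = g p) := fun hf hg =>
    (Primrec.eq.decide.comp hf hg).to_comp
  have hle : Computable fun p : ℕ × List ℕ => decide (5 ≤ p.1.unpair.1) :=
    (Primrec.nat_le.decide.comp (Primrec.const 5) hk).to_comp
  have hget : Primrec fun p : ℕ × List ℕ => p.2.getD (p.1.unpair.1 - 5) 0 :=
    (Primrec.list_getD 0).comp Primrec.snd (Primrec.nat_sub.comp hk (Primrec.const 5))
  have hdead : Computable fun p : ℕ × List ℕ =>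
      dead (bfun γ (p.1.unpair.2.unpair.1 / 2).unpair.1 p.2) (p.1.unpair.2.unpair.2 / 2) :=
    computable_dead hγ hq.to_comp Computable.snd hb2.to_comp
  have hdeq : Computable fun p : ℕ × List ℕ =>
      decide (dead (bfun γ (p.1.unpair.2.unpair.1 / 2).unpair.1 p.2) (p.1.unpair.2.unpair.2 / 2)
        = (p.1.unpair.2.unpair.1 / 2).unpair.2) :=
    Computable₂.comp (Primrec.eq.decide (α := ℕ)).to_comp hdead hj.to_comp
  have hand : ∀ {f g : ℕ × List ℕ → Bool}, Computable f → Computable g →
      Computable fun p => f p && g p := fun hf hg =>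
    Computable₂.comp Primrec.and.to_comp hf hg
  exact Computable.cond hle (heq hget (Primrec.const 1))
    (hand (hand (heq ham (Primrec.const 1)) (heq hbm (Primrec.const 0)))
      (Computable.cond (heq hk (Primrec.const 0)) (heq hb2 (primrec_cx.comp hq))
        (Computable.cond (heq hk (Primrec.const 1)) (heq hb2 (primrec_cy.comp hq))
          (Computable.cond (heq hk (Primrec.const 2)) (heq hb2 (primrec_cw.comp hq))
            (Computable.cond (heq hk (Primrec.const 3)) (heq hb2 (primrec_ct.comp hq)) hdeq)))))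

theorem diagB_congr {d d' : ℕ → ℕ → ℕ} {A A' : ℕ → ℕ} {k a b : ℕ}
    (hd : ∀ q, d q (b / 2) = d' q (b / 2)) (hA : A (k - 5) = A' (k - 5)) :
    diagB d A k a b = diagB d' A' k a b := by
  rw [diagB, diagB, hA, hd]

theorem copy (A : ℕ → ℕ) (F : ℕ → ℕ → ℕ → ℕ) (γ : ℕ → List ℕ → Bool) (hγ : Computable₂ γ)
    (hlim : ∀ x y w t, ∃ s₀, ∀ s ≥ s₀,
      (γ (Nat.pair x (Nat.pair y (Nat.pair w t))) (seg A s) = true ↔ F x y w = t)) :
    ∃ (R : LStr ℕ) (e : ℕ ≃ El ℕ),
      (∀ k a b, R k a b ↔ KRel F (fun n => A n = 1) k (e a) (e b)) ∧ CompFrom A R.diag := by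
  classical
  -- the true process
  obtain ⟨bt, hbt⟩ : ∃ bt : ℕ → ℕ → Bool, bt = fun q s => γ q (seg A s) := ⟨_, rfl⟩
  obtain ⟨d, hd⟩ : ∃ d : ℕ → ℕ → ℕ, d = fun q => dead (bt q) := ⟨_, rfl⟩
  have hlim' : ∀ q, ∃ s₀, ∀ s ≥ s₀, (bt q s = true ↔ F (cx q) (cy q) (cw q) = ct q) := by
    intro q
    obtain ⟨s₀, h⟩ := hlim (cx q) (cy q) (cw q) (ct q)
    rw [pair_coord] at h
    exact ⟨s₀, fun s hs => by rw [hbt]; exact h s hs⟩
  have hinj : ∀ q, Injective (d q) := fun q => by rw [hd]; exact dead_injective _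
  have h1 : ∀ q, F (cx q) (cy q) (cw q) = ct q → ∃ j₀, ∀ j, (¬ ∃ i, d q i = j) ↔ j = j₀ := by
    intro q hq
    obtain ⟨s₀, h⟩ := hlim' q
    refine ⟨cand (bt q) s₀, fun j => ?_⟩
    rw [hd]
    exact alive_of_true (bt q) s₀ (fun s hs => (h s hs).2 hq) j
  have h2 : ∀ q, F (cx q) (cy q) (cw q) ≠ ct q → ∀ j, ∃ i, d q i = j := by
    intro q hq j
    obtain ⟨s₀, h⟩ := hlim' q
    rw [hd]
    apply dead_of_false (bt q) s₀ _ j
    intro s hs
    by_contra hcon
    rw [Bool.not_eq_false] at hcon
    exact hq ((h s hs).1 hcon)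
  have hbij := elt_bijective d hinj F h1 h2
  refine ⟨fun k a b => KRel F (fun n => A n = 1) k (elt d a) (elt d b),
    Equiv.ofBijective (elt d) hbij, fun k a b => Iff.rfl, ?_⟩
  -- computability
  have hval : ∀ x, LStr.diag (fun k a b => KRel F (fun n => A n = 1) k (elt d a) (elt d b)) x + 1
      = bif diagB d A x.unpair.1 x.unpair.2.unpair.1 x.unpair.2.unpair.2 then 2 else 1 := by
    intro x
    have h3 := diagB_iff d hinj F A h2 x.unpair.1 x.unpair.2.unpair.1 x.unpair.2.unpair.2
    rw [LStr.diag]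
    by_cases h : KRel F (fun n => A n = 1) x.unpair.1 (elt d x.unpair.2.unpair.1)
      (elt d x.unpair.2.unpair.2)
    · rw [if_pos h, h3.2 h]; rfl
    · rw [if_neg h]
      have : diagB d A x.unpair.1 x.unpair.2.unpair.1 x.unpair.2.unpair.2 = false := by
        by_contra hcon
        rw [Bool.not_eq_false] at hcon
        exact h (h3.1 hcon)
      rw [this]; rfl
  have hseg : ∀ x s, x + 1 < s →
      diagB (fun q => dead (bfun γ q (seg A s))) (fun n => (seg A s).getD n 0)
        x.unpair.1 x.unpair.2.unpair.1 x.unpair.2.unpair.2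
      = diagB d A x.unpair.1 x.unpair.2.unpair.1 x.unpair.2.unpair.2 := by
    intro x s hs
    have hx1 : x.unpair.1 ≤ x := Nat.unpair_left_le x
    have hx2 : x.unpair.2.unpair.2 ≤ x :=
      (Nat.unpair_right_le _).trans (Nat.unpair_right_le _)
    apply diagB_congr
    · intro q
      rw [hd, hbt]
      apply dead_congr
      intro i hi
      rw [bfun, take_seg A i s (by omega)]
    · have h4 : x.unpair.1 - 5 < s := by omega
      simp only [seg, List.getD_eq_getElem?_getD, List.getElem?_map,
        List.getElem?_range h4, Option.map_some, Option.getD_some]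
  refine ⟨fun x σ => bif decide (σ.length ≤ x + 1) then 0 else
    bif diagB (fun q => dead (bfun γ q σ)) (fun n => σ.getD n 0)
        x.unpair.1 x.unpair.2.unpair.1 x.unpair.2.unpair.2 then 2 else 1, ?_, ?_, ?_⟩
  · refine Computable.cond ?_ (Computable.const 0)
      (Computable.cond (computable_diagB hγ) (Computable.const 2) (Computable.const 1))
    exact (Primrec.nat_le.decide.comp (Primrec.list_length.comp Primrec.snd)
      (Primrec.succ.comp Primrec.fst)).to_comp
  · intro x
    refine ⟨x + 2, ?_⟩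
    have hlen : (seg A (x + 2)).length = x + 2 := by simp [seg]
    simp only [hlen]
    rw [decide_eq_false (by omega), cond_false, hseg x (x + 2) (by omega), hval]
  · intro x s
    have hlen : (seg A s).length = s := by simp [seg]
    simp only [hlen]
    rcases Nat.lt_or_ge (x + 1) s with h | h
    · right
      rw [decide_eq_false (by omega), cond_false, hseg x s h, hval]
    · left
      rw [decide_eq_true h, cond_true]

end H97.PAS
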