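import Pool.Agent.Helper97.PAS.Syn

/-!
# Predicates uniformly definable by `L_A`-formulas
-/

namespace H97.PAS

open Function

/-- `S` is definable by an `L_A`-formula, uniformly in all `L_A`-structures. -/
def UA (S : ∀ M : Type, AStr M → (ℕ → M) → Prop) : Prop :=
  ∃ φ : AFml, ∀ (M : Type) (A : AStr M) (v : ℕ → M), satA A φ v ↔ S M A v

/-- Renaming by a list of variable indices. -/
def rn (l : List ℕ) (i : ℕ) : ℕ := l.getD i (l.headD 0)

namespace UA

variable {S T : ∀ M : Type, AStr M → (ℕ → M) → Prop}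

theorem congr (h : UA S) (hST : ∀ M A v, (S M A v ↔ T M A v)) : UA T := by
  obtain ⟨φ, hφ⟩ := h
  exact ⟨φ, fun M A v => (hφ M A v).trans (hST M A v)⟩

theorem eq (s t : Tm) : UA (fun _ A v => s.val A v = t.val A v) :=
  ⟨.atom (s, t), fun _ _ _ => Iff.rfl⟩

theorem false : UA (fun _ _ _ => False) := ⟨.bot, fun _ _ _ => Iff.rfl⟩

theorem imp (h : UA S) (h' : UA T) : UA (fun M A v => S M A v → T M A v) := by
  obtain ⟨φ, hφ⟩ := h
  obtain ⟨ψ, hψ⟩ := h'
  exact ⟨.imp φ ψ, fun M A v => imp_congr (hφ M A v) (hψ M A v)⟩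

theorem not (h : UA S) : UA (fun M A v => ¬ S M A v) := h.imp false

theorem and (h : UA S) (h' : UA T) : UA (fun M A v => S M A v ∧ T M A v) :=
  ((h.imp h'.not).not).congr (fun _ _ _ => by tauto)

theorem or (h : UA S) (h' : UA T) : UA (fun M A v => S M A v ∨ T M A v) :=
  (h.not.imp h').congr (fun _ _ _ => by tauto)

theorem iff (h : UA S) (h' : UA T) : UA (fun M A v => S M A v ↔ T M A v) :=
  ((h.imp h').and (h'.imp h)).congr (fun _ _ _ => by tauto)

theorem all (i : ℕ) (h : UA S) : UA (fun M A v => ∀ x, S M A (update v i x)) := by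
  obtain ⟨φ, hφ⟩ := h
  exact ⟨.all i φ, fun M A v => forall_congr' fun x => hφ M A _⟩

theorem ex (i : ℕ) (h : UA S) : UA (fun M A v => ∃ x, S M A (update v i x)) :=
  ((h.not.all i).not).congr (fun _ _ _ => by simp only [not_forall, not_not])

theorem ren (f : ℕ → ℕ) (h : UA S) : UA (fun M A v => S M A (v ∘ f)) := by
  obtain ⟨φ, hφ⟩ := h
  obtain ⟨φ', hφ'⟩ := renA φ f
  exact ⟨φ', fun M A v => (hφ' M A v).trans (hφ M A _)⟩

theorem exists_free (m : ℕ) (h : UA S)
    (hS : ∀ M A v w, (∀ k < m, v k = w k) → (S M A v ↔ S M A w)) :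
    ∃ φ : AFml, (∀ k, freeA φ k → k < m) ∧
      ∀ (M : Type) (A : AStr M) (v : ℕ → M), satA A φ v ↔ S M A v := by
  obtain ⟨φ, hφ⟩ := h
  obtain ⟨N, hN⟩ := exists_boundA φ
  refine ⟨φ.closeFrom m N, fun k hk => ?_, fun M A v => ?_⟩
  · have := (Fml.free_closeFrom m N φ k).1 hk
    have h2 := hN k this.2
    omega
  · have h1 := Fml.sat_closeFrom (I := fun (a : Tm × Tm) (w : ℕ → M) => a.1.val A w = a.2.val A w)
      m N φ v
    change (Fml.closeFrom m N φ).Sat _ v ↔ _
    rw [h1]
    constructor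
    · intro h
      exact (hφ M A v).1 (h v (fun _ _ => rfl))
    · intro h w hw
      refine (hφ M A w).2 ((hS M A w v fun k hk => hw k (Or.inl hk)).2 h)

end UA

/-! ### The graphs of the coding functions -/

theorem ua_le : UA (fun _ A v => A.le (v 0) (v 1)) :=
  ((UA.eq (.add (.var 2) (.var 0)) (.var 1)).ex 2).congr fun M A v => by
    simp only [Tm.val, update_self, ne_eq, OfNat.zero_ne_ofNat, not_false_eq_true, update_of_ne,
      OfNat.one_ne_ofNat, AStr.le]

theorem ua_pr : UA (fun _ A v => v 2 = A.pr (v 0) (v 1)) := by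
  have h := ua_le.ren (rn [1, 0])
  refine ((h.and (UA.eq (.var 2) (.add (.add (.mul (.var 0) (.var 0)) (.var 0)) (.var 1)))).or
    (h.not.and (UA.eq (.var 2) (.add (.mul (.var 1) (.var 1)) (.var 0))))).congr fun M A v => ?_
  simp only [Tm.val, comp_apply, rn, List.getD_cons_zero, List.getD_cons_succ, AStr.pr]
  split_ifs with h' <;> simp [h']

theorem ua_encp : UA (fun _ A v => v 1 = A.enc (.p (v 0))) :=
  (UA.eq (.var 1) (.add (.add (.var 0) (.var 0)) (.var 0))).congr fun M A v => Iff.rfl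

theorem ua_encal : UA (fun _ A v => v 3 = A.enc (.al (v 0) (v 1) (v 2))) := by
  refine (((ua_pr.ren (rn [1, 2, 4])).and (((ua_pr.ren (rn [0, 4, 5])).and
    (UA.eq (.var 3) (.succ (.add (.add (.var 5) (.var 5)) (.var 5))))).ex 5)).ex 4).congr
    fun M A v => ?_
  simp [Tm.val, comp_apply, rn, AStr.enc, AStr.tri]

theorem ua_encde : UA (fun _ A v => v 5 = A.enc (.de (v 0) (v 1) (v 2) (v 3) (v 4))) := by
  refine (((ua_pr.ren (rn [3, 4, 6])).and (((ua_pr.ren (rn [2, 6, 7])).and
    (((ua_pr.ren (rn [1, 7, 8])).and (((ua_pr.ren (rn [0, 8, 9])).and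
    (UA.eq (.var 5) (.succ (.succ (.add (.add (.var 9) (.var 9)) (.var 9)))))).ex 9)).ex 8)).ex
      7)).ex 6).congr fun M A v => ?_
  simp [Tm.val, comp_apply, rn, AStr.enc, AStr.tri]

/-- The coordinates of the elements `al x y w`. -/
def cal {M : Type} (F : M → M → M → M) (x y w : M) : ℕ → M → Prop
  | 0, a => a = x
  | 1, a => a = y
  | 2, a => a = w
  | 3, a => a = F x y w
  | _, _ => False

/-- The coordinates of the elements `de x y w t i`. -/
def cde {M : Type} (x y w t i : M) : ℕ → M → Prop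
  | 0, a => a = x
  | 1, a => a = y
  | 2, a => a = w
  | 3, a => a = t
  | 4, a => a = i
  | _, _ => False

theorem ua_krel (k : ℕ) (hk : k < 5) : UA (fun _ A v => ∃ a b : El _, v 0 = A.enc a ∧
    v 1 = A.enc b ∧ KRel A.F (fun _ => False) k a b) := by
  have h1 : UA (fun _ A v => ∃ x y w b, v 0 = A.enc (.al x y w) ∧ v 1 = A.enc (.p b) ∧
      cal A.F x y w k b) := by
    have hc : UA (fun _ A v => cal A.F (v 2) (v 3) (v 4) k (v 5)) := by
      interval_cases k
      · exact UA.eq (.var 5) (.var 2)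
      · exact UA.eq (.var 5) (.var 3)
      · exact UA.eq (.var 5) (.var 4)
      · exact UA.eq (.var 5) (.add (.mul (.var 2) (.var 3)) (.var 4))
      · exact UA.false
    refine (((((ua_encal.ren (rn [2, 3, 4, 0])).and ((ua_encp.ren (rn [5, 1])).and hc)).ex 5).ex
      4).ex 3).ex 2 |>.congr fun M A v => ?_
    simp [comp_apply, rn]
  have h2 : UA (fun _ A v => ∃ x y w t i b, v 0 = A.enc (.de x y w t i) ∧ v 1 = A.enc (.p b) ∧
      cde x y w t i k b) := by
    have hc : UA (fun _ _ v => cde (v 2) (v 3) (v 4) (v 5) (v 6) k (v 7)) := by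
      interval_cases k
      · exact UA.eq (.var 7) (.var 2)
      · exact UA.eq (.var 7) (.var 3)
      · exact UA.eq (.var 7) (.var 4)
      · exact UA.eq (.var 7) (.var 5)
      · exact UA.eq (.var 7) (.var 6)
    refine (((((((ua_encde.ren (rn [2, 3, 4, 5, 6, 0])).and
      ((ua_encp.ren (rn [7, 1])).and hc)).ex 7).ex 6).ex 5).ex
      4).ex 3).ex 2 |>.congr fun M A v => ?_
    simp [comp_apply, rn]
  refine (h1.or h2).congr fun M A v => ?_
  constructor
  · rintro (⟨x, y, w, b, h0, h1, hc⟩ | ⟨x, y, w, t, i, b, h0, h1, hc⟩)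
    · refine ⟨_, _, h0, h1, ?_⟩
      interval_cases k <;> exact hc
    · refine ⟨_, _, h0, h1, ?_⟩
      interval_cases k <;> exact hc
  · rintro ⟨a, b, h0, h1, hc⟩
    cases a with
    | p x => interval_cases k <;> exact absurd hc id
    | al x y w =>
      cases b with
      | p b => exact Or.inl ⟨x, y, w, b, h0, h1, by interval_cases k <;> exact hc⟩
      | _ => interval_cases k <;> exact absurd hc id
    | de x y w t i =>
      cases b with
      | p b => exact Or.inr ⟨x, y, w, t, i, b, h0, h1, by interval_cases k <;> exact hc⟩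
      | _ => interval_cases k <;> exact absurd hc id

/-- The term `S^n 0`. -/
def numTm : ℕ → Tm
  | 0 => .zero
  | n + 1 => .succ (numTm n)

theorem val_numTm {M : Type} (A : AStr M) (v : ℕ → M) (n : ℕ) : (numTm n).val A v = num A n := by
  induction n with
  | zero => rfl
  | succ n ih =>
    simp only [numTm, Tm.val, ih, num, iterate_succ', comp_apply]

theorem not_occ_numTm (n k : ℕ) : ¬ (numTm n).Occ k := by
  induction n with
  | zero => exact id
  | succ n ih => exact ih

end H97.PAS
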