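import Mathlib

/-!
# Nonstandard spectra of theories definitionally equivalent to PA: definitions

* `Tm`, `AFml`: terms and formulas of the language `L_A = {0, S, +, ·}` of Peano arithmetic.
* `LFml`: formulas of the language `L = {R_n : n ∈ ℕ}`, all `R_n` binary relation symbols.
* `AStr M`, `LStr M`: structures for `L_A`, `L` with universe `M`.
* `IsPA`: being a model of `PA`.
-/

namespace H97.PAS

open Function

/-- Terms of the language `L_A = {0, S, +, ·}` of arithmetic, variables `v_0, v_1, …`. -/
inductive Tm : Type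
  | var (i : ℕ)
  | zero
  | succ (t : Tm)
  | add (s t : Tm)
  | mul (s t : Tm)

/-- First-order formulas over a type `α` of atomic formulas, variables `v_0, v_1, …`. -/
inductive Fml (α : Type) : Type
  | atom (a : α)
  | bot
  | imp (φ ψ : Fml α)
  | all (i : ℕ) (φ : Fml α)

/-- Formulas of the language `L_A`: atomic formulas are equations `s = t` between terms. -/
abbrev AFml : Type := Fml (Tm × Tm)

/-- Formulas of the language `L = {R_n : n ∈ ℕ}` (binary relation symbols): the atomic formula
`(0, i, j)` is `v_i = v_j`, and `(n + 1, i, j)` is `R_n(v_i, v_j)`. -/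
abbrev LFml : Type := Fml (ℕ × ℕ × ℕ)

/-- Tarskian satisfaction, given the interpretation `I` of the atomic formulas. -/
def Fml.Sat {α M : Type} (I : α → (ℕ → M) → Prop) : Fml α → (ℕ → M) → Prop
  | .atom a, v => I a v
  | .bot, _ => False
  | .imp φ ψ, v => φ.Sat I v → ψ.Sat I v
  | .all i φ, v => ∀ x : M, φ.Sat I (update v i x)

/-- `φ.Free occ k`: the variable `v_k` occurs free in `φ`, where `occ a k` says that `v_k`
occurs in the atomic formula `a`. -/
def Fml.Free {α : Type} (occ : α → ℕ → Prop) (k : ℕ) : Fml α → Prop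
  | .atom a => occ a k
  | .bot => False
  | .imp φ ψ => φ.Free occ k ∨ ψ.Free occ k
  | .all i φ => k ≠ i ∧ φ.Free occ k

/-- A structure for `L_A = {0, S, +, ·}` with universe `M`. -/
structure AStr (M : Type) where
  /-- the interpretation of `0` -/
  zero : M
  /-- the interpretation of `S` -/
  succ : M → M
  /-- the interpretation of `+` -/
  add : M → M → M
  /-- the interpretation of `·` -/
  mul : M → M → M

/-- The value of a term. -/
def Tm.val {M : Type} (A : AStr M) (v : ℕ → M) : Tm → M
  | .var i => v i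
  | .zero => A.zero
  | .succ t => A.succ (t.val A v)
  | .add s t => A.add (s.val A v) (t.val A v)
  | .mul s t => A.mul (s.val A v) (t.val A v)

/-- `t.Occ k`: the variable `v_k` occurs in `t`. -/
def Tm.Occ (k : ℕ) : Tm → Prop
  | .var i => k = i
  | .zero => False
  | .succ t => t.Occ k
  | .add s t => s.Occ k ∨ t.Occ k
  | .mul s t => s.Occ k ∨ t.Occ k

/-- Satisfaction of `L_A`-formulas in the structure `A`. -/
def satA {M : Type} (A : AStr M) (φ : AFml) (v : ℕ → M) : Prop :=
  φ.Sat (fun a w => a.1.val A w = a.2.val A w) v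

/-- `v_k` occurs free in the `L_A`-formula `φ`. -/
def freeA (φ : AFml) (k : ℕ) : Prop := φ.Free (fun a k => a.1.Occ k ∨ a.2.Occ k) k

/-- A structure for `L = {R_n : n ∈ ℕ}` with universe `M`. -/
abbrev LStr (M : Type) : Type := ℕ → M → M → Prop

/-- Interpretation of the atomic formulas of `L`. -/
def LStr.atom {M : Type} (R : LStr M) : ℕ × ℕ × ℕ → (ℕ → M) → Prop
  | (0, i, j), v => v i = v j
  | (n + 1, i, j), v => R n (v i) (v j)

/-- Satisfaction of `L`-formulas in the structure `R`. -/
def satL {M : Type} (R : LStr M) (φ : LFml) (v : ℕ → M) : Prop := φ.Sat R.atom v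

/-- `v_k` occurs free in the `L`-formula `φ`. -/
def freeL (φ : LFml) (k : ℕ) : Prop := φ.Free (fun a k => k = a.2.1 ∨ k = a.2.2) k

/-- The Gödel number of an `L`-formula. -/
def code : LFml → ℕ
  | .bot => 0
  | .atom a => 3 * Nat.pair a.1 (Nat.pair a.2.1 a.2.2) + 1
  | .imp φ ψ => 3 * Nat.pair (code φ) (code ψ) + 2
  | .all i φ => 3 * Nat.pair i (code φ) + 3

/-- `A` is a model of Peano arithmetic. -/
structure IsPA {M : Type} (A : AStr M) : Prop where
  succ_ne_zero : ∀ x, A.succ x ≠ A.zero
  succ_inj : ∀ x y, A.succ x = A.succ y → x = y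
  add_zero : ∀ x, A.add x A.zero = x
  add_succ : ∀ x y, A.add x (A.succ y) = A.succ (A.add x y)
  mul_zero : ∀ x, A.mul x A.zero = A.zero
  mul_succ : ∀ x y, A.mul x (A.succ y) = A.add (A.mul x y) x
  /-- the induction scheme, for the formula `φ`, the variable `v_i`, and the values `v` of the
  parameters -/
  ind : ∀ (φ : AFml) (i : ℕ) (v : ℕ → M), satA A φ (update v i A.zero) →
    (∀ x, satA A φ (update v i x) → satA A φ (update v i (A.succ x))) →
    ∀ x, satA A φ (update v i x)

/-- The `n`-th numeral of an `L_A`-structure. -/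
def num {M : Type} (A : AStr M) (n : ℕ) : M := A.succ^[n] A.zero

/-- An `L_A`-structure is nonstandard if some element is not the value of a numeral. -/
def AStr.Nonstandard {M : Type} (A : AStr M) : Prop := ∃ x, ∀ n : ℕ, x ≠ num A n

/-- `R` is a model of the theory `T`. -/
def Models {M : Type} (R : LStr M) (T : Set LFml) : Prop := ∀ φ ∈ T, ∀ v, satL R φ v

/-- `T` is a computably enumerable set of sentences. -/
def IsCETheory (T : Set LFml) : Prop :=
  (∀ φ ∈ T, ∀ k, ¬ freeL φ k) ∧ REPred (fun n : ℕ => ∃ φ ∈ T, code φ = n)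

/-- Definitions of the symbols of `L_A` by `L`-formulas: `v_0 = 0` is defined by `zero`,
`v_1 = S v_0` by `succ`, `v_2 = v_0 + v_1` by `add` and `v_2 = v_0 · v_1` by `mul`. -/
structure GDef where
  /-- the formula defining `0` -/
  zero : LFml
  /-- the formula defining `S` -/
  succ : LFml
  /-- the formula defining `+` -/
  add : LFml
  /-- the formula defining `·` -/
  mul : LFml

/-- The defining formulas have the right free variables. -/
def GDef.Wf (Γ : GDef) : Prop :=
  (∀ k, freeL Γ.zero k → k < 1) ∧ (∀ k, freeL Γ.succ k → k < 2) ∧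
    (∀ k, freeL Γ.add k → k < 3) ∧ (∀ k, freeL Γ.mul k → k < 3)

/-- The definitions `Γ` hold in the `L ∪ L_A`-structure `(R, A)`. -/
def GDef.Holds (Γ : GDef) {M : Type} (R : LStr M) (A : AStr M) : Prop :=
  (∀ v, satL R Γ.zero v ↔ v 0 = A.zero) ∧ (∀ v, satL R Γ.succ v ↔ v 1 = A.succ (v 0)) ∧
    (∀ v, satL R Γ.add v ↔ v 2 = A.add (v 0) (v 1)) ∧
    (∀ v, satL R Γ.mul v ↔ v 2 = A.mul (v 0) (v 1))

/-- Definitions of the symbols of `L` by `L_A`-formulas: `Δ n` defines `R_n(v_0, v_1)`. -/
abbrev DDef : Type := ℕ → AFml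

/-- The defining formulas have the right free variables. -/
def DWf (Δ : DDef) : Prop := ∀ n k, freeA (Δ n) k → k < 2

/-- The definitions `Δ` hold in the `L ∪ L_A`-structure `(R, A)`. -/
def DHolds (Δ : DDef) {M : Type} (A : AStr M) (R : LStr M) : Prop :=
  ∀ n v, R n (v 0) (v 1) ↔ satA A (Δ n) v

/-- `T` is definitionally equivalent to `PA` via the definitions `Γ`, `Δ`:
in every model of `T` the formulas `Γ` define a constant and total functions, and
`T` together with `Γ` has the same models as `PA` together with `Δ`. -/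
structure DefEquiv (T : Set LFml) (Γ : GDef) (Δ : DDef) : Prop where
  wfΓ : Γ.Wf
  wfΔ : DWf Δ
  total : ∀ (M : Type) [Nonempty M] (R : LStr M), Models R T → ∃ A : AStr M, Γ.Holds R A
  same : ∀ (M : Type) (A : AStr M) (R : LStr M),
    (Models R T ∧ Γ.Holds R A) ↔ (IsPA A ∧ DHolds Δ A R)

open Classical in
/-- The atomic diagram of an `L`-structure with universe `ℕ`:
`⟨n, ⟨a, b⟩⟩ ↦ 1` if `R_n(a, b)`, and `0` otherwise. -/
noncomputable def LStr.diag (R : LStr ℕ) (x : ℕ) : ℕ :=
  if R x.unpair.1 x.unpair.2.unpair.1 x.unpair.2.unpair.2 then 1 else 0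

/-- The (operations of the) `L_A`-structure `A` with universe `ℕ`, as a function on `ℕ`. -/
def AStr.diag (A : AStr ℕ) (x : ℕ) : ℕ :=
  match x.unpair.1 with
  | 0 => A.zero
  | 1 => A.succ x.unpair.2
  | 2 => A.add x.unpair.2.unpair.1 x.unpair.2.unpair.2
  | _ => A.mul x.unpair.2.unpair.1 x.unpair.2.unpair.2

/-- The Turing degree of a function on `ℕ`. -/
noncomputable def deg (f : ℕ → ℕ) : TuringDegree :=
  toAntisymmetrization TuringReducible (fun n => Part.some (f n))

/-- The PA degrees: the degrees computing a nonstandard model of `PA` with universe `ℕ`. -/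
def PADegrees : Set TuringDegree := {d | ∃ A : AStr ℕ, IsPA A ∧ A.Nonstandard ∧ deg A.diag ≤ d}

/-- The nonstandard spectrum of `T` (with the definitions `Γ` of the symbols of `L_A`):
the degrees of the models `R` of `T` with universe `ℕ` whose `L_A`-structure is nonstandard. -/
def Spectrum (T : Set LFml) (Γ : GDef) : Set TuringDegree :=
  {d | ∃ (R : LStr ℕ) (A : AStr ℕ), Models R T ∧ Γ.Holds R A ∧ A.Nonstandard ∧ d = deg R.diag}

end H97.PAS
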