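import Pool.Agent.Helper97.PAS.Base

/-!
# Finite injury: recursively inseparable `A`, `B`, and `U`, `V` without `A`-computable separator
-/

namespace H97.PAS

open Function
open Nat.Partrec (Code)

namespace Injury

/-- the action considered at stage `s`: `(kind, index, witness, use)` -/
def ac (s : ℕ) : ℕ × ℕ × ℕ × ℕ := Denumerable.ofNat (ℕ × ℕ × ℕ × ℕ) s.unpair.1

def knd (s : ℕ) : ℕ := (ac s).1
def idx (s : ℕ) : ℕ := (ac s).2.1
def wit (s : ℕ) : ℕ := (ac s).2.2.1
def use (s : ℕ) : ℕ := (ac s).2.2.2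

theorem exists_stage (c i y n s₀ : ℕ) :
    ∃ s ≥ s₀, knd s = c ∧ idx s = i ∧ wit s = y ∧ use s = n := by
  refine ⟨Nat.pair (Encodable.encode (c, i, y, n)) s₀, Nat.right_le_pair _ _, ?_⟩
  simp [knd, idx, wit, use, ac]

theorem primrec_ac : Primrec ac :=
  (Primrec.ofNat (ℕ × ℕ × ℕ × ℕ)).comp (Primrec.fst.comp Primrec.unpair)

theorem primrec_knd : Primrec knd := Primrec.fst.comp primrec_ac
theorem primrec_idx : Primrec idx := Primrec.fst.comp (Primrec.snd.comp primrec_ac)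
theorem primrec_wit : Primrec wit :=
  Primrec.fst.comp (Primrec.snd.comp (Primrec.snd.comp primrec_ac))
theorem primrec_use : Primrec use :=
  Primrec.snd.comp (Primrec.snd.comp (Primrec.snd.comp primrec_ac))

/-- the entry `p` puts `x` into `A` -/
def InA (p : ℕ × ℕ) (x : ℕ) : Prop :=
  knd p.1 = 0 ∧ p.2 = 0 ∧ Nat.pair (idx p.1) (wit p.1) = x

instance (p : ℕ × ℕ) (x : ℕ) : Decidable (InA p x) := by unfold InA; infer_instance

/-- the entry `p` forbids the action of stage `s` -/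
def Bad (p : ℕ × ℕ) (s : ℕ) : Prop :=
  (knd s = 0 ∧ knd p.1 = 0 ∧ idx p.1 = idx s) ∨
  (knd s = 0 ∧ knd p.1 ≠ 0 ∧ idx p.1 ≤ idx s ∧ wit s < use p.1) ∨
  (knd s ≠ 0 ∧ knd p.1 ≠ 0 ∧ idx p.1 = idx s ∧ wit p.1 = wit s)

instance (p : ℕ × ℕ) (x : ℕ) : Decidable (Bad p x) := by unfold Bad; infer_instance

/-- injury of `R_i` -/
def Inj (p : ℕ × ℕ) (i : ℕ) : Prop := knd p.1 = 0 ∧ idx p.1 < i

instance (p : ℕ × ℕ) (x : ℕ) : Decidable (Inj p x) := by unfold Inj; infer_instance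

def cnt (H : List (ℕ × ℕ)) (i : ℕ) : ℕ := (H.filter (fun p => Inj p i)).length

def chiH (H : List (ℕ × ℕ)) (x : ℕ) : ℕ := if ∃ p ∈ H, InA p x then 1 else 0

def segH (H : List (ℕ × ℕ)) (n : ℕ) : List ℕ := (List.range n).map (chiH H)

def arg (H : List (ℕ × ℕ)) (s : ℕ) : ℕ :=
  if knd s = 0 then Nat.pair (idx s) (wit s)
  else Nat.pair (Nat.pair (idx s) (wit s)) (Encodable.encode (segH H (use s)))

def val (H : List (ℕ × ℕ)) (s : ℕ) : Option ℕ :=
  Code.evaln s (Denumerable.ofNat Code (idx s)) (arg H s)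

def Elig (H : List (ℕ × ℕ)) (s w : ℕ) : Prop :=
  (∀ p ∈ H, ¬ Bad p s) ∧ (knd s = 0 ∨ (cnt H (idx s) = wit s ∧ w ≠ 0))

instance (H : List (ℕ × ℕ)) (s w : ℕ) : Decidable (Elig H s w) := by
  unfold Elig; infer_instance

def step (H : List (ℕ × ℕ)) (s : ℕ) : List (ℕ × ℕ) :=
  Option.casesOn (val H s) H (fun w => if Elig H s w then (s, w) :: H else H)

def hist (s : ℕ) : List (ℕ × ℕ) := Nat.rec [] (fun s H => step H s) s

/-! ### computability -/

theorem primrecRel_InA : PrimrecRel InA := by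
  refine PrimrecPred.and (Primrec.eq.comp (primrec_knd.comp (Primrec.fst.comp Primrec.fst))
    (Primrec.const 0)) (PrimrecPred.and (Primrec.eq.comp (Primrec.snd.comp Primrec.fst)
    (Primrec.const 0)) (Primrec.eq.comp (Primrec₂.natPair.comp
      (primrec_idx.comp (Primrec.fst.comp Primrec.fst))
      (primrec_wit.comp (Primrec.fst.comp Primrec.fst))) Primrec.snd))

theorem primrecRel_Bad : PrimrecRel Bad := by
  have k0 : PrimrecPred fun a : (ℕ × ℕ) × ℕ => knd a.2 = 0 :=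
    Primrec.eq.comp (primrec_knd.comp Primrec.snd) (Primrec.const 0)
  have k1 : PrimrecPred fun a : (ℕ × ℕ) × ℕ => knd a.1.1 = 0 :=
    Primrec.eq.comp (primrec_knd.comp (Primrec.fst.comp Primrec.fst)) (Primrec.const 0)
  have i1 : PrimrecPred fun a : (ℕ × ℕ) × ℕ => idx a.1.1 = idx a.2 :=
    Primrec.eq.comp (primrec_idx.comp (Primrec.fst.comp Primrec.fst))
      (primrec_idx.comp Primrec.snd)
  have i2 : PrimrecPred fun a : (ℕ × ℕ) × ℕ => idx a.1.1 ≤ idx a.2 :=
    Primrec.nat_le.comp (primrec_idx.comp (Primrec.fst.comp Primrec.fst))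
      (primrec_idx.comp Primrec.snd)
  have w1 : PrimrecPred fun a : (ℕ × ℕ) × ℕ => wit a.2 < use a.1.1 :=
    Primrec.nat_lt.comp (primrec_wit.comp Primrec.snd)
      (primrec_use.comp (Primrec.fst.comp Primrec.fst))
  have w2 : PrimrecPred fun a : (ℕ × ℕ) × ℕ => wit a.1.1 = wit a.2 :=
    Primrec.eq.comp (primrec_wit.comp (Primrec.fst.comp Primrec.fst))
      (primrec_wit.comp Primrec.snd)
  exact (k0.and (k1.and i1)).or ((k0.and (k1.not.and (i2.and w1))).or
    (k0.not.and (k1.not.and (i1.and w2))))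

theorem primrecRel_Inj : PrimrecRel Inj :=
  PrimrecPred.and (Primrec.eq.comp (primrec_knd.comp (Primrec.fst.comp Primrec.fst))
    (Primrec.const 0)) (Primrec.nat_lt.comp (primrec_idx.comp (Primrec.fst.comp Primrec.fst))
      Primrec.snd)

theorem primrec_cnt : Primrec₂ cnt :=
  Primrec.list_length.comp (primrecRel_Inj.listFilter)

theorem primrec_chiH : Primrec₂ chiH :=
  Primrec.ite (primrecRel_InA.exists_mem_list) (Primrec.const 1) (Primrec.const 0)

theorem primrec_segH : Primrec₂ segH :=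
  Primrec.list_map (Primrec.list_range.comp Primrec.snd)
    (primrec_chiH.comp (Primrec.fst.comp Primrec.fst) Primrec.snd).to₂

theorem primrec_arg : Primrec₂ arg := by
  refine Primrec.ite (Primrec.eq.comp (primrec_knd.comp Primrec.snd) (Primrec.const 0))
    (Primrec₂.natPair.comp (primrec_idx.comp Primrec.snd) (primrec_wit.comp Primrec.snd)) ?_
  exact Primrec₂.natPair.comp (Primrec₂.natPair.comp (primrec_idx.comp Primrec.snd)
    (primrec_wit.comp Primrec.snd)) (Primrec.encode.comp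
      (primrec_segH.comp Primrec.fst (primrec_use.comp Primrec.snd)))

theorem primrec_val : Primrec₂ val := by
  have := Nat.Partrec.Code.primrec_evaln.comp (Primrec.pair (Primrec.pair (Primrec.snd (α := List (ℕ × ℕ)) (β := ℕ))
    ((Primrec.ofNat Code).comp (primrec_idx.comp Primrec.snd))) primrec_arg)
  exact this

theorem primrec_Elig : PrimrecPred fun a : (List (ℕ × ℕ) × ℕ) × ℕ => Elig a.1.1 a.1.2 a.2 := by
  have h1 : PrimrecPred fun a : (List (ℕ × ℕ) × ℕ) × ℕ => ∀ p ∈ a.1.1, ¬ Bad p a.1.2 := by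
    have := (PrimrecRel.forall_mem_list (R := fun p s => ¬ Bad p s) primrecRel_Bad.not)
    exact this.comp (Primrec.fst.comp Primrec.fst) (Primrec.snd.comp Primrec.fst)
  refine h1.and (PrimrecPred.or ?_ (PrimrecPred.and ?_ (PrimrecPred.not ?_)))
  · exact Primrec.eq.comp (primrec_knd.comp (Primrec.snd.comp Primrec.fst)) (Primrec.const 0)
  · exact Primrec.eq.comp (primrec_cnt.comp (Primrec.fst.comp Primrec.fst)
      (primrec_idx.comp (Primrec.snd.comp Primrec.fst)))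
      (primrec_wit.comp (Primrec.snd.comp Primrec.fst))
  · exact Primrec.eq.comp Primrec.snd (Primrec.const 0)

theorem primrec_step : Primrec₂ step := by
  refine Primrec.option_casesOn primrec_val Primrec.fst ?_
  refine Primrec.ite primrec_Elig ?_ (Primrec.fst.comp Primrec.fst)
  exact Primrec.list_cons.comp (Primrec.pair (Primrec.snd.comp Primrec.fst) Primrec.snd)
    (Primrec.fst.comp Primrec.fst)

theorem primrec_hist : Primrec hist :=
  Primrec.nat_rec₁ [] (primrec_step.comp Primrec.snd Primrec.fst).to₂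

/-! ### combinatorics of the construction -/

/-- at stage `t` the considered action is executed, with value `w` -/
def Ent (t w : ℕ) : Prop := val (hist t) t = some w ∧ Elig (hist t) t w

theorem hist_succ (s : ℕ) : hist (s + 1) = step (hist s) s := rfl

theorem hist_succ_of {s w : ℕ} (h : Ent s w) : hist (s + 1) = (s, w) :: hist s := by
  rw [hist_succ, step]
  simp [h.1, h.2]

theorem hist_succ_not {s : ℕ} (h : ∀ w, ¬ Ent s w) : hist (s + 1) = hist s := by
  rw [hist_succ, step]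
  cases hv : val (hist s) s with
  | none => rfl
  | some w =>
    have : ¬ Elig (hist s) s w := fun h2 => h w ⟨hv, h2⟩
    simp [this]

theorem Ent.unique {t w w' : ℕ} (h : Ent t w) (h' : Ent t w') : w = w' := by
  have := h.1.symm.trans h'.1
  simpa using this

theorem mem_hist {s : ℕ} {p : ℕ × ℕ} : p ∈ hist s ↔ p.1 < s ∧ Ent p.1 p.2 := by
  induction s with
  | zero => simp [hist]
  | succ s ih =>
    by_cases h : ∃ w, Ent s w
    · obtain ⟨w, hw⟩ := h
      rw [hist_succ_of hw, List.mem_cons, ih]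
      constructor
      · rintro (rfl | ⟨h1, h2⟩)
        · exact ⟨Nat.lt_succ_self _, hw⟩
        · exact ⟨by omega, h2⟩
      · rintro ⟨h1, h2⟩
        by_cases h3 : p.1 = s
        · left
          obtain ⟨a, b⟩ := p
          simp only at h3 h2
          subst h3
          rw [h2.unique hw]
        · right
          exact ⟨by omega, h2⟩
    · push Not at h
      rw [hist_succ_not h, ih]
      constructor
      · rintro ⟨h1, h2⟩
        exact ⟨by omega, h2⟩
      · rintro ⟨h1, h2⟩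
        refine ⟨?_, h2⟩
        by_contra h3
        have : p.1 = s := by omega
        rw [this] at h2
        exact h _ h2

theorem Ent.not_bad {t w t' w' : ℕ} (h : Ent t w) (h' : Ent t' w') (hlt : t < t') :
    ¬ Bad (t, w) t' :=
  h'.2.1 (t, w) (mem_hist.2 ⟨hlt, h⟩)

theorem N_unique {t w t' w' : ℕ} (h : Ent t w) (h' : Ent t' w') (hk : knd t = 0)
    (hk' : knd t' = 0) (hi : idx t = idx t') : t = t' := by
  rcases lt_trichotomy t t' with hlt | heq | hlt
  · exact absurd (Or.inl ⟨hk', hk, hi⟩) (h.not_bad h' hlt)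
  · exact heq
  · exact absurd (Or.inl ⟨hk, hk', hi.symm⟩) (h'.not_bad h hlt)

theorem R_unique {t w t' w' : ℕ} (h : Ent t w) (h' : Ent t' w') (hk : knd t ≠ 0)
    (hk' : knd t' ≠ 0) (hi : idx t = idx t') (hw : wit t = wit t') : t = t' := by
  rcases lt_trichotomy t t' with hlt | heq | hlt
  · exact absurd (Or.inr (Or.inr ⟨hk', hk, hi, hw⟩)) (h.not_bad h' hlt)
  · exact heq
  · exact absurd (Or.inr (Or.inr ⟨hk, hk', hi.symm, hw.symm⟩)) (h'.not_bad h hlt)

theorem restraint {t w t' w' : ℕ} (h : Ent t w) (h' : Ent t' w') (hlt : t < t') (hk : knd t ≠ 0)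
    (hk' : knd t' = 0) (hi : idx t ≤ idx t') : use t ≤ wit t' := by
  by_contra hcon
  exact h.not_bad h' hlt (Or.inr (Or.inl ⟨hk', hk, hi, by simpa using hcon⟩))

/-- stages at which `N_e`, `e < i`, acts -/
theorem N_finite (i : ℕ) : {t | ∃ w, Ent t w ∧ knd t = 0 ∧ idx t < i}.Finite := by
  refine Set.Finite.of_injOn (f := idx) (t := Set.Iio i) ?_ ?_ (Set.finite_Iio i)
  · rintro t ⟨w, h, hk, hi⟩
    exact hi
  · rintro t ⟨w, h, hk, hi⟩ t' ⟨w', h', hk', hi'⟩ heq
    exact N_unique h h' hk hk' heq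

theorem N_bound (i : ℕ) : ∃ s₁, ∀ t w, Ent t w → knd t = 0 → idx t < i → t < s₁ := by
  obtain ⟨b, hb⟩ := (N_finite i).bddAbove
  exact ⟨b + 1, fun t w h hk hi => Nat.lt_succ_of_le (hb ⟨w, h, hk, hi⟩)⟩

theorem cnt_succ_of {s w i : ℕ} (h : Ent s w) (hk : knd s = 0) (hi : idx s < i) :
    cnt (hist (s + 1)) i = cnt (hist s) i + 1 := by
  rw [hist_succ_of h, cnt, List.filter_cons_of_pos]
  · simp [cnt]
  · simp [Inj, hk, hi]

theorem cnt_succ_not {s i : ℕ} (h : ∀ w, Ent s w → knd s = 0 → ¬ idx s < i) :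
    cnt (hist (s + 1)) i = cnt (hist s) i := by
  by_cases h0 : ∃ w, Ent s w
  · obtain ⟨w, hw⟩ := h0
    have := h w hw
    rw [hist_succ_of hw, cnt, List.filter_cons_of_neg]
    · rfl
    · have h1 : ¬ (knd s = 0 ∧ idx s < i) := fun hh => this hh.1 hh.2
      have h2 : ¬ Inj (s, w) i := h1
      simpa using h2
  · push Not at h0
    rw [hist_succ_not h0]

theorem cnt_mono_succ (s i : ℕ) : cnt (hist s) i ≤ cnt (hist (s + 1)) i := by
  by_cases h : ∃ w, Ent s w ∧ knd s = 0 ∧ idx s < i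
  · obtain ⟨w, h1, h2, h3⟩ := h
    rw [cnt_succ_of h1 h2 h3]; omega
  · push Not at h
    rw [cnt_succ_not (fun w h1 h2 => by simpa using h w h1 h2)]

theorem cnt_mono {s t : ℕ} (h : s ≤ t) (i : ℕ) : cnt (hist s) i ≤ cnt (hist t) i :=
  monotone_nat_of_le_succ (f := fun s => cnt (hist s) i) (fun s => cnt_mono_succ s i) h

/-- final value of the counter -/
theorem cnt_final (i : ℕ) : ∃ s₁ k, ∀ s ≥ s₁, cnt (hist s) i = k := by
  obtain ⟨s₁, h⟩ := N_bound i
  refine ⟨s₁, cnt (hist s₁) i, fun s hs => ?_⟩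
  induction s, hs using Nat.le_induction with
  | base => rfl
  | succ s hs ih =>
    rw [cnt_succ_not, ih]
    intro w h1 h2 h3
    have := h s w h1 h2 h3
    omega

theorem R_finite (i : ℕ) : {t | ∃ w, Ent t w ∧ knd t ≠ 0 ∧ idx t = i}.Finite := by
  obtain ⟨s₁, k, hk⟩ := cnt_final i
  have h2 : {t | ∃ w, Ent t w ∧ knd t ≠ 0 ∧ idx t = i ∧ wit t = k}.Subsingleton := by
    rintro t ⟨w, h, hk, hi, hy⟩ t' ⟨w', h', hk', hi', hy'⟩
    exact R_unique h h' hk hk' (hi.trans hi'.symm) (hy.trans hy'.symm)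
  refine ((Set.finite_Iio s₁).union h2.finite).subset ?_
  rintro t ⟨w, h, hkn, hi⟩
  by_cases ht : t < s₁
  · exact Or.inl ht
  · right
    refine ⟨w, h, hkn, hi, ?_⟩
    have h3 := h.2.2.resolve_left hkn
    rw [← h3.1, hi]
    exact hk t (by omega)

theorem R_bound (e : ℕ) : ∃ r, ∀ t w, Ent t w → knd t ≠ 0 → idx t ≤ e → use t ≤ r := by
  have hf : (⋃ i ∈ Set.Iic e, {t | ∃ w, Ent t w ∧ knd t ≠ 0 ∧ idx t = i}).Finite :=
    (Set.finite_Iic e).biUnion (fun i _ => R_finite i)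
  obtain ⟨b, hb⟩ := (hf.image use).bddAbove
  refine ⟨b, fun t w h hk hi => hb ⟨t, ?_, rfl⟩⟩
  simp only [Set.mem_iUnion]
  exact ⟨idx t, hi, w, h, hk, rfl⟩

/-! ### the sets -/

def A : Set ℕ := {x | ∃ t w, Ent t w ∧ knd t = 0 ∧ w = 0 ∧ Nat.pair (idx t) (wit t) = x}
def B : Set ℕ := {x | ∃ t w, Ent t w ∧ knd t = 0 ∧ w ≠ 0 ∧ Nat.pair (idx t) (wit t) = x}
def U : Set ℕ := {x | ∃ t w, Ent t w ∧ knd t ≠ 0 ∧ w = 1 ∧ Nat.pair (idx t) (wit t) = x}
def V : Set ℕ := {x | ∃ t w, Ent t w ∧ knd t ≠ 0 ∧ w ≠ 1 ∧ Nat.pair (idx t) (wit t) = x}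

theorem re_of_hist {R : ℕ × ℕ → ℕ → Prop} [DecidableRel R] (hR : PrimrecRel R) :
    REPred fun x => ∃ s, ∃ p ∈ hist s, R p x := by
  have h1 : Primrec₂ fun (x s : ℕ) => decide (∃ p ∈ hist s, R p x) := by
    have h2 : PrimrecPred fun a : ℕ × ℕ => ∃ p ∈ hist a.2, R p a.1 :=
      hR.exists_mem_list.comp (primrec_hist.comp Primrec.snd) Primrec.fst
    exact (primrecPred_iff_primrec_decide.1 h2)
  have h3 : Partrec₂ fun (x s : ℕ) => Part.some (decide (∃ p ∈ hist s, R p x)) :=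
    h1.to_comp.partrec₂
  refine (Partrec.rfind h3).dom_re.of_eq fun x => ?_
  constructor
  · intro h
    obtain ⟨s, hs⟩ := Part.dom_iff_mem.1 h
    have := Nat.rfind_spec hs
    exact ⟨s, by simpa using this⟩
  · rintro ⟨s, hs⟩
    refine Nat.rfind_dom.2 ⟨s, ?_, fun _ => trivial⟩
    simp only [Part.mem_some_iff]
    exact (decide_eq_true hs).symm

theorem disjoint_AB : Disjoint A B := by
  rw [Set.disjoint_left]
  rintro x ⟨t, w, h, hk, hw, hx⟩ ⟨t', w', h', hk', hw', hx'⟩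
  have hp := Nat.pair_eq_pair.1 (hx.trans hx'.symm)
  have := N_unique h h' hk hk' hp.1
  subst this
  exact hw' (h'.unique h ▸ hw)

theorem disjoint_UV : Disjoint U V := by
  rw [Set.disjoint_left]
  rintro x ⟨t, w, h, hk, hw, hx⟩ ⟨t', w', h', hk', hw', hx'⟩
  have hp := Nat.pair_eq_pair.1 (hx.trans hx'.symm)
  have := R_unique h h' hk hk' hp.1 hp.2
  subst this
  exact hw' (h'.unique h ▸ hw)

theorem chiH_eq {s x : ℕ} (h : ∀ t w, Ent t w → knd t = 0 → w = 0 →
    Nat.pair (idx t) (wit t) = x → t < s) : chiH (hist s) x = chi A x := by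
  unfold chiH chi
  congr 1
  apply propext
  constructor
  · rintro ⟨p, hp, h1, h2, h3⟩
    exact ⟨p.1, p.2, (mem_hist.1 hp).2, h1, h2, h3⟩
  · rintro ⟨t, w, h1, h2, h3, h4⟩
    exact ⟨(t, w), mem_hist.2 ⟨h t w h1 h2 h3 h4, h1⟩, h2, h3, h4⟩

theorem chi_limit (x : ℕ) : ∃ s₀, ∀ s ≥ s₀, chiH (hist s) x = chi A x := by
  by_cases hx : x ∈ A
  · obtain ⟨t, w, h1, h2, h3, h4⟩ := hx
    refine ⟨t + 1, fun s hs => chiH_eq fun t' w' h1' h2' h3' h4' => ?_⟩
    have hp := Nat.pair_eq_pair.1 (h4.trans h4'.symm)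
    have := N_unique h1 h1' h2 h2' hp.1
    omega
  · refine ⟨0, fun s _ => chiH_eq fun t' w' h1' h2' h3' h4' => ?_⟩
    exact absurd ⟨t', w', h1', h2', h3', h4'⟩ hx

theorem segH_eq {s n : ℕ} (h : ∀ x < n, chiH (hist s) x = chi A x) :
    segH (hist s) n = seg (chi A) n := by
  unfold segH seg
  refine List.map_congr_left fun x hx => h x (by simpa using hx)

theorem seg_limit (n : ℕ) : ∃ s₀, ∀ s ≥ s₀, segH (hist s) n = seg (chi A) n := by
  induction n with
  | zero => exact ⟨0, fun s _ => rfl⟩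
  | succ n ih =>
    obtain ⟨s₁, h1⟩ := ih
    obtain ⟨s₂, h2⟩ := chi_limit n
    refine ⟨max s₁ s₂, fun s hs => ?_⟩
    have e1 := h1 s (le_trans (le_max_left _ _) hs)
    have e2 := h2 s (le_trans (le_max_right _ _) hs)
    simp only [segH, seg, List.range_succ, List.map_append, List.map_cons, List.map_nil] at e1 ⊢
    rw [e1, e2]

/-! ### the requirements -/

theorem N_met (f : ℕ → ℕ) (hf : Computable f) : ¬ Sep f A B := by
  rintro ⟨hA, hB⟩
  obtain ⟨c, hc⟩ := Code.exists_code.1 (Partrec.nat_iff.1 hf.partrec)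
  set e := Encodable.encode c with he
  have hce : Denumerable.ofNat Code e = c := by simp [he]
  have hsound : ∀ t w, Ent t w → knd t = 0 → idx t = e → w = f (Nat.pair e (wit t)) := by
    intro t w h hk hi
    have h1 := h.1
    rw [val, hi, hce, arg, if_pos hk, hi] at h1
    have h2 := Code.evaln_sound (Option.mem_def.2 h1)
    rw [hc] at h2
    simpa using h2
  by_cases hex : ∃ t w, Ent t w ∧ knd t = 0 ∧ idx t = e
  · obtain ⟨t, w, h, hk, hi⟩ := hex
    have hw := hsound t w h hk hi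
    by_cases h0 : w = 0
    · have := hA _ ⟨t, w, h, hk, h0, rfl⟩
      rw [hi, ← hw] at this
      omega
    · have := hB _ ⟨t, w, h, hk, h0, rfl⟩
      rw [hi, ← hw] at this
      omega
  · obtain ⟨r, hr⟩ := R_bound e
    have hmem : f (Nat.pair e r) ∈ Code.eval c (Nat.pair e r) := by rw [hc]; simp
    obtain ⟨k, hk⟩ := Code.evaln_complete.1 hmem
    obtain ⟨s, hs, h1, h2, h3, -⟩ := exists_stage 0 e r 0 k
    refine hex ⟨s, f (Nat.pair e r), ⟨?_, ?_, Or.inl h1⟩, h1, h2⟩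
    · rw [val, h2, hce, arg, if_pos h1, h2, h3]
      exact Option.mem_def.1 (Code.evaln_mono hs hk)
    · rintro p hp (⟨-, hb1, hb2⟩ | ⟨-, hb1, hb2, hb3⟩ | ⟨hb, -⟩)
      · exact hex ⟨p.1, p.2, (mem_hist.1 hp).2, hb1, hb2.trans h2⟩
      · have := hr p.1 p.2 (mem_hist.1 hp).2 hb1 (h2 ▸ hb2)
        omega
      · exact hb h1

theorem R_met (f : ℕ → ℕ) (hf : CompFrom (chi A) f) : ¬ Sep f U V := by
  rintro ⟨hU, hV⟩
  obtain ⟨Ψ, hΨ, htot, hcor⟩ := hf
  -- code
  have hg : Computable fun m : ℕ => Ψ m.unpair.1 (Denumerable.ofNat (List ℕ) m.unpair.2) :=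
    hΨ.comp (Primrec.fst.comp Primrec.unpair).to_comp
      ((Primrec.ofNat (List ℕ)).comp (Primrec.snd.comp Primrec.unpair)).to_comp
  obtain ⟨c, hc⟩ := Code.exists_code.1 (Partrec.nat_iff.1 hg.partrec)
  set i := Encodable.encode c with he
  have hce : Denumerable.ofNat Code i = c := by simp [he]
  obtain ⟨s₁, k, hk⟩ := cnt_final i
  set z := Nat.pair i k with hz
  by_cases hex : ∃ t w, Ent t w ∧ knd t ≠ 0 ∧ idx t = i ∧ wit t = k
  · obtain ⟨t, w, h, hkn, hi, hy⟩ := hex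
    have hcnt : cnt (hist t) i = k ∧ w ≠ 0 := by
      have := h.2.2.resolve_left hkn
      rwa [hi, hy] at this
    -- no N action of smaller index after t
    have hno : ∀ t' w', Ent t' w' → knd t' = 0 → t ≤ t' → i ≤ idx t' := by
      intro t' w' h' hk' htt
      by_contra hlt
      push Not at hlt
      have e1 := cnt_succ_of h' hk' hlt
      have e2 := cnt_mono htt i
      have e3 := hk (max s₁ (t' + 1)) (le_max_left _ _)
      have e4 := cnt_mono (le_max_right s₁ (t' + 1)) i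
      omega
    have hseg : segH (hist t) (use t) = seg (chi A) (use t) := by
      refine segH_eq fun x hx => chiH_eq fun t' w' h1 h2 h3 h4 => ?_
      by_contra hlt
      have hne : t ≠ t' := by
        rintro rfl
        exact hkn h2
      have h5 := restraint h h1 (by omega) hkn h2 (hi ▸ hno t' w' h1 h2 (by omega))
      have h6 := Nat.right_le_pair (idx t') (wit t')
      omega
    have hval := h.1
    rw [val, hi, hce, arg, if_neg hkn, hi, hy, hseg] at hval
    have h2 := Code.evaln_sound (Option.mem_def.2 hval)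
    rw [hc] at h2
    have h3 : w = Ψ z (seg (chi A) (use t)) := by simpa using h2
    have h4 : w = f z + 1 := by
      rcases hcor z (use t) with h5 | h5
      · exact absurd (h3.trans h5) hcnt.2
      · exact h3.trans h5
    by_cases h1 : w = 1
    · have := hU z ⟨t, w, h, hkn, h1, by rw [hi, hy]⟩
      omega
    · have := hV z ⟨t, w, h, hkn, h1, by rw [hi, hy]⟩
      omega
  · obtain ⟨n, hn⟩ := htot z
    obtain ⟨s₂, hs₂⟩ := seg_limit n
    have hmem : f z + 1 ∈ Code.eval c (Nat.pair z (Encodable.encode (seg (chi A) n))) := by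
      rw [hc]; simp [hn]
    obtain ⟨m, hm⟩ := Code.evaln_complete.1 hmem
    obtain ⟨s, hs, h1, h2, h3, h4⟩ := exists_stage 1 i k n (max (max s₁ s₂) m)
    have hs1 : s₁ ≤ s := le_trans (le_trans (le_max_left _ _) (le_max_left _ _)) hs
    have hs2 : s₂ ≤ s := le_trans (le_trans (le_max_right _ _) (le_max_left _ _)) hs
    have hs3 : m ≤ s := le_trans (le_max_right _ _) hs
    have hk1 : knd s ≠ 0 := by rw [h1]; exact one_ne_zero
    refine hex ⟨s, f z + 1, ⟨?_, ?_, Or.inr ⟨?_, by omega⟩⟩, hk1, h2, h3⟩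
    · rw [val, h2, hce, arg, if_neg hk1, h2, h3, h4, hs₂ s hs2]
      exact Option.mem_def.1 (Code.evaln_mono hs3 hm)
    · rintro p hp (⟨hb, -⟩ | ⟨hb, -⟩ | ⟨-, hb1, hb2, hb3⟩)
      · exact hk1 hb
      · exact hk1 hb
      · exact hex ⟨p.1, p.2, (mem_hist.1 hp).2, hb1, hb2.trans h2, hb3.trans h3⟩
    · rw [h2, h3]
      exact hk s hs1

end Injury

open Injury in
theorem injury : ∃ A B U V : Set ℕ, REPred (· ∈ A) ∧ REPred (· ∈ B) ∧ REPred (· ∈ U) ∧
    REPred (· ∈ V) ∧ Disjoint A B ∧ Disjoint U V ∧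
    (∀ f : ℕ → ℕ, Computable f → ¬ Sep f A B) ∧
    (∀ f : ℕ → ℕ, CompFrom (chi A) f → ¬ Sep f U V) := by
  have k0 : PrimrecPred fun a : (ℕ × ℕ) × ℕ => knd a.1.1 = 0 :=
    Primrec.eq.comp (primrec_knd.comp (Primrec.fst.comp Primrec.fst)) (Primrec.const 0)
  have w0 : PrimrecPred fun a : (ℕ × ℕ) × ℕ => a.1.2 = 0 :=
    Primrec.eq.comp (Primrec.snd.comp Primrec.fst) (Primrec.const 0)
  have w1 : PrimrecPred fun a : (ℕ × ℕ) × ℕ => a.1.2 = 1 :=
    Primrec.eq.comp (Primrec.snd.comp Primrec.fst) (Primrec.const 1)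
  have x0 : PrimrecPred fun a : (ℕ × ℕ) × ℕ => Nat.pair (idx a.1.1) (wit a.1.1) = a.2 :=
    Primrec.eq.comp (Primrec₂.natPair.comp
      (primrec_idx.comp (Primrec.fst.comp Primrec.fst))
      (primrec_wit.comp (Primrec.fst.comp Primrec.fst))) Primrec.snd
  have key : ∀ {P : ℕ → ℕ → Prop} {x : ℕ}, (∃ s, ∃ p ∈ hist s, P p.1 p.2) ↔
      ∃ t w, Ent t w ∧ P t w := by
    intro P x
    constructor
    · rintro ⟨s, p, hp, h⟩
      exact ⟨p.1, p.2, (mem_hist.1 hp).2, h⟩
    · rintro ⟨t, w, h1, h2⟩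
      exact ⟨t + 1, (t, w), mem_hist.2 ⟨Nat.lt_succ_self _, h1⟩, h2⟩
  refine ⟨A, B, U, V, ?_, ?_, ?_, ?_, disjoint_AB, disjoint_UV, N_met, R_met⟩
  · exact (re_of_hist (R := fun p x => knd p.1 = 0 ∧ p.2 = 0 ∧
      Nat.pair (idx p.1) (wit p.1) = x) (k0.and (w0.and x0))).of_eq fun x =>
        key (P := fun t w => knd t = 0 ∧ w = 0 ∧ Nat.pair (idx t) (wit t) = x) (x := x)
  · exact (re_of_hist (R := fun p x => knd p.1 = 0 ∧ p.2 ≠ 0 ∧
      Nat.pair (idx p.1) (wit p.1) = x) (k0.and (w0.not.and x0))).of_eq fun x =>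
        key (P := fun t w => knd t = 0 ∧ w ≠ 0 ∧ Nat.pair (idx t) (wit t) = x) (x := x)
  · exact (re_of_hist (R := fun p x => knd p.1 ≠ 0 ∧ p.2 = 1 ∧
      Nat.pair (idx p.1) (wit p.1) = x) (k0.not.and (w1.and x0))).of_eq fun x =>
        key (P := fun t w => knd t ≠ 0 ∧ w = 1 ∧ Nat.pair (idx t) (wit t) = x) (x := x)
  · exact (re_of_hist (R := fun p x => knd p.1 ≠ 0 ∧ p.2 ≠ 1 ∧
      Nat.pair (idx p.1) (wit p.1) = x) (k0.not.and (w1.not.and x0))).of_eq fun x =>
        key (P := fun t w => knd t ≠ 0 ∧ w ≠ 1 ∧ Nat.pair (idx t) (wit t) = x) (x := x)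

end H97.PAS
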