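import Pool.Agent.Helper97.PAS.Base

/-!
# A nonstandard elementary extension of the standard model

The ultrapower of `ℕ` modulo a nonprincipal ultrafilter, with Łoś's theorem.
-/

namespace H97.PAS

open Function Filter

namespace Los

/-- The universe of the ultrapower. -/
abbrev UM : Type := Germ (hyperfilter ℕ : Filter ℕ) ℕ

/-- The ultrapower of the standard model. -/
noncomputable def UA : AStr UM where
  zero := ((0 : ℕ) : UM)
  succ := Germ.map Nat.succ
  add := Germ.map₂ (· + ·)
  mul := Germ.map₂ (· * ·)

theorem val_germ (t : Tm) (f : ℕ → ℕ → ℕ) :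
    t.val UA (fun i => ((f i : ℕ → ℕ) : UM)) =
      ((fun n => t.val std (fun i => f i n) : ℕ → ℕ) : UM) := by
  induction t with
  | var i => rfl
  | zero => rfl
  | succ t ih =>
      simp only [Tm.val, ih]
      rfl
  | add s t ihs iht =>
      simp only [Tm.val, ihs, iht]
      rfl
  | mul s t ihs iht =>
      simp only [Tm.val, ihs, iht]
      rfl

theorem update_germ (f : ℕ → ℕ → ℕ) (i : ℕ) (g : ℕ → ℕ) :
    update (fun j => ((f j : ℕ → ℕ) : UM)) i ((g : ℕ → ℕ) : UM) =
      fun j => ((update f i g j : ℕ → ℕ) : UM) := by
  funext j
  by_cases h : j = i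
  · subst h
    simp
  · simp [update_of_ne h]

theorem update_eval (f : ℕ → ℕ → ℕ) (i : ℕ) (g : ℕ → ℕ) (n : ℕ) :
    (fun j => update f i g j n) = update (fun j => f j n) i (g n) := by
  funext j
  by_cases h : j = i
  · subst h
    simp
  · simp [update_of_ne h]

/-- **Łoś's theorem** for the ultrapower of the standard model. -/
theorem los (φ : AFml) : ∀ f : ℕ → ℕ → ℕ,
    satA UA φ (fun i => ((f i : ℕ → ℕ) : UM)) ↔
      ∀ᶠ n in (hyperfilter ℕ : Filter ℕ), satA std φ (fun i => f i n) := by
  induction φ with
  | atom a =>
      intro f
      simp only [satA, Fml.Sat, val_germ]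
      exact Germ.coe_eq
  | bot =>
      intro f
      have hne : (hyperfilter ℕ : Filter ℕ) ≠ ⊥ := NeBot.ne inferInstance
      simp [satA, Fml.Sat, hne]
  | imp φ ψ ihφ ihψ =>
      intro f
      have h : satA UA (Fml.imp φ ψ) (fun i => ((f i : ℕ → ℕ) : UM)) ↔
          (satA UA φ (fun i => ((f i : ℕ → ℕ) : UM)) →
            satA UA ψ (fun i => ((f i : ℕ → ℕ) : UM))) := Iff.rfl
      rw [h, ihφ f, ihψ f, ← Ultrafilter.eventually_imp]
      rfl
  | all i φ ih =>
      intro f
      have h : satA UA (Fml.all i φ) (fun j => ((f j : ℕ → ℕ) : UM)) ↔
          ∀ x : UM, satA UA φ (update (fun j => ((f j : ℕ → ℕ) : UM)) i x) := Iff.rfl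
      have h2 : ∀ n, satA std (Fml.all i φ) (fun j => f j n) ↔
          ∀ x : ℕ, satA std φ (update (fun j => f j n) i x) := fun n => Iff.rfl
      rw [h]
      simp only [h2]
      constructor
      · intro hx
        by_contra hcon
        rw [← Ultrafilter.eventually_not] at hcon
        have hg : ∃ g : ℕ → ℕ, ∀ n, (¬ ∀ x : ℕ, satA std φ (update (fun j => f j n) i x)) →
            ¬ satA std φ (update (fun j => f j n) i (g n)) := by
          have : ∀ n, ∃ x : ℕ, (¬ ∀ x : ℕ, satA std φ (update (fun j => f j n) i x)) →
              ¬ satA std φ (update (fun j => f j n) i x) := by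
            intro n
            by_cases hn : ∃ x, ¬ satA std φ (update (fun j => f j n) i x)
            · obtain ⟨x, hx⟩ := hn
              exact ⟨x, fun _ => hx⟩
            · push Not at hn
              exact ⟨0, fun h => absurd hn h⟩
          choose g hg using this
          exact ⟨g, hg⟩
        obtain ⟨g, hg⟩ := hg
        have h3 := hx ((g : ℕ → ℕ) : UM)
        rw [update_germ, ih] at h3
        simp only [update_eval] at h3
        have h4 := h3.and hcon
        obtain ⟨n, hn1, hn2⟩ := h4.exists
        exact hg n hn2 hn1
      · intro hx x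
        induction x using Germ.inductionOn with
        | _ g =>
          rw [update_germ, ih]
          simp only [update_eval]
          filter_upwards [hx] with n hn using hn (g n)

theorem num_UA (n : ℕ) : num UA n = ((n : ℕ) : UM) := by
  induction n with
  | zero => rfl
  | succ n ih =>
      have : num UA (n + 1) = UA.succ (num UA n) := by
        simp only [num, Function.iterate_succ', Function.comp]
      rw [this, ih]
      rfl

theorem isPA_UA : IsPA UA where
  succ_ne_zero := by
    intro x
    induction x using Germ.inductionOn with
    | _ g =>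
      intro h
      have h' : ((fun n => Nat.succ (g n) : ℕ → ℕ) : UM) = ((fun _ => 0 : ℕ → ℕ) : UM) := h
      obtain ⟨n, hn⟩ := (Germ.coe_eq.1 h').exists
      exact Nat.succ_ne_zero _ hn
  succ_inj := by
    intro x y
    induction x using Germ.inductionOn with
    | _ g =>
      induction y using Germ.inductionOn with
      | _ g' =>
        intro h
        have h' : ((fun n => Nat.succ (g n) : ℕ → ℕ) : UM) =
          ((fun n => Nat.succ (g' n) : ℕ → ℕ) : UM) := h
        refine Germ.coe_eq.2 ?_
        filter_upwards [Germ.coe_eq.1 h'] with n hn using Nat.succ_injective hn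
  add_zero := by
    intro x
    induction x using Germ.inductionOn with
    | _ g => exact Germ.coe_eq.2 (Eventually.of_forall fun n => Nat.add_zero (g n))
  add_succ := by
    intro x y
    induction x using Germ.inductionOn with
    | _ g =>
      induction y using Germ.inductionOn with
      | _ g' => exact Germ.coe_eq.2 (Eventually.of_forall fun n => Nat.add_succ (g n) (g' n))
  mul_zero := by
    intro x
    induction x using Germ.inductionOn with
    | _ g => exact Germ.coe_eq.2 (Eventually.of_forall fun n => Nat.mul_zero (g n))
  mul_succ := by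
    intro x y
    induction x using Germ.inductionOn with
    | _ g =>
      induction y using Germ.inductionOn with
      | _ g' => exact Germ.coe_eq.2 (Eventually.of_forall fun n => Nat.mul_succ (g n) (g' n))
  ind := by
    intro φ i v h0 hs x
    -- representatives of the values of the parameters
    have hv : ∃ f : ℕ → ℕ → ℕ, v = fun j => ((f j : ℕ → ℕ) : UM) := by
      refine ⟨fun j => Quotient.out (v j), ?_⟩
      funext j
      exact (Quotient.out_eq (v j)).symm
    obtain ⟨f, rfl⟩ := hv
    induction x using Germ.inductionOn with
    | _ g =>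
      by_contra hcon
      have key : ∀ k : ℕ → ℕ, satA UA φ (update (fun j => ((f j : ℕ → ℕ) : UM)) i (k : UM)) ↔
          ∀ᶠ n in (hyperfilter ℕ : Filter ℕ), satA std φ (update (fun j => f j n) i (k n)) := by
        intro k
        rw [update_germ, los]
        simp only [update_eval]
      have h0' := (key (fun _ => 0)).1 h0
      rw [key, ← Ultrafilter.eventually_not] at hcon
      -- the predecessor of the least failing value
      have hk : ∃ k : ℕ → ℕ, ∀ n, satA std φ (update (fun j => f j n) i 0) →
          ¬ satA std φ (update (fun j => f j n) i (g n)) →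
          satA std φ (update (fun j => f j n) i (k n)) ∧
            ¬ satA std φ (update (fun j => f j n) i (k n + 1)) := by
        have : ∀ n, ∃ m : ℕ, satA std φ (update (fun j => f j n) i 0) →
          ¬ satA std φ (update (fun j => f j n) i (g n)) →
          satA std φ (update (fun j => f j n) i m) ∧
            ¬ satA std φ (update (fun j => f j n) i (m + 1)) := by
          intro n
          by_cases ha : satA std φ (update (fun j => f j n) i 0)
          · by_cases hb : satA std φ (update (fun j => f j n) i (g n))
            · exact ⟨0, fun _ h => absurd hb h⟩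
            · by_contra hall
              push Not at hall
              have : ∀ m, satA std φ (update (fun j => f j n) i m) := by
                intro m
                induction m with
                | zero => exact ha
                | succ m ihm => exact (hall m).2.2 ihm
              exact hb (this _)
          · exact ⟨0, fun h => absurd h ha⟩
        choose k hk using this
        exact ⟨k, hk⟩
      obtain ⟨k, hk⟩ := hk
      have h1 : satA UA φ (update (fun j => ((f j : ℕ → ℕ) : UM)) i (k : UM)) := by
        rw [key]
        filter_upwards [h0', hcon] with n hn1 hn2 using (hk n hn1 hn2).1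
      have h2 := hs _ h1
      have h3 : satA UA φ (update (fun j => ((f j : ℕ → ℕ) : UM)) i
          ((fun n => k n + 1 : ℕ → ℕ) : UM)) := h2
      rw [key] at h3
      obtain ⟨n, ⟨hn1, hn2⟩, hn3⟩ := ((h0'.and hcon).and h3).exists
      exact (hk n hn1 hn2).2 hn3

end Los

open Los in
/-- There is a nonstandard elementary extension of the standard model. -/
theorem exists_nonstandard : ∃ (M : Type) (A : AStr M) (c : M), Infinite M ∧ IsPA A ∧
    (∀ n, c ≠ num A n) ∧
    ∀ (φ : AFml) (v : ℕ → ℕ), satA A φ (fun i => num A (v i)) ↔ satA std φ v := by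
  refine ⟨UM, UA, ((id : ℕ → ℕ) : UM), ?_, isPA_UA, ?_, ?_⟩
  · refine Infinite.of_injective (fun n : ℕ => ((n : ℕ) : UM)) ?_
    intro a b hab
    exact Germ.const_inj.1 hab
  · intro n h
    rw [num_UA] at h
    have h' : ((id : ℕ → ℕ) : UM) = ((fun _ => n : ℕ → ℕ) : UM) := h
    have h1 : ∀ᶠ m in (hyperfilter ℕ : Filter ℕ), m = n := Germ.coe_eq.1 h'
    have h2 : {m : ℕ | m = n} ∈ (hyperfilter ℕ : Filter ℕ) := h1
    exact notMem_hyperfilter_of_finite (Set.finite_singleton n) h2
  · intro φ v
    have h : (fun i => num UA (v i)) = fun i => (((fun i _ => v i : ℕ → ℕ → ℕ) i : ℕ → ℕ) : UM) := by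
      funext i
      rw [num_UA]
      rfl
    rw [h, los φ (fun i _ => v i)]
    exact eventually_const

end H97.PAS
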