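import Pool.Agent.Helper97.PAS.Base

/-!
# The coded separator is computable from the model
-/

namespace H97.PAS
open Function

section SepRed

/-- total functions recursive in `O` -/
def SR_T (O : Set (ℕ →. ℕ)) (g : ℕ → ℕ) : Prop := Nat.RecursiveIn O (fun n => Part.some (g n))

theorem SR_prim {O : Set (ℕ →. ℕ)} {g : ℕ → ℕ} (hg : Primrec g) : SR_T O g :=
  (Nat.Primrec.recursiveIn (Primrec.nat_iff.1 hg) : _)

theorem SR_comp {O : Set (ℕ →. ℕ)} {f g : ℕ → ℕ} (hf : SR_T O f) (hg : SR_T O g) :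
    SR_T O (fun n => f (g n)) :=
  (Nat.RecursiveIn.comp hf hg).of_eq (fun n => by simp [Bind.bind])

theorem SR_pair {O : Set (ℕ →. ℕ)} {f g : ℕ → ℕ} (hf : SR_T O f) (hg : SR_T O g) :
    SR_T O (fun n => Nat.pair (f n) (g n)) :=
  (Nat.RecursiveIn.pair hf hg).of_eq (fun n => by simp [Seq.seq])

theorem SR_comp₂ {O : Set (ℕ →. ℕ)} {F : ℕ → ℕ → ℕ} (hF : Primrec₂ F) {f g : ℕ → ℕ} (hf : SR_T O f)
    (hg : SR_T O g) : SR_T O (fun n => F (f n) (g n)) := by
  have h : Primrec (fun n : ℕ => F n.unpair.1 n.unpair.2) :=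
    hF.comp (Primrec.fst.comp Primrec.unpair) (Primrec.snd.comp Primrec.unpair)
  have := SR_comp (SR_prim (O := O) h) (SR_pair hf hg)
  simpa using this

variable (A : AStr ℕ)

theorem SR_diag : SR_T {fun n => Part.some (A.diag n)} A.diag :=
  Nat.RecursiveIn.oracle _ rfl

theorem SR_succ {g : ℕ → ℕ} (hg : SR_T {fun n => Part.some (A.diag n)} g) :
    SR_T {fun n => Part.some (A.diag n)} (fun n => A.succ (g n)) := by
  have h1 : SR_T {fun n => Part.some (A.diag n)} (fun _ => 1) := SR_prim (Primrec.const 1)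
  have := SR_comp (SR_diag A) (SR_pair h1 hg)
  simpa [AStr.diag] using this

theorem SR_mul {f g : ℕ → ℕ} (hf : SR_T {fun n => Part.some (A.diag n)} f)
    (hg : SR_T {fun n => Part.some (A.diag n)} g) :
    SR_T {fun n => Part.some (A.diag n)} (fun n => A.mul (f n) (g n)) := by
  have h1 : SR_T {fun n => Part.some (A.diag n)} (fun _ => 3) := SR_prim (Primrec.const 3)
  have := SR_comp (SR_diag A) (SR_pair h1 (SR_pair hf hg))
  simpa [AStr.diag] using this

theorem SR_num {g : ℕ → ℕ} (hg : SR_T {fun n => Part.some (A.diag n)} g) :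
    SR_T {fun n => Part.some (A.diag n)} (fun n => num A (g n)) := by
  have h0 : SR_T {fun n => Part.some (A.diag n)} (fun _ => A.zero) := SR_prim (Primrec.const _)
  have hi : SR_T {fun n => Part.some (A.diag n)} (fun n => n.unpair.2.unpair.2) :=
    SR_prim (Primrec.snd.comp (Primrec.unpair.comp (Primrec.snd.comp Primrec.unpair)))
  have h1 := Nat.RecursiveIn.prec h0 (SR_succ A hi)
  have h2 : SR_T {fun n => Part.some (A.diag n)} (fun p => num A p.unpair.2) := by
    refine h1.of_eq (fun p => ?_)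
    simp only
    generalize p.unpair.2 = n
    induction n with
    | zero => rfl
    | succ n ih =>
      simp only at ih ⊢
      rw [ih]
      simp [num, Function.iterate_succ_apply', Bind.bind]
  have := SR_comp h2 (SR_pair (SR_prim (Primrec.const 0)) hg)
  simpa using this

theorem separator_reducible (A : AStr ℕ) (b c : ℕ) (f : ℕ → ℕ) (hf : ∀ n,
      (f n = 0 ∧ (∃ q, A.mul q (A.succ (A.mul (num A (n + 1)) c)) = b) ∧
        ¬ ∃ q, A.succ (A.mul q (A.succ (A.mul (num A (n + 1)) c))) = b) ∨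
      (f n = 1 ∧ (∃ q, A.succ (A.mul q (A.succ (A.mul (num A (n + 1)) c))) = b) ∧
        ¬ ∃ q, A.mul q (A.succ (A.mul (num A (n + 1)) c)) = b)) :
    TuringReducible (fun n => Part.some (f n)) (fun n => Part.some (A.diag n)) := by
  classical
  refine RecursiveIn.iff_nat.2 ?_
  set O : Set (ℕ →. ℕ) := {fun n => Part.some (A.diag n)} with hO
  have hc : SR_T O (fun _ => c) := SR_prim (Primrec.const _)
  have hm : SR_T O (fun n => A.succ (A.mul (num A (n + 1)) c)) :=
    SR_succ A (SR_mul A (SR_num A (SR_prim Primrec.succ)) hc)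
  have hl : SR_T O (fun p => p.unpair.1) := SR_prim (Primrec.fst.comp Primrec.unpair)
  have hr : SR_T O (fun p => p.unpair.2) := SR_prim (Primrec.snd.comp Primrec.unpair)
  have hml : SR_T O (fun p => A.succ (A.mul (num A (p.unpair.1 + 1)) c)) :=
    SR_comp (f := fun n => A.succ (A.mul (num A (n + 1)) c)) (g := fun p => p.unpair.1) hm hl
  have hg0 : SR_T O (fun p => A.mul p.unpair.2 (A.succ (A.mul (num A (p.unpair.1 + 1)) c))) :=
    SR_mul A hr hml
  have hg1 := SR_succ A hg0
  have hT : Primrec₂ (fun x y : ℕ => if x = b ∨ y = b then (0 : ℕ) else 1) := by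
    apply Primrec.ite
    · exact PrimrecPred.or (Primrec.eq.comp Primrec.fst (Primrec.const b))
        (Primrec.eq.comp Primrec.snd (Primrec.const b))
    · exact Primrec.const 0
    · exact Primrec.const 1
  have ht := SR_comp₂ hT hg0 hg1
  have hfind := Nat.RecursiveIn.rfind ht
  -- the value found
  have hval : ∀ n, ∃ q, q ∈ (Nat.rfind fun q => (fun m => decide (m = 0)) <$>
      (Part.some (if A.mul (Nat.pair n q).unpair.2 (A.succ (A.mul (num A ((Nat.pair n q).unpair.1 + 1)) c)) = b ∨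
        A.succ (A.mul (Nat.pair n q).unpair.2 (A.succ (A.mul (num A ((Nat.pair n q).unpair.1 + 1)) c))) = b
        then 0 else 1) : Part ℕ)) := by
    intro n
    refine Part.dom_iff_mem.1 (Nat.rfind_dom.2 ?_)
    have : ∃ q, A.mul q (A.succ (A.mul (num A (n + 1)) c)) = b ∨
        A.succ (A.mul q (A.succ (A.mul (num A (n + 1)) c))) = b := by
      rcases hf n with ⟨-, ⟨q, hq⟩, -⟩ | ⟨-, ⟨q, hq⟩, -⟩
      · exact ⟨q, Or.inl hq⟩
      · exact ⟨q, Or.inr hq⟩
    obtain ⟨q, hq⟩ := this
    refine ⟨q, ?_, fun {m} _ => ?_⟩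
    · simp [hq]
    · simp
  choose Q hQ using hval
  have hQr : SR_T O Q := by
    refine Nat.RecursiveIn.of_eq_tot hfind (fun n => ?_)
    exact hQ n
  have hQs : ∀ n, A.mul (Q n) (A.succ (A.mul (num A (n + 1)) c)) = b ∨
        A.succ (A.mul (Q n) (A.succ (A.mul (num A (n + 1)) c))) = b := by
    intro n
    have := Nat.rfind_spec (hQ n)
    simpa using this
  have hfin : SR_T O (fun n => if A.mul (Q n) (A.succ (A.mul (num A (n + 1)) c)) = b then 0 else 1) := by
    have hp : Primrec (fun x : ℕ => if x = b then (0 : ℕ) else 1) :=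
      Primrec.ite (Primrec.eq.comp Primrec.id (Primrec.const b)) (Primrec.const 0) (Primrec.const 1)
    exact SR_comp (SR_prim hp) (SR_mul A hQr hm)
  refine hfin.of_eq (fun n => ?_)
  congr 1
  beta_reduce
  rcases hf n with ⟨h0, -, h1⟩ | ⟨h0, -, h1⟩
  · rw [h0, if_pos]
    rcases hQs n with h | h
    · exact h
    · exact absurd ⟨_, h⟩ h1
  · rw [h0, if_neg]
    exact fun h => h1 ⟨_, h⟩

end SepRed
end H97.PAS
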