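import Pool.Agent.Helper97.PAS.CE
import Pool.Agent.Helper97.PAS.CodedSep
import Pool.Agent.Helper97.PAS.Henkin
import Pool.Agent.Helper97.PAS.Clauses
import Pool.Agent.Helper97.PAS.Copy
import Pool.Agent.Helper97.PAS.Injury
import Pool.Agent.Helper97.PAS.Los
import Pool.Agent.Helper97.PAS.SepRed
import Pool.Agent.Helper97.PAS.Sigma1
import Pool.Agent.Helper54.PAS.Use

/-!
# Assembly
-/

set_option linter.unusedSimpArgs false

namespace H97.PAS

open Function

/-! ### The pattern formula -/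

theorem num_std (n : ℕ) : num std n = n := by
  induction n with
  | zero => rfl
  | succ n ih => rw [num, iterate_succ', comp_apply]; change Nat.succ (num std n) = _; rw [ih]

theorem isPA_std : IsPA std where
  succ_ne_zero := fun x => Nat.succ_ne_zero x
  succ_inj := fun x y h => Nat.succ.inj h
  add_zero := fun x => rfl
  add_succ := fun x y => rfl
  mul_zero := fun x => rfl
  mul_succ := fun x y => rfl
  ind := fun φ i v h0 hs x => by
    induction x with
    | zero => exact h0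
    | succ n ih => exact hs n ih

theorem exists_pattern {A₀ B₀ : Set ℕ} (hA : REPred (· ∈ A₀)) (hB : REPred (· ∈ B₀))
    (hd : Disjoint A₀ B₀) :
    ∃ φ₀ : AFml, (∀ k, freeA φ₀ k → k < 1) ∧ (∀ n, pat φ₀ std n ↔ n ∈ A₀) ∧
      ∀ (M : Type) (A : AStr M), IsPA A → (∀ n ∈ A₀, pat φ₀ A n) ∧ (∀ n ∈ B₀, ¬ pat φ₀ A n) := by
  obtain ⟨θA, a1, a2, a3⟩ := sigma1 A₀ hA
  obtain ⟨θB, b1, b2, b3⟩ := sigma1 B₀ hB
  have uA : UA (fun _ A v => satA A θA v) := ⟨θA, fun _ _ _ => Iff.rfl⟩
  have uB : UA (fun _ A v => satA A θB v) := ⟨θB, fun _ _ _ => Iff.rfl⟩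
  have cA : ∀ {M : Type} (A : AStr M) (v w : ℕ → M), v 0 = w 0 → v 1 = w 1 →
      (satA A θA v ↔ satA A θA w) := fun A v w h0 h1 => satA_congr A θA fun k hk => by
    have := a2 k hk; interval_cases k; exacts [h0, h1]
  have cB : ∀ {M : Type} (A : AStr M) (v w : ℕ → M), v 0 = w 0 → v 1 = w 1 →
      (satA A θB v ↔ satA A θB w) := fun A v w h0 h1 => satA_congr A θB fun k hk => by
    have := b2 k hk; interval_cases k; exacts [h0, h1]
  have hU : UA (fun M A v => ∃ s, satA A θA (fun i => if i = 0 then v 0 else s) ∧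
      ∀ t, A.le t s → ¬ satA A θB (fun i => if i = 0 then v 0 else t)) := by
    refine ((uA.and (((ua_le.ren (rn [2, 1])).imp (uB.ren (rn [0, 2])).not).all 2)).ex 1).congr
      fun M A v => ?_
    simp only [comp_apply, rn, List.getD_cons_zero, List.getD_cons_succ, List.headD_cons,
      update_self, ne_eq, Nat.reduceEqDiff, not_false_eq_true, update_of_ne,
      OfNat.ofNat_ne_zero, OfNat.zero_ne_ofNat, OfNat.ofNat_ne_one, OfNat.one_ne_ofNat]
    refine exists_congr fun s => and_congr (cA A _ _ (by simp) (by simp)) ?_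
    refine forall_congr' fun t => imp_congr_right fun _ => not_congr (cB A _ _ ?_ ?_)
    · simp [rn]
    · simp [rn]
  obtain ⟨φ₀, h1, h2⟩ := hU.exists_free 1 (fun M A v w h => by rw [h 0 (by omega)])
  have key : ∀ (M : Type) (A : AStr M), IsPA A →
      (∀ n ∈ A₀, pat φ₀ A n) ∧ (∀ n ∈ B₀, ¬ pat φ₀ A n) := by
    intro M A hPA
    have tA : ∀ n s : ℕ, satA A θA (fun i => if i = 0 then num A n else num A s) ↔
        satA std θA (update (fun _ => n) 1 s) := by
      intro n s
      rw [← a1 M A hPA]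
      exact cA A _ _ (by simp) (by simp)
    have tB : ∀ n s : ℕ, satA A θB (fun i => if i = 0 then num A n else num A s) ↔
        satA std θB (update (fun _ => n) 1 s) := by
      intro n s
      rw [← b1 M A hPA]
      exact cB A _ _ (by simp) (by simp)
    refine ⟨fun n hn => ?_, fun n hn hp => ?_⟩
    · rw [pat, h2]
      obtain ⟨s, hs⟩ := (a3 (fun _ => n)).1 hn
      refine ⟨num A s, (tA n s).2 hs, fun t ht hB' => ?_⟩
      obtain ⟨k, _, rfl⟩ := le_num hPA ht
      exact Set.disjoint_left.1 hd hn ((b3 (fun _ => n)).2 ⟨k, (tB n k).1 hB'⟩)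
    · rw [pat, h2] at hp
      obtain ⟨s, hs, ht⟩ := hp
      obtain ⟨t₀, ht₀⟩ := (b3 (fun _ => n)).1 hn
      have h3 : ¬ A.le (num A t₀) s := fun hle => ht _ hle ((tB n t₀).2 ht₀)
      obtain ⟨k, _, rfl⟩ := le_num hPA ((hPA.le_total s (num A t₀)).resolve_right h3)
      exact Set.disjoint_left.1 hd ((a3 (fun _ => n)).2 ⟨k, (tA n k).1 hs⟩) hn
  refine ⟨φ₀, h1, fun n => ⟨fun hp => ?_, fun hn => (key ℕ std isPA_std).1 n hn⟩, key⟩
  rw [pat, h2] at hp
  obtain ⟨s, hs, _⟩ := hp
  refine (a3 (fun _ => n)).2 ⟨s, (cA std _ _ ?_ ?_).1 hs⟩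
  · simp [num_std]
  · simp

/-! ### Transport of structures -/

theorem sat_iso {M N : Type} (e : N ≃ M) (R : LStr M) (R' : LStr N)
    (h : ∀ k a b, R' k a b ↔ R k (e a) (e b)) (φ : LFml) :
    ∀ v : ℕ → N, satL R' φ v ↔ satL R φ (e ∘ v) := by
  induction φ with
  | atom a =>
    intro v
    obtain ⟨n, i, j⟩ := a
    cases n with
    | zero => exact e.injective.eq_iff.symm
    | succ n => exact h n _ _
  | bot => intro v; exact Iff.rfl
  | imp φ ψ ih₁ ih₂ => intro v; exact imp_congr (ih₁ v) (ih₂ v)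
  | all i φ ih =>
    intro v
    rw [satL_all, satL_all]
    constructor
    · intro h x
      have := (ih _).1 (h (e.symm x))
      rwa [comp_update, Equiv.apply_symm_apply] at this
    · intro h x
      rw [ih, comp_update]
      exact h _

/-- Transport of an `L_A`-structure. -/
def AStr.trans {M N : Type} (e : N ≃ M) (A : AStr M) : AStr N where
  zero := e.symm A.zero
  succ := fun x => e.symm (A.succ (e x))
  add := fun x y => e.symm (A.add (e x) (e y))
  mul := fun x y => e.symm (A.mul (e x) (e y))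

theorem holds_iso {M N : Type} (e : N ≃ M) (R : LStr M) (R' : LStr N)
    (h : ∀ k a b, R' k a b ↔ R k (e a) (e b)) (Γ : GDef) (A : AStr M) (hG : Γ.Holds R A) :
    Γ.Holds R' (A.trans e) := by
  refine ⟨fun v => ?_, fun v => ?_, fun v => ?_, fun v => ?_⟩
  · rw [sat_iso e R R' h, hG.1, comp_apply]; exact (e.eq_symm_apply).symm
  · rw [sat_iso e R R' h, hG.2.1, comp_apply, comp_apply]; exact (e.eq_symm_apply).symm
  · rw [sat_iso e R R' h, hG.2.2.1, comp_apply, comp_apply, comp_apply]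
    exact (e.eq_symm_apply).symm
  · rw [sat_iso e R R' h, hG.2.2.2, comp_apply, comp_apply, comp_apply]
    exact (e.eq_symm_apply).symm

theorem num_trans {M N : Type} (e : N ≃ M) (A : AStr M) (n : ℕ) :
    num (A.trans e) n = e.symm (num A n) := by
  induction n with
  | zero => rfl
  | succ n ih =>
    rw [num, num, iterate_succ', iterate_succ', comp_apply, comp_apply]
    change e.symm (A.succ (e (num (A.trans e) n))) = e.symm (A.succ (num A n))
    rw [ih, Equiv.apply_symm_apply]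

theorem diag_of {R : LStr ℕ} {n a b : ℕ} (h : R n a b) :
    R.diag (Nat.pair n (Nat.pair a b)) = 1 := by
  unfold LStr.diag
  rw [if_pos]
  simpa using h

theorem diag_of_not {R : LStr ℕ} {n a b : ℕ} (h : ¬ R n a b) :
    R.diag (Nat.pair n (Nat.pair a b)) = 0 := by
  unfold LStr.diag
  rw [if_neg]
  simpa using h

/-! ### The nonstandard model of low complexity -/

/-- The sentences to be satisfied. -/
noncomputable def sigmaC (ψ : LFml) (n a : ℕ) : ℕ :=
  cAnd (cAnd (enumT ψ n) (if a = 1 then cAtom (n + 5 + 1) 0 0 else cNeg (cAtom (n + 5 + 1) 0 0)))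
    (cNeg (cNum n))

theorem pr_sigmaC (ψ : LFml) : Computable₂ (sigmaC ψ) := by
  have h1 : Primrec (fun p : ℕ × ℕ => p.1 + 5 + 1) :=
    Primrec.nat_add.comp (Primrec.nat_add.comp Primrec.fst (Primrec.const 5)) (Primrec.const 1)
  have h : Primrec (fun p : ℕ × ℕ => sigmaC ψ p.1 p.2) :=
    pr_and (pr_and ((pr_enumT ψ).comp Primrec.fst)
      (Primrec.ite (PrimrecRel.comp Primrec.eq Primrec.snd (Primrec.const 1))
        (pr_atom h1 (Primrec.const 0) (Primrec.const 0))
        (pr_neg (pr_atom h1 (Primrec.const 0) (Primrec.const 0)))))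
      (pr_neg (pr_num.comp Primrec.fst))
  exact h.to_comp

theorem sat_sigmaC {M : Type} (R : LStr M) (ψ : LFml) (n a : ℕ) (φ : LFml)
    (hφ : code φ = sigmaC ψ n a) (v : ℕ → M) : satL R φ v ↔
      (∀ χ, code χ = enumT ψ n → satL R χ v) ∧
      (if a = 1 then R (n + 5) (v 0) (v 0) else ¬ R (n + 5) (v 0) (v 0)) ∧
      ¬ satL R (NumL n) v := by
  obtain ⟨χ, hχ⟩ := code_surjective (enumT ψ n)
  have h1 : (∀ χ, code χ = enumT ψ n → satL R χ v) ↔ satL R χ v := by
    constructor
    · intro h; exact h χ hχ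
    · intro h χ' hχ'
      rwa [code_injective (hχ'.trans hχ.symm)]
  have h2 : φ = .and (.and χ (if a = 1 then .atom (n + 5 + 1, 0, 0)
      else .neg (.atom (n + 5 + 1, 0, 0)))) (.neg (NumL n)) := by
    apply code_injective
    rw [hφ, sigmaC, ← hχ, ← code_NumL]
    split_ifs <;> rfl
  rw [h2, h1, satL_and, satL_and, satL_neg, and_assoc]
  split_ifs <;> exact Iff.rfl

theorem final (A₀ B₀ U V : Set ℕ) (hA : REPred (· ∈ A₀)) (hB : REPred (· ∈ B₀))
    (hU : REPred (· ∈ U)) (hV : REPred (· ∈ V)) (hd : Disjoint A₀ B₀) (hd' : Disjoint U V)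
    (hAB : ∀ f : ℕ → ℕ, Computable f → ¬ Sep f A₀ B₀)
    (hUV : ∀ f : ℕ → ℕ, CompFrom (chi A₀) f → ¬ Sep f U V) :
    ∃ (T : Set LFml) (Γ : GDef) (Δ : DDef), IsCETheory T ∧ DefEquiv T Γ Δ ∧
      (∃ d ∈ Spectrum T Γ, d ∉ PADegrees) ∧
      ∀ d ∈ Spectrum T Γ, ¬ d ≤ deg (fun _ => 0) := by
  obtain ⟨φ₀, hφ, hstd, hpat⟩ := exists_pattern hA hB hd
  obtain ⟨ψ, hψ, hφψ⟩ := exists_phi φ₀ hφ
  have hDE := defEquiv hφ hψ hφψ
  refine ⟨Th ψ, Gm, Dl φ₀, ce_Th hψ, hDE, ?_, ?_⟩
  · -- a non-PA degree in the spectrum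
    obtain ⟨M, A, c, hInf, hPA, hc, hel⟩ := exists_nonstandard
    -- the structure B(A)
    obtain ⟨R, hR⟩ : ∃ R : LStr M, DHolds (Dl φ₀) A R := by
      refine ⟨fun n x y => satA A (Dl φ₀ n) (fun i => if i = 0 then x else y), fun n v => ?_⟩
      refine satA_congr A _ fun k hk => ?_
      have := wf_Dl hφ n k hk
      interval_cases k <;> simp
    obtain ⟨hT, hG⟩ := (hDE.same M A R).2 ⟨hPA, hR⟩
    have hRpat : ∀ n, ∀ x y, R (n + 5) x y ↔ n ∈ A₀ := by
      intro n x y
      have h1 := hR (n + 5) (fun i => if i = 0 then x else y)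
      rw [sat_Dl_pat hφ] at h1
      have h2 : pat φ₀ A n ↔ pat φ₀ std n := by
        rw [pat, pat, ← hel]
        simp only [num_std]
      rw [h2, hstd] at h1
      simpa using h1
    have hsat : ∀ n φ, code φ = sigmaC ψ n (chi A₀ n) → satL R φ (fun _ => c) := by
      intro n φ h
      rw [sat_sigmaC R ψ n _ φ h]
      refine ⟨fun χ hχ => hT χ ((mem_Th_iff ψ χ).2 ⟨n, hχ.symm⟩) _, ?_, ?_⟩
      · simp only [hRpat, chi]
        by_cases hn : n ∈ A₀ <;> simp [hn]
      · rw [sat_NumL hG]; exact hc n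
    obtain ⟨R', γ, hγ, hsat', hlim⟩ := henkin_of_clauses (fun A C hC h => clauses A C hC h)
      (chi A₀) (sigmaC ψ) (pr_sigmaC ψ) M R c hsat
    have hex : ∀ n, ∃ φ, code φ = sigmaC ψ n (chi A₀ n) := fun n => code_surjective _
    have hT' : Models R' (Th ψ) := by
      intro χ hχ v
      obtain ⟨n, hn⟩ := (mem_Th_iff ψ χ).1 hχ
      obtain ⟨φ, h⟩ := hex n
      have := ((sat_sigmaC R' ψ n _ φ h _).1 (hsat' n φ h)).1 χ hn.symm
      exact (satL_congr R' χ (fun k hk => absurd hk (closed_Th hψ χ hχ k))).1 this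
    obtain ⟨N, hN⟩ := hDE.total ℕ R' hT'
    obtain ⟨hNPA, hND⟩ := (hDE.same ℕ N R').1 ⟨hT', hN⟩
    have hNns : ∀ n, (0 : ℕ) ≠ num N n := by
      intro n
      obtain ⟨φ, h⟩ := hex n
      have := ((sat_sigmaC R' ψ n _ φ h _).1 (hsat' n φ h)).2.2
      rwa [sat_NumL hN] at this
    have hNpat : ∀ n, pat φ₀ N n ↔ chi A₀ n = 1 := by
      intro n
      obtain ⟨φ, h⟩ := hex n
      have h1 := ((sat_sigmaC R' ψ n _ φ h _).1 (hsat' n φ h)).2.1
      have h2 := hND (n + 5) (fun _ => 0)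
      rw [sat_Dl_pat hφ] at h2
      split_ifs at h1 with h3
      · exact ⟨fun _ => h3, fun _ => h2.1 h1⟩
      · exact ⟨fun h4 => absurd (h2.2 h4) h1, fun h4 => absurd h4 h3⟩
    -- `F` is limit computable
    obtain ⟨χ, hχ⟩ := uc_of_A (.atom (.add (.mul (.var 0) (.var 1)) (.var 2), .var 3))
    have hF : ∀ x y w t, satL R' χ (asg [(0, x), (1, y), (2, w), (3, t)]) ↔ N.F x y w = t := by
      intro x y w t
      refine (hχ ℕ N R' hN _).trans ?_
      simp only [satA_eq', Tm.val, asg, AStr.F, if_true, one_ne_zero, if_false,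
        OfNat.ofNat_ne_zero, OfNat.ofNat_ne_one, Nat.reduceEqDiff]
    have hγ' : Computable₂ (fun (q : ℕ) (σ : List ℕ) =>
        γ (Nat.pair (code χ) (Encodable.encode [(0, q.unpair.1), (1, q.unpair.2.unpair.1),
          (2, q.unpair.2.unpair.2.unpair.1), (3, q.unpair.2.unpair.2.unpair.2)])) σ) := by
      have u1 : Primrec (fun p : ℕ × List ℕ => p.1.unpair) := Primrec.unpair.comp Primrec.fst
      have u2 : Primrec (fun p : ℕ × List ℕ => p.1.unpair.2.unpair) :=
        Primrec.unpair.comp (Primrec.snd.comp u1)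
      have u3 : Primrec (fun p : ℕ × List ℕ => p.1.unpair.2.unpair.2.unpair) :=
        Primrec.unpair.comp (Primrec.snd.comp u2)
      have hl : Primrec (fun p : ℕ × List ℕ => [(0, p.1.unpair.1), (1, p.1.unpair.2.unpair.1),
          (2, p.1.unpair.2.unpair.2.unpair.1), (3, p.1.unpair.2.unpair.2.unpair.2)]) :=
        Primrec.list_cons.comp (Primrec.pair (Primrec.const 0) (Primrec.fst.comp u1))
          (Primrec.list_cons.comp (Primrec.pair (Primrec.const 1) (Primrec.fst.comp u2))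
            (Primrec.list_cons.comp (Primrec.pair (Primrec.const 2) (Primrec.fst.comp u3))
              (Primrec.list_cons.comp (Primrec.pair (Primrec.const 3) (Primrec.snd.comp u3))
                (Primrec.const []))))
      exact hγ.comp (Primrec₂.natPair.comp (Primrec.const _) (Primrec.encode.comp hl)).to_comp
        Computable.snd
    obtain ⟨S, e, hS, hcomp⟩ := copy (chi A₀) N.F _ hγ' (fun x y w t => by
      obtain ⟨t₀, ht₀⟩ := hlim χ [(0, x), (1, y), (2, w), (3, t)]
      refine ⟨t₀, fun s hs => ?_⟩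
      rw [← hF x y w t, ← ht₀ s hs]
      simp only [Nat.unpair_pair])
    -- the isomorphism between `S` and `R'`
    let ε : ℕ ≃ ℕ := e.trans (Equiv.ofBijective N.enc (enc_bijective hNPA))
    have hε : ∀ k a b, S k a b ↔ R' k (ε a) (ε b) := by
      intro k a b
      rw [hS]
      have h1 := (DHolds_iff hφ hNPA).1 hND k (e a) (e b)
      have h2 : KRel N.F (fun n => chi A₀ n = 1) k (e a) (e b) ↔
          KRel N.F (pat φ₀ N) k (e a) (e b) := by
        have : (fun n => chi A₀ n = 1) = pat φ₀ N := funext fun n => propext (hNpat n).symm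
        rw [this]
      rw [h2, ← h1]
      rfl
    have hTS : Models S (Th ψ) := fun χ hχ v => (sat_iso ε R' S hε χ v).2 (hT' χ hχ _)
    have hGS : Gm.Holds S (N.trans ε) := holds_iso ε R' S hε Gm N hN
    refine ⟨deg S.diag, ⟨S, N.trans ε, hTS, hGS, ⟨ε.symm 0, fun n h => ?_⟩, rfl⟩, ?_⟩
    · rw [num_trans] at h
      exact hNns n (ε.symm.injective h)
    · rintro ⟨P, hP, hPns, hle⟩
      have hle' : TuringReducible (fun n => Part.some (P.diag n)) (fun n => Part.some (S.diag n)) :=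
        hle
      have hcomp' := (turingReducible_iff_compFrom S.diag (chi A₀)).2 hcomp
      obtain ⟨θ₁, p1, p2, p3⟩ := sigma1 U hU
      obtain ⟨θ₂, q1, q2, q3⟩ := sigma1 V hV
      obtain ⟨b, c, f, hf, hfn⟩ := coded_separator_aux P hP hPns U V hd' θ₁ θ₂ p1 q1 p2 q2
        p3 q3
      have hfr := separator_reducible P b c f hfn
      exact hUV f ((turingReducible_iff_compFrom f (chi A₀)).1
        ((hfr.trans hle').trans hcomp')) hf
  · -- `0` is not in the spectrum
    rintro d ⟨R, A, hT, hG, _, rfl⟩ hle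
    obtain ⟨hPA, hD⟩ := (hDE.same ℕ A R).1 ⟨hT, hG⟩
    have hle' : TuringReducible (fun n => Part.some (R.diag n)) (fun _ => Part.some 0) := hle
    have hcomp : Computable R.diag := hle'.partrec_of_const
    have hf : Computable (fun n => R.diag (Nat.pair (n + 5) (Nat.pair 0 0))) :=
      hcomp.comp (Primrec₂.natPair.comp (Primrec.nat_add.comp Primrec.id (Primrec.const 5))
        (Primrec.const _)).to_comp
    refine hAB _ hf ?_
    have h1 : ∀ n, R (n + 5) 0 0 ↔ pat φ₀ A n := by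
      intro n
      have := hD (n + 5) (fun _ => 0)
      rwa [sat_Dl_pat hφ] at this
    constructor
    · intro n hn
      exact diag_of ((h1 n).2 ((hpat ℕ A hPA).1 n hn))
    · intro n hn
      exact diag_of_not (fun h => (hpat ℕ A hPA).2 n hn ((h1 n).1 h))

end H97.PAS
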