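import Pool.Agent.Helper97.PAS.Interp
import Pool.Agent.Helper97.PAS.DefA
import Pool.Agent.Helper97.PAS.Arith

/-!
# Arithmetic is definable in the structure `B(M)`
-/

set_option linter.unusedSimpArgs false

namespace H97.PAS

open Function

/-- `A ⊨ PA`, and `R` is the structure `B(A)` with the sentences `pat`. -/
def KCtx (M : Type) (A : AStr M) (R : LStr M) : Prop :=
  IsPA A ∧ ∃ pat : ℕ → Prop, ∀ k a b, R k (A.enc a) (A.enc b) ↔ KRel A.F pat k a b

/-- The embedding of `M` onto the `p`-elements. -/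
noncomputable def iota (M : Type) (A : AStr M) (_ : LStr M) (x : M) : M := A.enc (.p x)

theorem iota_inj {M : Type} {A : AStr M} {R : LStr M} (h : KCtx M A R) : Injective (iota M A R) := by
  intro x y hxy
  have := (enc_bijective h.1).1 hxy
  simpa using this

theorem uc_isP : UC KCtx (fun M A R v => ∃ x, v 0 = iota M A R x) := by
  refine ((UC.rel 0 0 1).ex 1).not.congr fun M A R v h => ?_
  obtain ⟨hPA, pat, hR⟩ := h
  obtain ⟨a, ha⟩ := (enc_bijective hPA).2 (v 0)
  simp only [update_self, ne_eq, zero_ne_one, not_false_eq_true, update_of_ne]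
  rw [← ha]
  constructor
  · intro h
    cases a with
    | p x => exact ⟨x, rfl⟩
    | al x y w => exact absurd ⟨_, (hR 0 _ (.p x)).2 rfl⟩ h
    | de x y w t i => exact absurd ⟨_, (hR 0 _ (.p x)).2 rfl⟩ h
  · rintro ⟨x, hx⟩ ⟨y, hy⟩
    obtain ⟨b, rfl⟩ := (enc_bijective hPA).2 y
    have := (enc_bijective hPA).1 hx
    subst this
    exact (hR 0 _ _).1 hy

theorem uc_G : UC KCtx (fun M A R v => ∃ x y w, v 0 = iota M A R x ∧ v 1 = iota M A R y ∧
    v 2 = iota M A R w ∧ v 3 = iota M A R (A.F x y w)) := by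
  refine ((((((UC.rel 0 4 0).and (UC.rel 1 4 1)).and (UC.rel 2 4 2)).and (UC.rel 3 4 3)).and
    ((UC.rel 4 4 5).ex 5).not).ex 4).congr fun M A R v h => ?_
  obtain ⟨hPA, pat, hR⟩ := h
  have hb := enc_bijective hPA
  simp only [update_self, ne_eq, Nat.reduceEqDiff, not_false_eq_true, update_of_ne,
    OfNat.ofNat_ne_zero, OfNat.zero_ne_ofNat, OfNat.ofNat_ne_one, OfNat.one_ne_ofNat]
  obtain ⟨a0, h0⟩ := hb.2 (v 0)
  obtain ⟨a1, h1⟩ := hb.2 (v 1)
  obtain ⟨a2, h2⟩ := hb.2 (v 2)
  obtain ⟨a3, h3⟩ := hb.2 (v 3)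
  rw [← h0, ← h1, ← h2, ← h3]
  constructor
  · rintro ⟨z, ⟨⟨⟨hz0, hz1⟩, hz2⟩, hz3⟩, hz4⟩
    obtain ⟨z, rfl⟩ := hb.2 z
    rw [hR] at hz0 hz1 hz2 hz3
    cases z with
    | p x => exact absurd hz0 id
    | al x y w =>
      cases a0 with
      | p a0 =>
        cases a1 with
        | p a1 =>
          cases a2 with
          | p a2 =>
            cases a3 with
            | p a3 =>
              simp only [KRel] at hz0 hz1 hz2 hz3
              subst hz0 hz1 hz2 hz3
              exact ⟨_, _, _, rfl, rfl, rfl, rfl⟩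
            | _ => exact absurd hz3 id
          | _ => exact absurd hz2 id
        | _ => exact absurd hz1 id
      | _ => exact absurd hz0 id
    | de x y w t i => exact absurd ⟨_, (hR 4 _ (.p i)).2 rfl⟩ hz4
  · rintro ⟨x, y, w, e0, e1, e2, e3⟩
    rw [e0, e1, e2, e3]
    refine ⟨A.enc (.al x y w), ⟨⟨⟨(hR 0 _ (.p x)).2 rfl, (hR 1 _ (.p y)).2 rfl⟩,
      (hR 2 _ (.p w)).2 rfl⟩, (hR 3 _ (.p _)).2 rfl⟩, ?_⟩
    rintro ⟨i, hi⟩
    obtain ⟨i, rfl⟩ := hb.2 i
    rw [hR] at hi
    cases i <;> exact hi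

theorem uc_zero : UC KCtx (fun M A R v => v 0 = iota M A R A.zero) := by
  refine (uc_G.ren (fun _ => 0)).congr fun M A R v h => ?_
  have hi := iota_inj h
  simp only [comp_apply]
  constructor
  · rintro ⟨x, y, w, e0, e1, e2, e3⟩
    have h1 := hi (e0.symm.trans e1)
    have h2 := hi (e0.symm.trans e2)
    have h3 := hi (e0.symm.trans e3)
    subst h1 h2
    rw [e0, (F_self h.1 x).1 h3.symm]
  · intro h'
    exact ⟨_, _, _, h', h', h', by rw [(F_self h.1 _).2 rfl]; exact h'⟩

theorem uc_one : UC KCtx (fun M A R v => v 0 = iota M A R (A.succ A.zero)) := by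
  refine (((uc_zero.ren (rn [1])).and ((uc_G.ren (rn [0, 0, 1, 0])).and (UC.eq 0 1).not)).ex
    1).congr fun M A R v h => ?_
  have hi := iota_inj h
  simp only [comp_apply, rn, List.getD_cons_zero, List.getD_cons_succ, List.headD_cons,
    update_self, ne_eq, zero_ne_one, not_false_eq_true, update_of_ne]
  constructor
  · rintro ⟨o, ho, ⟨x, y, w, e0, e1, e2, e3⟩, hne⟩
    have h1 := hi (e0.symm.trans e1)
    have h2 := hi (ho.symm.trans e2)
    have h3 := hi (e0.symm.trans e3)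
    subst h1 h2
    rw [e0]
    congr 1
    refine (F_one h.1 x).1 ⟨?_, h3.symm⟩
    rintro rfl
    exact hne (e0.trans ho.symm)
  · intro h'
    refine ⟨iota M A R A.zero, rfl, ⟨_, _, _, h', h', rfl, ?_⟩, ?_⟩
    · rw [((F_one h.1 _).2 rfl).2]; exact h'
    · rw [h']
      intro h2
      exact ((F_one h.1 _).2 rfl).1 (hi h2)

theorem interpK : Interp KCtx iota where
  inj := fun M A R h => iota_inj h
  dom := uc_isP
  zero := uc_zero
  succ := by
    refine (((uc_one.ren (rn [2])).and (uc_G.ren (rn [2, 0, 2, 1]))).ex 2).congr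
      fun M A R v h => ?_
    have hi := iota_inj h
    simp only [comp_apply, rn, List.getD_cons_zero, List.getD_cons_succ, List.headD_cons,
      update_self, ne_eq, Nat.reduceEqDiff, not_false_eq_true, update_of_ne,
      OfNat.ofNat_ne_zero, OfNat.zero_ne_ofNat, OfNat.ofNat_ne_one, OfNat.one_ne_ofNat]
    have hF : ∀ x, A.F (A.succ A.zero) x (A.succ A.zero) = A.succ x := fun x => by
      rw [F_add h.1, h.1.add_succ, h.1.add_zero]
    constructor
    · rintro ⟨o, ho, x, y, w, e0, e1, e2, e3⟩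
      have h1 := hi (ho.symm.trans e0)
      have h2 := hi (ho.symm.trans e2)
      subst h1 h2
      rw [hF] at e3
      exact ⟨y, e1, e3⟩
    · rintro ⟨x, e0, e1⟩
      exact ⟨_, rfl, _, x, _, rfl, e0, rfl, by rw [hF]; exact e1⟩
  add := by
    refine (((uc_one.ren (rn [3])).and (uc_G.ren (rn [3, 0, 1, 2]))).ex 3).congr
      fun M A R v h => ?_
    have hi := iota_inj h
    simp only [comp_apply, rn, List.getD_cons_zero, List.getD_cons_succ, List.headD_cons,
      update_self, ne_eq, Nat.reduceEqDiff, not_false_eq_true, update_of_ne,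
      OfNat.ofNat_ne_zero, OfNat.zero_ne_ofNat, OfNat.ofNat_ne_one, OfNat.one_ne_ofNat]
    constructor
    · rintro ⟨o, ho, x, y, w, e0, e1, e2, e3⟩
      have h1 := hi (ho.symm.trans e0)
      subst h1
      rw [F_add h.1] at e3
      exact ⟨y, w, e1, e2, e3⟩
    · rintro ⟨x, y, e0, e1, e2⟩
      exact ⟨_, rfl, _, x, y, rfl, e0, e1, by rw [F_add h.1]; exact e2⟩
  mul := by
    refine (((uc_zero.ren (rn [3])).and (uc_G.ren (rn [0, 1, 3, 2]))).ex 3).congr
      fun M A R v h => ?_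
    have hi := iota_inj h
    simp only [comp_apply, rn, List.getD_cons_zero, List.getD_cons_succ, List.headD_cons,
      update_self, ne_eq, Nat.reduceEqDiff, not_false_eq_true, update_of_ne,
      OfNat.ofNat_ne_zero, OfNat.zero_ne_ofNat, OfNat.ofNat_ne_one, OfNat.one_ne_ofNat]
    constructor
    · rintro ⟨o, ho, x, y, w, e0, e1, e2, e3⟩
      have h1 := hi (ho.symm.trans e2)
      subst h1
      rw [F_mul h.1] at e3
      exact ⟨x, y, e0, e1, e3⟩
    · rintro ⟨x, y, e0, e1, e2⟩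
      exact ⟨_, rfl, x, y, _, e0, e1, rfl, by rw [F_mul h.1]; exact e2⟩

/-- An assignment given by a list. -/
def rn' {M : Type} (l : List M) (d : M) (i : ℕ) : M := l.getD i d

/-- Transfer from the image of `iota`. -/
theorem UI.toUC {S : ∀ M : Type, AStr M → LStr M → (ℕ → M) → Prop} (m : ℕ)
    (h : UI KCtx iota S) (hS : ∀ M A R v w, KCtx M A R → (∀ k < m + 1, v k = w k) →
      (S M A R v ↔ S M A R w)) :
    UC KCtx (fun M A R v => ∃ u : ℕ → M, (∀ k < m + 1, v k = iota M A R (u k)) ∧ S M A R u) := by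
  obtain ⟨ψ, hψ⟩ := h
  have hdom : ∀ n, UC KCtx (fun M A R v => ∀ k < n, ∃ x, v k = iota M A R x) := by
    intro n
    induction n with
    | zero => exact UC.true.congr fun _ _ _ _ _ => by simp
    | succ n ih =>
      refine (ih.and (uc_isP.ren (fun _ => n))).congr fun M A R v _ => ?_
      simp only [comp_apply]
      constructor
      · rintro ⟨h1, h2⟩ k hk
        rcases Nat.lt_succ_iff_lt_or_eq.1 hk with hk | rfl
        · exact h1 k hk
        · exact h2
      · intro h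
        exact ⟨fun k hk => h k (by omega), h n (by omega)⟩
  have hψ' : UC KCtx (fun M A R v => satL R ψ (v ∘ fun k => if k < m + 1 then k else 0)) :=
    UC.ren (S := fun M A R v => satL R ψ v) _ ⟨ψ, fun _ _ _ _ _ => Iff.rfl⟩
  refine ((hdom (m + 1)).and hψ').congr fun M A R v hK => ?_
  have key : ∀ u : ℕ → M, (∀ k < m + 1, v k = iota M A R (u k)) →
      (satL R ψ (v ∘ fun k => if k < m + 1 then k else 0) ↔ S M A R u) := by
    intro u hu
    have : (v ∘ fun k => if k < m + 1 then k else 0) =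
        iota M A R ∘ (u ∘ fun k => if k < m + 1 then k else 0) := by
      funext k
      simp only [comp_apply]
      split_ifs with h
      · exact hu k h
      · exact hu 0 (by omega)
    rw [this, hψ M A R hK]
    refine hS M A R _ _ hK fun k hk => ?_
    simp only [comp_apply, if_pos hk]
  constructor
  · rintro ⟨h1, h2⟩
    have : Nonempty M := ⟨v 0⟩
    choose! u hu using h1
    exact ⟨u, hu, (key u hu).1 h2⟩
  · rintro ⟨u, hu, h2⟩
    exact ⟨fun k hk => ⟨u k, hu k hk⟩, (key u hu).2 h2⟩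

theorem ui_of_UA {S : ∀ M : Type, AStr M → (ℕ → M) → Prop} (h : UA S) :
    UI KCtx iota (fun M A _ v => S M A v) := by
  obtain ⟨φ, hφ⟩ := h
  exact (interpK.fml φ).congr fun M A R v _ => hφ M A v

/-- The map `u ↦` (the `p`-element representing `u`) is definable. -/
theorem uc_nu : UC KCtx (fun M A R v => v 1 = iota M A R (v 0)) := by
  have hp := UI.toUC 1 (ui_of_UA ua_encp) (fun M A R v w _ hvw => by
    rw [hvw 0 (by omega), hvw 1 (by omega)])
  have hal := UI.toUC 3 (ui_of_UA ua_encal) (fun M A R v w _ hvw => by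
    rw [hvw 0 (by omega), hvw 1 (by omega), hvw 2 (by omega), hvw 3 (by omega)])
  have hde := UI.toUC 5 (ui_of_UA ua_encde) (fun M A R v w _ hvw => by
    rw [hvw 0 (by omega), hvw 1 (by omega), hvw 2 (by omega), hvw 3 (by omega), hvw 4 (by omega),
      hvw 5 (by omega)])
  have h1 := (((((((UC.rel (K := KCtx) 0 0 2).and (UC.rel 1 0 3)).and (UC.rel 2 0 4)).and
    ((UC.rel 4 0 7).ex 7).not).and (hal.ren (rn [2, 3, 4, 1]))).ex 4).ex 3).ex 2
  have h2 := ((((((((((UC.rel (K := KCtx) 0 0 2).and (UC.rel 1 0 3)).and (UC.rel 2 0 4)).and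
    (UC.rel 3 0 5)).and (UC.rel 4 0 6)).and (hde.ren (rn [2, 3, 4, 5, 6, 1]))).ex 6).ex 5).ex
      4).ex 3).ex 2
  refine ((hp.or h1).or h2).congr fun M A R v hK => ?_
  have hi := iota_inj hK
  obtain ⟨hPA, pat, hR⟩ := hK
  have hb := enc_bijective hPA
  obtain ⟨a, ha⟩ := hb.2 (v 0)
  have hco : ∀ (k : ℕ) (a : El M) (b : M), R k (A.enc a) b → k < 5 →
      ∃ x, b = iota M A R x ∧ KRel A.F pat k a (.p x) := by
    intro k a b h hk
    obtain ⟨b, rfl⟩ := hb.2 b
    rw [hR] at h
    cases b with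
    | p x => exact ⟨x, rfl, h⟩
    | _ => cases a <;> interval_cases k <;> exact absurd h id
  have hco' : ∀ (k : ℕ) (a : El M) (x : M), KRel A.F pat k a (.p x) →
      R k (A.enc a) (iota M A R x) := fun k a x h => (hR _ _ _).2 h
  simp only [comp_apply, rn, update_self, ne_eq, Nat.reduceEqDiff, not_false_eq_true, update_of_ne,
      OfNat.ofNat_ne_zero, OfNat.zero_ne_ofNat, OfNat.ofNat_ne_one, OfNat.one_ne_ofNat]
  rw [← ha]
  constructor
  · rintro ((⟨u, hu, hu'⟩ | ⟨x, y, w, ⟨⟨⟨hx, hy⟩, hw⟩, hn⟩, u, hu, hu'⟩) |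
      ⟨x, y, w, t, i, ⟨⟨⟨⟨hx, hy⟩, hw⟩, ht⟩, hi'⟩, u, hu, hu'⟩)
    · have e0 := hu 0 (by omega)
      have e1 := hu 1 (by omega)
      rw [← ha] at e0
      rw [e1, hu', e0]
      rfl
    · obtain ⟨x, rfl, hx'⟩ := hco _ _ _ hx (by omega)
      obtain ⟨y, rfl, hy'⟩ := hco _ _ _ hy (by omega)
      obtain ⟨w, rfl, hw'⟩ := hco _ _ _ hw (by omega)
      have e0 := hi (hu 0 (by omega))
      have e1 := hi (hu 1 (by omega))
      have e2 := hi (hu 2 (by omega))
      have e3 := hu 3 (by omega)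
      simp only [List.getD_cons_zero, List.getD_cons_succ, update_self, ne_eq, Nat.reduceEqDiff,
        not_false_eq_true, update_of_ne, OfNat.ofNat_ne_one, OfNat.one_ne_ofNat] at e0 e1 e2 e3
      rw [e3, hu', ← e0, ← e1, ← e2]
      cases a with
      | p _ => exact absurd hx' id
      | al x' y' w' =>
        simp only [KRel] at hx' hy' hw'
        subst hx' hy' hw'
        rfl
      | de x' y' w' t' i' => exact absurd ⟨_, hco' 4 _ i' rfl⟩ hn
    · obtain ⟨x, rfl, hx'⟩ := hco _ _ _ hx (by omega)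
      obtain ⟨y, rfl, hy'⟩ := hco _ _ _ hy (by omega)
      obtain ⟨w, rfl, hw'⟩ := hco _ _ _ hw (by omega)
      obtain ⟨t, rfl, ht'⟩ := hco _ _ _ ht (by omega)
      obtain ⟨i, rfl, hi''⟩ := hco _ _ _ hi' (by omega)
      have e0 := hi (hu 0 (by omega))
      have e1 := hi (hu 1 (by omega))
      have e2 := hi (hu 2 (by omega))
      have e3 := hi (hu 3 (by omega))
      have e4 := hi (hu 4 (by omega))
      have e5 := hu 5 (by omega)
      simp only [List.getD_cons_zero, List.getD_cons_succ, update_self, ne_eq, Nat.reduceEqDiff,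
        not_false_eq_true, update_of_ne, OfNat.ofNat_ne_one, OfNat.one_ne_ofNat] at e0 e1 e2 e3 e4 e5
      rw [e5, hu', ← e0, ← e1, ← e2, ← e3, ← e4]
      cases a with
      | p _ => exact absurd hx' id
      | al x' y' w' => exact absurd hi'' id
      | de x' y' w' t' i' =>
        simp only [KRel] at hx' hy' hw' ht' hi''
        subst hx' hy' hw' ht' hi''
        rfl
  · intro h
    cases a with
    | p x =>
      refine Or.inl (Or.inl ⟨fun k => if k = 0 then x else A.enc (.p x), fun k hk => ?_, ?_⟩)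
      · interval_cases k
        · exact ha.symm
        · exact h
      · rfl
    | al x y w =>
      refine Or.inl (Or.inr ⟨iota M A R x, iota M A R y, iota M A R w,
        ⟨⟨⟨hco' 0 _ _ rfl, hco' 1 _ _ rfl⟩, hco' 2 _ _ rfl⟩, ?_⟩,
        rn' [x, y, w, A.enc (.al x y w)] x, fun k hk => ?_, rfl⟩)
      · rintro ⟨z, hz⟩
        obtain ⟨z', rfl, hz'⟩ := hco _ _ _ hz (by omega)
        exact hz'
      · interval_cases k <;> simp [rn', h]
    | de x y w t i =>
      refine Or.inr ⟨iota M A R x, iota M A R y, iota M A R w, iota M A R t, iota M A R i,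
        ⟨⟨⟨⟨hco' 0 _ _ rfl, hco' 1 _ _ rfl⟩, hco' 2 _ _ rfl⟩, hco' 3 _ _ rfl⟩, hco' 4 _ _ rfl⟩,
        rn' [x, y, w, t, i, A.enc (.de x y w t i)] x, fun k hk => ?_, rfl⟩
      interval_cases k <;> simp [rn', h]

/-- Predicates definable in `A` on `v 0, v 1, v 2` are uniformly `L`-definable. -/
theorem uc_of_UA3 {S : ∀ M : Type, AStr M → (ℕ → M) → Prop} (h : UA S)
    (hS : ∀ M A v w, (∀ k < 3, v k = w k) → (S M A v ↔ S M A w)) :
    UC KCtx (fun M A _ v => S M A v) := by
  have h3 := UI.toUC 2 (ui_of_UA h) (fun M A R v w _ hvw => hS M A v w hvw)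
  refine (((((uc_nu.ren (rn [0, 3])).and (uc_nu.ren (rn [1, 4]))).and (uc_nu.ren (rn [2, 5]))).and
    (h3.ren (rn [3, 4, 5]))).ex 5).ex 4 |>.ex 3 |>.congr fun M A R v hK => ?_
  have hi := iota_inj hK
  simp only [comp_apply, rn, List.getD_cons_zero, List.getD_cons_succ, update_self, ne_eq,
    Nat.reduceEqDiff, not_false_eq_true, update_of_ne,
    OfNat.ofNat_ne_zero, OfNat.zero_ne_ofNat, OfNat.ofNat_ne_one, OfNat.one_ne_ofNat]
  constructor
  · rintro ⟨a, b, c, ⟨⟨rfl, rfl⟩, rfl⟩, u, hu, hu'⟩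
    refine (hS M A _ _ fun k hk => ?_).1 hu'
    have := hu k hk
    interval_cases k <;> exact (hi (by simpa using this)).symm
  · intro h
    refine ⟨_, _, _, ⟨⟨rfl, rfl⟩, rfl⟩, v, fun k hk => ?_, h⟩
    interval_cases k <;> simp

/-- **The definitions `Γ`.** -/
theorem exists_gamma : ∃ Γ : GDef, Γ.Wf ∧ ∀ (M : Type) (A : AStr M) (R : LStr M), KCtx M A R →
    Γ.Holds R A := by
  obtain ⟨g0, hg0, hg0'⟩ := (uc_of_UA3 (UA.eq (.var 0) .zero) (fun M A v w h => by
    simp only [Tm.val, h 0 (by omega)])).exists_free 1 (fun M A R v w _ h => by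
    simp only [Tm.val, h 0 (by omega)])
  obtain ⟨g1, hg1, hg1'⟩ := (uc_of_UA3 (UA.eq (.var 1) (.succ (.var 0))) (fun M A v w h => by
    simp only [Tm.val, h 0 (by omega), h 1 (by omega)])).exists_free 2 (fun M A R v w _ h => by
    simp only [Tm.val, h 0 (by omega), h 1 (by omega)])
  obtain ⟨g2, hg2, hg2'⟩ := (uc_of_UA3 (UA.eq (.var 2) (.add (.var 0) (.var 1)))
    (fun M A v w h => by
    simp only [Tm.val, h 0 (by omega), h 1 (by omega), h 2 (by omega)])).exists_free 3
    (fun M A R v w _ h => by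
    simp only [Tm.val, h 0 (by omega), h 1 (by omega), h 2 (by omega)])
  obtain ⟨g3, hg3, hg3'⟩ := (uc_of_UA3 (UA.eq (.var 2) (.mul (.var 0) (.var 1)))
    (fun M A v w h => by
    simp only [Tm.val, h 0 (by omega), h 1 (by omega), h 2 (by omega)])).exists_free 3
    (fun M A R v w _ h => by
    simp only [Tm.val, h 0 (by omega), h 1 (by omega), h 2 (by omega)])
  exact ⟨⟨g0, g1, g2, g3⟩, ⟨hg0, hg1, hg2, hg3⟩, fun M A R hK =>
    ⟨hg0' M A R hK, hg1' M A R hK, hg2' M A R hK, hg3' M A R hK⟩⟩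

end H97.PAS
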