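import Pool.Agent.Helper97.PAS.Syn

/-!
# Interpretations of arithmetic in `L`-structures
-/

namespace H97.PAS

open Function

variable {K : ∀ M : Type, AStr M → LStr M → Prop} {ι : ∀ M : Type, AStr M → LStr M → M → M}

/-- In all `(M, A, R)` of the class `K`, the image of `A` under the injection `ι : M → M` is
uniformly `L`-definable. -/
structure Interp (K : ∀ M : Type, AStr M → LStr M → Prop)
    (ι : ∀ M : Type, AStr M → LStr M → M → M) : Prop where
  inj : ∀ M A R, K M A R → Injective (ι M A R)
  dom : UC K (fun M A R v => ∃ x, v 0 = ι M A R x)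
  zero : UC K (fun M A R v => v 0 = ι M A R A.zero)
  succ : UC K (fun M A R v => ∃ x, v 0 = ι M A R x ∧ v 1 = ι M A R (A.succ x))
  add : UC K (fun M A R v => ∃ x y, v 0 = ι M A R x ∧ v 1 = ι M A R y ∧
    v 2 = ι M A R (A.add x y))
  mul : UC K (fun M A R v => ∃ x y, v 0 = ι M A R x ∧ v 1 = ι M A R y ∧
    v 2 = ι M A R (A.mul x y))

/-- `S` is definable on the image of `ι`. -/
def UI (K : ∀ M : Type, AStr M → LStr M → Prop) (ι : ∀ M : Type, AStr M → LStr M → M → M)
    (S : ∀ M : Type, AStr M → LStr M → (ℕ → M) → Prop) : Prop :=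
  ∃ ψ : LFml, ∀ (M : Type) (A : AStr M) (R : LStr M), K M A R → ∀ v : ℕ → M,
    satL R ψ (ι M A R ∘ v) ↔ S M A R v

namespace UI

variable {S T : ∀ M : Type, AStr M → LStr M → (ℕ → M) → Prop}

theorem congr (h : UI K ι S) (hST : ∀ M A R v, K M A R → (S M A R v ↔ T M A R v)) :
    UI K ι T := by
  obtain ⟨φ, hφ⟩ := h
  exact ⟨φ, fun M A R hK v => (hφ M A R hK v).trans (hST M A R v hK)⟩

theorem of_UC (h : UC K S) (hST : ∀ M A R v, K M A R → (S M A R (ι M A R ∘ v) ↔ T M A R v)) :
    UI K ι T := by
  obtain ⟨φ, hφ⟩ := h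
  exact ⟨φ, fun M A R hK v => (hφ M A R hK _).trans (hST M A R v hK)⟩

theorem false : UI K ι (fun _ _ _ _ => False) := ⟨.bot, fun _ _ _ _ _ => Iff.rfl⟩

theorem imp (h : UI K ι S) (h' : UI K ι T) : UI K ι (fun M A R v => S M A R v → T M A R v) := by
  obtain ⟨φ, hφ⟩ := h
  obtain ⟨ψ, hψ⟩ := h'
  exact ⟨.imp φ ψ, fun M A R hK v => imp_congr (hφ M A R hK v) (hψ M A R hK v)⟩

theorem not (h : UI K ι S) : UI K ι (fun M A R v => ¬ S M A R v) := h.imp false

theorem and (h : UI K ι S) (h' : UI K ι T) : UI K ι (fun M A R v => S M A R v ∧ T M A R v) :=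
  ((h.imp h'.not).not).congr (fun _ _ _ _ _ => by tauto)

theorem all (hI : Interp K ι) (i : ℕ) (h : UI K ι S) :
    UI K ι (fun M A R v => ∀ x, S M A R (update v i x)) := by
  obtain ⟨φ, hφ⟩ := h
  obtain ⟨δ, hδ⟩ := hI.dom.ren (fun _ => i)
  refine ⟨.all i (.imp δ φ), fun M A R hK v => ?_⟩
  have h1 : satL R (.all i (.imp δ φ)) (ι M A R ∘ v) ↔
      ∀ x, satL R δ (update (ι M A R ∘ v) i x) → satL R φ (update (ι M A R ∘ v) i x) := Iff.rfl
  rw [h1]
  constructor
  · intro h x
    have := h (ι M A R x) ((hδ M A R hK _).2 ⟨x, by simp⟩)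
    rw [← comp_update] at this
    exact (hφ M A R hK _).1 this
  · intro h x hx
    obtain ⟨y, hy⟩ := (hδ M A R hK _).1 hx
    simp only [comp_apply, update_self] at hy
    subst hy
    rw [← comp_update]
    exact (hφ M A R hK _).2 (h y)

theorem ex (hI : Interp K ι) (i : ℕ) (h : UI K ι S) :
    UI K ι (fun M A R v => ∃ x, S M A R (update v i x)) :=
  ((h.not.all hI i).not).congr (fun _ _ _ _ _ => by simp only [not_forall, not_not])

end UI

namespace Interp

theorem tm (hI : Interp K ι) (t : Tm) : ∀ k, UI K ι (fun _ A _ v => v k = t.val A v) := by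
  induction t with
  | var i =>
    intro k
    exact UI.of_UC (UC.eq k i) (fun M A R v hK => (hI.inj M A R hK).eq_iff)
  | zero =>
    intro k
    exact UI.of_UC (hI.zero.ren (fun _ => k)) (fun M A R v hK => (hI.inj M A R hK).eq_iff)
  | succ t ih =>
    intro k
    obtain ⟨N, hN⟩ := t.exists_bound
    obtain ⟨m, hm⟩ : ∃ m, m = max N k + 1 := ⟨_, rfl⟩
    have hs : UI K ι (fun _ A _ v => v k = A.succ (v m)) :=
      UI.of_UC (hI.succ.ren (fun i => if i = 0 then m else k)) (fun M A R v hK => by
        simp only [comp_apply, if_true, one_ne_zero, if_false]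
        constructor
        · rintro ⟨x, hx, hy⟩
          rw [(hI.inj M A R hK) hx, (hI.inj M A R hK) hy]
        · intro h; exact ⟨_, rfl, by rw [h]⟩)
    refine ((ih m).and hs).ex hI m |>.congr fun M A R v hK => ?_
    have hval : ∀ x, t.val A (update v m x) = t.val A v := fun x =>
      t.val_congr A _ _ fun j hj => update_of_ne (by have := hN j hj; omega) _ _
    have h2 : ∀ x : M, update v m x k = v k := fun x => update_of_ne (by omega) _ _
    simp only [update_self, hval, Tm.val, h2]
    simp
  | add s t ih₁ ih₂ =>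
    intro k
    obtain ⟨N₁, hN₁⟩ := s.exists_bound
    obtain ⟨N₂, hN₂⟩ := t.exists_bound
    obtain ⟨m, hm⟩ : ∃ m, m = max (max N₁ N₂) k + 1 := ⟨_, rfl⟩
    have hs : UI K ι (fun _ A _ v => v k = A.add (v m) (v (m + 1))) :=
      UI.of_UC (hI.add.ren (fun i => if i = 0 then m else if i = 1 then m + 1 else k))
        (fun M A R v hK => by
        simp only [comp_apply, if_true, one_ne_zero, if_false, OfNat.ofNat_ne_zero,
          OfNat.ofNat_ne_one]
        constructor
        · rintro ⟨x, y, hx, hy, hz⟩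
          rw [(hI.inj M A R hK) hx, (hI.inj M A R hK) hy, (hI.inj M A R hK) hz]
        · intro h; exact ⟨_, _, rfl, rfl, by rw [h]⟩)
    refine (((ih₁ m).and (ih₂ (m + 1))).and hs).ex hI (m + 1) |>.ex hI m |>.congr
      fun M A R v hK => ?_
    have hval : ∀ x y, s.val A (update (update v m x) (m + 1) y) = s.val A v := fun x y =>
      s.val_congr A _ _ fun j hj => by
        have := hN₁ j hj
        rw [update_of_ne (by omega), update_of_ne (by omega)]
    have hval' : ∀ x y, t.val A (update (update v m x) (m + 1) y) = t.val A v := fun x y =>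
      t.val_congr A _ _ fun j hj => by
        have := hN₂ j hj
        rw [update_of_ne (by omega), update_of_ne (by omega)]
    simp only [hval, hval', Tm.val, update_self]
    have h1 : ∀ x y : M, update (update v m x) (m + 1) y m = x := fun x y => by
      rw [update_of_ne (by omega), update_self]
    have h2 : ∀ x y : M, update (update v m x) (m + 1) y k = v k := fun x y => by
      rw [update_of_ne (by omega), update_of_ne (by omega)]
    simp only [h1, h2]
    constructor
    · rintro ⟨x, y, ⟨rfl, rfl⟩, h⟩; exact h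
    · intro h; exact ⟨_, _, ⟨rfl, rfl⟩, h⟩
  | mul s t ih₁ ih₂ =>
    intro k
    obtain ⟨N₁, hN₁⟩ := s.exists_bound
    obtain ⟨N₂, hN₂⟩ := t.exists_bound
    obtain ⟨m, hm⟩ : ∃ m, m = max (max N₁ N₂) k + 1 := ⟨_, rfl⟩
    have hs : UI K ι (fun _ A _ v => v k = A.mul (v m) (v (m + 1))) :=
      UI.of_UC (hI.mul.ren (fun i => if i = 0 then m else if i = 1 then m + 1 else k))
        (fun M A R v hK => by
        simp only [comp_apply, if_true, one_ne_zero, if_false, OfNat.ofNat_ne_zero,
          OfNat.ofNat_ne_one]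
        constructor
        · rintro ⟨x, y, hx, hy, hz⟩
          rw [(hI.inj M A R hK) hx, (hI.inj M A R hK) hy, (hI.inj M A R hK) hz]
        · intro h; exact ⟨_, _, rfl, rfl, by rw [h]⟩)
    refine (((ih₁ m).and (ih₂ (m + 1))).and hs).ex hI (m + 1) |>.ex hI m |>.congr
      fun M A R v hK => ?_
    have hval : ∀ x y, s.val A (update (update v m x) (m + 1) y) = s.val A v := fun x y =>
      s.val_congr A _ _ fun j hj => by
        have := hN₁ j hj
        rw [update_of_ne (by omega), update_of_ne (by omega)]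
    have hval' : ∀ x y, t.val A (update (update v m x) (m + 1) y) = t.val A v := fun x y =>
      t.val_congr A _ _ fun j hj => by
        have := hN₂ j hj
        rw [update_of_ne (by omega), update_of_ne (by omega)]
    simp only [hval, hval', Tm.val, update_self]
    have h1 : ∀ x y : M, update (update v m x) (m + 1) y m = x := fun x y => by
      rw [update_of_ne (by omega), update_self]
    have h2 : ∀ x y : M, update (update v m x) (m + 1) y k = v k := fun x y => by
      rw [update_of_ne (by omega), update_of_ne (by omega)]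
    simp only [h1, h2]
    constructor
    · rintro ⟨x, y, ⟨rfl, rfl⟩, h⟩; exact h
    · intro h; exact ⟨_, _, ⟨rfl, rfl⟩, h⟩

/-- Every `L_A`-formula is definable on the image of `ι`. -/
theorem fml (hI : Interp K ι) (φ : AFml) : UI K ι (fun _ A _ v => satA A φ v) := by
  induction φ with
  | atom a =>
    obtain ⟨N₁, hN₁⟩ := a.1.exists_bound
    obtain ⟨N₂, hN₂⟩ := a.2.exists_bound
    obtain ⟨m, hm⟩ : ∃ m, m = max N₁ N₂ + 1 := ⟨_, rfl⟩
    refine ((hI.tm a.1 m).and (hI.tm a.2 m)).ex hI m |>.congr fun M A R v hK => ?_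
    have hval : ∀ x, a.1.val A (update v m x) = a.1.val A v := fun x =>
      a.1.val_congr A _ _ fun j hj => update_of_ne (by have := hN₁ j hj; omega) _ _
    have hval' : ∀ x, a.2.val A (update v m x) = a.2.val A v := fun x =>
      a.2.val_congr A _ _ fun j hj => update_of_ne (by have := hN₂ j hj; omega) _ _
    simp only [update_self, hval, hval']
    constructor
    · rintro ⟨x, h1, h2⟩; exact h1.symm.trans h2
    · intro h; exact ⟨_, rfl, h⟩
  | bot => exact UI.false
  | imp φ ψ ih₁ ih₂ => exact (ih₁.imp ih₂)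
  | all i φ ih => exact ih.all hI i

end Interp

end H97.PAS
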