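import Pool.Agent.Helper97.PAS.Base

/-!
# Syntax lemmas
-/

namespace H97.PAS

open Function

/-! ### Derived connectives -/

namespace Fml

variable {α : Type}

/-- negation -/
def neg (φ : Fml α) : Fml α := .imp φ .bot
/-- conjunction -/
def and (φ ψ : Fml α) : Fml α := neg (.imp φ (neg ψ))
/-- disjunction -/
def or (φ ψ : Fml α) : Fml α := .imp (neg φ) ψ
/-- equivalence -/
def iff (φ ψ : Fml α) : Fml α := and (.imp φ ψ) (.imp ψ φ)
/-- existential quantifier -/
def ex (i : ℕ) (φ : Fml α) : Fml α := neg (.all i (neg φ))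

variable {M : Type} {I : α → (ℕ → M) → Prop} {occ : α → ℕ → Prop}

@[simp] theorem sat_atom (a : α) (v : ℕ → M) : (Fml.atom a).Sat I v ↔ I a v := Iff.rfl
@[simp] theorem sat_bot (v : ℕ → M) : (Fml.bot : Fml α).Sat I v ↔ False := Iff.rfl
@[simp] theorem sat_imp (φ ψ : Fml α) (v : ℕ → M) :
    (Fml.imp φ ψ).Sat I v ↔ (φ.Sat I v → ψ.Sat I v) := Iff.rfl
@[simp] theorem sat_all (i : ℕ) (φ : Fml α) (v : ℕ → M) :
    (Fml.all i φ).Sat I v ↔ ∀ x, φ.Sat I (update v i x) := Iff.rfl
@[simp] theorem sat_neg (φ : Fml α) (v : ℕ → M) : (neg φ).Sat I v ↔ ¬ φ.Sat I v := Iff.rfl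
@[simp] theorem sat_and (φ ψ : Fml α) (v : ℕ → M) :
    (and φ ψ).Sat I v ↔ (φ.Sat I v ∧ ψ.Sat I v) := by
  unfold and; simp only [sat_neg, sat_imp]; tauto
@[simp] theorem sat_or (φ ψ : Fml α) (v : ℕ → M) :
    (or φ ψ).Sat I v ↔ (φ.Sat I v ∨ ψ.Sat I v) := by
  unfold or; simp only [sat_neg, sat_imp]; tauto
@[simp] theorem sat_iff (φ ψ : Fml α) (v : ℕ → M) :
    (iff φ ψ).Sat I v ↔ (φ.Sat I v ↔ ψ.Sat I v) := by
  unfold iff; simp only [sat_and, sat_imp]; tauto
@[simp] theorem sat_ex (i : ℕ) (φ : Fml α) (v : ℕ → M) :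
    (ex i φ).Sat I v ↔ ∃ x, φ.Sat I (update v i x) := by
  unfold ex; simp only [sat_neg, sat_all, not_forall, not_not]

@[simp] theorem free_atom (a : α) (k : ℕ) : (Fml.atom a).Free occ k ↔ occ a k := Iff.rfl
@[simp] theorem free_bot (k : ℕ) : (Fml.bot : Fml α).Free occ k ↔ False := Iff.rfl
@[simp] theorem free_imp (φ ψ : Fml α) (k : ℕ) :
    (Fml.imp φ ψ).Free occ k ↔ (φ.Free occ k ∨ ψ.Free occ k) := Iff.rfl
@[simp] theorem free_all (i : ℕ) (φ : Fml α) (k : ℕ) :
    (Fml.all i φ).Free occ k ↔ k ≠ i ∧ φ.Free occ k := Iff.rfl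
@[simp] theorem free_neg (φ : Fml α) (k : ℕ) : (neg φ).Free occ k ↔ φ.Free occ k := by
  simp [neg]
@[simp] theorem free_and (φ ψ : Fml α) (k : ℕ) :
    (and φ ψ).Free occ k ↔ (φ.Free occ k ∨ ψ.Free occ k) := by simp [and]
@[simp] theorem free_or (φ ψ : Fml α) (k : ℕ) :
    (or φ ψ).Free occ k ↔ (φ.Free occ k ∨ ψ.Free occ k) := by simp [or]
@[simp] theorem free_iff (φ ψ : Fml α) (k : ℕ) :
    (iff φ ψ).Free occ k ↔ (φ.Free occ k ∨ ψ.Free occ k) := by simp [iff]; tauto
@[simp] theorem free_ex (i : ℕ) (φ : Fml α) (k : ℕ) :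
    (ex i φ).Free occ k ↔ k ≠ i ∧ φ.Free occ k := by simp [ex]

/-- Satisfaction depends only on the free variables. -/
theorem sat_congr (hI : ∀ a v w, (∀ k, occ a k → v k = w k) → (I a v ↔ I a w)) (φ : Fml α) :
    ∀ v w : ℕ → M, (∀ k, φ.Free occ k → v k = w k) → (φ.Sat I v ↔ φ.Sat I w) := by
  induction φ with
  | atom a => intro v w h; exact hI a v w h
  | bot => intro v w _; exact Iff.rfl
  | imp φ ψ ih₁ ih₂ =>
    intro v w h
    have h1 := ih₁ v w (fun k hk => h k (Or.inl hk))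
    have h2 := ih₂ v w (fun k hk => h k (Or.inr hk))
    simp only [sat_imp, h1, h2]
  | all i φ ih =>
    intro v w h
    simp only [sat_all]
    refine forall_congr' fun x => ih _ _ fun k hk => ?_
    by_cases hki : k = i
    · subst hki; simp
    · rw [update_of_ne hki, update_of_ne hki]; exact h k ⟨hki, hk⟩

/-- A formula has finitely many free variables. -/
theorem exists_bound (hb : ∀ a, ∃ N, ∀ k, occ a k → k < N) (φ : Fml α) :
    ∃ N, ∀ k, φ.Free occ k → k < N := by
  induction φ with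
  | atom a => exact hb a
  | bot => exact ⟨0, fun k hk => absurd hk id⟩
  | imp φ ψ ih₁ ih₂ =>
    obtain ⟨N₁, h₁⟩ := ih₁
    obtain ⟨N₂, h₂⟩ := ih₂
    exact ⟨max N₁ N₂, fun k hk => hk.elim (fun h => lt_of_lt_of_le (h₁ k h) (le_max_left _ _))
      (fun h => lt_of_lt_of_le (h₂ k h) (le_max_right _ _))⟩
  | all i φ ih =>
    obtain ⟨N, h⟩ := ih
    exact ⟨N, fun k hk => h k hk.2⟩

/-- `∀ v_m … ∀ v_{m+n-1} φ` -/
def closeFrom (m : ℕ) : ℕ → Fml α → Fml α
  | 0, φ => φ
  | n + 1, φ => closeFrom m n (.all (m + n) φ)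

theorem sat_closeFrom (m n : ℕ) : ∀ (φ : Fml α) (v : ℕ → M),
    (closeFrom m n φ).Sat I v ↔ ∀ w : ℕ → M, (∀ k, (k < m ∨ m + n ≤ k) → w k = v k) → φ.Sat I w := by
  induction n with
  | zero =>
    intro φ v
    constructor
    · intro h w hw
      have : w = v := funext fun k => hw k (by omega)
      rw [this]; exact h
    · intro h; exact h v (fun _ _ => rfl)
  | succ n ih =>
    intro φ v
    rw [closeFrom, ih]
    constructor
    · intro h w hw
      have := h (update w (m + n) (v (m + n))) (fun k hk => by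
        by_cases hk' : k = m + n
        · subst hk'; simp
        · rw [update_of_ne hk']; exact hw k (by omega)) (w (m + n))
      rwa [update_idem, update_eq_self] at this
    · intro h w hw x
      exact h _ (fun k hk => by
        rw [update_of_ne (by omega)]; exact hw k (by omega))

theorem free_closeFrom (m n : ℕ) : ∀ (φ : Fml α) (k : ℕ),
    (closeFrom m n φ).Free occ k ↔ (k < m ∨ m + n ≤ k) ∧ φ.Free occ k := by
  induction n with
  | zero =>
    intro φ k
    simp only [closeFrom, Nat.add_zero]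
    constructor
    · intro h; exact ⟨by omega, h⟩
    · intro h; exact h.2
  | succ n ih =>
    intro φ k
    rw [closeFrom, ih]
    simp only [free_all]
    constructor
    · rintro ⟨h1, h2, h3⟩; exact ⟨by omega, h3⟩
    · rintro ⟨h1, h3⟩; exact ⟨by omega, by omega, h3⟩

end Fml

/-! ### `L`-formulas -/

theorem LStr.atom_congr {M : Type} (R : LStr M) (a : ℕ × ℕ × ℕ) (v w : ℕ → M)
    (h : ∀ k, (k = a.2.1 ∨ k = a.2.2) → v k = w k) : R.atom a v ↔ R.atom a w := by
  obtain ⟨n, i, j⟩ := a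
  have hi := h i (Or.inl rfl)
  have hj := h j (Or.inr rfl)
  cases n with
  | zero => simp only [LStr.atom, hi, hj]
  | succ n => simp only [LStr.atom, hi, hj]

theorem satL_congr {M : Type} (R : LStr M) (φ : LFml) {v w : ℕ → M}
    (h : ∀ k, freeL φ k → v k = w k) : satL R φ v ↔ satL R φ w :=
  Fml.sat_congr (fun a v w h => R.atom_congr a v w h) φ v w h

theorem Tm.val_congr {M : Type} (A : AStr M) (t : Tm) (v w : ℕ → M)
    (h : ∀ k, t.Occ k → v k = w k) : t.val A v = t.val A w := by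
  induction t with
  | var i => exact h i rfl
  | zero => rfl
  | succ t ih => simp only [Tm.val]; rw [ih h]
  | add s t ih₁ ih₂ =>
    simp only [Tm.val]; rw [ih₁ (fun k hk => h k (Or.inl hk)), ih₂ (fun k hk => h k (Or.inr hk))]
  | mul s t ih₁ ih₂ =>
    simp only [Tm.val]; rw [ih₁ (fun k hk => h k (Or.inl hk)), ih₂ (fun k hk => h k (Or.inr hk))]

theorem satA_congr {M : Type} (A : AStr M) (φ : AFml) {v w : ℕ → M}
    (h : ∀ k, freeA φ k → v k = w k) : satA A φ v ↔ satA A φ w :=
  Fml.sat_congr (fun a v w h => by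
    rw [a.1.val_congr A v w (fun k hk => h k (Or.inl hk)),
      a.2.val_congr A v w (fun k hk => h k (Or.inr hk))]) φ v w h

theorem Tm.exists_bound (t : Tm) : ∃ N, ∀ k, t.Occ k → k < N := by
  induction t with
  | var i => exact ⟨i + 1, fun k hk => by simp only [Tm.Occ] at hk; omega⟩
  | zero => exact ⟨0, fun k hk => absurd hk id⟩
  | succ t ih => exact ih
  | add s t ih₁ ih₂ | mul s t ih₁ ih₂ =>
    obtain ⟨N₁, h₁⟩ := ih₁
    obtain ⟨N₂, h₂⟩ := ih₂
    exact ⟨max N₁ N₂, fun k hk => hk.elim (fun h => lt_of_lt_of_le (h₁ k h) (le_max_left _ _))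
      (fun h => lt_of_lt_of_le (h₂ k h) (le_max_right _ _))⟩

theorem exists_boundL (φ : LFml) : ∃ N, ∀ k, freeL φ k → k < N :=
  Fml.exists_bound (fun a => ⟨max a.2.1 a.2.2 + 1, fun k hk => by
    rcases hk with hk | hk <;> omega⟩) φ

theorem exists_boundA (φ : AFml) : ∃ N, ∀ k, freeA φ k → k < N :=
  Fml.exists_bound (fun a => by
    obtain ⟨N₁, h₁⟩ := a.1.exists_bound
    obtain ⟨N₂, h₂⟩ := a.2.exists_bound
    exact ⟨max N₁ N₂, fun k hk => hk.elim (fun h => lt_of_lt_of_le (h₁ k h) (le_max_left _ _))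
      (fun h => lt_of_lt_of_le (h₂ k h) (le_max_right _ _))⟩) φ

theorem freeL_lt_code (φ : LFml) : ∀ k, freeL φ k → k < code φ := by
  induction φ with
  | atom a =>
    intro k hk
    obtain ⟨n, i, j⟩ := a
    simp only [code]
    have h1 : i ≤ Nat.pair i j := Nat.left_le_pair i j
    have h2 : j ≤ Nat.pair i j := Nat.right_le_pair i j
    have h3 : Nat.pair i j ≤ Nat.pair n (Nat.pair i j) := Nat.right_le_pair _ _
    have hk' : k = i ∨ k = j := hk
    omega
  | bot => intro k hk; exact absurd hk id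
  | imp φ ψ ih₁ ih₂ =>
    intro k hk
    have h1 : code φ ≤ Nat.pair (code φ) (code ψ) := Nat.left_le_pair _ _
    have h2 : code ψ ≤ Nat.pair (code φ) (code ψ) := Nat.right_le_pair _ _
    simp only [code]
    rcases hk with hk | hk
    · have := ih₁ k hk; omega
    · have := ih₂ k hk; omega
  | all i φ ih =>
    intro k hk
    have h2 : code φ ≤ Nat.pair i (code φ) := Nat.right_le_pair _ _
    simp only [code]
    have := ih k hk.2
    omega

theorem code_injective : Injective code := by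
  intro φ
  induction φ with
  | atom a =>
    intro ψ h
    cases ψ with
    | atom b =>
      obtain ⟨n, i, j⟩ := a
      obtain ⟨n', i', j'⟩ := b
      simp only [code] at h
      have h' : Nat.pair n (Nat.pair i j) = Nat.pair n' (Nat.pair i' j') := by omega
      rw [Nat.pair_eq_pair, Nat.pair_eq_pair] at h'
      obtain ⟨rfl, rfl, rfl⟩ := h'
      rfl
    | bot => simp only [code] at h; omega
    | imp _ _ => simp only [code] at h; omega
    | all _ _ => simp only [code] at h; omega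
  | bot =>
    intro ψ h
    cases ψ with
    | atom b => simp only [code] at h; omega
    | bot => rfl
    | imp _ _ => simp only [code] at h; omega
    | all _ _ => simp only [code] at h; omega
  | imp φ ψ ih₁ ih₂ =>
    intro χ h
    cases χ with
    | atom b => simp only [code] at h; omega
    | bot => simp only [code] at h; omega
    | imp φ' ψ' =>
      simp only [code] at h
      have h' : Nat.pair (code φ) (code ψ) = Nat.pair (code φ') (code ψ') := by omega
      rw [Nat.pair_eq_pair] at h'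
      rw [ih₁ h'.1, ih₂ h'.2]
    | all _ _ => simp only [code] at h; omega
  | all i φ ih =>
    intro χ h
    cases χ with
    | atom b => simp only [code] at h; omega
    | bot => simp only [code] at h; omega
    | imp _ _ => simp only [code] at h; omega
    | all j φ' =>
      simp only [code] at h
      have h' : Nat.pair i (code φ) = Nat.pair j (code φ') := by omega
      rw [Nat.pair_eq_pair] at h'
      rw [h'.1, ih h'.2]

theorem code_surjective : Surjective code := by
  intro n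
  induction n using Nat.strong_induction_on with
  | _ n ih =>
    by_cases h0 : n = 0
    · exact ⟨.bot, h0.symm⟩
    obtain ⟨m, hm⟩ : ∃ m, m = (n - 1) / 3 := ⟨_, rfl⟩
    have hu := Nat.pair_unpair m
    have hl : m.unpair.1 ≤ m := Nat.unpair_left_le m
    have hr : m.unpair.2 ≤ m := Nat.unpair_right_le m
    rcases (by omega : n = 3 * m + 1 ∨ n = 3 * m + 2 ∨ n = 3 * m + 3) with h | h | h
    · refine ⟨.atom (m.unpair.1, m.unpair.2.unpair.1, m.unpair.2.unpair.2), ?_⟩
      simp only [code, Nat.pair_unpair]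
      exact h.symm
    · obtain ⟨φ, hφ⟩ := ih m.unpair.1 (by omega)
      obtain ⟨ψ, hψ⟩ := ih m.unpair.2 (by omega)
      refine ⟨.imp φ ψ, ?_⟩
      simp only [code, hφ, hψ, Nat.pair_unpair]
      exact h.symm
    · obtain ⟨φ, hφ⟩ := ih m.unpair.2 (by omega)
      refine ⟨.all m.unpair.1 φ, ?_⟩
      simp only [code, hφ, Nat.pair_unpair]
      exact h.symm

/-! ### Uniformly definable predicates -/

/-- Renaming of variables in a term. -/
def Tm.ren (f : ℕ → ℕ) : Tm → Tm
  | .var i => .var (f i)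
  | .zero => .zero
  | .succ t => .succ (t.ren f)
  | .add s t => .add (s.ren f) (t.ren f)
  | .mul s t => .mul (s.ren f) (t.ren f)

theorem Tm.val_ren {M : Type} (A : AStr M) (f : ℕ → ℕ) (v : ℕ → M) (t : Tm) :
    (t.ren f).val A v = t.val A (v ∘ f) := by
  induction t with
  | var i => rfl
  | zero => rfl
  | succ t ih => simp only [Tm.ren, Tm.val, ih]
  | add s t ih₁ ih₂ => simp only [Tm.ren, Tm.val, ih₁, ih₂]
  | mul s t ih₁ ih₂ => simp only [Tm.ren, Tm.val, ih₁, ih₂]

/-- Renaming for `L`-formulas. -/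
theorem renL (φ : LFml) : ∀ f : ℕ → ℕ, ∃ φ' : LFml, ∀ (M : Type) (R : LStr M) (v : ℕ → M),
    satL R φ' v ↔ satL R φ (v ∘ f) := by
  induction φ with
  | atom a =>
    intro f
    refine ⟨.atom (a.1, f a.2.1, f a.2.2), fun M R v => ?_⟩
    obtain ⟨n, i, j⟩ := a
    cases n <;> exact Iff.rfl
  | bot => intro f; exact ⟨.bot, fun M R v => Iff.rfl⟩
  | imp φ ψ ih₁ ih₂ =>
    intro f
    obtain ⟨φ', h₁⟩ := ih₁ f
    obtain ⟨ψ', h₂⟩ := ih₂ f
    refine ⟨.imp φ' ψ', fun M R v => ?_⟩
    have h1 := h₁ M R v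
    have h2 := h₂ M R v
    unfold satL at *
    simp only [Fml.sat_imp, h1, h2]
  | all i φ ih =>
    intro f
    obtain ⟨N, hN⟩ := exists_boundL φ
    obtain ⟨m, hm⟩ : ∃ m, ∀ k < N, f k < m :=
      ⟨(Finset.range N).sup f + 1, fun k hk =>
        Nat.lt_succ_of_le (Finset.le_sup (f := f) (Finset.mem_range.2 hk))⟩
    obtain ⟨φ', h⟩ := ih (update f i m)
    refine ⟨.all m φ', fun M R v => ?_⟩
    have h1 : satL R (.all m φ') v ↔ ∀ x, satL R φ' (update v m x) := Iff.rfl
    have h2 : satL R (.all i φ) (v ∘ f) ↔ ∀ x, satL R φ (update (v ∘ f) i x) := Iff.rfl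
    rw [h1, h2]
    refine forall_congr' fun x => ?_
    rw [h]
    refine satL_congr R φ fun k hk => ?_
    by_cases hki : k = i
    · subst hki; simp
    · rw [update_of_ne hki, comp_apply, update_of_ne hki, comp_apply,
        update_of_ne (hm k (hN k hk)).ne]

/-- Renaming for `L_A`-formulas. -/
theorem renA (φ : AFml) : ∀ f : ℕ → ℕ, ∃ φ' : AFml, ∀ (M : Type) (A : AStr M) (v : ℕ → M),
    satA A φ' v ↔ satA A φ (v ∘ f) := by
  induction φ with
  | atom a =>
    intro f
    refine ⟨.atom (a.1.ren f, a.2.ren f), fun M R v => ?_⟩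
    unfold satA
    simp only [Fml.sat_atom, Tm.val_ren]
  | bot => intro f; exact ⟨.bot, fun M R v => Iff.rfl⟩
  | imp φ ψ ih₁ ih₂ =>
    intro f
    obtain ⟨φ', h₁⟩ := ih₁ f
    obtain ⟨ψ', h₂⟩ := ih₂ f
    refine ⟨.imp φ' ψ', fun M R v => ?_⟩
    have h1 := h₁ M R v
    have h2 := h₂ M R v
    unfold satA at *
    simp only [Fml.sat_imp, h1, h2]
  | all i φ ih =>
    intro f
    obtain ⟨N, hN⟩ := exists_boundA φ
    obtain ⟨m, hm⟩ : ∃ m, ∀ k < N, f k < m :=
      ⟨(Finset.range N).sup f + 1, fun k hk =>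
        Nat.lt_succ_of_le (Finset.le_sup (f := f) (Finset.mem_range.2 hk))⟩
    obtain ⟨φ', h⟩ := ih (update f i m)
    refine ⟨.all m φ', fun M R v => ?_⟩
    have h1 : satA R (.all m φ') v ↔ ∀ x, satA R φ' (update v m x) := Iff.rfl
    have h2 : satA R (.all i φ) (v ∘ f) ↔ ∀ x, satA R φ (update (v ∘ f) i x) := Iff.rfl
    rw [h1, h2]
    refine forall_congr' fun x => ?_
    rw [h]
    refine satA_congr R φ fun k hk => ?_
    by_cases hki : k = i
    · subst hki; simp
    · rw [update_of_ne hki, comp_apply, update_of_ne hki, comp_apply,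
        update_of_ne (hm k (hN k hk)).ne]

/-- `S` is definable by an `L`-formula, uniformly in all `(M, A, R)` in the class `K`. -/
def UC (K : ∀ M : Type, AStr M → LStr M → Prop)
    (S : ∀ M : Type, AStr M → LStr M → (ℕ → M) → Prop) : Prop :=
  ∃ φ : LFml, ∀ (M : Type) (A : AStr M) (R : LStr M), K M A R → ∀ v, satL R φ v ↔ S M A R v

namespace UC

variable {K : ∀ M : Type, AStr M → LStr M → Prop}
  {S T : ∀ M : Type, AStr M → LStr M → (ℕ → M) → Prop}

theorem congr (h : UC K S) (hST : ∀ M A R v, K M A R → (S M A R v ↔ T M A R v)) : UC K T := by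
  obtain ⟨φ, hφ⟩ := h
  exact ⟨φ, fun M A R hK v => (hφ M A R hK v).trans (hST M A R v hK)⟩

theorem eq (i j : ℕ) : UC K (fun _ _ _ v => v i = v j) := ⟨.atom (0, i, j), fun _ _ _ _ _ => Iff.rfl⟩

theorem rel (n i j : ℕ) : UC K (fun _ _ R v => R n (v i) (v j)) :=
  ⟨.atom (n + 1, i, j), fun _ _ _ _ _ => Iff.rfl⟩

theorem false : UC K (fun _ _ _ _ => False) := ⟨.bot, fun _ _ _ _ _ => Iff.rfl⟩

theorem imp (h : UC K S) (h' : UC K T) : UC K (fun M A R v => S M A R v → T M A R v) := by
  obtain ⟨φ, hφ⟩ := h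
  obtain ⟨ψ, hψ⟩ := h'
  exact ⟨.imp φ ψ, fun M A R hK v => imp_congr (hφ M A R hK v) (hψ M A R hK v)⟩

theorem not (h : UC K S) : UC K (fun M A R v => ¬ S M A R v) := h.imp false

theorem true : UC K (fun _ _ _ _ => True) := (false.imp false).congr (fun _ _ _ _ _ => by simp)

theorem and (h : UC K S) (h' : UC K T) : UC K (fun M A R v => S M A R v ∧ T M A R v) :=
  ((h.imp h'.not).not).congr (fun _ _ _ _ _ => by tauto)

theorem or (h : UC K S) (h' : UC K T) : UC K (fun M A R v => S M A R v ∨ T M A R v) :=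
  (h.not.imp h').congr (fun _ _ _ _ _ => by tauto)

theorem iff (h : UC K S) (h' : UC K T) : UC K (fun M A R v => S M A R v ↔ T M A R v) :=
  ((h.imp h').and (h'.imp h)).congr (fun _ _ _ _ _ => by tauto)

theorem all (i : ℕ) (h : UC K S) : UC K (fun M A R v => ∀ x, S M A R (update v i x)) := by
  obtain ⟨φ, hφ⟩ := h
  exact ⟨.all i φ, fun M A R hK v => forall_congr' fun x => hφ M A R hK _⟩

theorem ex (i : ℕ) (h : UC K S) : UC K (fun M A R v => ∃ x, S M A R (update v i x)) :=
  ((h.not.all i).not).congr (fun _ _ _ _ _ => by simp only [not_forall, not_not])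

theorem ren (f : ℕ → ℕ) (h : UC K S) : UC K (fun M A R v => S M A R (v ∘ f)) := by
  obtain ⟨φ, hφ⟩ := h
  obtain ⟨φ', hφ'⟩ := renL φ f
  exact ⟨φ', fun M A R hK v => (hφ' M R v).trans (hφ M A R hK _)⟩

theorem mono {K' : ∀ M : Type, AStr M → LStr M → Prop} (h : UC K S)
    (hK : ∀ M A R, K' M A R → K M A R) : UC K' S := by
  obtain ⟨φ, hφ⟩ := h
  exact ⟨φ, fun M A R hK' v => hφ M A R (hK M A R hK') v⟩

/-- The formula can be chosen with free variables `< m` if the predicate depends only on the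
values of these variables. -/
theorem exists_free (m : ℕ) (h : UC K S)
    (hS : ∀ M A R v w, K M A R → (∀ k < m, v k = w k) → (S M A R v ↔ S M A R w)) :
    ∃ φ : LFml, (∀ k, freeL φ k → k < m) ∧
      ∀ (M : Type) (A : AStr M) (R : LStr M), K M A R → ∀ v, satL R φ v ↔ S M A R v := by
  obtain ⟨φ, hφ⟩ := h
  obtain ⟨N, hN⟩ := exists_boundL φ
  refine ⟨φ.closeFrom m N, fun k hk => ?_, fun M A R hK v => ?_⟩
  · have := (Fml.free_closeFrom m N φ k).1 hk
    have h2 := hN k this.2
    omega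
  · have h1 := Fml.sat_closeFrom (I := R.atom) m N φ v
    change (Fml.closeFrom m N φ).Sat R.atom v ↔ _
    rw [h1]
    constructor
    · intro h
      exact (hφ M A R hK v).1 (h v (fun _ _ => rfl))
    · intro h w hw
      refine (hφ M A R hK w).2 ((hS M A R w v hK fun k hk => hw k (Or.inl hk)).2 h)

end UC

end H97.PAS
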