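import Pool.Agent.Helper97.PAS.Gamma

/-!
# The theory `T` and the definitional equivalence
-/

set_option linter.unusedSimpArgs false

namespace H97.PAS

open Function

/-! ### Satisfaction lemmas in `satL`/`satA` form -/

section
variable {M : Type} (R : LStr M) (A : AStr M) (φ ψ : LFml) (α β : AFml) (v : ℕ → M)

theorem satL_imp : satL R (.imp φ ψ) v ↔ (satL R φ v → satL R ψ v) := Iff.rfl
theorem satL_all (i : ℕ) : satL R (.all i φ) v ↔ ∀ x, satL R φ (update v i x) := Iff.rfl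
theorem satL_ex (i : ℕ) : satL R (.ex i φ) v ↔ ∃ x, satL R φ (update v i x) := Fml.sat_ex _ _ _
theorem satL_and : satL R (.and φ ψ) v ↔ (satL R φ v ∧ satL R ψ v) := Fml.sat_and _ _ _
theorem satL_iff : satL R (.iff φ ψ) v ↔ (satL R φ v ↔ satL R ψ v) := Fml.sat_iff _ _ _
theorem satL_neg : satL R (.neg φ) v ↔ ¬ satL R φ v := Iff.rfl
theorem satL_eq (i j : ℕ) : satL R (.atom (0, i, j)) v ↔ v i = v j := Iff.rfl
theorem satL_rel (n i j : ℕ) : satL R (.atom (n + 1, i, j)) v ↔ R n (v i) (v j) := Iff.rfl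
theorem satA_imp' : satA A (.imp α β) v ↔ (satA A α v → satA A β v) := Iff.rfl
theorem satA_all' (i : ℕ) : satA A (.all i α) v ↔ ∀ x, satA A α (update v i x) := Iff.rfl
theorem satA_eq' (s t : Tm) : satA A (.atom (s, t)) v ↔ s.val A v = t.val A v := Iff.rfl

end

/-! ### The definitions `Δ` -/

/-- The definitions of `R_0, …, R_4`. -/
theorem exists_dlt : ∃ d : ℕ → AFml, (∀ n k, freeA (d n) k → k < 2) ∧ ∀ n < 5,
    ∀ (M : Type) (A : AStr M) (v : ℕ → M), satA A (d n) v ↔ ∃ a b : El M, v 0 = A.enc a ∧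
      v 1 = A.enc b ∧ KRel A.F (fun _ => False) n a b := by
  have h : ∀ n : ℕ, ∃ φ : AFml, (∀ k, freeA φ k → k < 2) ∧ (n < 5 →
      ∀ (M : Type) (A : AStr M) (v : ℕ → M), satA A φ v ↔ ∃ a b : El M, v 0 = A.enc a ∧
      v 1 = A.enc b ∧ KRel A.F (fun _ => False) n a b) := by
    intro n
    by_cases hn : n < 5
    · obtain ⟨φ, h1, h2⟩ := (ua_krel n hn).exists_free 2 (fun M A v w hvw => by
        rw [hvw 0 (by omega), hvw 1 (by omega)])
      exact ⟨φ, h1, fun _ => h2⟩
    · exact ⟨.bot, fun k hk => absurd hk id, fun h => absurd h hn⟩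
  choose d hd using h
  exact ⟨d, fun n => (hd n).1, fun n hn => (hd n).2 hn⟩

/-- The definitions of `R_0, …, R_4`. -/
noncomputable def dlt : ℕ → AFml := exists_dlt.choose

theorem free_dlt : ∀ n k, freeA (dlt n) k → k < 2 := exists_dlt.choose_spec.1

theorem sat_dlt {n : ℕ} (hn : n < 5) {M : Type} (A : AStr M) (v : ℕ → M) :
    satA A (dlt n) v ↔ ∃ a b : El M, v 0 = A.enc a ∧ v 1 = A.enc b ∧
      KRel A.F (fun _ => False) n a b := exists_dlt.choose_spec.2 n hn M A v

/-- The pattern of a structure, for the formula `φ₀(v_0)`. -/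
def pat (φ₀ : AFml) {M : Type} (A : AStr M) (n : ℕ) : Prop := satA A φ₀ (fun _ => num A n)

/-- The definitions `Δ`. -/
noncomputable def Dl (φ₀ : AFml) : DDef := fun n =>
  if n < 5 then dlt n else .all 0 (.imp (.atom (.var 0, numTm (n - 5))) φ₀)

theorem wf_Dl {φ₀ : AFml} (hφ : ∀ k, freeA φ₀ k → k < 1) : DWf (Dl φ₀) := by
  intro n k hk
  by_cases hn : n < 5
  · rw [Dl, if_pos hn] at hk; exact free_dlt n k hk
  · rw [Dl, if_neg hn] at hk
    obtain ⟨h1, h2 | h2⟩ := hk
    · rcases h2 with h2 | h2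
      · exact absurd h2 h1
      · exact absurd h2 (not_occ_numTm _ _)
    · have := hφ k h2; omega

theorem sat_Dl_pat {φ₀ : AFml} (hφ : ∀ k, freeA φ₀ k → k < 1) {n : ℕ} {M : Type} (A : AStr M)
    (v : ℕ → M) : satA A (Dl φ₀ (n + 5)) v ↔ pat φ₀ A n := by
  rw [Dl, if_neg (by omega), Nat.add_sub_cancel, satA_all']
  have : ∀ x, satA A φ₀ (update v 0 x) ↔ satA A φ₀ (fun _ => x) := fun x =>
    satA_congr A φ₀ fun k hk => by
      have := hφ k hk
      obtain rfl : k = 0 := by omega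
      simp
  simp only [satA_imp', satA_eq', val_numTm, this, pat]
  simp only [Tm.val, update_self]
  constructor
  · intro h; exact h _ rfl
  · rintro h x rfl; exact h

theorem krel_congr {M : Type} (F : M → M → M → M) (p q : ℕ → Prop) {n : ℕ} (hn : n < 5)
    (a b : El M) : KRel F p n a b ↔ KRel F q n a b := by
  interval_cases n <;> cases a <;> cases b <;> exact Iff.rfl

theorem DHolds_iff {φ₀ : AFml} (hφ : ∀ k, freeA φ₀ k → k < 1) {M : Type} {A : AStr M}
    {R : LStr M} (hA : IsPA A) : DHolds (Dl φ₀) A R ↔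
      ∀ k a b, R k (A.enc a) (A.enc b) ↔ KRel A.F (pat φ₀ A) k a b := by
  have hb := enc_bijective hA
  constructor
  · intro h k a b
    have := h k (fun i => if i = 0 then A.enc a else A.enc b)
    simp only [if_true, one_ne_zero, if_false] at this
    rw [this]
    by_cases hk : k < 5
    · rw [Dl, if_pos hk, sat_dlt hk]
      simp only [if_true, one_ne_zero, if_false]
      rw [krel_congr A.F (pat φ₀ A) (fun _ => False) hk]
      constructor
      · rintro ⟨a', b', ha, hb', h⟩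
        rwa [hb.1 ha, hb.1 hb']
      · intro h; exact ⟨a, b, rfl, rfl, h⟩
    · obtain ⟨n, rfl⟩ : ∃ n, k = n + 5 := ⟨k - 5, by omega⟩
      rw [sat_Dl_pat hφ]
      cases a <;> cases b <;> exact Iff.rfl
  · intro h n v
    obtain ⟨a, ha⟩ := hb.2 (v 0)
    obtain ⟨b, hb'⟩ := hb.2 (v 1)
    rw [← ha, ← hb', h]
    by_cases hk : n < 5
    · rw [Dl, if_pos hk, sat_dlt hk, krel_congr A.F (pat φ₀ A) (fun _ => False) hk, ← ha, ← hb']
      constructor
      · intro h; exact ⟨a, b, rfl, rfl, h⟩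
      · rintro ⟨a', b', ha, hb', h⟩
        rwa [hb.1 ha, hb.1 hb']
    · obtain ⟨m, rfl⟩ : ∃ m, n = m + 5 := ⟨n - 5, by omega⟩
      rw [sat_Dl_pat hφ]
      cases a <;> cases b <;> exact Iff.rfl

/-! ### The definitions `Γ` -/

/-- The definitions `Γ`. -/
noncomputable def Gm : GDef := exists_gamma.choose

theorem wf_Gm : Gm.Wf := exists_gamma.choose_spec.1

theorem Gm_holds {M : Type} {A : AStr M} {R : LStr M} (h : KCtx M A R) : Gm.Holds R A :=
  exists_gamma.choose_spec.2 M A R h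

/-- The class of structures in which `Γ` holds. -/
def GCtx (M : Type) (A : AStr M) (R : LStr M) : Prop := Gm.Holds R A

theorem interpG : Interp GCtx (fun _ _ _ x => x) where
  inj := fun _ _ _ _ _ _ h => h
  dom := UC.true.congr fun _ _ _ _ _ => by simp
  zero := ⟨Gm.zero, fun M A R h v => h.1 v⟩
  succ := ⟨Gm.succ, fun M A R h v => by rw [h.2.1 v]; simp⟩
  add := ⟨Gm.add, fun M A R h v => by rw [h.2.2.1 v]; simp⟩
  mul := ⟨Gm.mul, fun M A R h v => by rw [h.2.2.2 v]; simp⟩

/-- Translation of `L_A`-formulas. -/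
theorem uc_of_A (φ : AFml) : UC GCtx (fun _ A _ v => satA A φ v) := interpG.fml φ

/-- `Γ` determines the `L_A`-structure. -/
theorem GHolds_unique {M : Type} {R : LStr M} {A A' : AStr M} (h : Gm.Holds R A)
    (h' : Gm.Holds R A') : A = A' := by
  obtain ⟨z, s, a, m⟩ := A
  obtain ⟨z', s', a', m'⟩ := A'
  have e1 : z = z' := by
    have h1 := h.1 (fun _ => z)
    have h2 := h'.1 (fun _ => z)
    exact (h1.symm.trans h2).1 rfl
  have e2 : s = s' := by
    funext x
    have h1 := h.2.1 (fun i => if i = 0 then x else s x)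
    have h2 := h'.2.1 (fun i => if i = 0 then x else s x)
    have := (h1.symm.trans h2).1 (by simp)
    simpa using this
  have e3 : a = a' := by
    funext x y
    have h1 := h.2.2.1 (fun i => if i = 0 then x else if i = 1 then y else a x y)
    have h2 := h'.2.2.1 (fun i => if i = 0 then x else if i = 1 then y else a x y)
    have := (h1.symm.trans h2).1 (by simp)
    simpa using this
  have e4 : m = m' := by
    funext x y
    have h1 := h.2.2.2 (fun i => if i = 0 then x else if i = 1 then y else m x y)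
    have h2 := h'.2.2.2 (fun i => if i = 0 then x else if i = 1 then y else m x y)
    have := (h1.symm.trans h2).1 (by simp)
    simpa using this
  subst e1 e2 e3 e4
  rfl

/-! ### The finite part of `T` -/

/-- The axioms of `PA` other than induction. -/
def PAminus {M : Type} (A : AStr M) : Prop :=
  (∀ x, A.succ x ≠ A.zero) ∧ (∀ x y, A.succ x = A.succ y → x = y) ∧
  (∀ x, A.add x A.zero = x) ∧ (∀ x y, A.add x (A.succ y) = A.succ (A.add x y)) ∧
  (∀ x, A.mul x A.zero = A.zero) ∧ (∀ x y, A.mul x (A.succ y) = A.add (A.mul x y) x)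

theorem ua_PAminus : UA (fun _ A _ => PAminus A) := by
  have h1 := ((UA.eq (.succ (.var 0)) .zero).not).all 0
  have h2 := (((UA.eq (.succ (.var 0)) (.succ (.var 1))).imp (UA.eq (.var 0) (.var 1))).all 1).all 0
  have h3 := (UA.eq (.add (.var 0) .zero) (.var 0)).all 0
  have h4 := ((UA.eq (.add (.var 0) (.succ (.var 1))) (.succ (.add (.var 0) (.var 1)))).all 1).all 0
  have h5 := (UA.eq (.mul (.var 0) .zero) .zero).all 0
  have h6 := ((UA.eq (.mul (.var 0) (.succ (.var 1)))
    (.add (.mul (.var 0) (.var 1)) (.var 0))).all 1).all 0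
  refine (h1.and (h2.and (h3.and (h4.and (h5.and h6))))).congr fun M A v => ?_
  simp only [Tm.val, update_self, ne_eq, zero_ne_one, not_false_eq_true, update_of_ne, PAminus]

/-- The part of `PA ∪ Δ` that is expressed by one sentence. -/
def PreT {M : Type} (A : AStr M) (R : LStr M) : Prop :=
  PAminus A ∧ ∀ k < 5, ∀ w : ℕ → M, (R k (w 0) (w 1) ↔ satA A (dlt k) w)

theorem uc_of_UA {S : ∀ M : Type, AStr M → (ℕ → M) → Prop} (h : UA S) :
    UC GCtx (fun M A _ v => S M A v) := by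
  obtain ⟨φ, hφ⟩ := h
  exact (uc_of_A φ).congr fun M A R v _ => hφ M A v

theorem uc_PreT : UC GCtx (fun _ A R _ => PreT A R) := by
  have h1 : ∀ n, UC GCtx (fun M A R _ => ∀ k < n, ∀ w : ℕ → M,
      (R k (w 0) (w 1) ↔ satA A (dlt k) w)) := by
    intro n
    induction n with
    | zero => exact UC.true.congr fun _ _ _ _ _ => by simp
    | succ n ih =>
      have h := (((UC.rel n 0 1).iff (uc_of_A (dlt n))).all 1).all 0
      refine (ih.and h).congr fun M A R v hK => ?_
      simp only [update_self, ne_eq, zero_ne_one, not_false_eq_true, update_of_ne]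
      have key : (∀ x y, R n x y ↔ satA A (dlt n) (update (update v 0 x) 1 y)) ↔
          ∀ w : ℕ → M, R n (w 0) (w 1) ↔ satA A (dlt n) w := by
        constructor
        · intro h w
          rw [h]
          refine satA_congr A _ fun k hk => ?_
          have := free_dlt n k hk
          interval_cases k <;> simp
        · intro h x y
          have := h (update (update v 0 x) 1 y)
          simpa using this
      rw [key]
      constructor
      · rintro ⟨h1, h2⟩ k hk
        rcases Nat.lt_succ_iff_lt_or_eq.1 hk with hk | rfl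
        · exact h1 k hk
        · exact h2
      · intro h
        exact ⟨fun k hk => h k (by omega), h n (by omega)⟩
  exact (uc_of_UA ua_PAminus).and (h1 5)

/-- The trivial class. -/
def TCtx (M : Type) (_ : AStr M) (_ : LStr M) : Prop := True

/-- `Γ` defines an `L_A`-structure. -/
theorem uc_fun : UC TCtx (fun M _ R _ => ∃ A : AStr M, Gm.Holds R A) := by
  obtain ⟨w0, w1, w2, w3⟩ := wf_Gm
  have s0 : UC TCtx (fun M A R v => satL R Gm.zero v) := ⟨_, fun _ _ _ _ _ => Iff.rfl⟩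
  have s1 : UC TCtx (fun M A R v => satL R Gm.succ v) := ⟨_, fun _ _ _ _ _ => Iff.rfl⟩
  have s2 : UC TCtx (fun M A R v => satL R Gm.add v) := ⟨_, fun _ _ _ _ _ => Iff.rfl⟩
  have s3 : UC TCtx (fun M A R v => satL R Gm.mul v) := ⟨_, fun _ _ _ _ _ => Iff.rfl⟩
  have a0 := (((s0.ren (rn [0])).and ((s0.ren (rn [1])).imp (UC.eq 1 0) |>.all 1))).ex 0
  have a1 := (((s1.ren (rn [0, 1])).and ((s1.ren (rn [0, 2])).imp (UC.eq 2 1) |>.all 2))).ex 1
    |>.all 0
  have a2 := (((s2.ren (rn [0, 1, 2])).and ((s2.ren (rn [0, 1, 3])).imp (UC.eq 3 2) |>.all 3))).ex 2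
    |>.all 1 |>.all 0
  have a3 := (((s3.ren (rn [0, 1, 2])).and ((s3.ren (rn [0, 1, 3])).imp (UC.eq 3 2) |>.all 3))).ex 2
    |>.all 1 |>.all 0
  refine (((a0.and a1).and a2).and a3).congr fun M A R v _ => ?_
  have c0 : ∀ v w : ℕ → M, v 0 = w 0 → (satL R Gm.zero v ↔ satL R Gm.zero w) := fun v w h =>
    satL_congr R _ fun k hk => by
      have := w0 k hk; interval_cases k; exact h
  have c1 : ∀ v w : ℕ → M, v 0 = w 0 → v 1 = w 1 → (satL R Gm.succ v ↔ satL R Gm.succ w) :=
    fun v w h h' => satL_congr R _ fun k hk => by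
      have := w1 k hk; interval_cases k; exacts [h, h']
  have c2 : ∀ v w : ℕ → M, v 0 = w 0 → v 1 = w 1 → v 2 = w 2 →
      (satL R Gm.add v ↔ satL R Gm.add w) :=
    fun v w h h' h'' => satL_congr R _ fun k hk => by
      have := w2 k hk; interval_cases k; exacts [h, h', h'']
  have c3 : ∀ v w : ℕ → M, v 0 = w 0 → v 1 = w 1 → v 2 = w 2 →
      (satL R Gm.mul v ↔ satL R Gm.mul w) :=
    fun v w h h' h'' => satL_congr R _ fun k hk => by
      have := w3 k hk; interval_cases k; exacts [h, h', h'']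
  constructor
  · rintro ⟨⟨⟨h0, h1⟩, h2⟩, h3⟩
    obtain ⟨z, hz, hz'⟩ := h0
    choose s hs hs' using h1
    choose a ha ha' using h2
    choose m hm hm' using h3
    simp only [comp_apply, rn, update_self, ne_eq, Nat.reduceEqDiff, not_false_eq_true,
      update_of_ne, OfNat.ofNat_ne_zero, OfNat.zero_ne_ofNat, OfNat.ofNat_ne_one,
      OfNat.one_ne_ofNat, zero_ne_one, one_ne_zero] at hz' hs' ha' hm'
    refine ⟨⟨z, s, a, m⟩, ⟨fun v' => ⟨fun h => ?_, fun h => ?_⟩, fun v' => ⟨fun h => ?_, fun h => ?_⟩,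
      fun v' => ⟨fun h => ?_, fun h => ?_⟩, fun v' => ⟨fun h => ?_, fun h => ?_⟩⟩⟩
    · exact hz' _ ((c0 _ _ (by simp [rn])).1 h)
    · exact (c0 _ _ (by simp [rn, h])).1 hz
    · exact hs' _ _ ((c1 _ _ (by simp [rn]) (by simp [rn])).1 h)
    · exact (c1 _ _ (by simp [rn]) (by simp [rn, h])).1 (hs (v' 0))
    · exact ha' _ _ _ ((c2 _ _ (by simp [rn]) (by simp [rn]) (by simp [rn])).1 h)
    · exact (c2 _ _ (by simp [rn]) (by simp [rn]) (by simp [rn, h])).1 (ha (v' 0) (v' 1))
    · exact hm' _ _ _ ((c3 _ _ (by simp [rn]) (by simp [rn]) (by simp [rn])).1 h)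
    · exact (c3 _ _ (by simp [rn]) (by simp [rn]) (by simp [rn, h])).1 (hm (v' 0) (v' 1))
  · rintro ⟨B, hB0, hB1, hB2, hB3⟩
    refine ⟨⟨⟨⟨B.zero, ?_, fun y hy => ?_⟩, fun x => ⟨B.succ x, ?_, fun y hy => ?_⟩⟩,
      fun x y => ⟨B.add x y, ?_, fun z hz => ?_⟩⟩, fun x y => ⟨B.mul x y, ?_, fun z hz => ?_⟩⟩
    · rw [hB0]; simp [rn]
    · rw [hB0] at hy; simpa [rn] using hy
    · rw [hB1]; simp [rn]
    · rw [hB1] at hy; simpa [rn] using hy
    · rw [hB2]; simp [rn]
    · rw [hB2] at hz; simpa [rn] using hz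
    · rw [hB3]; simp [rn]
    · rw [hB3] at hz; simpa [rn] using hz

/-- The finite part of `T`. -/
theorem exists_tau : ∃ τ : LFml, (∀ k, ¬ freeL τ k) ∧ ∀ (M : Type) (R : LStr M) (v : ℕ → M),
    satL R τ v ↔ ∃ A : AStr M, Gm.Holds R A ∧ PreT A R := by
  obtain ⟨σ, hσ⟩ := uc_PreT
  have hσ' : UC TCtx (fun M A R v => satL R σ v) := ⟨_, fun _ _ _ _ _ => Iff.rfl⟩
  obtain ⟨τ, h1, h2⟩ := (UC.congr (uc_fun.and hσ')
    (T := fun M A R v => ∃ A : AStr M, Gm.Holds R A ∧ PreT A R) (fun M A R v _ => by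
      constructor
      · rintro ⟨⟨A, hA⟩, h⟩
        exact ⟨A, hA, (hσ M A R hA v).1 h⟩
      · rintro ⟨A, hA, h⟩
        exact ⟨⟨A, hA⟩, (hσ M A R hA v).2 h⟩)).exists_free 0 (fun _ _ _ _ _ _ _ => Iff.rfl)
  refine ⟨τ, fun k hk => absurd (h1 k hk) (by omega), fun M R v => ?_⟩
  exact h2 M ⟨v 0, fun _ => v 0, fun _ _ => v 0, fun _ _ => v 0⟩ R trivial v

end H97.PAS
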