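import Pool.Agent.Helper97.PAS.Theory

/-!
# The theory `T` is definitionally equivalent to `PA`
-/

set_option linter.unusedSimpArgs false

namespace H97.PAS

open Function

/-- `∀ v_1 ψ`: the variable `v_1` is not free. -/
def star (ψ : LFml) : LFml := .all 1 ψ

/-- Induction on `v_0` for `∀ v_1 ψ`, as a formula. -/
noncomputable def indBody (ψ : LFml) : LFml :=
  .imp (.all 0 (.imp Gm.zero (star ψ)))
    (.imp (.all 0 (.all 1 (.imp (star ψ) (.imp Gm.succ (.all 0 (.imp (.atom (0, 0, 1)) (star ψ)))))))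
      (.all 0 (star ψ)))

/-- The induction axiom. -/
noncomputable def IndL (ψ : LFml) : LFml := Fml.closeFrom 0 (code ψ + 2) (indBody ψ)

theorem closed_IndL (ψ : LFml) (k : ℕ) : ¬ freeL (IndL ψ) k := by
  intro hk
  obtain ⟨h1, h2⟩ := (Fml.free_closeFrom 0 _ _ k).1 hk
  have hf : freeL ψ k → k < code ψ := freeL_lt_code ψ k
  have g0 := wf_Gm.1 k
  have g1 := wf_Gm.2.1 k
  unfold freeL at hf g0 g1
  have h3 : k < code ψ + 2 := by
    simp only [indBody, star, Fml.free_imp, Fml.free_all, Fml.free_atom] at h2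
    rcases h2 with (⟨_, h2 | ⟨_, h2⟩⟩ | ⟨_, _, (⟨_, h2⟩ | h2 | ⟨_, (h2 | h2) | ⟨_, h2⟩⟩)⟩ |
      ⟨_, _, h2⟩)
    · have := g0 h2; omega
    · have := hf h2; omega
    · have := hf h2; omega
    · have := g1 h2; omega
    · omega
    · omega
    · have := hf h2; omega
    · have := hf h2; omega
  omega

theorem sat_IndL {M : Type} {A : AStr M} {R : LStr M} (hG : Gm.Holds R A) (ψ : LFml)
    (v : ℕ → M) : satL R (IndL ψ) v ↔ ∀ w : ℕ → M,
      satL R (star ψ) (update w 0 A.zero) →
      (∀ x, satL R (star ψ) (update w 0 x) → satL R (star ψ) (update w 0 (A.succ x))) →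
      ∀ x, satL R (star ψ) (update w 0 x) := by
  have hstar : ∀ w w' : ℕ → M, (∀ k ≠ 1, w k = w' k) → (satL R (star ψ) w ↔ satL R (star ψ) w') := by
    intro w w' h
    refine satL_congr R _ fun k hk => h k hk.1
  have hbody : ∀ w : ℕ → M, satL R (indBody ψ) w ↔ (satL R (star ψ) (update w 0 A.zero) →
      (∀ x, satL R (star ψ) (update w 0 x) → satL R (star ψ) (update w 0 (A.succ x))) →
      ∀ x, satL R (star ψ) (update w 0 x)) := by
    intro w
    have e1 : satL R (.all 0 (.imp Gm.zero (star ψ))) w ↔ satL R (star ψ) (update w 0 A.zero) := by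
      rw [satL_all]
      simp only [satL_imp, hG.1, update_self]
      constructor
      · intro h; exact h _ rfl
      · rintro h x rfl; exact h
    have e2 : satL R (.all 0 (.all 1 (.imp (star ψ) (.imp Gm.succ
        (.all 0 (.imp (.atom (0, 0, 1)) (star ψ))))))) w ↔
        ∀ x, satL R (star ψ) (update w 0 x) → satL R (star ψ) (update w 0 (A.succ x)) := by
      simp only [satL_all, satL_imp, hG.2.1, satL_eq, update_self, ne_eq, one_ne_zero,
        zero_ne_one, not_false_eq_true, update_of_ne]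
      constructor
      · intro h x hx
        have := h x (A.succ x) ((hstar _ _ fun k hk => by rw [update_of_ne hk]).1 hx) rfl
          (A.succ x) rfl
        refine (hstar _ _ fun k hk => ?_).1 this
        by_cases h0 : k = 0
        · subst h0; simp
        · rw [update_of_ne h0, update_of_ne hk, update_of_ne h0, update_of_ne h0]
      · rintro h x y hx rfl z rfl
        refine (hstar _ _ fun k hk => ?_).1 (h x ((hstar _ _ fun k hk => ?_).1 hx))
        · by_cases h0 : k = 0
          · subst h0; simp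
          · rw [update_of_ne h0, update_of_ne h0, update_of_ne hk, update_of_ne h0]
        · rw [update_of_ne hk]
    have e3 : satL R (indBody ψ) w ↔ (satL R (.all 0 (.imp Gm.zero (star ψ))) w →
      satL R (.all 0 (.all 1 (.imp (star ψ) (.imp Gm.succ
        (.all 0 (.imp (.atom (0, 0, 1)) (star ψ))))))) w → satL R (.all 0 (star ψ)) w) := Iff.rfl
    rw [e3, e1, e2, satL_all]
  have h0 : satL R (IndL ψ) v ↔ ∀ w : ℕ → M, (∀ k, (k < 0 ∨ 0 + (code ψ + 2) ≤ k) → w k = v k) →
      satL R (indBody ψ) w := Fml.sat_closeFrom 0 (code ψ + 2) (indBody ψ) v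
  rw [h0]
  constructor
  · intro h w
    rw [← hbody w]
    have h1 := h (fun k => if k < code ψ + 2 then w k else v k) (fun k hk => by
      have : ¬ k < code ψ + 2 := by omega
      simp [this])
    refine (satL_congr R _ fun k hk => ?_).1 h1
    have hk' : k < code ψ + 2 := by
      by_contra hcon
      exact closed_IndL ψ k ((Fml.free_closeFrom 0 _ _ k).2 ⟨by omega, hk⟩)
    simp [hk']
  · intro h w _
    exact (hbody w).2 (h w)

/-- The formula `v_0 = n`. -/
noncomputable def NumL : ℕ → LFml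
  | 0 => Gm.zero
  | n + 1 => .ex 1 (.and (.atom (0, 1, 0)) (.ex 0 (.and (NumL n) Gm.succ)))

theorem free_NumL (n k : ℕ) (h : freeL (NumL n) k) : k < 1 := by
  induction n with
  | zero => exact wf_Gm.1 k h
  | succ n ih =>
    have h' : k ≠ 1 ∧ ((k = 1 ∨ k = 0) ∨ (k ≠ 0 ∧ (freeL (NumL n) k ∨ freeL Gm.succ k))) := by
      unfold freeL at h ⊢
      simpa only [NumL, Fml.free_ex, Fml.free_and, Fml.free_atom] using h
    rcases h' with ⟨h1, (h2 | h2) | ⟨h2, h3 | h3⟩⟩
    · omega
    · omega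
    · exact ih h3
    · have := wf_Gm.2.1 k h3; omega

theorem sat_NumL {M : Type} {A : AStr M} {R : LStr M} (hG : Gm.Holds R A) (n : ℕ) :
    ∀ v : ℕ → M, satL R (NumL n) v ↔ v 0 = num A n := by
  induction n with
  | zero => intro v; exact hG.1 v
  | succ n ih =>
    intro v
    simp only [NumL, satL_ex, satL_and, satL_eq, ih, hG.2.1, update_self, ne_eq, one_ne_zero,
      zero_ne_one, not_false_eq_true, update_of_ne]
    constructor
    · rintro ⟨y, rfl, x, rfl, h⟩
      rw [h, num, num, iterate_succ', comp_apply]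
    · intro h
      exact ⟨_, rfl, _, rfl, by rw [h, num, num, iterate_succ', comp_apply]⟩

/-- The pattern formula, translated. -/
theorem exists_phi (φ₀ : AFml) (hφ : ∀ k, freeA φ₀ k → k < 1) : ∃ ψ : LFml,
    (∀ k, freeL ψ k → k < 1) ∧ ∀ (M : Type) (A : AStr M) (R : LStr M), Gm.Holds R A → ∀ v,
      (satL R ψ v ↔ satA A φ₀ v) :=
  (uc_of_A φ₀).exists_free 1 (fun _ A _ _ _ _ h => satA_congr A φ₀ fun k hk => h k (hφ k hk))

/-- The axiom defining `R_{n+5}`. -/
noncomputable def PatL (ψ : LFml) (n : ℕ) : LFml :=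
  .all 0 (.all 1 (.iff (.atom (n + 5 + 1, 0, 1)) (.all 0 (.imp (NumL n) ψ))))

theorem closed_PatL {ψ : LFml} (hψ : ∀ k, freeL ψ k → k < 1) (n k : ℕ) :
    ¬ freeL (PatL ψ n) k := by
  intro h
  have h' : k ≠ 0 ∧ k ≠ 1 ∧ ((k = 0 ∨ k = 1) ∨ (k ≠ 0 ∧ (freeL (NumL n) k ∨ freeL ψ k))) := by
    unfold freeL at h ⊢
    simpa only [PatL, Fml.free_all, Fml.free_iff, Fml.free_imp, Fml.free_atom] using h
  rcases h' with ⟨h0, h1, h2 | ⟨h2, h3 | h3⟩⟩
  · omega
  · have := free_NumL n k h3; omega
  · have := hψ k h3; omega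

theorem sat_PatL {φ₀ : AFml} {ψ : LFml} (hψ : ∀ k, freeL ψ k → k < 1)
    (hφψ : ∀ (M : Type) (A : AStr M) (R : LStr M), Gm.Holds R A → ∀ v,
      (satL R ψ v ↔ satA A φ₀ v)) {M : Type} {A : AStr M} {R : LStr M} (hG : Gm.Holds R A)
    (n : ℕ) (v : ℕ → M) : satL R (PatL ψ n) v ↔ ∀ x y, R (n + 5) x y ↔ pat φ₀ A n := by
  have h1 : ∀ w : ℕ → M, (∀ z, z = num A n → satL R ψ (update w 0 z)) ↔ pat φ₀ A n := by
    intro w
    have h2 : satL R ψ (update w 0 (num A n)) ↔ pat φ₀ A n := by
      rw [pat, ← hφψ M A R hG]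
      refine satL_congr R ψ fun k hk => ?_
      have := hψ k hk
      interval_cases k
      simp
    constructor
    · intro h; exact h2.1 (h _ rfl)
    · rintro h z rfl; exact h2.2 h
  simp only [PatL, satL_all, satL_iff, satL_imp, satL_rel, sat_NumL hG, update_self, h1,
    ne_eq, one_ne_zero, zero_ne_one, not_false_eq_true, update_of_ne]

/-- **The theory `T`.** -/
noncomputable def Th (ψ : LFml) : Set LFml :=
  {exists_tau.choose} ∪ Set.range IndL ∪ Set.range (PatL ψ)

theorem closed_Th {ψ : LFml} (hψ : ∀ k, freeL ψ k → k < 1) :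
    ∀ φ ∈ Th ψ, ∀ k, ¬ freeL φ k := by
  rintro φ ((rfl | ⟨χ, rfl⟩) | ⟨n, rfl⟩) k
  · exact exists_tau.choose_spec.1 k
  · exact closed_IndL χ k
  · exact closed_PatL hψ n k

theorem sat_tau (M : Type) (R : LStr M) (v : ℕ → M) :
    satL R exists_tau.choose v ↔ ∃ A : AStr M, Gm.Holds R A ∧ PreT A R :=
  exists_tau.choose_spec.2 M R v

/-- Under `Δ`, `L`-formulas can be translated into `L_A`-formulas. -/
theorem transL (φ₀ : AFml) (ψ : LFml) : ∃ φ : AFml,
    ∀ (M : Type) (A : AStr M) (R : LStr M), DHolds (Dl φ₀) A R → ∀ v,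
      (satA A φ v ↔ satL R ψ v) := by
  induction ψ with
  | atom a =>
    obtain ⟨n, i, j⟩ := a
    cases n with
    | zero => exact ⟨.atom (.var i, .var j), fun M A R _ v => Iff.rfl⟩
    | succ n =>
      obtain ⟨φ, hφ'⟩ := renA (Dl φ₀ n) (rn [i, j])
      refine ⟨φ, fun M A R hD v => ?_⟩
      rw [hφ', ← hD n]
      exact Iff.rfl
  | bot => exact ⟨.bot, fun _ _ _ _ _ => Iff.rfl⟩
  | imp φ ψ ih₁ ih₂ =>
    obtain ⟨a, ha⟩ := ih₁
    obtain ⟨b, hb⟩ := ih₂
    exact ⟨.imp a b, fun M A R hD v => imp_congr (ha M A R hD v) (hb M A R hD v)⟩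
  | all i φ ih =>
    obtain ⟨a, ha⟩ := ih
    exact ⟨.all i a, fun M A R hD v => forall_congr' fun x => ha M A R hD _⟩

/-- **`T` is definitionally equivalent to `PA`.** -/
theorem defEquiv {φ₀ : AFml} (hφ : ∀ k, freeA φ₀ k → k < 1) {ψ : LFml}
    (hψ : ∀ k, freeL ψ k → k < 1)
    (hφψ : ∀ (M : Type) (A : AStr M) (R : LStr M), Gm.Holds R A → ∀ v,
      (satL R ψ v ↔ satA A φ₀ v)) : DefEquiv (Th ψ) Gm (Dl φ₀) where
  wfΓ := wf_Gm
  wfΔ := wf_Dl hφ
  total := by
    intro M _ R h
    obtain ⟨A, hA, _⟩ := (sat_tau M R (fun _ => Classical.arbitrary M)).1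
      (h _ (Or.inl (Or.inl rfl)) _)
    exact ⟨A, hA⟩
  same := by
    intro M A R
    constructor
    · rintro ⟨hT, hG⟩
      obtain ⟨A', hA', hP⟩ := (sat_tau M R (fun _ => A.zero)).1 (hT _ (Or.inl (Or.inl rfl)) _)
      obtain rfl := GHolds_unique hG hA'
      obtain ⟨⟨p1, p2, p3, p4, p5, p6⟩, hk⟩ := hP
      have hind : ∀ (χ : LFml) (w : ℕ → M), satL R (star χ) (update w 0 A.zero) →
          (∀ x, satL R (star χ) (update w 0 x) → satL R (star χ) (update w 0 (A.succ x))) →
          ∀ x, satL R (star χ) (update w 0 x) := fun χ =>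
        (sat_IndL hG χ (fun _ => A.zero)).1 (hT _ (Or.inl (Or.inr ⟨χ, rfl⟩)) _)
      refine ⟨⟨p1, p2, p3, p4, p5, p6, ?_⟩, ?_⟩
      · intro φ i v
        obtain ⟨φ', hφ'⟩ := uc_of_A φ
        obtain ⟨χ, hχ⟩ := renL φ' (fun j => if j = i then 0 else j + 2)
        have key : ∀ x, satL R (star χ) (update (fun k => v (k - 2)) 0 x) ↔
            satA A φ (update v i x) := by
          intro x
          refine Iff.trans ?_ (hφ' M A R hG (update v i x))
          have h1 : ∀ y, satL R χ (update (update (fun k => v (k - 2)) 0 x) 1 y) ↔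
              satL R φ' (update v i x) := by
            intro y
            rw [hχ]
            have : update (update (fun k => v (k - 2)) 0 x) 1 y ∘
                (fun j => if j = i then 0 else j + 2) = update v i x := by
              funext j
              simp only [comp_apply]
              by_cases hj : j = i
              · subst hj; simp
              · simp [hj]
            rw [this]
          rw [star, satL_all]
          simp only [h1]
          exact ⟨fun h => h A.zero, fun h _ => h⟩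
        intro h0 hs x
        rw [← key]
        refine hind χ _ ((key _).2 h0) (fun x hx => (key _).2 (hs x ((key x).1 hx))) x
      · intro n v
        by_cases hn : n < 5
        · rw [Dl, if_pos hn]; exact hk n hn v
        · obtain ⟨m, rfl⟩ : ∃ m, n = m + 5 := ⟨n - 5, by omega⟩
          rw [sat_Dl_pat hφ]
          exact (sat_PatL hψ hφψ hG m (fun _ => A.zero)).1 (hT _ (Or.inr ⟨m, rfl⟩) _) _ _
    · rintro ⟨hA, hD⟩
      have hK : KCtx M A R := ⟨hA, pat φ₀ A, (DHolds_iff hφ hA).1 hD⟩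
      have hG : Gm.Holds R A := Gm_holds hK
      refine ⟨?_, hG⟩
      rintro φ ((rfl | ⟨χ, rfl⟩) | ⟨n, rfl⟩) v
      · refine (sat_tau M R v).2 ⟨A, hG, ⟨hA.succ_ne_zero, hA.succ_inj, hA.add_zero, hA.add_succ,
          hA.mul_zero, hA.mul_succ⟩, fun k hk w => ?_⟩
        have := hD k w
        rwa [Dl, if_pos hk] at this
      · rw [sat_IndL hG]
        intro w
        obtain ⟨φ', hφ'⟩ := transL φ₀ (star χ)
        have := hA.ind φ' 0 w
        simp only [hφ' M A R hD] at this
        exact this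
      · rw [sat_PatL hψ hφψ hG]
        intro x y
        have := hD (n + 5) (fun i => if i = 0 then x else y)
        rw [sat_Dl_pat hφ] at this
        simpa using this

end H97.PAS
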